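import Pool.Agent.Mon.Proj

/-!
# Project Mon, module Fam: bounded overlap implies small projections and the Behrstock inequality

Let `A, B` be `κ`-quasiconvex, `c = cK κ D`, `r = c + D + κ`; suppose that
`ds a a' ≤ Δ` for all `a, a' ∈ A`, `b, b' ∈ B` with `ds a b ≤ r`, `ds a' b' ≤ r`.
`fam_diam`: let `b, b' ∈ B` with `dP A b b' > c`.  Take `p, q` from `loc0` (`u = b`, `v = b'`), and
`z₁, z₂` between `b` and `b'` with `ds b z₁ = dA A b`, `ds z₂ b' = dA A b'` (they exist by `dP_pass`: both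
distances are at most `ds b b'`; `exists_btw`, for `z₂` use symmetry).  `ds z₁ p ≤ c + D`,
`ds z₂ q ≤ c + D`, and `z₁, z₂` are within `κ` of `B`.  So `ds p q ≤ Δ`.
`fam_beh`: let `θ₁ = max c Δ` (a bound for the diameters of the projections of `B` to `A` and of `A` to
`B`), `θ = θ₁ + c`.  Suppose `dP A x b > θ`.  Let `b* ∈ B` be a nearest point of `x`.  Then
`dP A x b* ≥ dP A x b - θ₁ > c`, so by `dP_pass` `dA A x + dP A x b* ≤ ds x b* + c = dA B x + c`, so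
`dA A x < dA B x`.  Let `a* ∈ A` be a nearest point of `x`: then `dP B x a* ≤ c`, as otherwise
`dA B x + dP B x a* ≤ ds x a* + c = dA A x + c`, `dA B x < dA A x`.  So
`dP B x a ≤ dP B x a* + dP B a* a ≤ c + θ₁`.
-/

namespace Mon

variable {G : Type*} [Group G] {ℓ : G → ℕ} {D κ : ℕ} {A B : Set G}

theorem fam_diam (hl : IsLen ℓ) (hD : Hyp ℓ D) (hA : QC ℓ κ A) (hB : QC ℓ κ B) {Δ : ℕ}
    (hov : ∀ a ∈ A, ∀ a' ∈ A, ∀ b ∈ B, ∀ b' ∈ B, ds ℓ a b ≤ cK κ D + D + κ →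
      ds ℓ a' b' ≤ cK κ D + D + κ → ds ℓ a a' ≤ Δ) {b b' : G} (hb : b ∈ B) (hb' : b' ∈ B) :
    dP ℓ A b b' ≤ max (cK κ D) Δ := by
  by_contra hcon
  have h1 : cK κ D < dP ℓ A b b' := lt_of_le_of_lt (le_max_left _ _) (not_le.1 hcon)
  have h2 : Δ < dP ℓ A b b' := lt_of_le_of_lt (le_max_right _ _) (not_le.1 hcon)
  obtain ⟨p, hp, q, hq, hpq, hz1, hz2⟩ := hA.loc0 hl hD h1
  have h3 := hA.dP_pass hl hD b b' h1
  obtain ⟨z₁, hz₁, hz₁k⟩ := hl.exists_btw b b' (k := dA ℓ A b) (by omega)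
  obtain ⟨z₂, hz₂, hz₂k⟩ := hl.exists_btw b b' (k := ds ℓ b b' - dA ℓ A b') (by omega)
  have hz₂' : ds ℓ z₂ b' = dA ℓ A b' := by unfold Btw at hz₂; omega
  have e1 := hz1 z₁ hz₁ hz₁k
  have e2 := hz2 z₂ hz₂ hz₂'
  obtain ⟨b₁, hb₁, hb₁k⟩ := hB.qc b hb b' hb' z₁ hz₁
  obtain ⟨b₂, hb₂, hb₂k⟩ := hB.qc b hb b' hb' z₂ hz₂
  have f1 := hl.ds_tri p z₁ b₁
  have f2 := hl.ds_tri q z₂ b₂
  have g1 := hl.ds_comm p z₁
  have g2 := hl.ds_comm q z₂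
  have := hov p hp.1 q hq.1 b₁ hb₁ b₂ hb₂ (by omega) (by omega)
  omega

theorem fam_beh (hl : IsLen ℓ) (hD : Hyp ℓ D) (hA : QC ℓ κ A) (hB : QC ℓ κ B) {θ₁ : ℕ}
    (hc : cK κ D ≤ θ₁) (hAB : ∀ b ∈ B, ∀ b' ∈ B, dP ℓ A b b' ≤ θ₁)
    (hBA : ∀ a ∈ A, ∀ a' ∈ A, dP ℓ B a a' ≤ θ₁) {a b : G} (ha : a ∈ A) (hb : b ∈ B) (x : G) :
    dP ℓ A x b ≤ θ₁ + cK κ D ∨ dP ℓ B x a ≤ θ₁ + cK κ D := by
  by_cases h : dP ℓ A x b ≤ θ₁ + cK κ D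
  · exact Or.inl h
  · right
    obtain ⟨b₁, hb₁, hb₁k⟩ := dA_att (ℓ := ℓ) hB.ne x
    obtain ⟨a₁, ha₁, ha₁k⟩ := dA_att (ℓ := ℓ) hA.ne x
    have h1 := dP_tri hA.ne hl x b₁ b
    have h2 := hAB b₁ hb₁ b hb
    have h3 := hA.dP_pass hl hD x b₁ (by omega)
    have h4 := dP_tri hB.ne hl x a₁ a
    have h5 := hBA a₁ ha₁ a ha
    have h6 : dP ℓ B x a₁ ≤ cK κ D := by
      by_contra h7
      have h8 := hB.dP_pass hl hD x a₁ (by omega)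
      omega
    omega

end Mon
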