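import Pool.Agent.Mon.Comm
import Pool.Agent.Mon.Fam

/-!
# Project Mon, module Ax0: the family of axes, definitions

`W` is a set of elements of `G` (the orbit of an element `w` under the permutations of the letters).
`Ax W` is the set of the conjugates of the cyclic groups `⟨w⟩`, `w ∈ W`; `G` acts by conjugation;
`axS A = {h | ∃ w ∈ W, A = h ⟨w⟩ h⁻¹}` is the axis of `A`; `axR N A` is the group of the `N`-th
powers of the elements of `A`.
-/

namespace Mon

variable {G : Type*} [Group G]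

/-- The conjugate `g C g⁻¹`. -/
def cj (g : G) (C : Subgroup G) : Subgroup G := C.map (MulAut.conj g).toMonoidHom

theorem mem_cj {g : G} {C : Subgroup G} {x : G} : x ∈ cj g C ↔ g⁻¹ * x * g ∈ C := by
  unfold cj
  rw [Subgroup.mem_map]
  constructor
  · rintro ⟨y, hy, rfl⟩
    have : g⁻¹ * (MulAut.conj g).toMonoidHom y * g = y := by
      simp [MulAut.conj_apply, mul_assoc]
    rw [this]; exact hy
  · intro h
    refine ⟨_, h, ?_⟩
    simp [MulAut.conj_apply, mul_assoc]

theorem cj_cj (g h : G) (C : Subgroup G) : cj g (cj h C) = cj (g * h) C := by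
  ext x
  simp only [mem_cj, mul_inv_rev, mul_assoc]

theorem cj_one (C : Subgroup G) : cj 1 C = C := by
  ext x
  simp [mem_cj]

/-- The family of the conjugates of the cyclic groups generated by the elements of `W`. -/
def Ax (W : Set G) : Type _ := {C : Subgroup G // ∃ g, ∃ w ∈ W, C = cj g (Subgroup.zpowers w)}

instance (W : Set G) : MulAction G (Ax W) where
  smul g A := ⟨cj g A.1, by
    obtain ⟨h, w, hw, hA⟩ := A.2
    exact ⟨g * h, w, hw, by rw [hA, cj_cj]⟩⟩
  one_smul A := Subtype.ext (cj_one A.1)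
  mul_smul g h A := Subtype.ext (cj_cj g h A.1).symm

theorem Ax.smul_val {W : Set G} (g : G) (A : Ax W) : (g • A).1 = cj g A.1 := rfl

/-- The axis. -/
def axS (W : Set G) (A : Ax W) : Set G := {h | ∃ w ∈ W, A.1 = cj h (Subgroup.zpowers w)}

/-- The stabiliser. -/
def axC (W : Set G) (A : Ax W) : Subgroup G := A.1

/-- The rotation group. -/
def axR (W : Set G) (N : ℕ) (A : Ax W) : Subgroup G := Subgroup.closure {x | ∃ y ∈ A.1, x = y ^ N}

/-- The hypotheses on the set `W`. -/
structure AxHyp (ℓ : G → ℕ) (D : ℕ) (W : Set G) (f : ℕ → ℕ) (e : ℕ) : Prop where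
  len : IsLen ℓ
  hyp : Hyp ℓ D
  up : UP ℓ
  ne : W.Nonempty
  f_eq : ∀ w ∈ W, ∀ n : ℕ, ℓ (w ^ n) = f n
  ql : QL f e
  unb : Unb f
  me : ∀ w ∈ W, ∀ s : ℕ, 0 < s → ∀ g, g * w ^ s = w ^ s * g → g ∈ Subgroup.zpowers w
  norev : ∀ w ∈ W, ∀ g, g * w * g⁻¹ ≠ w⁻¹

end Mon
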