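import Pool.Agent.Mon.Ax0

/-!
# Project Mon, module Ax1: elementary properties of the family of axes

Let `κ = f 1 + e + D` (`f 1 = ℓ w` for `w ∈ W`), `c₀ = cK κ D`.
`ax_len`: `ℓ (w^k) = f |k|`.
`ax_inj`: `w ∈ W` has infinite order (`f` is unbounded).
`axS_smul`: `A = h ⟨w⟩ h⁻¹` iff `g • A = (g h) ⟨w⟩ (g h)⁻¹`.
`axS_mul`: for `h ∈ axS A`, `y ∈ A` also `y h ∈ axS A` (`A` is commutative, so `cj y A = A`).
`ax_coset`: for `h ∈ axS A`, `w ∈ W`, `A = h ⟨w⟩ h⁻¹`: every `y ∈ A` is `h w^k h⁻¹`, so `y h = h w^k`.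
`ax_par`: let `h, q ∈ axS A`, `A = h ⟨w⟩ h⁻¹ = q ⟨w'⟩ q⁻¹`; `x = h w h⁻¹` is a generator of the infinite
cyclic group `A`, so is `q w' q⁻¹`; so `x = q (w')^(±1) q⁻¹` and `ds q (x^k q) = ℓ (q⁻¹ x^k q) = f k`.
By `parallel` there is `j` with `2 ds q (h w^j) ≤ c₀`.
`ax_qc`: `axS A` is `(κ + c₀ + D)`-quasiconvex: let `p, q ∈ axS A`, `z` between them.  Let
`B = {y p | y ∈ A} = p ⟨w⟩ ⊆ axS A` be the coset of `p` (it is `κ`-quasiconvex, `qc_zpowers` and `QC.smul`), let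
`q₁ ∈ B` with `2 ds q q₁ ≤ c₀` (`ax_par`), let `z₁` be between `p` and `q₁` with
`ds p z₁ = min (ds p z) (ds p q₁)`.  By `Hyp.P` for `z` (between `p` and `q`) and the point `z₁`:
`ds z z₁ + ds z p ≤ ds z₁ p + D ≤ ds z p + D` or `ds z z₁ + ds z q ≤ ds z₁ q + D`, where
`2 ds z₁ q ≤ 2 ds z₁ q₁ + c₀` and `ds z₁ q₁ = ds p q₁ - ds p z₁`, which is
`≤ ds p q + c₀/2 - ds p z = ds z q + c₀/2` or `0`.  So `ds z z₁ ≤ c₀ + D`, and `z₁` is within `κ` of `B`.
`ax_stab`: if `cj g A = A`, `A = h ⟨w⟩ h⁻¹`, then `g' = h⁻¹ g h` satisfies `g' ⟨w⟩ g'⁻¹ = ⟨w⟩`, so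
`g' w g'⁻¹ = w` or `w⁻¹` (generators of an infinite cyclic group); the second is excluded by `norev`; the
first gives `g' ∈ ⟨w⟩` (`me`, `s = 1`).  Conversely `A` is commutative.
`ax_trans`: for `y ∈ A` there is `k` such that for all `p ∈ axS A`: `ds p (y p) = f k`
(`y = h w^j h⁻¹`, `k = |j|`; by the remark on the generators in `ax_par` this does not depend on `h`).
`mem_axR`: `axR N A = {y^N | y ∈ A}` (`A` is commutative).
-/

namespace Mon

variable {G : Type*} [Group G] {ℓ : G → ℕ} {D : ℕ} {W : Set G} {f : ℕ → ℕ} {e : ℕ}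

private theorem cj_inj {g : G} {C C' : Subgroup G} (h : cj g C = cj g C') : C = C' := by
  have := congrArg (cj g⁻¹) h
  rwa [cj_cj, cj_cj, inv_mul_cancel, cj_one, cj_one] at this

private theorem cj_self {y : G} {C : Subgroup G} (hy : y ∈ C) : cj y C = C := by
  ext x
  rw [mem_cj]
  constructor
  · intro h
    have := C.mul_mem (C.mul_mem hy h) (C.inv_mem hy)
    rwa [show y * (y⁻¹ * x * y) * y⁻¹ = x by group] at this
  · intro h
    exact C.mul_mem (C.mul_mem (C.inv_mem hy) h) hy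

theorem axS_smul (W : Set G) (g : G) (A : Ax W) (x : G) : g * x ∈ axS W (g • A) ↔ x ∈ axS W A := by
  constructor
  · rintro ⟨w, hw, h⟩
    rw [Ax.smul_val, ← cj_cj] at h
    exact ⟨w, hw, cj_inj h⟩
  · rintro ⟨w, hw, h⟩
    refine ⟨w, hw, ?_⟩
    rw [Ax.smul_val, ← cj_cj, h]

theorem axS_nonempty (W : Set G) (A : Ax W) : (axS W A).Nonempty := by
  obtain ⟨g, w, hw, h⟩ := A.2
  exact ⟨g, w, hw, h⟩

theorem ax_comm (W : Set G) (A : Ax W) {x y : G} (hx : x ∈ A.1) (hy : y ∈ A.1) :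
    x * y = y * x := by
  obtain ⟨g, w, hw, h⟩ := A.2
  rw [h, mem_cj] at hx hy
  obtain ⟨i, hi⟩ := Subgroup.mem_zpowers_iff.1 hx
  obtain ⟨j, hj⟩ := Subgroup.mem_zpowers_iff.1 hy
  have hx' : x = g * w ^ i * g⁻¹ := by rw [hi]; group
  have hy' : y = g * w ^ j * g⁻¹ := by rw [hj]; group
  have hc : w ^ i * w ^ j = w ^ j * w ^ i := by rw [← zpow_add, ← zpow_add, add_comm]
  calc x * y = g * (w ^ i * w ^ j) * g⁻¹ := by rw [hx', hy']; simp only [mul_assoc, inv_mul_cancel_left]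
    _ = g * (w ^ j * w ^ i) * g⁻¹ := by rw [hc]
    _ = y * x := by rw [hx', hy']; simp only [mul_assoc, inv_mul_cancel_left]

theorem axS_mul (W : Set G) (A : Ax W) {h y : G} (hh : h ∈ axS W A) (hy : y ∈ A.1) :
    y * h ∈ axS W A := by
  obtain ⟨w, hw, hA⟩ := hh
  refine ⟨w, hw, ?_⟩
  rw [← cj_cj, ← hA, cj_self hy]

theorem mem_axR (W : Set G) (N : ℕ) (A : Ax W) {x : G} : x ∈ axR W N A ↔ ∃ y ∈ A.1, x = y ^ N := by
  constructor
  · intro hx
    unfold axR at hx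
    induction hx using Subgroup.closure_induction with
    | mem x hx => exact hx
    | one => exact ⟨1, A.1.one_mem, (one_pow N).symm⟩
    | mul x y _ _ hx hy =>
      obtain ⟨a, ha, rfl⟩ := hx
      obtain ⟨b, hb, rfl⟩ := hy
      refine ⟨a * b, A.1.mul_mem ha hb, ?_⟩
      have hc : Commute a b := ax_comm W A ha hb
      rw [hc.mul_pow]
    | inv x _ hx =>
      obtain ⟨a, ha, rfl⟩ := hx
      exact ⟨a⁻¹, A.1.inv_mem ha, by rw [inv_pow]⟩
  · rintro ⟨y, hy, rfl⟩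
    exact Subgroup.subset_closure ⟨y, hy, rfl⟩

namespace AxHyp

theorem zlen (H : AxHyp ℓ D W f e) {w : G} (hw : w ∈ W) (k : ℤ) : ℓ (w ^ k) = f k.natAbs := by
  rw [len_zpow H.len, H.f_eq w hw]

theorem inford (H : AxHyp ℓ D W f e) {w : G} (hw : w ∈ W) {k : ℤ} (hk : w ^ k = 1) : k = 0 := by
  by_contra hne
  obtain ⟨n₀, hn₀⟩ := H.unb 1
  have h1 : 1 ≤ k.natAbs := by omega
  have h2 := hn₀ (n₀ * k.natAbs) (Nat.le_mul_of_pos_right n₀ h1)
  have h3 : w ^ (k * (n₀ : ℤ)) = 1 := by rw [zpow_mul, hk, one_zpow]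
  have h4 := H.zlen hw (k * (n₀ : ℤ))
  rw [h3, (H.len.one 1).2 rfl, Int.natAbs_mul, Int.natAbs_natCast, mul_comm] at h4
  omega

/-- Two generators of an axis group agree up to the sign. -/
private theorem gens (H : AxHyp ℓ D W f e) {w w' p q : G} (hw : w ∈ W)
    (h : cj p (Subgroup.zpowers w) = cj q (Subgroup.zpowers w')) :
    ∃ i : ℤ, (i = 1 ∨ i = -1) ∧ p * w * p⁻¹ = q * w' ^ i * q⁻¹ := by
  have h1 : p * w * p⁻¹ ∈ cj q (Subgroup.zpowers w') := by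
    rw [← h, mem_cj, show p⁻¹ * (p * w * p⁻¹) * p = w by group]
    exact Subgroup.mem_zpowers w
  have h2 : q * w' * q⁻¹ ∈ cj p (Subgroup.zpowers w) := by
    rw [h, mem_cj, show q⁻¹ * (q * w' * q⁻¹) * q = w' by group]
    exact Subgroup.mem_zpowers w'
  rw [mem_cj] at h1 h2
  obtain ⟨i, hi⟩ := Subgroup.mem_zpowers_iff.1 h1
  obtain ⟨j, hj⟩ := Subgroup.mem_zpowers_iff.1 h2
  have h3 : p * w * p⁻¹ = q * w' ^ i * q⁻¹ := by rw [hi]; group
  have h4 : q * w' * q⁻¹ = p * w ^ j * p⁻¹ := by rw [hj]; group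
  refine ⟨i, ?_, h3⟩
  have h5 : p * w * p⁻¹ = p * w ^ (j * i) * p⁻¹ := by
    rw [h3, ← conj_zpow, h4, conj_zpow, zpow_mul]
  have h6 : w = w ^ (j * i) := by
    have := mul_right_cancel h5
    exact mul_left_cancel this
  have h7 : w ^ (j * i - 1) = 1 := by
    rw [zpow_sub_one, ← h6, mul_inv_cancel]
  have h8 := H.inford hw h7
  have h9 : j * i = 1 := by omega
  exact (Int.isUnit_iff.1 (IsUnit.of_mul_eq_one_right j h9))

private theorem natAbs_pm {i : ℤ} (hi : i = 1 ∨ i = -1) (k : ℤ) : (i * k).natAbs = k.natAbs := by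
  rw [Int.natAbs_mul]
  rcases hi with rfl | rfl <;> simp

/-- The parallel cosets. -/
theorem par (H : AxHyp ℓ D W f e) {A : Ax W} {p w q : G} (hw : w ∈ W)
    (hp : A.1 = cj p (Subgroup.zpowers w)) (hq : q ∈ axS W A) :
    ∃ j : ℤ, 2 * ds ℓ q (p * w ^ j) ≤ cK (f 1 + e + D) D := by
  obtain ⟨w', hw', hA⟩ := hq
  obtain ⟨i, hi, hx⟩ := H.gens hw (hp.symm.trans hA)
  have hf : (fun n => ℓ (w ^ n)) = f := funext (H.f_eq w hw)
  have hf1 : ℓ w = f 1 := by have := H.f_eq w hw 1; rwa [pow_one] at this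
  have key := parallel (p₀ := p) (q := q) (w := w) (e := e) H.len H.hyp (by rw [hf]; exact H.ql)
    (by rw [hf]; exact H.unb) (by
      intro k
      have h1 : (p * w * p⁻¹) ^ k = q * w' ^ (i * (k : ℤ)) * q⁻¹ := by
        rw [hx, conj_pow, zpow_mul, zpow_natCast]
      have h2 : q⁻¹ * (q * w' ^ (i * (k : ℤ)) * q⁻¹ * q) = w' ^ (i * (k : ℤ)) := by group
      unfold ds
      rw [h1, h2, H.zlen hw', natAbs_pm hi, Int.natAbs_natCast, H.f_eq w hw])
  rwa [hf1] at key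

theorem qc (H : AxHyp ℓ D W f e) (A : Ax W) :
    QC ℓ (f 1 + e + D + cK (f 1 + e + D) D + D) (axS W A) := by
  refine ⟨axS_nonempty W A, ?_⟩
  intro p hp q hq z hz
  have hl := H.len
  obtain ⟨w, hw, hA⟩ := hp
  have hf : (fun n => ℓ (w ^ n)) = f := funext (H.f_eq w hw)
  have hf1 : ℓ w = f 1 := by have := H.f_eq w hw 1; rwa [pow_one] at this
  obtain ⟨j, hj⟩ := H.par hw hA hq
  have hQ0 := qc_zpowers (w := w) (e := e) hl H.hyp (by rw [hf]; exact H.ql)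
  rw [hf1] at hQ0
  have hQ : QC ℓ (f 1 + e + D) {x | p⁻¹ * x ∈ Subgroup.zpowers w} := by
    refine hQ0.smul p ?_
    intro x
    simp only [Set.mem_ofPred_eq, inv_mul_cancel_left]
    rfl
  have hsub : ∀ x, p⁻¹ * x ∈ Subgroup.zpowers w → x ∈ axS W A := by
    intro x hx
    have h1 : x * p⁻¹ ∈ A.1 := by
      rw [hA, mem_cj, show p⁻¹ * (x * p⁻¹) * p = p⁻¹ * x by group]
      exact hx
    have h2 := axS_mul W A ⟨w, hw, hA⟩ h1
    rwa [show x * p⁻¹ * p = x by group] at h2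
  have hpB : p⁻¹ * p ∈ Subgroup.zpowers w := by
    rw [inv_mul_cancel]; exact one_mem _
  have hqB : p⁻¹ * (p * w ^ j) ∈ Subgroup.zpowers w := by
    rw [inv_mul_cancel_left]; exact Subgroup.zpow_mem_zpowers w j
  obtain ⟨z₁, hz₁, hz₁d⟩ := hl.exists_btw p (p * w ^ j) (k := min (ds ℓ p z) (ds ℓ p (p * w ^ j)))
    (min_le_right _ _)
  have hzz : ds ℓ z z₁ ≤ cK (f 1 + e + D) D + D := by
    have hP := H.hyp.P hl hz z₁
    have h1 := hl.ds_comm z₁ p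
    have h2 := hl.ds_tri z₁ (p * w ^ j) q
    have h3 := hl.ds_comm q (p * w ^ j)
    have h4 := hl.ds_tri p q (p * w ^ j)
    have h5 := hl.ds_comm z p
    unfold Btw at hz hz₁
    rcases min_cases (ds ℓ p z) (ds ℓ p (p * w ^ j)) with ⟨h, h'⟩ | ⟨h, h'⟩
    · rw [h] at hz₁d
      omega
    · rw [h] at hz₁d
      omega
  obtain ⟨b, hb, hbd⟩ := hQ.qc p hpB (p * w ^ j) hqB z₁ hz₁
  refine ⟨b, hsub b hb, ?_⟩
  have h6 := hl.ds_tri z z₁ b
  omega

theorem stab (H : AxHyp ℓ D W f e) (A : Ax W) (g : G) : g • A = A ↔ g ∈ A.1 := by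
  constructor
  · intro hg
    have hg' : cj g A.1 = A.1 := congrArg Subtype.val hg
    obtain ⟨h, w, hw, hA⟩ := A.2
    rw [hA, cj_cj] at hg'
    obtain ⟨i, hi, hx⟩ := H.gens hw hg'
    have h1 : (h⁻¹ * g * h) * w * (h⁻¹ * g * h)⁻¹ = w ^ i := by
      have := congrArg (fun t => h⁻¹ * t * h) hx
      simp only [mul_inv_rev] at this
      rw [show h⁻¹ * (h * w ^ i * h⁻¹) * h = w ^ i by group] at this
      rw [← this]
      group
    rcases hi with rfl | rfl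
    · rw [zpow_one] at h1
      have h2 : (h⁻¹ * g * h) * w ^ 1 = w ^ 1 * (h⁻¹ * g * h) := by
        rw [pow_one]
        exact mul_inv_eq_iff_eq_mul.1 h1
      have h3 := H.me w hw 1 one_pos _ h2
      rw [hA, mem_cj]
      exact h3
    · rw [zpow_neg_one] at h1
      exact absurd h1 (H.norev w hw _)
  · intro hg
    exact Subtype.ext (cj_self hg)

/-- The translation length. -/
theorem translen (H : AxHyp ℓ D W f e) (A : Ax W) {y : G} (hy : y ∈ A.1) :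
    ∃ k : ℕ, ∀ p ∈ axS W A, ds ℓ p (y * p) = f k := by
  obtain ⟨h, w, hw, hA⟩ := A.2
  rw [hA, mem_cj] at hy
  obtain ⟨j, hj⟩ := Subgroup.mem_zpowers_iff.1 hy
  refine ⟨j.natAbs, ?_⟩
  rintro p ⟨w', hw', hA'⟩
  obtain ⟨i, hi, hx⟩ := H.gens hw (hA.symm.trans hA')
  have h1 : y = p * w' ^ (i * j) * p⁻¹ := by
    have h2 : y = h * w ^ j * h⁻¹ := by rw [hj]; group
    rw [h2, ← conj_zpow, hx, conj_zpow, zpow_mul]
  have h3 : p⁻¹ * (p * w' ^ (i * j) * p⁻¹ * p) = w' ^ (i * j) := by group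
  unfold ds
  rw [h1, h3, H.zlen hw', natAbs_pm hi]

end AxHyp

end Mon
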