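import Pool.Agent.Mon.Ax1

/-!
# Project Mon, module Ax2: bounded overlap of the axes

Proof.  Let `c₀ = cK (f 1 + e + D) D`, `r' = r + c₀`, `ρ = 2 r' + r + 2 e + D`, `M` the bound of `UP` for
`max ρ (max (f 1) r)`, `Δ = 2 r + M f 1 + c₀`.
Let `A ≠ B`, `a, a' ∈ axS A`, `b, b' ∈ axS B`, `ds a b ≤ r`, `ds a' b' ≤ r`.  `A = a ⟨u⟩ a⁻¹`,
`B = b ⟨u'⟩ b⁻¹` with `u, u' ∈ W`.  By `par` there are `m, n : ℤ` with `2 ds a' (a u^m) ≤ c₀`,
`2 ds b' (b u'^n) ≤ c₀`.  Replace `u` by `u₁ = u^(±1)`, `u'` by `u₁' = u'^(±1)` such that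
`m, n ≥ 0` (the lengths of the powers do not change).  Put `g = a⁻¹ b`, `ℓ g ≤ r`; then
`ds (u₁^m) (g u₁'^n) = ds (a u₁^m) (b u₁'^n) ≤ r + c₀ = r'`.  So `|f m - f n| ≤ r + r'`.
CLAIM: `ds (u₁^i) (g u₁'^i) ≤ ρ` for `i ≤ min m n`.  Put `z = u₁^i`, `y = g u₁'^i`; `z` is
`e`-near the pair `(1, u₁^m)`: `f i + f (m - i) ≤ f m + e`; by `Hyp.split` for `y`:
`ds z 1 + ds z y ≤ ds 1 y + e + D`, so `ds z y ≤ (r + f i) - f i + e + D`, or
`ds z y + ds z (u₁^m) ≤ ds y (u₁^m) + e + D`, so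
`ds z y ≤ (f (n - i) + r') - f (m - i) + e + D` and `f (n - i) ≤ f n - f i + e ≤ f m + r + r' - f i + e
≤ f (m - i) + r + r' + e`.
If `min m n ≥ M` then by the pigeonhole principle there are `0 ≤ i < j ≤ M` with
`u₁^(-i) g u₁'^i = u₁^(-j) g u₁'^j` (these elements have length `≤ ρ` and are in the subgroup generated by
`u₁, g, u₁'`, of lengths `f 1`, `≤ r`, `f 1`).  So `g u₁'^s g⁻¹ = u₁^s`, `s = j - i > 0`.
Then `g ⟨u'⟩ g⁻¹ = ⟨u⟩`: for `x ∈ ⟨u'⟩`, `g x g⁻¹` commutes with `u₁^s`, so also with `u^s`, so it is in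
`⟨u⟩` by `me`; and conversely.  So `B = a g ⟨u'⟩ g⁻¹ a⁻¹ = A`, a contradiction.
So `min m n < M`; `f (min m n) ≤ M f 1`.  If `m ≤ n`: `ds a a' ≤ f m + c₀`.  If `n < m`:
`ds a a' ≤ r + ds b b' + r ≤ 2 r + f n + c₀`.
-/

namespace Mon

variable {G : Type*} [Group G] {ℓ : G → ℕ} {D : ℕ} {W : Set G} {f : ℕ → ℕ} {e : ℕ}

private theorem ax2_orient (H : AxHyp ℓ D W f e) {u : G} (hu : u ∈ W) (m : ℤ) :
    ∃ v : G, (∀ k : ℕ, ℓ (v ^ k) = f k) ∧ v ^ m.natAbs = u ^ m ∧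
      (∀ x ∈ Subgroup.zpowers u, ∀ k : ℕ, x * v ^ k = v ^ k * x) ∧
      ∀ s : ℕ, 0 < s → ∀ g, g * v ^ s = v ^ s * g → g ∈ Subgroup.zpowers u := by
  rcases Int.natAbs_eq m with hm | hm
  · refine ⟨u, H.f_eq u hu, ?_, ?_, fun s hs g hg => H.me u hu s hs g hg⟩
    · conv_rhs => rw [hm, zpow_natCast]
    · rintro x ⟨j, rfl⟩ k
      exact ((Commute.refl u).zpow_left j).pow_right k
  · refine ⟨u⁻¹, ?_, ?_, ?_, ?_⟩
    · intro k
      rw [inv_pow, H.len.inv]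
      exact H.f_eq u hu k
    · conv_rhs => rw [hm, zpow_neg, zpow_natCast]
      rw [inv_pow]
    · rintro x ⟨j, rfl⟩ k
      exact (((Commute.refl u).inv_right).zpow_left j).pow_right k
    · intro s hs g hg
      refine H.me u hu s hs g ?_
      rw [inv_pow] at hg
      have h1 : Commute g (u ^ s)⁻¹ := hg
      exact (Commute.inv_right_iff.1 h1).eq

private theorem ax2_linear (H : AxHyp ℓ D W f e) {v : G} (hv : ∀ k : ℕ, ℓ (v ^ k) = f k) (k : ℕ) :
    f k ≤ k * f 1 := by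
  induction k with
  | zero =>
    rw [← hv 0, pow_zero, (H.len.one 1).2 rfl]
    omega
  | succ k ih =>
    have h1 := H.len.mul (v ^ k) v
    have h2 := hv 1
    rw [pow_one] at h2
    rw [← pow_succ, hv, hv, h2] at h1
    rw [add_mul, one_mul]
    omega

private theorem ax2_sub (H : AxHyp ℓ D W f e) {v : G} (hv : ∀ k : ℕ, ℓ (v ^ k) = f k) {i m : ℕ}
    (him : i ≤ m) : f m ≤ f i + f (m - i) := by
  have h1 := H.len.mul (v ^ i) (v ^ (m - i))
  rw [← pow_add, Nat.add_sub_cancel' him, hv, hv, hv] at h1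
  exact h1

private theorem ax2_ds {v : G} (hv : ∀ k : ℕ, ℓ (v ^ k) = f k) (x : G) {i m : ℕ} (him : i ≤ m) :
    ds ℓ (x * v ^ i) (x * v ^ m) = f (m - i) := by
  rw [ds_smul]
  unfold ds
  rw [← hv (m - i)]
  congr 1
  rw [inv_mul_eq_iff_eq_mul, ← pow_add, Nat.add_sub_cancel' him]

private theorem ax2_claim (H : AxHyp ℓ D W f e) {v v' g : G} (hv : ∀ k : ℕ, ℓ (v ^ k) = f k)
    (hv' : ∀ k : ℕ, ℓ (v' ^ k) = f k) {m n r r' : ℕ} (hg : ℓ g ≤ r)
    (hmn : ds ℓ (v ^ m) (g * v' ^ n) ≤ r') {i : ℕ} (him : i ≤ m) (hin : i ≤ n) :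
    ds ℓ (v ^ i) (g * v' ^ i) ≤ 2 * r' + r + 2 * e + D := by
  have hl := H.len
  have e1 : ds ℓ (v ^ i) 1 = f i := by rw [hl.ds_comm, ds_one, hv]
  have e2 : ds ℓ (v ^ i) (v ^ m) = f (m - i) := by
    have := ax2_ds hv 1 him
    rwa [one_mul, one_mul] at this
  have e3 : ds ℓ 1 (v ^ m) = f m := by rw [ds_one, hv]
  have e4 : ds ℓ g (g * v' ^ i) = f i := by
    have := ax2_ds hv' g (Nat.zero_le i)
    rwa [pow_zero, mul_one, Nat.sub_zero] at this
  have e5 : ds ℓ g (g * v' ^ n) = f n := by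
    have := ax2_ds hv' g (Nat.zero_le n)
    rwa [pow_zero, mul_one, Nat.sub_zero] at this
  have e6 : ds ℓ (g * v' ^ i) (g * v' ^ n) = f (n - i) := ax2_ds hv' g hin
  have e7 : ds ℓ 1 g = ℓ g := ds_one g
  have q1 := H.ql i (m - i)
  rw [Nat.add_sub_cancel' him] at q1
  have q2 := H.ql i (n - i)
  rw [Nat.add_sub_cancel' hin] at q2
  have s1 := ax2_sub H hv him
  have t1 := hl.ds_tri 1 g (g * v' ^ i)
  have t2 := hl.ds_tri (g * v' ^ i) (g * v' ^ n) (v ^ m)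
  have t3 := hl.ds_tri 1 g (g * v' ^ n)
  have t4 := hl.ds_tri 1 (v ^ m) (g * v' ^ n)
  have t5 := hl.ds_tri g 1 (g * v' ^ n)
  have c1 := hl.ds_comm (g * v' ^ n) (v ^ m)
  have c2 := hl.ds_comm g 1
  have hsp := H.hyp.split hl (p := v ^ i) (u := 1) (v := v ^ m) (t := e) (by omega) (g * v' ^ i)
  rcases hsp with h | h
  · omega
  · omega

theorem AxHyp.overlap (H : AxHyp ℓ D W f e) (r : ℕ) : ∃ Δ : ℕ, ∀ A B : Ax W, A ≠ B →
    ∀ a ∈ axS W A, ∀ a' ∈ axS W A, ∀ b ∈ axS W B, ∀ b' ∈ axS W B, ds ℓ a b ≤ r →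
      ds ℓ a' b' ≤ r → ds ℓ a a' ≤ Δ := by
  have hl := H.len
  obtain ⟨c₀, hc₀⟩ : ∃ c₀, c₀ = cK (f 1 + e + D) D := ⟨_, rfl⟩
  obtain ⟨ρ, hρ⟩ : ∃ ρ, ρ = 2 * (r + c₀) + r + 2 * e + D := ⟨_, rfl⟩
  obtain ⟨M, hM⟩ := H.up (max ρ (max (f 1) r))
  refine ⟨2 * r + M * f 1 + c₀, ?_⟩
  intro A B hAB a ha a' ha' b hb b' hb' hab hab'
  obtain ⟨u, hu, hA⟩ := ha
  obtain ⟨u', hu', hB⟩ := hb
  obtain ⟨m, hm⟩ := H.par hu hA ha'
  obtain ⟨n, hn⟩ := H.par hu' hB hb'
  rw [← hc₀] at hm hn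
  obtain ⟨v, hv, hvm, hvc, hvme⟩ := ax2_orient H hu m
  obtain ⟨v', hv', hvn, hvc', hvme'⟩ := ax2_orient H hu' n
  rw [← hvm] at hm
  rw [← hvn] at hn
  obtain ⟨m', hm'⟩ : ∃ m', m' = m.natAbs := ⟨_, rfl⟩
  obtain ⟨n', hn'⟩ : ∃ n', n' = n.natAbs := ⟨_, rfl⟩
  rw [← hm'] at hm
  rw [← hn'] at hn
  obtain ⟨g, hg⟩ : ∃ g, g = a⁻¹ * b := ⟨_, rfl⟩
  have hb_eq : b = a * g := by rw [hg]; group
  have hgl : ℓ g ≤ r := by rw [hg]; exact hab
  have hmn : ds ℓ (v ^ m') (g * v' ^ n') ≤ r + c₀ := by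
    have e1 : ds ℓ (v ^ m') (g * v' ^ n') = ds ℓ (a * v ^ m') (b * v' ^ n') := by
      rw [hb_eq, mul_assoc, ds_smul]
    have t1 := hl.ds_tri (a * v ^ m') a' (b * v' ^ n')
    have t2 := hl.ds_tri a' b' (b * v' ^ n')
    have c1 := hl.ds_comm (a * v ^ m') a'
    omega
  have haa : ds ℓ a (a * v ^ m') = f m' := by
    have := ax2_ds hv a (Nat.zero_le m')
    rwa [pow_zero, mul_one, Nat.sub_zero] at this
  have hbb : ds ℓ b (b * v' ^ n') = f n' := by
    have := ax2_ds hv' b (Nat.zero_le n')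
    rwa [pow_zero, mul_one, Nat.sub_zero] at this
  have hMm : m' < M ∨ n' < M := by
    by_contra hcon
    push Not at hcon
    obtain ⟨h1, h2⟩ := hcon
    have hv1 : ℓ v = f 1 := by have := hv 1; rwa [pow_one] at this
    have hv1' : ℓ v' = f 1 := by have := hv' 1; rwa [pow_one] at this
    obtain ⟨hfin, hcard⟩ := hM v g v' (by omega) (by omega) (by omega)
    have hmaps : ∀ i ∈ Finset.range (M + 1), (v ^ i)⁻¹ * (g * v' ^ i) ∈ hfin.toFinset := by
      intro i hi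
      rw [Finset.mem_range] at hi
      rw [Set.Finite.mem_toFinset]
      constructor
      · have k1 : v ∈ Subgroup.closure ({v, g, v'} : Set G) :=
          Subgroup.subset_closure (by simp)
        have k2 : g ∈ Subgroup.closure ({v, g, v'} : Set G) :=
          Subgroup.subset_closure (by simp)
        have k3 : v' ∈ Subgroup.closure ({v, g, v'} : Set G) :=
          Subgroup.subset_closure (by simp)
        exact mul_mem (inv_mem (pow_mem k1 i)) (mul_mem k2 (pow_mem k3 i))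
      · have := ax2_claim H hv hv' hgl hmn (i := i) (by omega) (by omega)
        unfold ds at this
        omega
    have hlt : hfin.toFinset.card < (Finset.range (M + 1)).card := by
      rw [Finset.card_range, ← Set.ncard_eq_toFinset_card _ hfin]
      omega
    obtain ⟨i, hi, j, hj, hij, hEq⟩ := Finset.exists_ne_map_eq_of_card_lt_of_maps_to hlt hmaps
    have key : ∀ i j : ℕ, i < j → (v ^ i)⁻¹ * (g * v' ^ i) = (v ^ j)⁻¹ * (g * v' ^ j) → False := by
      intro i j hij hE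
      obtain ⟨s, hs⟩ : ∃ s, s = j - i := ⟨_, rfl⟩
      have hs0 : 0 < s := by omega
      have hj' : j = i + s := by omega
      have hE1 : v ^ s * g = g * v' ^ s := by
        rw [hj', pow_add, pow_add] at hE
        have h3 : v ^ i * v ^ s * ((v ^ i)⁻¹ * (g * v' ^ i)) = g * (v' ^ i * v' ^ s) := by
          rw [hE]; group
        have h4 : v ^ i * v ^ s * ((v ^ i)⁻¹ * (g * v' ^ i)) = v ^ s * g * v' ^ i := by
          have h5 : v ^ i * v ^ s = v ^ s * v ^ i := by rw [← pow_add, ← pow_add, add_comm]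
          rw [h5]; group
        have h6 : v' ^ i * v' ^ s = v' ^ s * v' ^ i := by rw [← pow_add, ← pow_add, add_comm]
        rw [h4, h6, ← mul_assoc] at h3
        exact mul_right_cancel h3
      have hcg : cj g (Subgroup.zpowers u') = Subgroup.zpowers u := by
        ext x
        rw [mem_cj]
        constructor
        · intro hx
          have h7 := hvc' _ hx s
          refine hvme s hs0 x ?_
          have h8 : x * v ^ s = g * (g⁻¹ * x * g * v' ^ s) * g⁻¹ := by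
            have : v ^ s = g * v' ^ s * g⁻¹ := by rw [← hE1]; group
            rw [this]; group
          rw [h8, h7]
          have : v ^ s = g * v' ^ s * g⁻¹ := by rw [← hE1]; group
          rw [this]; group
        · intro hx
          have h7 := hvc _ hx s
          refine hvme' s hs0 _ ?_
          have h9 : v' ^ s = g⁻¹ * v ^ s * g := by
            rw [mul_assoc, hE1]; group
          rw [h9]
          calc g⁻¹ * x * g * (g⁻¹ * v ^ s * g) = g⁻¹ * (x * v ^ s) * g := by group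
            _ = g⁻¹ * (v ^ s * x) * g := by rw [h7]
            _ = g⁻¹ * v ^ s * g * (g⁻¹ * x * g) := by group
      apply hAB
      apply Subtype.ext
      rw [hA, hB, hb_eq, ← cj_cj, hcg]
    rcases lt_or_gt_of_ne hij with h | h
    · exact key i j h hEq
    · exact key j i h hEq.symm
  have t1 := hl.ds_tri a (a * v ^ m') a'
  have c1 := hl.ds_comm (a * v ^ m') a'
  have t2 := hl.ds_tri a b a'
  have t3 := hl.ds_tri b b' a'
  have c2 := hl.ds_comm b' a'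
  have t4 := hl.ds_tri b (b * v' ^ n') b'
  have c3 := hl.ds_comm (b * v' ^ n') b'
  rcases hMm with h | h
  · have h1 := ax2_linear H hv m'
    have h2 : m' * f 1 ≤ M * f 1 := Nat.mul_le_mul_right _ h.le
    omega
  · have h1 := ax2_linear H hv' n'
    have h2 : n' * f 1 ≤ M * f 1 := Nat.mul_le_mul_right _ h.le
    omega

end Mon
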