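import Pool.Agent.Mon.Ax2

/-!
# Project Mon, module Ax3: the axis system

Proof.  `κ = f 1 + e + D`, `c₀ = cK κ D`, `κ₁ = κ + c₀ + D` (`axS A` is `κ₁`-quasiconvex, `qc`),
`c = cK κ₁ D ≥ c₀`; `Δ` from `overlap` for `r = c + D + κ₁`, `θ₁ = max c Δ`, `θ = θ₁ + c`.
`growth`: let `h = F + 2 c` where `F = max {f i | i ≤ N / 2}`.  For `k ≥ 1`, `i ≤ N / 2`:
`f (k N) + e ≥ f i + f (k N - i)`, `k N - i ≥ N / 2`, so by `Unb` `f (k N) ≥ F + K'` for all `N ≥ N₀ (K')`.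
Given `K`, take `τ = h + K + 40 θ + 1` and `N₀` with `f (k N) ≥ τ` for all `k ≥ 1`, `N ≥ N₀`.
The fields of `RotSys` (`S = axS`, `dS = dA ∘ axS`, `P = dP ∘ axS`): `S_smul` is `axS_smul`; the fields on
`dS`, `P` are in `Proj` (`dP_smul` with `h = axS_smul`); `diam`, `beh` are `fam_diam`, `fam_beh` with
`overlap`; `R_smul`: `g y^N g⁻¹ = (g y g⁻¹)^N`; `R_fix`: `stab`.
`rot`: let `r = y^N ≠ 1`, `y ∈ A`, `x : G`, `p ∈ axS A` a nearest point of `x`, `A = p ⟨w⟩ p⁻¹`,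
`y = p w^k p⁻¹`, `r = p w^(kN) p⁻¹`, `k ≠ 0`.  `r p = p w^(kN) ∈ axS A` is a nearest point of `r x`
(`r • A = A`), so `P A x (r x) ≥ ds p (r p) = f (|k| N) ≥ τ`.
`min`: let `p, q ∈ axS A` be nearest points of `x, y` with `ds p q = P A x y` (`dP_att`).
`A = p ⟨w⟩ p⁻¹`; by `par` there is `m` with `2 ds q (p w^m) ≤ c₀`.  Let `k : ℤ` with `|m - k N| ≤ N / 2`,
`r = p w^(kN) p⁻¹ ∈ axR A`.  `ds (r x) y ≤ ds (r x) (r p) + ds (p w^(kN)) (p w^m) + ds (p w^m) q + ds q y ≤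
dS A x + F + c₀ + dS A y`.  If `P A x y > c` then
`dS A x + P A x y + dS A y ≤ ds x y + c ≤ ds (r x) y + c`, so `P A x y ≤ F + c₀ + c ≤ h`.
`trans`: let `y ∈ A`, `k` from `translen`.  For `x : G` and a nearest point `p` of `x`, `y p` is a nearest
point of `y x`, so `P A x (y x) ≥ ds p (y p) = f k`, and for nearest points `p` of `x`, `p₁` of `y x`:
`ds p p₁ ≤ ds p (y p) + ds (y p) p₁ ≤ f k + c` (`QC.pr_diam`), so `P A x (y x) ≤ f k + c`.
`stab`: `AxHyp.stab`.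
-/

namespace Mon

variable {G : Type*} [Group G] {ℓ : G → ℕ} {D : ℕ} {W : Set G} {f : ℕ → ℕ} {e : ℕ}

theorem AxHyp.growth (H : AxHyp ℓ D W f e) (K : ℕ) : ∃ N₀ : ℕ, ∀ N ≥ N₀, ∀ k ≥ 1, ∀ i : ℕ,
    2 * i ≤ N → f i + K ≤ f (k * N) := by
  obtain ⟨n₀, hn₀⟩ := H.unb (K + e)
  refine ⟨2 * n₀, fun N hN k hk i hi => ?_⟩
  have hkN : N ≤ k * N := Nat.le_mul_of_pos_left N hk
  have h1 := hn₀ (k * N - i) (by omega)
  have h2 := H.ql i (k * N - i)
  rw [show i + (k * N - i) = k * N by omega] at h2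
  omega

/-- Nearest points are mapped to nearest points. -/
theorem AxHyp.pr_mul (H : AxHyp ℓ D W f e) {A : Ax W} {y x p : G} (hy : y ∈ A.1)
    (hp : p ∈ pr ℓ (axS W A) x) : y * p ∈ pr ℓ (axS W A) (y * x) := by
  have hne := axS_nonempty W A
  rw [mem_pr_iff hne] at hp ⊢
  have hst : ∀ x, y * x ∈ axS W A ↔ x ∈ axS W A := by
    intro x
    have h1 := axS_smul W y A x
    rwa [(H.stab A y).2 hy] at h1
  refine ⟨axS_mul W A hp.1 hy, ?_⟩
  rw [ds_smul, hp.2, dA_smul hst]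

/-- The rotation field. -/
theorem AxHyp.rot_field (H : AxHyp ℓ D W f e) {N τ : ℕ}
    (hτ : ∀ k ≥ 1, τ ≤ f (k * N)) (A : Ax W) (r : G) (hr : r ∈ axR W N A) (hr1 : r ≠ 1) (x : G) :
    τ ≤ dP ℓ (axS W A) x (r * x) := by
  obtain ⟨y, hy, rfl⟩ := (mem_axR W N A).1 hr
  have hrA : y ^ N ∈ A.1 := Subgroup.pow_mem _ hy N
  obtain ⟨p, hp⟩ := pr_nonempty (ℓ := ℓ) (axS_nonempty W A) x
  have hpS := ((mem_pr_iff (axS_nonempty W A)).1 hp).1
  obtain ⟨w, hw, hA⟩ := hpS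
  have h1 := le_dP H.len hp (H.pr_mul hrA hp)
  refine le_trans ?_ h1
  rw [hA, mem_cj] at hy
  obtain ⟨k, hk⟩ := Subgroup.mem_zpowers_iff.1 hy
  have hyk : y = p * w ^ k * p⁻¹ := by
    rw [hk]; group
  have hr2 : y ^ N = p * w ^ (k * N) * p⁻¹ := by
    rw [hyk, conj_pow, zpow_mul, zpow_natCast]
  have h2 : ds ℓ p (y ^ N * p) = f (k * N).natAbs := by
    rw [← H.zlen hw, hr2]
    unfold ds
    congr 1
    group
  rw [h2, Int.natAbs_mul, Int.natAbs_natCast]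
  apply hτ
  have hk0 : k ≠ 0 := by
    rintro rfl
    apply hr1
    rw [hr2]; simp
  have := Int.natAbs_pos.2 hk0
  omega

/-- The field of the shortest pairs. -/
theorem AxHyp.min_field (H : AxHyp ℓ D W f e) {N F : ℕ} (hN : 0 < N)
    (hF : ∀ i, 2 * i ≤ N → f i ≤ F) (A : Ax W) (x y : G)
    (hmin : ∀ r ∈ axR W N A, ds ℓ x y ≤ ds ℓ (r * x) y) :
    dP ℓ (axS W A) x y ≤ F + cK (f 1 + e + D) D +
      cK (f 1 + e + D + cK (f 1 + e + D) D + D) D := by
  by_contra hlt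
  push Not at hlt
  have hne := axS_nonempty W A
  obtain ⟨p, hp, q, hq, hpq⟩ := dP_att hne H.len x y
  have hpS := (mem_pr_iff hne).1 hp
  have hqS := (mem_pr_iff hne).1 hq
  obtain ⟨w, hw, hA⟩ := hpS.1
  obtain ⟨j, hj⟩ := H.par hw hA hqS.1
  set k : ℤ := (2 * j + N) / (2 * N) with hk
  have hN' : (0 : ℤ) < 2 * N := by positivity
  have hk1 : 2 * (N : ℤ) * k ≤ 2 * j + N := Int.mul_ediv_self_le hN'.ne'
  have hk2 : 2 * j + N < 2 * (N : ℤ) * k + 2 * N := by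
    have := Int.lt_mul_ediv_self_add (x := 2 * j + N) hN'
    rwa [← hk] at this
  have hkk : 2 * (j - k * N).natAbs ≤ N := by
    have h3 : (2 : ℤ) * |j - k * N| ≤ N := by
      rcases abs_cases (j - k * N) with h | h <;> nlinarith
    rw [← Int.natCast_natAbs] at h3
    exact_mod_cast h3
  have hkN := hF _ hkk
  have hrR : p * w ^ (k * N) * p⁻¹ ∈ axR W N A := by
    rw [mem_axR]
    refine ⟨p * w ^ k * p⁻¹, ?_, ?_⟩
    · rw [hA, mem_cj]
      refine Subgroup.mem_zpowers_iff.2 ⟨k, by group⟩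
    · rw [conj_pow, zpow_mul, zpow_natCast]
  have h1 := hmin _ hrR
  have h2 := (H.qc A).dP_pass H.len H.hyp x y (by omega)
  set r := p * w ^ (k * N) * p⁻¹ with hr
  have h3 := H.len.ds_tri (r * x) (r * p) y
  have h4 := H.len.ds_tri (r * p) (p * w ^ j) y
  have h5 := H.len.ds_tri (p * w ^ j) q y
  have h6 : ds ℓ (r * p) (p * w ^ j) = f (j - k * N).natAbs := by
    rw [← H.zlen hw, hr]
    unfold ds
    congr 1
    rw [show (p * w ^ (k * ↑N) * p⁻¹ * p)⁻¹ * (p * w ^ j) = (w ^ (k * (N : ℤ)))⁻¹ * w ^ j by group,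
      ← zpow_neg, ← zpow_add]
    congr 1
    ring
  rw [ds_smul, hpS.2] at h3
  rw [H.len.ds_comm (p * w ^ j) q, H.len.ds_comm q y, hqS.2] at h5
  omega

/-- The axis systems. -/
theorem AxHyp.system (H : AxHyp ℓ D W f e) : ∃ c θ : ℕ, ∀ K : ℕ, ∃ N₀ : ℕ, ∀ N ≥ N₀, ∃ h τ : ℕ,
    h + K < τ ∧ AxSys ℓ D (axS W) (fun A => dA ℓ (axS W A)) (fun A => dP ℓ (axS W A))
      (axR W N) (axC W) c θ h τ := by
  set κ := f 1 + e + D with hκ
  set c₀ := cK κ D with hc₀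
  set κ₁ := κ + c₀ + D with hκ₁
  set c := cK κ₁ D with hc
  obtain ⟨Δ, hΔ⟩ := H.overlap (c + D + κ₁)
  refine ⟨c, max c Δ + c, fun K => ?_⟩
  obtain ⟨N₀, hN₀⟩ := H.growth (c₀ + c + K + 40 * (max c Δ + c) + 1)
  refine ⟨N₀, fun N hN => ?_⟩
  set F := (Finset.range (N / 2 + 1)).sup f with hF
  have hFle : ∀ i, 2 * i ≤ N → f i ≤ F := by
    intro i hi
    exact Finset.le_sup (f := f) (Finset.mem_range.2 (by omega))
  obtain ⟨i₀, hi₀, hFi₀⟩ := Finset.exists_mem_eq_sup (Finset.range (N / 2 + 1)) ⟨0, by simp⟩ f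
  rw [Finset.mem_range] at hi₀
  rw [← hF] at hFi₀
  have hNpos : 0 < N := by
    rcases Nat.eq_zero_or_pos N with h0 | h0
    · subst h0
      have := hN₀ 0 hN 1 le_rfl 0 (by omega)
      simp at this
    · exact h0
  have hτk : ∀ k ≥ 1, F + (c₀ + c + K + 40 * (max c Δ + c) + 1) ≤ f (k * N) := by
    intro k hk
    rw [hFi₀]
    exact hN₀ N hN k hk i₀ (by omega)
  refine ⟨F + c₀ + c, F + (c₀ + c + K + 40 * (max c Δ + c) + 1), by omega, ?_⟩
  have hdiam : ∀ A B : Ax W, A ≠ B → ∀ a ∈ axS W B, ∀ b ∈ axS W B,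
      dP ℓ (axS W A) a b ≤ max c Δ := by
    intro A B hAB a ha b hb
    exact fam_diam H.len H.hyp (H.qc A) (H.qc B)
      (fun a ha a' ha' b hb b' hb' h1 h2 => hΔ A B hAB a ha a' ha' b hb b' hb' h1 h2) ha hb
  exact {
    len := H.len
    hyp := H.hyp
    S_smul := fun g A x => axS_smul W g A x
    dS_le := fun A x a ha => dA_le ha x
    dS_att := fun A x => dA_att (axS_nonempty W A) x
    P_comm := fun A x y => dP_comm H.len x y
    P_tri := fun A x y z => dP_tri (axS_nonempty W A) H.len x y z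
    P_smul := fun g A x y => dP_smul (fun x => axS_smul W g A x) x y
    P_near := fun A x a ha hxa => (H.qc A).dP_near H.len H.hyp ha hxa
    P_mem := fun A a ha b hb => dP_mem H.len ha hb
    P_self := fun A x => (H.qc A).dP_self H.len H.hyp x
    pass := fun A x y hc => (H.qc A).dP_pass H.len H.hyp x y hc
    upper := fun A x y => dP_upper (axS_nonempty W A) H.len x y
    diam := fun A B hAB a ha b hb => (hdiam A B hAB a ha b hb).trans (Nat.le_add_right _ _)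
    beh := fun A B hAB a ha b hb x => fam_beh H.len H.hyp (H.qc A) (H.qc B) (le_max_left _ _)
      (hdiam A B hAB) (hdiam B A hAB.symm) ha hb x
    R_smul := by
      intro g A r hr
      obtain ⟨y, hy, rfl⟩ := (mem_axR W N A).1 hr
      rw [mem_axR]
      refine ⟨g * y * g⁻¹, ?_, ?_⟩
      · rw [Ax.smul_val, mem_cj]
        have : g⁻¹ * (g * y * g⁻¹) * g = y := by group
        rw [this]
        exact hy
      · rw [conj_pow]
    R_fix := by
      intro A r hr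
      obtain ⟨y, hy, rfl⟩ := (mem_axR W N A).1 hr
      exact (H.stab A _).2 (Subgroup.pow_mem _ hy N)
    rot := fun A r hr hr1 x => H.rot_field hτk A r hr hr1 x
    min := fun A x y hmin => H.min_field hNpos hFle A x y hmin
    c_le_θ := by omega
    c_le_h := by omega
    big := by omega
    stab := H.stab
    trans := by
      intro A y hy x x'
      have hy' : y ∈ A.1 := hy
      obtain ⟨k, hk⟩ := H.translen A hy'
      obtain ⟨p, hp⟩ := pr_nonempty (ℓ := ℓ) (axS_nonempty W A) x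
      have hpS := ((mem_pr_iff (axS_nonempty W A)).1 hp).1
      have h1 := le_dP H.len hp (H.pr_mul hy' hp)
      rw [hk p hpS] at h1
      obtain ⟨p', hp', q', hq', hpq⟩ := dP_att (axS_nonempty W A) H.len x' (y * x')
      have hp'S := ((mem_pr_iff (axS_nonempty W A)).1 hp').1
      have h2 := H.len.ds_tri p' (y * p') q'
      rw [hk p' hp'S] at h2
      have h3 : ds ℓ (y * p') q' ≤ c :=
        (H.qc A).pr_diam H.len H.hyp (H.pr_mul hy' hp') hq'
      show dP ℓ (axS W A) x' (y * x') ≤ dP ℓ (axS W A) x (y * x) + c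
      rw [← hpq]
      omega }

end Mon
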