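import Pool.Agent.Mon.Defs

/-!
# Project Mon: elementary facts about distances, nearest points, rotation systems
-/

namespace Mon

variable {G : Type*} [Group G] {ℓ : G → ℕ} {D : ℕ}

theorem IsLen.ds_self (hl : IsLen ℓ) (x : G) : ds ℓ x x = 0 := by
  simp [ds, (hl.one 1).2 rfl]

theorem IsLen.ds_eq_zero (hl : IsLen ℓ) {x y : G} : ds ℓ x y = 0 ↔ x = y := by
  unfold ds
  rw [hl.one, inv_mul_eq_one]

theorem IsLen.ds_comm (hl : IsLen ℓ) (x y : G) : ds ℓ x y = ds ℓ y x := by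
  unfold ds
  rw [← hl.inv (x⁻¹ * y)]
  simp

theorem IsLen.ds_tri (hl : IsLen ℓ) (x y z : G) : ds ℓ x z ≤ ds ℓ x y + ds ℓ y z := by
  unfold ds
  have := hl.mul (x⁻¹ * y) (y⁻¹ * z)
  rwa [show x⁻¹ * y * (y⁻¹ * z) = x⁻¹ * z by group] at this

theorem ds_smul (g x y : G) : ds ℓ (g * x) (g * y) = ds ℓ x y := by
  unfold ds
  rw [show (g * x)⁻¹ * (g * y) = x⁻¹ * y by group]

theorem ds_one (x : G) : ds ℓ 1 x = ℓ x := by
  simp [ds]

theorem Btw.smul {x z y : G} (h : Btw ℓ x z y) (g : G) : Btw ℓ (g * x) (g * z) (g * y) := by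
  unfold Btw at *
  rw [ds_smul, ds_smul, ds_smul, h]

theorem btw_smul_iff {x z y g : G} : Btw ℓ (g * x) (g * z) (g * y) ↔ Btw ℓ x z y := by
  unfold Btw
  rw [ds_smul, ds_smul, ds_smul]

theorem Btw.symm (hl : IsLen ℓ) {x z y : G} (h : Btw ℓ x z y) : Btw ℓ y z x := by
  unfold Btw at *
  rw [hl.ds_comm y z, hl.ds_comm z x, hl.ds_comm y x]
  omega

theorem IsLen.btw_left (hl : IsLen ℓ) (x y : G) : Btw ℓ x x y := by
  unfold Btw
  rw [hl.ds_self]; omega

theorem IsLen.btw_right (hl : IsLen ℓ) (x y : G) : Btw ℓ x y y := by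
  unfold Btw
  rw [hl.ds_self]; omega

/-- There are points at every distance on a geodesic. -/
theorem IsLen.exists_btw (hl : IsLen ℓ) (x y : G) {k : ℕ} (hk : k ≤ ds ℓ x y) :
    ∃ z, Btw ℓ x z y ∧ ds ℓ x z = k := by
  obtain ⟨h, h1, h2⟩ := hl.geod (x⁻¹ * y) k hk
  refine ⟨x * h, ?_, ?_⟩
  · unfold Btw ds
    rw [show x⁻¹ * (x * h) = h by group, show (x * h)⁻¹ * y = h⁻¹ * (x⁻¹ * y) by group, h1, h2]
    unfold ds at hk
    omega
  · unfold ds
    rw [show x⁻¹ * (x * h) = h by group, h1]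

/-- Sub-geodesics. -/
theorem Btw.trans_left (hl : IsLen ℓ) {x p y z : G} (h : Btw ℓ x p y) (h' : Btw ℓ p z y) :
    Btw ℓ x p z ∧ Btw ℓ x z y := by
  unfold Btw at *
  have h1 := hl.ds_tri x p z
  have h2 := hl.ds_tri x z y
  constructor <;> omega

/-- A full geodesic. -/
theorem IsLen.exists_path (hl : IsLen ℓ) (x y : G) :
    ∃ c : ℕ → G, c 0 = x ∧ c (ds ℓ x y) = y ∧
      ∀ i j, i ≤ j → j ≤ ds ℓ x y → ds ℓ (c i) (c j) = j - i := by
  suffices H : ∀ n (x y : G), ds ℓ x y = n → ∃ c : ℕ → G, c 0 = x ∧ c n = y ∧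
      ∀ i j, i ≤ j → j ≤ n → ds ℓ (c i) (c j) = j - i from H _ x y rfl
  intro n
  induction n with
  | zero =>
    intro x y h
    refine ⟨fun _ => x, rfl, ?_, ?_⟩
    · exact hl.ds_eq_zero.1 h
    · intro i j hij hj
      have : j = 0 := by omega
      subst this
      rw [hl.ds_self]; omega
  | succ n ih =>
    intro x y h
    obtain ⟨z, hz, hzk⟩ := hl.exists_btw x y (k := n) (by omega)
    obtain ⟨c, c0, cn, hc⟩ := ih x z hzk
    have hzy : ds ℓ z y = 1 := by unfold Btw at hz; omega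
    refine ⟨fun i => if i ≤ n then c i else y, ?_, ?_, ?_⟩
    · simp [c0]
    · simp
    · intro i j hij hj
      by_cases hjn : j ≤ n
      · simp only [hjn, le_trans hij hjn, if_true]
        exact hc i j hij hjn
      · have hj' : j = n + 1 := by omega
        subst hj'
        by_cases hin : i ≤ n
        · simp only [hin, if_true, show ¬ n + 1 ≤ n by omega, if_false]
          have h1 := hc i n hin le_rfl
          have h0 := hc 0 i (Nat.zero_le _) hin
          rw [c0] at h0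
          rw [cn] at h1
          have h2 := hl.ds_tri (c i) z y
          have h3 := hl.ds_tri x (c i) y
          omega
        · simp only [hin, if_false, show ¬ n + 1 ≤ n by omega]
          rw [hl.ds_self]; omega

/-- Splitting: a point near the pair `(u, v)` is near the pair `(u, y)` or `(y, v)`. -/
theorem Hyp.split (hD : Hyp ℓ D) (hl : IsLen ℓ) {p u v : G} {t : ℕ}
    (h : ds ℓ p u + ds ℓ p v ≤ ds ℓ u v + t) (y : G) :
    ds ℓ p u + ds ℓ p y ≤ ds ℓ u y + t + D ∨ ds ℓ p y + ds ℓ p v ≤ ds ℓ y v + t + D := by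
  have h1 := hD u p v y
  rw [hl.ds_comm u p, hl.ds_comm v y] at h1
  rcases le_total (ds ℓ p u + ds ℓ y v) (ds ℓ u y + ds ℓ p v) with h2 | h2
  · rw [max_eq_right h2] at h1
    left; omega
  · rw [max_eq_left h2] at h1
    right; omega

theorem Btw.near (hl : IsLen ℓ) {u z v : G} (h : Btw ℓ u z v) :
    ds ℓ z u + ds ℓ z v ≤ ds ℓ u v + 0 := by
  unfold Btw at h
  rw [hl.ds_comm z u]; omega

/-- The basic estimate (P): `z` on a geodesic from `x` to `y`. -/
theorem Hyp.P (hD : Hyp ℓ D) (hl : IsLen ℓ) {x z y : G} (h : Btw ℓ x z y) (u : G) :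
    ds ℓ z u + ds ℓ z x ≤ ds ℓ u x + D ∨ ds ℓ z u + ds ℓ z y ≤ ds ℓ u y + D := by
  rcases hD.split hl (h.near hl) u with h1 | h1
  · left; rw [hl.ds_comm u x]; omega
  · right; omega

/-- A point near a pair is near a point of a geodesic. -/
theorem Hyp.near_point (hD : Hyp ℓ D) (hl : IsLen ℓ) {p u v : G} {t : ℕ}
    (h : ds ℓ p u + ds ℓ p v ≤ ds ℓ u v + t) : ∃ z, Btw ℓ u z v ∧ ds ℓ p z ≤ t + D := by
  rcases le_total (ds ℓ p u) (ds ℓ u v) with h1 | h1
  · obtain ⟨z, hz, hzk⟩ := hl.exists_btw u v h1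
    refine ⟨z, hz, ?_⟩
    have h2 := hD.P hl hz p
    unfold Btw at hz
    rw [hl.ds_comm z p, hl.ds_comm z u] at h2
    omega
  · refine ⟨v, hl.btw_right u v, ?_⟩
    omega

end Mon
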