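import Pool.Agent.Mon.Basic

/-!
# Project Mon, module Proj: nearest point projections to quasiconvex sets

`cK κ D = 2 (2 κ + 2 D + 1) + D` is the constant of the projection to a `κ`-quasiconvex set.

Proofs.
`nearest`: let `p` be a nearest point of `u`, `q ∈ A`.  If `ds p q ≤ D + κ` the claim is
`ds u p ≤ ds u q` plus trivialities.  Otherwise let `m` be between `p` and `q` with
`ds p m = D + κ + 1` (`exists_btw`), `a ∈ A` with `ds m a ≤ κ` (`QC.qc`), so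
`ds u p ≤ ds u a ≤ ds u m + κ`.  By `Hyp.P` (for `m` between `p, q`):
`ds m u + ds m p ≤ ds u p + D` (impossible: it gives `D + κ + 1 ≤ D + κ`) or
`ds m u + ds m q ≤ ds u q + D`: then `ds u q ≥ (ds u p - κ) + (ds p q - D - κ - 1) - D`.
`pass0`: the four point condition for `u, v, p, q`: `ds u q + ds p v ≤ max (ds u p + ds q v)
(ds u v + ds p q) + D` (in the suitable order) and `nearest` twice:
`ds u p + ds p q ≤ ds u q + c₁`, `ds v q + ds p q ≤ ds v p + c₁`, `c₁ = 2 κ + 2 D + 1`.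
`dP_att`: the set in the definition of `dP` is non-empty and bounded (by
`ds p u + ds u v + ds v q`, the distances from `u` and `v` to nearest points are fixed), `Nat.sSup_mem`.
`dP_self`: `nearest` for two nearest points `p, p'` of `u`: `ds p p' ≤ c₁`.
`dP_near`: the only nearest point of `p ∈ A` is `p`; `dP A u p = sup ds p' p ≤ c₁`.
`dP_pass`: `pass0` for points which realise `dP`.
`loc0`: take `p, q` realising `dP A u v`; `pass0` gives `ds u p + ds p q + ds q v ≤ ds u v + c`.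
By `Hyp.P` for `z` and the point `p`: `ds z p + ds z u ≤ ds p u + D` (so `ds z p ≤ D`) or
`ds z p + ds z v ≤ ds p v + D ≤ ds p q + ds q v + D ≤ ds u v + c - ds u p + D`, so `ds z p ≤ c + D`.
Similarly for `q`.
`dA_smul`, `dP_smul`: translate by `g` (`ds_smul`).
-/

namespace Mon

variable {G : Type*} [Group G] {ℓ : G → ℕ} {D κ : ℕ} {A : Set G}

/-- The constant of the projection to a `κ`-quasiconvex set. -/
def cK (κ D : ℕ) : ℕ := 2 * (2 * κ + 2 * D + 1) + D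

theorem dA_le {a : G} (ha : a ∈ A) (u : G) : dA ℓ A u ≤ ds ℓ u a := by
  exact Nat.sInf_le ⟨a, ha, rfl⟩

theorem dA_att (hA : A.Nonempty) (u : G) : ∃ a ∈ A, ds ℓ u a = dA ℓ A u := by
  obtain ⟨a, ha⟩ := hA
  exact Nat.sInf_mem (s := {n | ∃ a ∈ A, ds ℓ u a = n}) ⟨_, a, ha, rfl⟩

theorem mem_pr_iff (hA : A.Nonempty) {u p : G} : p ∈ pr ℓ A u ↔ p ∈ A ∧ ds ℓ u p = dA ℓ A u := by
  constructor
  · rintro ⟨h1, h2⟩
    refine ⟨h1, le_antisymm ?_ (dA_le h1 u)⟩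
    obtain ⟨a, ha, hau⟩ := dA_att (ℓ := ℓ) hA u
    rw [← hau]
    exact h2 a ha
  · rintro ⟨h1, h2⟩
    refine ⟨h1, fun a ha => ?_⟩
    rw [h2]
    exact dA_le ha u

theorem pr_nonempty (hA : A.Nonempty) (u : G) : (pr ℓ A u).Nonempty := by
  obtain ⟨a, ha, hau⟩ := dA_att (ℓ := ℓ) hA u
  exact ⟨a, (mem_pr_iff hA).2 ⟨ha, hau⟩⟩

theorem QC.nearest (hQ : QC ℓ κ A) (hl : IsLen ℓ) (hD : Hyp ℓ D) {u p q : G} (hp : p ∈ pr ℓ A u)
    (hq : q ∈ A) : ds ℓ u p + ds ℓ p q ≤ ds ℓ u q + (2 * κ + 2 * D + 1) := by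
  have h0 := hp.2 q hq
  rcases le_or_gt (ds ℓ p q) (D + κ + 1) with h | h
  · omega
  · obtain ⟨m, hm, hmk⟩ := hl.exists_btw p q (k := D + κ + 1) (by omega)
    obtain ⟨a, ha, hma⟩ := hQ.qc p hp.1 q hq m hm
    have h1 := hp.2 a ha
    have h2 := hl.ds_tri u m a
    have h3 := hD.P hl hm u
    have h4 := hl.ds_comm m u
    have h5 := hl.ds_comm m p
    unfold Btw at hm
    rcases h3 with h3 | h3 <;> omega

theorem QC.pass0 (hQ : QC ℓ κ A) (hl : IsLen ℓ) (hD : Hyp ℓ D) {u v p q : G} (hp : p ∈ pr ℓ A u)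
    (hq : q ∈ pr ℓ A v) : ds ℓ p q ≤ cK κ D ∨ ds ℓ u p + ds ℓ p q + ds ℓ q v ≤ ds ℓ u v + cK κ D := by
  have h1 := hQ.nearest hl hD hp hq.1
  have h2 := hQ.nearest hl hD hq hp.1
  have h3 := hD u p q v
  have h4 := hl.ds_comm v q
  have h5 := hl.ds_comm q p
  have h6 := hl.ds_comm v p
  unfold cK
  rcases le_total (ds ℓ u p + ds ℓ q v) (ds ℓ u v + ds ℓ p q) with h | h
  · rw [max_eq_right h] at h3
    right; omega
  · rw [max_eq_left h] at h3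
    left; omega

theorem pr_eq {u p p' : G} (hp : p ∈ pr ℓ A u) (hp' : p' ∈ pr ℓ A u) : ds ℓ u p = ds ℓ u p' :=
  le_antisymm (hp.2 _ hp'.1) (hp'.2 _ hp.1)

theorem dP_bdd (hl : IsLen ℓ) (u v : G) :
    BddAbove {n | ∃ p ∈ pr ℓ A u, ∃ q ∈ pr ℓ A v, ds ℓ p q = n} := by
  rcases A.eq_empty_or_nonempty with hA | hA
  · refine ⟨0, ?_⟩
    rintro n ⟨p, hp, -⟩
    have := hp.1
    rw [hA] at this
    exact this.elim
  · refine ⟨dA ℓ A u + ds ℓ u v + dA ℓ A v, ?_⟩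
    rintro n ⟨p, hp, q, hq, rfl⟩
    have h1 := ((mem_pr_iff hA).1 hp).2
    have h2 := ((mem_pr_iff hA).1 hq).2
    have h3 := hl.ds_tri p u q
    have h4 := hl.ds_tri u v q
    have h5 := hl.ds_comm p u
    omega

theorem dP_att (hA : A.Nonempty) (hl : IsLen ℓ) (u v : G) :
    ∃ p ∈ pr ℓ A u, ∃ q ∈ pr ℓ A v, ds ℓ p q = dP ℓ A u v := by
  obtain ⟨p, hp⟩ := pr_nonempty (ℓ := ℓ) hA u
  obtain ⟨q, hq⟩ := pr_nonempty (ℓ := ℓ) hA v
  have := Nat.sSup_mem (s := {n | ∃ p ∈ pr ℓ A u, ∃ q ∈ pr ℓ A v, ds ℓ p q = n})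
    ⟨_, p, hp, q, hq, rfl⟩ (dP_bdd hl u v)
  exact this

theorem le_dP (hl : IsLen ℓ) {u v p q : G} (hp : p ∈ pr ℓ A u) (hq : q ∈ pr ℓ A v) :
    ds ℓ p q ≤ dP ℓ A u v := by
  exact le_csSup (dP_bdd hl u v) ⟨p, hp, q, hq, rfl⟩

theorem dP_comm (hl : IsLen ℓ) (u v : G) : dP ℓ A u v = dP ℓ A v u := by
  unfold dP
  congr 1
  ext n
  constructor
  · rintro ⟨p, hp, q, hq, h⟩
    exact ⟨q, hq, p, hp, by rw [hl.ds_comm, h]⟩
  · rintro ⟨p, hp, q, hq, h⟩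
    exact ⟨q, hq, p, hp, by rw [hl.ds_comm, h]⟩

theorem dP_tri (hA : A.Nonempty) (hl : IsLen ℓ) (u v w : G) :
    dP ℓ A u w ≤ dP ℓ A u v + dP ℓ A v w := by
  obtain ⟨p, hp, q, hq, h⟩ := dP_att hA hl u w
  obtain ⟨r, hr⟩ := pr_nonempty (ℓ := ℓ) hA v
  have h1 := le_dP hl hp hr
  have h2 := le_dP hl hr hq
  have h3 := hl.ds_tri p r q
  omega

theorem QC.pr_diam1 (hQ : QC ℓ κ A) (hl : IsLen ℓ) (hD : Hyp ℓ D) {u p p' : G}
    (hp : p ∈ pr ℓ A u) (hp' : p' ∈ pr ℓ A u) : ds ℓ p p' ≤ cK κ D := by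
  have h1 := hQ.nearest hl hD hp hp'.1
  have h2 := pr_eq hp hp'
  unfold cK
  omega

theorem QC.dP_self (hQ : QC ℓ κ A) (hl : IsLen ℓ) (hD : Hyp ℓ D) (u : G) :
    dP ℓ A u u ≤ cK κ D := by
  obtain ⟨p, hp, q, hq, h⟩ := dP_att hQ.ne hl u u
  rw [← h]
  exact hQ.pr_diam1 hl hD hp hq

theorem QC.pr_diam (hQ : QC ℓ κ A) (hl : IsLen ℓ) (hD : Hyp ℓ D) {u p p' : G}
    (hp : p ∈ pr ℓ A u) (hp' : p' ∈ pr ℓ A u) : ds ℓ p p' ≤ cK κ D := by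
  exact hQ.pr_diam1 hl hD hp hp'

theorem pr_mem_eq (hl : IsLen ℓ) {a p : G} (ha : a ∈ A) (hp : p ∈ pr ℓ A a) : p = a := by
  have h1 := hp.2 a ha
  rw [hl.ds_self] at h1
  exact ((hl.ds_eq_zero).1 (by omega : ds ℓ a p = 0)).symm

theorem mem_pr_self (hl : IsLen ℓ) {a : G} (ha : a ∈ A) : a ∈ pr ℓ A a := by
  refine ⟨ha, fun b _ => ?_⟩
  rw [hl.ds_self]
  exact Nat.zero_le _

theorem QC.dP_near (hQ : QC ℓ κ A) (hl : IsLen ℓ) (hD : Hyp ℓ D) {u p : G} (hp : p ∈ A)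
    (hup : ds ℓ u p = dA ℓ A u) : dP ℓ A u p ≤ cK κ D := by
  obtain ⟨p1, hp1, q1, hq1, h⟩ := dP_att hQ.ne hl u p
  rw [← h, pr_mem_eq hl hp hq1]
  exact hQ.pr_diam1 hl hD hp1 ((mem_pr_iff hQ.ne).2 ⟨hp, hup⟩)

theorem dP_mem (hl : IsLen ℓ) {a b : G} (ha : a ∈ A) (hb : b ∈ A) : dP ℓ A a b = ds ℓ a b := by
  obtain ⟨p, hp, q, hq, h⟩ := dP_att ⟨a, ha⟩ hl a b
  rw [← h, pr_mem_eq hl ha hp, pr_mem_eq hl hb hq]

theorem QC.dP_pass (hQ : QC ℓ κ A) (hl : IsLen ℓ) (hD : Hyp ℓ D) (u v : G)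
    (h : cK κ D < dP ℓ A u v) : dA ℓ A u + dP ℓ A u v + dA ℓ A v ≤ ds ℓ u v + cK κ D := by
  obtain ⟨p, hp, q, hq, h1⟩ := dP_att hQ.ne hl u v
  have h2 := ((mem_pr_iff hQ.ne).1 hp).2
  have h3 := ((mem_pr_iff hQ.ne).1 hq).2
  have h4 := hl.ds_comm q v
  rcases hQ.pass0 hl hD hp hq with h5 | h5 <;> omega

theorem dP_upper (hA : A.Nonempty) (hl : IsLen ℓ) (u v : G) :
    ds ℓ u v ≤ dA ℓ A u + dP ℓ A u v + dA ℓ A v := by
  obtain ⟨p, hp, q, hq, h1⟩ := dP_att hA hl u v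
  have h2 := ((mem_pr_iff hA).1 hp).2
  have h3 := ((mem_pr_iff hA).1 hq).2
  have h4 := hl.ds_comm q v
  have h5 := hl.ds_tri u p v
  have h6 := hl.ds_tri p q v
  omega

theorem QC.loc0 (hQ : QC ℓ κ A) (hl : IsLen ℓ) (hD : Hyp ℓ D) {u v : G}
    (h : cK κ D < dP ℓ A u v) : ∃ p ∈ pr ℓ A u, ∃ q ∈ pr ℓ A v, ds ℓ p q = dP ℓ A u v ∧
      (∀ z, Btw ℓ u z v → ds ℓ u z = dA ℓ A u → ds ℓ z p ≤ cK κ D + D) ∧
      ∀ z, Btw ℓ u z v → ds ℓ z v = dA ℓ A v → ds ℓ z q ≤ cK κ D + D := by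
  obtain ⟨p, hp, q, hq, h1⟩ := dP_att hQ.ne hl u v
  have h2 := ((mem_pr_iff hQ.ne).1 hp).2
  have h3 := ((mem_pr_iff hQ.ne).1 hq).2
  have h4 := hl.ds_comm q v
  refine ⟨p, hp, q, hq, h1, ?_, ?_⟩
  · intro z hz hzu
    have h5 := hD.P hl hz p
    have h6 := hl.ds_comm z u
    have h7 := hl.ds_comm p u
    have h8 := hl.ds_tri p q v
    unfold Btw at hz
    rcases hQ.pass0 hl hD hp hq with h9 | h9
    · omega
    · rcases h5 with h5 | h5 <;> omega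
  · intro z hz hzv
    have h5 := hD.P hl hz q
    have h6 := hl.ds_comm z u
    have h7 := hl.ds_comm q u
    have h8 := hl.ds_tri u p q
    unfold Btw at hz
    rcases hQ.pass0 hl hD hp hq with h9 | h9
    · omega
    · rcases h5 with h5 | h5 <;> omega

theorem dA_smul {A B : Set G} {g : G} (h : ∀ x, g * x ∈ B ↔ x ∈ A) (x : G) :
    dA ℓ B (g * x) = dA ℓ A x := by
  unfold dA
  congr 1
  ext n
  constructor
  · rintro ⟨b, hb, h1⟩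
    refine ⟨g⁻¹ * b, (h _).1 (by simpa using hb), ?_⟩
    rw [← h1, ← ds_smul g x]
    simp
  · rintro ⟨a, ha, h1⟩
    exact ⟨g * a, (h _).2 ha, by rw [ds_smul, h1]⟩

theorem mem_pr_smul {A B : Set G} {g : G} (h : ∀ x, g * x ∈ B ↔ x ∈ A) (x p : G) :
    g * p ∈ pr ℓ B (g * x) ↔ p ∈ pr ℓ A x := by
  constructor
  · rintro ⟨h1, h2⟩
    refine ⟨(h p).1 h1, fun a ha => ?_⟩
    have := h2 (g * a) ((h a).2 ha)
    rwa [ds_smul, ds_smul] at this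
  · rintro ⟨h1, h2⟩
    refine ⟨(h p).2 h1, fun b hb => ?_⟩
    have := h2 (g⁻¹ * b) ((h _).1 (by simpa using hb))
    rw [← ds_smul g, ← ds_smul g x (g⁻¹ * b)] at this
    simpa using this

theorem dP_smul {A B : Set G} {g : G} (h : ∀ x, g * x ∈ B ↔ x ∈ A) (x y : G) :
    dP ℓ B (g * x) (g * y) = dP ℓ A x y := by
  unfold dP
  congr 1
  ext n
  constructor
  · rintro ⟨p, hp, q, hq, h1⟩
    refine ⟨g⁻¹ * p, (mem_pr_smul h x _).1 (by simpa using hp), g⁻¹ * q,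
      (mem_pr_smul h y _).1 (by simpa using hq), ?_⟩
    rw [← h1, ← ds_smul g]
    simp
  · rintro ⟨p, hp, q, hq, h1⟩
    exact ⟨g * p, (mem_pr_smul h x p).2 hp, g * q, (mem_pr_smul h y q).2 hq, by
      rw [ds_smul, h1]⟩

end Mon
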