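import Pool.Agent.Mon.Lox2
import Pool.Agent.Mon.Proj

/-!
# Project Mon, module Comm: parallel axes are close, elements which commute with a power are short

`parallel`: let `f n = ℓ (wⁿ)`, `A = p₀ ⟨w⟩` (a `κ`-quasiconvex set, `κ = f 1 + e + D`, a translate of
`⟨w⟩`, `qc_zpowers`), `x = p₀ w p₀⁻¹`, and let `q` be a point with `ds q (xᵏ q) ≤ f k` for all `k : ℕ`
(`ds q (xᵏ q) = ℓ (q⁻¹ xᵏ q)`).  Then `2 ds q p ≤ cK κ D` for some `p ∈ A`.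
Proof: let `p ∈ A` be a nearest point of `q`, `t = ds q p`.  `x` maps `A` to itself, so `xᵏ p` is a nearest
point of `xᵏ q` and `ds p (xᵏ p) = f k` (`p = p₀ wʲ`).  So `dP A q (xᵏ q) ≥ f k > cK κ D` for large `k`
(`Unb`), and `dP_pass` gives `t + f k + t ≤ ds q (xᵏ q) + cK κ D ≤ f k + cK κ D`.

`comm_short`: if `g` commutes with `w`, apply this to `p₀ = 1`, `q = g`
(`ℓ (g⁻¹ wᵏ g) = ℓ (wᵏ)`): `2 ds g (wʲ) ≤ cK κ D` for some `j`, `ds g (wʲ) = ℓ (g⁻¹ wʲ) = ℓ (w⁻ʲ g)`.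
-/

namespace Mon

variable {G : Type*} [Group G] {ℓ : G → ℕ} {D : ℕ}

/-- A translate of a quasiconvex set. -/
theorem QC.smul {κ : ℕ} {A B : Set G} (hA : QC ℓ κ A) (g : G) (h : ∀ x, g * x ∈ B ↔ x ∈ A) :
    QC ℓ κ B := by
  have hm : ∀ p, p ∈ B ↔ g⁻¹ * p ∈ A := fun p => by rw [← h, mul_inv_cancel_left]
  refine ⟨?_, ?_⟩
  · obtain ⟨a, ha⟩ := hA.ne
    exact ⟨g * a, (h a).2 ha⟩
  · intro p hp q hq z hz
    obtain ⟨a, ha, hza⟩ := hA.qc _ ((hm p).1 hp) _ ((hm q).1 hq) (g⁻¹ * z) (hz.smul g⁻¹)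
    refine ⟨g * a, (h a).2 ha, ?_⟩
    rw [← ds_smul g (g⁻¹ * z) a, mul_inv_cancel_left] at hza
    exact hza

theorem parallel (hl : IsLen ℓ) (hD : Hyp ℓ D) {w p₀ q : G} {e : ℕ}
    (hw : QL (fun n => ℓ (w ^ n)) e) (hu : Unb (fun n => ℓ (w ^ n)))
    (hq : ∀ k : ℕ, ds ℓ q ((p₀ * w * p₀⁻¹) ^ k * q) ≤ ℓ (w ^ k)) :
    ∃ j : ℤ, 2 * ds ℓ q (p₀ * w ^ j) ≤ cK (ℓ w + e + D) D := by
  set A : Set G := {x | p₀⁻¹ * x ∈ (Subgroup.zpowers w : Set G)} with hAdef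
  have hQ : QC ℓ (ℓ w + e + D) A := (qc_zpowers hl hD hw).smul p₀ fun x => by
    rw [hAdef, Set.mem_ofPred_eq, inv_mul_cancel_left]
  obtain ⟨p, hp⟩ := pr_nonempty (ℓ := ℓ) hQ.ne q
  obtain ⟨j, hj⟩ : ∃ j : ℤ, w ^ j = p₀⁻¹ * p := Subgroup.mem_zpowers_iff.1 hp.1
  have hpj : p = p₀ * w ^ j := by rw [hj, mul_inv_cancel_left]
  refine ⟨j, ?_⟩
  rw [← hpj]
  obtain ⟨k, hk⟩ := hu (cK (ℓ w + e + D) D + 1)
  have hk' := hk k le_rfl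
  simp only at hk'
  set x := (p₀ * w * p₀⁻¹) ^ k with hx
  have hxe : x = p₀ * w ^ (k : ℤ) * p₀⁻¹ := by
    rw [hx, conj_pow, zpow_natCast]
  have hxA : ∀ a ∈ A, x * a ∈ A := by
    intro a ha
    obtain ⟨i, hi⟩ : ∃ i : ℤ, w ^ i = p₀⁻¹ * a := Subgroup.mem_zpowers_iff.1 ha
    refine Subgroup.mem_zpowers_iff.2 ⟨k + i, ?_⟩
    rw [zpow_add, hi, hxe]
    group
  have hxA' : ∀ a ∈ A, x⁻¹ * a ∈ A := by
    intro a ha
    obtain ⟨i, hi⟩ : ∃ i : ℤ, w ^ i = p₀⁻¹ * a := Subgroup.mem_zpowers_iff.1 ha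
    refine Subgroup.mem_zpowers_iff.2 ⟨-k + i, ?_⟩
    rw [zpow_add, hi, hxe, zpow_neg]
    group
  have hxp : x * p ∈ pr ℓ A (x * q) := by
    refine ⟨hxA p hp.1, fun a ha => ?_⟩
    rw [ds_smul]
    have h1 := hp.2 _ (hxA' a ha)
    rw [← ds_smul x q (x⁻¹ * a), mul_inv_cancel_left] at h1
    exact h1
  have hd : ds ℓ p (x * p) = ℓ (w ^ k) := by
    unfold ds
    congr 1
    rw [hxe, hpj, zpow_natCast]
    have h1 : (p₀ * w ^ j)⁻¹ * (p₀ * w ^ k * p₀⁻¹ * (p₀ * w ^ j)) =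
        w ^ (-j) * (w ^ k) * w ^ j := by
      rw [zpow_neg]
      group
    rw [h1, ← zpow_natCast, ← zpow_add, ← zpow_add]
    congr 1
    ring
  have h1 := hQ.pass0 hl hD hp hxp
  rw [hd] at h1
  have h2 := hq k
  rw [← hx] at h2
  have h3 : ds ℓ (x * p) (x * q) = ds ℓ q p := by rw [ds_smul, hl.ds_comm]
  rw [h3] at h1
  omega

theorem comm_short (hl : IsLen ℓ) (hD : Hyp ℓ D) {w g : G} {e : ℕ}
    (hw : QL (fun n => ℓ (w ^ n)) e) (hu : Unb (fun n => ℓ (w ^ n))) (hg : g * w = w * g) :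
    ∃ j : ℤ, 2 * ℓ (w ^ j * g) ≤ cK (ℓ w + e + D) D := by
  obtain ⟨j, hj⟩ := parallel hl hD (w := w) (p₀ := 1) (q := g) hw hu (fun k => by
    have hc : Commute g w := hg
    have h1 : g⁻¹ * (w ^ k * g) = w ^ k := by
      rw [← (hc.pow_right k).eq, inv_mul_cancel_left]
    unfold ds
    rw [one_mul, inv_one, mul_one, h1])
  refine ⟨-j, ?_⟩
  have h1 : ℓ (w ^ (-j) * g) = ds ℓ g (1 * w ^ j) := by
    unfold ds
    rw [one_mul, ← hl.inv (g⁻¹ * w ^ j), mul_inv_rev, inv_inv, zpow_neg]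
  rw [h1]
  exact hj

end Mon
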