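import Mathlib

/-!
# Project Mon (MP_23d001_lc): basic definitions

THEOREM.  There is an infinite group `G` (in a language with a unary predicate), whose diagram is good
and categorical in every infinite cardinal, such that every abelian subgroup of `G` is finite.

`G` is a limit of quotients of the free group `F` of countable rank by normal subgroups `N` which are
invariant under the permutations of the letters; every quotient is a hyperbolic group (of infinite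
rank), in every step a power of a prime exponent is imposed on an element of infinite order.

CONVENTIONS.  All distances and constants are natural numbers, so that `omega` proves the
inequalities.  `ℓ` is a (geodesic) length function on a group `G`, `ds ℓ x y = ℓ (x⁻¹ y)` is the left
invariant distance, `Hyp ℓ D` is the four point condition (`D = 2δ`).
-/

namespace Mon

/-- A geodesic length function (as the word length). -/
structure IsLen {G : Type*} [Group G] (ℓ : G → ℕ) : Prop where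
  one : ∀ g, ℓ g = 0 ↔ g = 1
  inv : ∀ g, ℓ g⁻¹ = ℓ g
  mul : ∀ g h, ℓ (g * h) ≤ ℓ g + ℓ h
  geod : ∀ g k, k ≤ ℓ g → ∃ h, ℓ h = k ∧ ℓ (h⁻¹ * g) = ℓ g - k

/-- The distance of a length function. -/
def ds {G : Type*} [Group G] (ℓ : G → ℕ) (x y : G) : ℕ := ℓ (x⁻¹ * y)

/-- The four point condition. -/
def Hyp {G : Type*} [Group G] (ℓ : G → ℕ) (D : ℕ) : Prop :=
  ∀ x y z t : G, ds ℓ x z + ds ℓ y t ≤
    max (ds ℓ x y + ds ℓ z t) (ds ℓ x t + ds ℓ y z) + D

/-- `z` is on a geodesic from `x` to `y`. -/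
def Btw {G : Type*} [Group G] (ℓ : G → ℕ) (x z y : G) : Prop :=
  ds ℓ x z + ds ℓ z y = ds ℓ x y

/-- Slim triangles. -/
def Slim {G : Type*} [Group G] (ℓ : G → ℕ) (δ : ℕ) : Prop :=
  ∀ x y z p : G, Btw ℓ x p y → ∃ q, (Btw ℓ y q z ∨ Btw ℓ z q x) ∧ ds ℓ p q ≤ δ

/-- A non-empty `κ`-quasiconvex set. -/
structure QC {G : Type*} [Group G] (ℓ : G → ℕ) (κ : ℕ) (A : Set G) : Prop where
  ne : A.Nonempty
  qc : ∀ p ∈ A, ∀ q ∈ A, ∀ z, Btw ℓ p z q → ∃ a ∈ A, ds ℓ z a ≤ κ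

/-- The distance from a point to a set. -/
noncomputable def dA {G : Type*} [Group G] (ℓ : G → ℕ) (A : Set G) (u : G) : ℕ :=
  sInf {n | ∃ a ∈ A, ds ℓ u a = n}

/-- The nearest points of `u` in the set `A`. -/
def pr {G : Type*} [Group G] (ℓ : G → ℕ) (A : Set G) (u : G) : Set G :=
  {p | p ∈ A ∧ ∀ a ∈ A, ds ℓ u p ≤ ds ℓ u a}

/-- The distance of the projections of `u` and `v` to the set `A`. -/
noncomputable def dP {G : Type*} [Group G] (ℓ : G → ℕ) (A : Set G) (u v : G) : ℕ :=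
  sSup {n | ∃ p ∈ pr ℓ A u, ∃ q ∈ pr ℓ A v, ds ℓ p q = n}

/-- The uniform finiteness condition (UP): the balls of the subgroups generated by three short
elements have bounded cardinality. -/
def UP {G : Type*} [Group G] (ℓ : G → ℕ) : Prop :=
  ∀ r : ℕ, ∃ M : ℕ, ∀ g₁ g₂ g₃ : G, ℓ g₁ ≤ r → ℓ g₂ ≤ r → ℓ g₃ ≤ r →
    {x | x ∈ Subgroup.closure ({g₁, g₂, g₃} : Set G) ∧ ℓ x ≤ r}.Finite ∧
    {x | x ∈ Subgroup.closure ({g₁, g₂, g₃} : Set G) ∧ ℓ x ≤ r}.ncard ≤ M

/-- The finiteness condition (Fin): there are finitely many sequences `n ↦ ℓ (gⁿ)` for the elements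
`g` of length at most `r`. -/
def FinSeq {G : Type*} [Group G] (ℓ : G → ℕ) : Prop :=
  ∀ r : ℕ, {f : ℕ → ℕ | ∃ g : G, ℓ g ≤ r ∧ ∀ n, f n = ℓ (g ^ n)}.Finite

/-- A hyperbolic group (of possibly infinite rank) with the two finiteness conditions. -/
structure HypGrp {G : Type*} [Group G] (ℓ : G → ℕ) (D : ℕ) : Prop where
  len : IsLen ℓ
  hyp : Hyp ℓ D
  up : UP ℓ
  fin : FinSeq ℓ

/-- The sequence `f` is almost superadditive. -/
def QL (f : ℕ → ℕ) (e : ℕ) : Prop := ∀ m n, f m + f n ≤ f (m + n) + e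

/-- The sequence tends to infinity. -/
def Unb (f : ℕ → ℕ) : Prop := ∀ K, ∃ n₀, ∀ n ≥ n₀, K ≤ f n

/-- A ROTATION SYSTEM: a family of sets `S A` (`A ∈ ι`), a distance `dS A x` to the set, the distance
`P A x y` of the projections of `x` and `y` to the set, a rotation group `R A`.  The group `G` acts on
the family.  `c` is the constant of the projections, `θ` the constant of the Behrstock inequality,
`τ` is a lower bound for the rotations, `h` the bound for shortest pairs. -/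
structure RotSys {G ι : Type*} [Group G] [MulAction G ι] (ℓ : G → ℕ) (D : ℕ) (S : ι → Set G)
    (dS : ι → G → ℕ) (P : ι → G → G → ℕ) (R : ι → Subgroup G) (c θ h τ : ℕ) : Prop where
  len : IsLen ℓ
  hyp : Hyp ℓ D
  S_smul : ∀ (g : G) (A : ι) (x : G), g * x ∈ S (g • A) ↔ x ∈ S A
  dS_le : ∀ (A : ι) (x : G), ∀ a ∈ S A, dS A x ≤ ds ℓ x a
  dS_att : ∀ (A : ι) (x : G), ∃ a ∈ S A, ds ℓ x a = dS A x
  P_comm : ∀ (A : ι) (x y : G), P A x y = P A y x
  P_tri : ∀ (A : ι) (x y z : G), P A x z ≤ P A x y + P A y z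
  P_smul : ∀ (g : G) (A : ι) (x y : G), P (g • A) (g * x) (g * y) = P A x y
  P_near : ∀ (A : ι) (x a : G), a ∈ S A → ds ℓ x a = dS A x → P A x a ≤ c
  P_mem : ∀ (A : ι), ∀ a ∈ S A, ∀ b ∈ S A, P A a b = ds ℓ a b
  P_self : ∀ (A : ι) (x : G), P A x x ≤ c
  pass : ∀ (A : ι) (x y : G), c < P A x y → dS A x + P A x y + dS A y ≤ ds ℓ x y + c
  upper : ∀ (A : ι) (x y : G), ds ℓ x y ≤ dS A x + P A x y + dS A y
  diam : ∀ (A B : ι), A ≠ B → ∀ a ∈ S B, ∀ b ∈ S B, P A a b ≤ θ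
  beh : ∀ (A B : ι), A ≠ B → ∀ a ∈ S A, ∀ b ∈ S B, ∀ x, P A x b ≤ θ ∨ P B x a ≤ θ
  R_smul : ∀ (g : G) (A : ι), ∀ r ∈ R A, g * r * g⁻¹ ∈ R (g • A)
  R_fix : ∀ (A : ι), ∀ r ∈ R A, r • A = A
  rot : ∀ (A : ι), ∀ r ∈ R A, r ≠ 1 → ∀ x, τ ≤ P A x (r * x)
  min : ∀ (A : ι) (x y : G), (∀ r ∈ R A, ds ℓ x y ≤ ds ℓ (r * x) y) → P A x y ≤ h
  c_le_θ : c ≤ θ
  c_le_h : c ≤ h
  big : h + 40 * θ < τ

/-- An AXIS SYSTEM: in addition `Cy A` is the stabiliser of `A`, and its elements have a well defined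
translation length. -/
structure AxSys {G ι : Type*} [Group G] [MulAction G ι] (ℓ : G → ℕ) (D : ℕ) (S : ι → Set G)
    (dS : ι → G → ℕ) (P : ι → G → G → ℕ) (R : ι → Subgroup G) (Cy : ι → Subgroup G)
    (c θ h τ : ℕ) : Prop extends RotSys ℓ D S dS P R c θ h τ where
  stab : ∀ (A : ι) (g : G), g • A = A ↔ g ∈ Cy A
  trans : ∀ (A : ι), ∀ y ∈ Cy A, ∀ x x' : G, P A x' (y * x') ≤ P A x (y * x) + c

/-- `π : G → G'` is a quotient map and `ℓ'` is the quotient length. -/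
structure IsQuot {G G' : Type*} [Group G] [Group G'] (π : G →* G') (ℓ : G → ℕ) (ℓ' : G' → ℕ) :
    Prop where
  le : ∀ y, ℓ' (π y) ≤ ℓ y
  att : ∀ x', ∃ y, π y = x' ∧ ℓ y = ℓ' x'

/-- A pair of points whose distance is minimal modulo the normal subgroup `N` (acting on the left). -/
def MinP {G : Type*} [Group G] (ℓ : G → ℕ) (N : Subgroup G) (u v : G) : Prop :=
  ∀ n ∈ N, ds ℓ u v ≤ ds ℓ u (n * v)

end Mon
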