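import Pool.Agent.Mon.Comm

/-!
# Project Mon, module Elem: maximal cyclic subgroups (Lemma E)

Hypotheses: `G` is hyperbolic (`HypGrp`), the centralisers of the non-trivial elements of finite order are
finite, there are no involutions.
(1) Let `u` have infinite order and `h u^s = u^s h`, `s ≥ 1`.  Then `⟨u, h⟩` is cyclic.
Proof.  `H = ⟨u, h⟩`, `z = u^s` is in the centre of `H`.  `H` is torsion free: a non-trivial element of
finite order of `H` commutes with `z`, which has infinite order, so its centraliser is infinite.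
By `comm_short` for `w = z` (use `HypGrp.lox`) every `x ∈ H` is `z^(-j) x'`, `x' ∈ H`, `ℓ x' ≤ ρ`.  By `UP` (for
the generators `u, h, 1`, `r = max (ℓ u) (ℓ h) ρ`) there are finitely many `x'`, so `⟨z⟩` has finite index
in `H`, and the centre of `H` has finite index `m`.  The transfer `x ↦ x^m` is a homomorphism from `H` to
its centre (`MonoidHom.transferCenterPow`), it is injective as `H` is torsion free, so `H` is commutative.
Then `x ↦ x^(m')`, `m' = [H : ⟨z⟩]` is an injective homomorphism from `H` to `⟨z⟩` so `H` is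
cyclic (`isCyclic_of_injective`).
(2) Let `v` have infinite order.  There is `M` such that `k ≤ M` whenever `v = w^k` or `v = w^(-k)`,
`k ≥ 1`.  Proof: `w` commutes with `v`; by `comm_short` `w' = v^j w` has length `≤ ρ = ρ (v)` for some `j`.
The elements `w^i`, `0 ≤ i < k`, are in different cosets of `⟨v⟩`; each of them commutes with `v`, so by
`comm_short` some `v^(j_i) w^i` has length `≤ ρ`; these are `k` different elements of the subgroup generated
by `v, w', 1` (which contains `w`).  Take `M` from `UP` for `r = max (ℓ v) ρ`.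
(3) Choose `w` with `v ∈ ⟨w⟩` such that the exponent `k` in (2) is maximal.  If `g w^s = w^s g`, `s ≥ 1`,
then `⟨w, g⟩ = ⟨w'⟩` by (1), `w = w'^j`, and by maximality `j = ± 1`, so `g ∈ ⟨w⟩`.
(4) If `g w g⁻¹ = w⁻¹` then `g²` commutes with `w`, so `g² = w^k`; `g` commutes with `g² = w^k` and
`g w^k g⁻¹ = w^(-k)`, so `w^(2k) = 1`, `k = 0`, `g² = 1`, `g = 1`, `w = w⁻¹`: a contradiction.
-/

namespace Mon

variable {G : Type*} [Group G] {ℓ : G → ℕ} {D : ℕ}

/-- A group whose elements of finite order are trivial, with a cyclic central subgroup of finite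
index, is cyclic. -/
private theorem cyclic_of_central {H : Type*} [Group H] (hH : ∀ x : H, IsOfFinOrder x → x = 1)
    {z : H} (hz : ∀ x : H, x * z = z * x) (hf : (Subgroup.zpowers z).FiniteIndex) :
    IsCyclic H := by
  have hle : Subgroup.zpowers z ≤ Subgroup.center H := by
    rw [Subgroup.zpowers_le, Subgroup.mem_center_iff]
    exact hz
  have : (Subgroup.center H).FiniteIndex := Subgroup.finiteIndex_of_le hle
  have hcomm : ∀ a b : H, a * b = b * a := by
    intro a b
    have h1 : a * b * a⁻¹ * b⁻¹ = 1 := by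
      apply hH
      rw [isOfFinOrder_iff_pow_eq_one]
      refine ⟨(Subgroup.center H).index,
        Nat.pos_of_ne_zero Subgroup.FiniteIndex.index_ne_zero, ?_⟩
      rw [← MonoidHom.transferCenterPow_apply, map_mul, map_mul, map_mul, map_inv, map_inv]
      have h2 : MonoidHom.transferCenterPow H a * MonoidHom.transferCenterPow H b *
          (MonoidHom.transferCenterPow H a)⁻¹ * (MonoidHom.transferCenterPow H b)⁻¹ = 1 := by
        have h3 : MonoidHom.transferCenterPow H a * MonoidHom.transferCenterPow H b =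
            MonoidHom.transferCenterPow H b * MonoidHom.transferCenterPow H a :=
          Subtype.ext (Subgroup.mem_center_iff.1 (MonoidHom.transferCenterPow H b).2 _)
        rw [h3]
        group
      rw [h2]
      rfl
    have h2 : a * b * (b * a)⁻¹ = 1 := by
      rw [mul_inv_rev, ← mul_assoc]
      exact h1
    exact mul_inv_eq_one.1 h2
  let _ : CommGroup H := { (inferInstance : Group H) with mul_comm := hcomm }
  let f : H →* Subgroup.zpowers z :=
    (powMonoidHom (Subgroup.zpowers z).index).codRestrict (Subgroup.zpowers z)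
      (fun x => by
        have := Subgroup.pow_index_mem (Subgroup.zpowers z) x
        exact this)
  refine isCyclic_of_injective f ?_
  rw [injective_iff_map_eq_one]
  intro x hx
  apply hH
  rw [isOfFinOrder_iff_pow_eq_one]
  refine ⟨(Subgroup.zpowers z).index, Nat.pos_of_ne_zero hf.index_ne_zero, ?_⟩
  have := congrArg Subtype.val hx
  exact this

/-- (1) -/
theorem HypGrp.cyclic (hG : HypGrp ℓ D)
    (hc : ∀ g : G, IsOfFinOrder g → g ≠ 1 → {x : G | x * g = g * x}.Finite) {u h : G}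
    (hu : ∀ n : ℕ, 0 < n → u ^ n ≠ 1) {s : ℕ} (hs : 0 < s) (hh : h * u ^ s = u ^ s * h) :
    ∃ w, u ∈ Subgroup.zpowers w ∧ h ∈ Subgroup.zpowers w := by
  classical
  set H : Subgroup G := Subgroup.closure ({u, h, 1} : Set G) with hHdef
  have huH : u ∈ H := Subgroup.subset_closure (by simp)
  have hhH : h ∈ H := Subgroup.subset_closure (by simp)
  have hzinf : ∀ n : ℕ, 0 < n → (u ^ s) ^ n ≠ 1 := by
    intro n hn
    rw [← pow_mul]
    exact hu _ (Nat.mul_pos hs hn)
  have hcen : ∀ x ∈ H, x * u ^ s = u ^ s * x := by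
    intro x hx
    have hx' : x ∈ Subgroup.centralizer ({u ^ s} : Set G) := by
      have hle : H ≤ Subgroup.centralizer ({u ^ s} : Set G) := by
        rw [hHdef, Subgroup.closure_le]
        rintro y (rfl | rfl | rfl)
        · rw [SetLike.mem_coe, Subgroup.mem_centralizer_singleton_iff]
          rw [← pow_succ, ← pow_succ']
        · rw [SetLike.mem_coe, Subgroup.mem_centralizer_singleton_iff]
          exact hh
        · rw [SetLike.mem_coe, Subgroup.mem_centralizer_singleton_iff]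
          rw [one_mul, mul_one]
      exact hle hx
    rw [Subgroup.mem_centralizer_singleton_iff] at hx'
    exact hx'
  have htf : ∀ x ∈ H, IsOfFinOrder x → x = 1 := by
    intro x hx hfo
    by_contra hne
    have hfin := hc x hfo hne
    have hinj : Function.Injective (fun n : ℕ => (u ^ s) ^ n) := by
      intro a b hab
      by_contra hne'
      rcases lt_or_gt_of_ne hne' with h1 | h1
      · apply hzinf (b - a) (by omega)
        have h2 : (u ^ s) ^ b = (u ^ s) ^ a * (u ^ s) ^ (b - a) := by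
          rw [← pow_add]; congr 1; omega
        have hab' : (u ^ s) ^ a = (u ^ s) ^ b := hab
        rw [← hab'] at h2
        exact (mul_eq_left.1 h2.symm)
      · apply hzinf (a - b) (by omega)
        have h2 : (u ^ s) ^ a = (u ^ s) ^ b * (u ^ s) ^ (a - b) := by
          rw [← pow_add]; congr 1; omega
        have hab' : (u ^ s) ^ a = (u ^ s) ^ b := hab
        rw [hab'] at h2
        exact (mul_eq_left.1 h2.symm)
    have hinf : (Set.range (fun n : ℕ => (u ^ s) ^ n)).Infinite :=
      Set.infinite_range_of_injective hinj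
    apply hinf
    refine hfin.subset ?_
    rintro _ ⟨n, rfl⟩
    have h1 : Commute x (u ^ s) := hcen x hx
    exact (h1.pow_right n).symm.eq
  obtain ⟨e, hql, hunb⟩ := hG.lox hzinf
  set ρ := cK (ℓ (u ^ s) + e + D) D with hρ
  obtain ⟨M, hM⟩ := hG.up (max (max (ℓ u) (ℓ h)) ρ)
  have hone : ℓ (1 : G) ≤ max (max (ℓ u) (ℓ h)) ρ := by
    rw [(hG.len.one 1).2 rfl]; exact Nat.zero_le _
  have hfinT := (hM u h 1 (le_trans (le_max_left _ _) (le_max_left _ _))
    (le_trans (le_max_right _ _) (le_max_left _ _)) hone).1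
  let z : H := ⟨u ^ s, pow_mem huH s⟩
  have hfi : (Subgroup.zpowers z).FiniteIndex := by
    have : Finite (H ⧸ Subgroup.zpowers z) := by
      have hfT : Finite {x | x ∈ Subgroup.closure ({u, h, 1} : Set G) ∧
          ℓ x ≤ max (max (ℓ u) (ℓ h)) ρ} := hfinT
      refine Finite.of_surjective (f := fun x : {x | x ∈ Subgroup.closure ({u, h, 1} : Set G) ∧
          ℓ x ≤ max (max (ℓ u) (ℓ h)) ρ} =>
          (QuotientGroup.mk (⟨x.1, x.2.1⟩ : H) : H ⧸ Subgroup.zpowers z)) ?_
      intro q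
      induction q using QuotientGroup.induction_on with
      | _ x =>
        obtain ⟨j, hj⟩ := comm_short hG.len hG.hyp hql hunb (g := x.1) (hcen x.1 x.2)
        have hmem : (u ^ s) ^ j * x.1 ∈ H := mul_mem (zpow_mem (pow_mem huH s) j) x.2
        refine ⟨⟨(u ^ s) ^ j * x.1, hmem, le_trans (by omega) (le_max_right _ _)⟩, ?_⟩
        rw [QuotientGroup.eq]
        refine ⟨-j, ?_⟩
        apply Subtype.ext
        have h1 : Commute x.1 (u ^ s) := hcen x.1 x.2
        have h2 : Commute x.1 ((u ^ s) ^ (-j)) := h1.zpow_right (-j)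
        change (u ^ s) ^ (-j) = ((u ^ s) ^ j * x.1)⁻¹ * x.1
        rw [mul_inv_rev, mul_assoc, ← zpow_neg, ← h2.eq, ← mul_assoc, inv_mul_cancel, one_mul]
    exact Subgroup.finiteIndex_of_finite_quotient
  have hcyc : IsCyclic H := by
    refine cyclic_of_central (z := z) ?_ ?_ hfi
    · intro x hx
      apply Subtype.ext
      apply htf x.1 x.2
      rw [isOfFinOrder_iff_pow_eq_one] at hx ⊢
      obtain ⟨n, hn, hxn⟩ := hx
      exact ⟨n, hn, by
        have := congrArg Subtype.val hxn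
        exact this⟩
    · intro x
      apply Subtype.ext
      exact hcen x.1 x.2
  obtain ⟨w, hw⟩ := hcyc.exists_generator
  refine ⟨w.1, ?_, ?_⟩
  · obtain ⟨k, hk⟩ := hw ⟨u, huH⟩
    exact ⟨k, by
      have := congrArg Subtype.val hk
      exact this⟩
  · obtain ⟨k, hk⟩ := hw ⟨h, hhH⟩
    exact ⟨k, by
      have := congrArg Subtype.val hk
      exact this⟩

private theorem zpow_ne_one {v : G} (hv : ∀ n : ℕ, 0 < n → v ^ n ≠ 1) {k : ℤ} (hk : v ^ k = 1) :
    k = 0 := by
  by_contra hne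
  have h1 : v ^ k.natAbs = 1 := by
    rcases Int.natAbs_eq k with h2 | h2
    · rw [h2, zpow_natCast] at hk
      exact hk
    · rw [h2, zpow_neg, inv_eq_one, zpow_natCast] at hk
      exact hk
  exact hv _ (Int.natAbs_pos.2 hne) h1

private theorem root_inf {v w : G} (hv : ∀ n : ℕ, 0 < n → v ^ n ≠ 1) {k : ℤ} (hk : v = w ^ k) :
    ∀ n : ℕ, 0 < n → w ^ n ≠ 1 := by
  intro n hn h1
  apply hv n hn
  rw [hk, ← zpow_natCast, zpow_comm, zpow_natCast, h1, one_zpow]

/-- (2) -/
theorem HypGrp.roots (hG : HypGrp ℓ D) {v : G} (hv : ∀ n : ℕ, 0 < n → v ^ n ≠ 1) :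
    ∃ M : ℕ, ∀ (w : G) (k : ℤ), v = w ^ k → k.natAbs ≤ M := by
  classical
  obtain ⟨e, hql, hunb⟩ := hG.lox hv
  set ρ := cK (ℓ v + e + D) D with hρ
  obtain ⟨M, hM⟩ := hG.up (max (ℓ v) ρ)
  refine ⟨M, fun w k hk => ?_⟩
  have hwinf := root_inf hv hk
  have hcw : Commute w v := by
    rw [hk]
    exact (Commute.refl w).zpow_right k
  have hci : ∀ i : ℕ, ∃ j : ℤ, 2 * ℓ (v ^ j * w ^ i) ≤ ρ := fun i =>
    comm_short hG.len hG.hyp hql hunb (g := w ^ i) (hcw.pow_left i).eq
  choose j hj using hci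
  have hone : ℓ (1 : G) ≤ max (ℓ v) ρ := by
    rw [(hG.len.one 1).2 rfl]; exact Nat.zero_le _
  have h1 : ℓ (v ^ j 1 * w ^ 1) ≤ max (ℓ v) ρ := by
    have := hj 1
    exact le_trans (by omega) (le_max_right _ _)
  obtain ⟨hfin, hcard⟩ := hM v (v ^ j 1 * w ^ 1) 1 (le_max_left _ _) h1 hone
  set T := {x | x ∈ Subgroup.closure ({v, v ^ j 1 * w ^ 1, 1} : Set G) ∧ ℓ x ≤ max (ℓ v) ρ}
    with hT
  have hvC : v ∈ Subgroup.closure ({v, v ^ j 1 * w ^ 1, 1} : Set G) :=
    Subgroup.subset_closure (by simp)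
  have hwC : w ∈ Subgroup.closure ({v, v ^ j 1 * w ^ 1, 1} : Set G) := by
    have h2 : v ^ j 1 * w ^ 1 ∈ Subgroup.closure ({v, v ^ j 1 * w ^ 1, 1} : Set G) :=
      Subgroup.subset_closure (by simp)
    have h3 := mul_mem (zpow_mem hvC (-(j 1))) h2
    have h4 : v ^ (-(j 1)) * (v ^ j 1 * w ^ 1) = w := by
      rw [← mul_assoc, ← zpow_add, neg_add_cancel, zpow_zero, one_mul, pow_one]
    rwa [h4] at h3
  have hinj : Set.InjOn (fun i : ℕ => v ^ j i * w ^ i) (Finset.range k.natAbs : Set ℕ) := by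
    intro a ha b hb hab
    have ha' : a < k.natAbs := by simpa using ha
    have hb' : b < k.natAbs := by simpa using hb
    have hab' : v ^ j a * w ^ a = v ^ j b * w ^ b := hab
    have h2 : w ^ (k * j a + a) = w ^ (k * j b + b) := by
      rw [zpow_add, zpow_mul, ← hk, zpow_natCast, zpow_add, zpow_mul, ← hk, zpow_natCast]
      exact hab'
    have h3 : w ^ ((k * j a + a) - (k * j b + b)) = 1 := by
      rw [zpow_sub, h2, mul_inv_cancel]
    have h4 := zpow_ne_one hwinf h3
    have h5 : k ∣ ((b : ℤ) - a) := ⟨j a - j b, by linarith⟩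
    have h6 : (b : ℤ) - a = 0 := by
      apply Int.eq_zero_of_abs_lt_dvd (Int.natAbs_dvd.2 h5)
      rw [abs_lt]
      constructor <;> omega
    omega
  have h2 : (Finset.image (fun i : ℕ => v ^ j i * w ^ i) (Finset.range k.natAbs)).card
      = k.natAbs := by
    rw [Finset.card_image_of_injOn hinj, Finset.card_range]
  have h3 : ((Finset.image (fun i : ℕ => v ^ j i * w ^ i) (Finset.range k.natAbs) :
      Finset G) : Set G) ⊆ T := by
    intro x hx
    rw [Finset.mem_coe, Finset.mem_image] at hx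
    obtain ⟨i, -, rfl⟩ := hx
    refine ⟨mul_mem (zpow_mem hvC _) (pow_mem hwC _), ?_⟩
    have := hj i
    exact le_trans (by omega) (le_max_right _ _)
  have h4 := Set.ncard_le_ncard h3 hfin
  rw [Set.ncard_coe_finset, h2] at h4
  exact le_trans h4 hcard

/-- (3), (4) -/
theorem HypGrp.maximal (hG : HypGrp ℓ D)
    (hc : ∀ g : G, IsOfFinOrder g → g ≠ 1 → {x : G | x * g = g * x}.Finite)
    (hi : ∀ g : G, g * g = 1 → g = 1) {v : G} (hv : ∀ n : ℕ, 0 < n → v ^ n ≠ 1) :
    ∃ w : G, v ∈ Subgroup.zpowers w ∧ (∀ n : ℕ, 0 < n → w ^ n ≠ 1) ∧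
      (∀ s : ℕ, 0 < s → ∀ g, g * w ^ s = w ^ s * g → g ∈ Subgroup.zpowers w) ∧
      ∀ g, g * w * g⁻¹ ≠ w⁻¹ := by
  obtain ⟨M, hM⟩ := hG.roots hv
  set T : Set ℕ := {n | ∃ (w : G) (k : ℤ), v = w ^ k ∧ k.natAbs = n} with hT
  have hne : T.Nonempty := ⟨1, v, 1, by rw [zpow_one], rfl⟩
  have hbd : BddAbove T := by
    refine ⟨M, ?_⟩
    rintro n ⟨w, k, h1, rfl⟩
    exact hM w k h1
  obtain ⟨w, k, hk, hkn⟩ := Nat.sSup_mem hne hbd
  have hmax : ∀ (w' : G) (k' : ℤ), v = w' ^ k' → k'.natAbs ≤ k.natAbs := by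
    intro w' k' h1
    rw [hkn]
    exact le_csSup hbd ⟨w', k', h1, rfl⟩
  have hwinf := root_inf hv hk
  have hk0 : k ≠ 0 := by
    rintro rfl
    rw [zpow_zero] at hk
    apply hv 1 one_pos
    rw [pow_one, hk]
  have hme : ∀ s : ℕ, 0 < s → ∀ g, g * w ^ s = w ^ s * g → g ∈ Subgroup.zpowers w := by
    intro s hs g hg
    obtain ⟨w', ⟨j, hj⟩, ⟨i, hi'⟩⟩ := hG.cyclic hc hwinf hs hg
    have hj' : w' ^ j = w := hj
    have hi'' : w' ^ i = g := hi'
    have h1 := hmax w' (j * k) (by rw [zpow_mul, hj', hk])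
    rw [Int.natAbs_mul] at h1
    have hkpos : 0 < k.natAbs := Int.natAbs_pos.2 hk0
    have hj0 : j ≠ 0 := by
      rintro rfl
      rw [zpow_zero] at hj'
      apply hwinf 1 one_pos
      rw [pow_one, ← hj']
    have hjpos : 0 < j.natAbs := Int.natAbs_pos.2 hj0
    have h2 : j.natAbs ≤ 1 := by
      by_contra h3
      have h4 : 2 * k.natAbs ≤ j.natAbs * k.natAbs := Nat.mul_le_mul_right _ (by omega)
      omega
    have h3 : j = 1 ∨ j = -1 := by omega
    rcases h3 with rfl | rfl
    · rw [zpow_one] at hj'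
      exact ⟨i, by rw [← hi'', hj']⟩
    · refine ⟨-i, ?_⟩
      change w ^ (-i) = g
      rw [← hj', ← zpow_mul, ← hi'']
      congr 1
      ring
  refine ⟨w, ⟨k, hk.symm⟩, hwinf, hme, ?_⟩
  intro g hg
  have hgw : g * w = w⁻¹ * g := by
    rw [← hg]; group
  have h1 : g * g * w ^ 1 = w ^ 1 * (g * g) := by
    rw [pow_one]
    have h2 : g * w⁻¹ * g⁻¹ = w := by
      have : g * w⁻¹ * g⁻¹ = (g * w * g⁻¹)⁻¹ := by group
      rw [this, hg, inv_inv]
    have h3 : g * w⁻¹ = w * g := by
      conv_rhs => rw [← h2]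
      group
    rw [mul_assoc, hgw, ← mul_assoc, h3, mul_assoc]
  obtain ⟨n, hn⟩ := hme 1 one_pos (g * g) h1
  have hn' : w ^ n = g * g := hn
  have h2 : g * w ^ n * g⁻¹ = w ^ n := by
    rw [hn']; group
  have h3 : g * w ^ n * g⁻¹ = w ^ (-n) := by
    rw [← conj_zpow, hg, inv_zpow, zpow_neg]
  have h4 : w ^ (n - (-n)) = 1 := by
    rw [zpow_sub, ← h3, h2, mul_inv_cancel]
  have h5 := zpow_ne_one hwinf h4
  have h6 : n = 0 := by omega
  rw [h6, zpow_zero] at hn'
  have h7 := hi g hn'.symm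
  rw [h7] at hg
  apply hwinf 2 two_pos
  have h8 : w = w⁻¹ := by
    rw [← hg]; group
  rw [sq]
  conv_lhs => rw [h8]
  rw [mul_eq_one_iff_eq_inv, inv_inv]
  exact h8.symm

end Mon
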