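import Mathlib

/-!
# Project Mon, module Letters: letters of the elements of a free group, finite partial injections

`letters W` is the finite set of the letters of the reduced word of `W`.
Proofs.  `map_congr`: `FreeGroup.map f W = FreeGroup.map g W` if `f`, `g` agree on the letters:
`W = mk W.toWord`, `FreeGroup.map.mk`, `List.map_congr_left`.
`letters_map_subset`: the reduced word of `map f W` is a reduction (sublist) of the mapped word.
`norm_map_le`: the same.  `norm_map_of_injOn`: if `f` is injective on the letters then the mapped word is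
reduced.
`exists_perm`: `T = S ∪ f (S)` is finite and `S → T` is injective: extend it to a bijection of `T`
(`Finset.exists_equiv_extend_of_card_eq` with `α = T`), and this to a permutation by the identity
(`Equiv.Perm.ofSubtype` or `Equiv.Perm.subtypeCongr`, ...).
`exists_fresh_perm`: let `S, T` be finite, `S₁` disjoint from `S` with `card T ≤ card S₁`: there is a
permutation which is the identity on `S` and maps `T \ S` into `S₁`: use `exists_perm` for `S ∪ T` and
the map which is the identity on `S` and an injection `T \ S → S₁` (`S₁ ∩ S = ∅`).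
-/

namespace Mon

variable {α β : Type*} [DecidableEq α]

/-- The letters of an element of the free group. -/
def letters (W : FreeGroup α) : Finset α := (W.toWord.map Prod.fst).toFinset

theorem card_letters_le (W : FreeGroup α) : (letters W).card ≤ W.norm := by
  unfold letters FreeGroup.norm
  refine (List.toFinset_card_le _).trans ?_
  rw [List.length_map]

private theorem mem_letters {W : FreeGroup α} {a : α} :
    a ∈ letters W ↔ ∃ x ∈ W.toWord, x.1 = a := by
  unfold letters
  rw [List.mem_toFinset, List.mem_map]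

theorem map_congr {f g : α → β} {W : FreeGroup α} (h : ∀ a ∈ letters W, f a = g a) :
    FreeGroup.map f W = FreeGroup.map g W := by
  have h1 : W = FreeGroup.mk W.toWord := (FreeGroup.mk_toWord).symm
  rw [h1, FreeGroup.map.mk, FreeGroup.map.mk]
  congr 1
  refine List.map_congr_left fun x hx => ?_
  rw [h x.1 (mem_letters.2 ⟨x, hx, rfl⟩)]

theorem map_eq_self {f : α → α} {W : FreeGroup α} (h : ∀ a ∈ letters W, f a = a) :
    FreeGroup.map f W = W := by
  have h1 : FreeGroup.map f W = FreeGroup.map id W := map_congr fun a ha => h a ha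
  rw [h1, FreeGroup.map.id]

theorem norm_map_le [DecidableEq β] (f : α → β) (W : FreeGroup α) :
    (FreeGroup.map f W).norm ≤ W.norm := by
  have h1 : W = FreeGroup.mk W.toWord := (FreeGroup.mk_toWord).symm
  have h2 : FreeGroup.map f W = FreeGroup.mk (W.toWord.map fun x => (f x.1, x.2)) := by
    conv_lhs => rw [h1]
    rw [FreeGroup.map.mk]
  rw [h2]
  refine FreeGroup.norm_mk_le.trans ?_
  rw [List.length_map]
  rfl

theorem letters_map_subset [DecidableEq β] (f : α → β) (W : FreeGroup α) :
    letters (FreeGroup.map f W) ⊆ (letters W).image f := by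
  intro b hb
  have h1 : W = FreeGroup.mk W.toWord := (FreeGroup.mk_toWord).symm
  have h2 : FreeGroup.map f W = FreeGroup.mk (W.toWord.map fun x => (f x.1, x.2)) := by
    conv_lhs => rw [h1]
    rw [FreeGroup.map.mk]
  rw [h2, mem_letters] at hb
  obtain ⟨x, hx, rfl⟩ := hb
  rw [FreeGroup.toWord_mk] at hx
  have h3 := (FreeGroup.Red.sublist (FreeGroup.reduce.red
    (L := W.toWord.map fun x => (f x.1, x.2)))).subset hx
  obtain ⟨y, hy, rfl⟩ := List.mem_map.1 h3
  exact Finset.mem_image.2 ⟨y.1, mem_letters.2 ⟨y, hy, rfl⟩, rfl⟩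

theorem letters_mul_subset (V W : FreeGroup α) : letters (V * W) ⊆ letters V ∪ letters W := by
  intro b hb
  rw [mem_letters] at hb
  obtain ⟨x, hx, rfl⟩ := hb
  rw [FreeGroup.toWord_mul] at hx
  have h3 := (FreeGroup.Red.sublist (FreeGroup.reduce.red
    (L := V.toWord ++ W.toWord))).subset hx
  rw [Finset.mem_union]
  rcases List.mem_append.1 h3 with h | h
  · exact Or.inl (mem_letters.2 ⟨x, h, rfl⟩)
  · exact Or.inr (mem_letters.2 ⟨x, h, rfl⟩)

theorem letters_inv (W : FreeGroup α) : letters W⁻¹ = letters W := by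
  have key : ∀ V : FreeGroup α, letters V⁻¹ ⊆ letters V := by
    intro V b hb
    rw [mem_letters] at hb
    obtain ⟨x, hx, rfl⟩ := hb
    rw [FreeGroup.toWord_inv] at hx
    unfold FreeGroup.invRev at hx
    rw [List.mem_reverse, List.mem_map] at hx
    obtain ⟨y, hy, rfl⟩ := hx
    exact mem_letters.2 ⟨y, hy, rfl⟩
  refine Finset.Subset.antisymm (key W) ?_
  have h := key W⁻¹
  rwa [inv_inv] at h

theorem letters_of (a : α) : letters (FreeGroup.of a) = {a} := by
  unfold letters
  rw [FreeGroup.toWord_of]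
  simp

theorem letters_one : letters (1 : FreeGroup α) = ∅ := by
  unfold letters
  rw [FreeGroup.toWord_one]
  simp

/-- Finite partial injections extend to permutations. -/
theorem exists_perm (S : Finset α) (f : α → α) (hf : Set.InjOn f S) :
    ∃ σ : Equiv.Perm α, ∀ x ∈ S, σ x = f x := by
  obtain ⟨T, hT⟩ : ∃ T : Finset α, T = S ∪ S.image f := ⟨_, rfl⟩
  have hST : ∀ x ∈ S, x ∈ T := fun x hx => by
    rw [hT]
    exact Finset.mem_union_left _ hx
  have hfT : ∀ x ∈ S, f x ∈ T := fun x hx => by
    rw [hT]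
    exact Finset.mem_union_right _ (Finset.mem_image_of_mem f hx)
  have h1 : Fintype.card T = T.card := Fintype.card_coe T
  have h2 : Finset.image (fun x : T => f x) (Finset.univ.filter fun x : T => (x : α) ∈ S) ⊆ T := by
    intro y hy
    obtain ⟨x, hx, rfl⟩ := Finset.mem_image.1 hy
    exact hfT x (Finset.mem_filter.1 hx).2
  have h3 : Set.InjOn (fun x : T => f x) ((Finset.univ.filter fun x : T => (x : α) ∈ S) : Set T) := by
    intro x hx y hy hxy
    have hx' : (x : α) ∈ S := (Finset.mem_filter.1 (Finset.mem_coe.1 hx)).2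
    have hy' : (y : α) ∈ S := (Finset.mem_filter.1 (Finset.mem_coe.1 hy)).2
    exact Subtype.ext (hf hx' hy' hxy)
  obtain ⟨g, hg⟩ := Finset.exists_equiv_extend_of_card_eq h1 h2 h3
  let g' : Equiv.Perm {x // x ∈ T} := g
  refine ⟨Equiv.Perm.ofSubtype g', fun x hx => ?_⟩
  rw [Equiv.Perm.ofSubtype_apply_of_mem g' (hST x hx)]
  exact hg ⟨x, hST x hx⟩ (Finset.mem_filter.2 ⟨Finset.mem_univ _, hx⟩)

theorem exists_fresh_perm (S T S₁ : Finset α) (h1 : Disjoint S S₁) (h2 : T.card ≤ S₁.card) :
    ∃ σ : Equiv.Perm α, (∀ x ∈ S, σ x = x) ∧ ∀ x ∈ T, x ∉ S → σ x ∈ S₁ := by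
  have hc : Fintype.card {x // x ∈ T \ S} ≤ Fintype.card {x // x ∈ S₁} := by
    rw [Fintype.card_coe, Fintype.card_coe]
    exact (Finset.card_le_card Finset.sdiff_subset).trans h2
  obtain ⟨e⟩ := Function.Embedding.nonempty_of_card_le hc
  obtain ⟨f, hf⟩ : ∃ f : α → α, f = fun x => if h : x ∈ T \ S then (e ⟨x, h⟩ : α) else x :=
    ⟨_, rfl⟩
  have f1 : ∀ x ∈ S, f x = x := fun x hx => by
    rw [hf]
    simp only
    rw [dif_neg]
    intro h
    exact (Finset.mem_sdiff.1 h).2 hx
  have f2 : ∀ x, ∀ h : x ∈ T \ S, f x = e ⟨x, h⟩ := fun x h => by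
    rw [hf]
    simp only
    rw [dif_pos h]
  have f3 : ∀ x ∈ T, x ∉ S → f x ∈ S₁ := fun x hx hxS => by
    rw [f2 x (Finset.mem_sdiff.2 ⟨hx, hxS⟩)]
    exact (e _).2
  have hinj : Set.InjOn f ((S ∪ T : Finset α) : Set α) := by
    intro x hx y hy hxy
    rw [Finset.mem_coe, Finset.mem_union] at hx hy
    by_cases hxS : x ∈ S
    · by_cases hyS : y ∈ S
      · rwa [f1 x hxS, f1 y hyS] at hxy
      · exfalso
        have hyT : y ∈ T := hy.resolve_left hyS
        have h3 := f3 y hyT hyS
        rw [← hxy, f1 x hxS] at h3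
        exact Finset.disjoint_left.1 h1 hxS h3
    · have hxT : x ∈ T := hx.resolve_left hxS
      by_cases hyS : y ∈ S
      · exfalso
        have h3 := f3 x hxT hxS
        rw [hxy, f1 y hyS] at h3
        exact Finset.disjoint_left.1 h1 hyS h3
      · have hyT : y ∈ T := hy.resolve_left hyS
        rw [f2 x (Finset.mem_sdiff.2 ⟨hxT, hxS⟩), f2 y (Finset.mem_sdiff.2 ⟨hyT, hyS⟩)] at hxy
        have h4 := e.injective (Subtype.ext hxy)
        exact congrArg Subtype.val h4
  obtain ⟨σ, hσ⟩ := exists_perm (S ∪ T) f hinj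
  refine ⟨σ, fun x hx => ?_, fun x hx hxS => ?_⟩
  · rw [hσ x (Finset.mem_union_left _ hx), f1 x hx]
  · rw [hσ x (Finset.mem_union_right _ hx)]
    exact f3 x hx hxS

/-- Two maps into `β`, injective on a finite set, differ by a permutation of `β`. -/
theorem exists_perm_comp [DecidableEq β] (S : Finset α) (f g : α → β) (hf : Set.InjOn f S)
    (hg : Set.InjOn g S) : ∃ σ : Equiv.Perm β, ∀ x ∈ S, σ (f x) = g x := by
  rcases S.eq_empty_or_nonempty with hS | ⟨x₀, hx₀⟩
  · exact ⟨1, fun x hx => by rw [hS] at hx; simp at hx⟩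
  · haveI : Nonempty α := ⟨x₀⟩
    have hl : ∀ x ∈ S, Function.invFunOn f (S : Set α) (f x) = x := fun x hx =>
      hf.leftInvOn_invFunOn (Finset.mem_coe.2 hx)
    have hinj : Set.InjOn (fun b => g (Function.invFunOn f (S : Set α) b))
        ((S.image f : Finset β) : Set β) := by
      intro b hb b' hb' hbb
      obtain ⟨x, hx, rfl⟩ := Finset.mem_image.1 (Finset.mem_coe.1 hb)
      obtain ⟨x', hx', rfl⟩ := Finset.mem_image.1 (Finset.mem_coe.1 hb')
      simp only [hl x hx, hl x' hx'] at hbb
      rw [hg (Finset.mem_coe.2 hx) (Finset.mem_coe.2 hx') hbb]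
    obtain ⟨σ, hσ⟩ := exists_perm (S.image f) _ hinj
    refine ⟨σ, fun x hx => ?_⟩
    rw [hσ (f x) (Finset.mem_image_of_mem f hx), hl x hx]

private theorem words_list {s : ℕ} (S : Finset α) (e : Fin s → α) (he : ∀ a ∈ S, ∃ i, e i = a) :
    ∀ L : List (α × Bool), (∀ x ∈ L, x.1 ∈ S) →
      ∃ l : List (Fin s × Bool), l.map (fun x => (e x.1, x.2)) = L := by
  intro L
  induction L with
  | nil => exact fun _ => ⟨[], rfl⟩
  | cons x L ih =>
    intro h
    obtain ⟨l, hl⟩ := ih fun y hy => h y (List.mem_cons_of_mem _ hy)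
    obtain ⟨i, hi⟩ := he x.1 (h x List.mem_cons_self)
    refine ⟨(i, x.2) :: l, ?_⟩
    rw [List.map_cons, hl, hi]

private theorem words_sub {s : ℕ} (S : Finset α) (e : Fin s → α) (he : ∀ a ∈ S, ∃ i, e i = a)
    (r : ℕ) : {W : FreeGroup α | letters W ⊆ S ∧ W.norm ≤ r} ⊆
      (fun l : List (Fin s × Bool) => FreeGroup.mk (l.map fun x => (e x.1, x.2))) ''
        {l | l.length ≤ r} := by
  rintro W ⟨h1, h2⟩
  obtain ⟨l, hl⟩ := words_list S e he W.toWord fun x hx => h1 (mem_letters.2 ⟨x, hx, rfl⟩)
  refine ⟨l, ?_, ?_⟩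
  · have h3 : l.length = W.toWord.length := by
      rw [← hl, List.length_map]
    change l.length ≤ r
    rw [h3]
    exact h2
  · change FreeGroup.mk (l.map fun x => (e x.1, x.2)) = W
    rw [hl]
    exact FreeGroup.mk_toWord

private theorem words_equiv (S : Finset α) :
    ∀ a ∈ S, ∃ i : Fin S.card, (fun i => (S.equivFin.symm i : α)) i = a := by
  intro a ha
  exact ⟨S.equivFin ⟨a, ha⟩, by simp⟩

/-- There are finitely many elements of bounded length in finitely many letters. -/
theorem finite_words (S : Finset α) (r : ℕ) : {W : FreeGroup α | letters W ⊆ S ∧ W.norm ≤ r}.Finite := by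
  exact ((List.finite_length_le (Fin S.card × Bool) r).image _).subset
    (words_sub S _ (words_equiv S) r)

/-- The number of these elements has a bound which depends only on `card S` and `r`. -/
theorem card_words (s r : ℕ) : ∃ M : ℕ, ∀ S : Finset α, S.card ≤ s →
    {W : FreeGroup α | letters W ⊆ S ∧ W.norm ≤ r}.ncard ≤ M := by
  refine ⟨∑ k ∈ Finset.range (s + 1), {l : List (Fin k × Bool) | l.length ≤ r}.ncard, ?_⟩
  intro S hS
  have h1 := words_sub S _ (words_equiv S) r
  have h2 := List.finite_length_le (Fin S.card × Bool) r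
  refine (Set.ncard_le_ncard h1 (h2.image _)).trans ((Set.ncard_image_le h2).trans ?_)
  exact Finset.single_le_sum
    (f := fun k => {l : List (Fin k × Bool) | l.length ≤ r}.ncard) (fun _ _ => Nat.zero_le _)
    (Finset.mem_range.2 (Nat.lt_succ_of_le hS))

end Mon
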