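import Pool.Agent.Mon.RotG

/-!
# Project Mon, module Quot: quotients and minimal pairs

`MinP ℓ N u v`: the distance of `u` and `v` is minimal modulo the normal subgroup `N`.
Proofs.  `MinP` means `ℓ (u⁻¹ v) ≤ ℓ (u⁻¹ n v) = ℓ (u⁻¹ v (v⁻¹ n v))`.
`MinP.symm`: `ds v (n u) = ds (n⁻¹ v) u`.  `MinP.smul`: `ds (g u) (n g v) = ds u ((g⁻¹ n g) v)`.
`MinP.left`, `right`: sub-pairs: if `z` is between `u` and `v` then for `n ∈ N`
`ds u v ≤ ds u (n v) ≤ ds u (n z) + ds (n z) (n v) = ds u (n z) + ds z v`, so `ds u z ≤ ds u (n z)`.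
`MinP.P_le`: `RotSys.min` (`R A ≤ Nall R`), with `ds (r x) y = ds x (r⁻¹ y)`.
For a quotient map `π` with kernel `N`:
`ds_le`: `ds ℓ' (π x) (π y) = ℓ' (π (x⁻¹ y)) ≤ ℓ (x⁻¹ y)`.
`lift`: for `x : G`, `y' : G'` take `g` with `π g = (π x)⁻¹ y'`, `ℓ g = ℓ' ((π x)⁻¹ y')`, `y = x g`.
`minP_iff`: `MinP ℓ N x y ↔ ds ℓ x y = ds ℓ' (π x) (π y)` (one direction: lift; elements with the same
image under `π` differ by an element of `N`).
`isLen`: the quotient length is a geodesic length: `geod`: take `g` with `π g = x'`, `ℓ g = ℓ' x'`, `h` with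
`ℓ h = k`, `ℓ (h⁻¹ g) = ℓ g - k`; `ℓ' (π h) ≤ k`, `ℓ' ((π h)⁻¹ x') ≤ ℓ' x' - k`, and the sum is at least
`ℓ' x'`.
-/

namespace Mon

variable {G G' : Type*} [Group G] [Group G'] {ℓ : G → ℕ} {ℓ' : G' → ℕ} {π : G →* G'}
  {N : Subgroup G}

namespace MinP

theorem symm (hl : IsLen ℓ) {u v : G} (h : MinP ℓ N u v) : MinP ℓ N v u := by
  intro n hn
  have h1 := h n⁻¹ (N.inv_mem hn)
  have h2 : ds ℓ v (n * u) = ds ℓ (n⁻¹ * v) u := by
    rw [← ds_smul n (n⁻¹ * v) u, mul_inv_cancel_left]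
  rw [h2, hl.ds_comm (n⁻¹ * v) u, hl.ds_comm v u]
  exact h1

theorem smul (hN : N.Normal) {u v : G} (h : MinP ℓ N u v) (g : G) : MinP ℓ N (g * u) (g * v) := by
  intro n hn
  have h1 := h (g⁻¹ * n * g) (by simpa using hN.conj_mem n hn g⁻¹)
  rw [ds_smul]
  have h2 : n * (g * v) = g * (g⁻¹ * n * g * v) := by group
  rw [h2, ds_smul]
  exact h1

theorem left (hl : IsLen ℓ) {u v z : G} (h : MinP ℓ N u v) (hz : Btw ℓ u z v) : MinP ℓ N u z := by
  intro n hn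
  have h1 := h n hn
  have h2 := hl.ds_tri u (n * z) (n * v)
  rw [ds_smul] at h2
  unfold Btw at hz
  omega

theorem right (hl : IsLen ℓ) {u v z : G} (h : MinP ℓ N u v) (hz : Btw ℓ u z v) : MinP ℓ N z v :=
  ((h.symm hl).left hl (hz.symm hl)).symm hl

end MinP

theorem RotSys.P_le_h {ι : Type*} [MulAction G ι] {D : ℕ} {S : ι → Set G} {dS : ι → G → ℕ}
    {P : ι → G → G → ℕ} {R : ι → Subgroup G} {c θ h τ : ℕ} (H : RotSys ℓ D S dS P R c θ h τ)
    {u v : G} (huv : MinP ℓ (Nall R) u v) (A : ι) : P A u v ≤ h := by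
  refine H.min A u v fun r hr => ?_
  have h1 : r ∈ Nall R := Subgroup.subset_closure ⟨A, hr⟩
  have h2 := (huv.symm H.len) r h1
  rw [H.len.ds_comm v u, H.len.ds_comm v (r * u)] at h2
  exact h2

namespace IsQuot

theorem ds_le (hq : IsQuot π ℓ ℓ') (x y : G) : ds ℓ' (π x) (π y) ≤ ds ℓ x y := by
  unfold ds
  rw [← map_inv, ← map_mul]
  exact hq.le _

theorem lift (hq : IsQuot π ℓ ℓ') (x : G) (y' : G') : ∃ y, π y = y' ∧ ds ℓ x y = ds ℓ' (π x) y' := by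
  obtain ⟨g, hg, hgl⟩ := hq.att ((π x)⁻¹ * y')
  refine ⟨x * g, ?_, ?_⟩
  · rw [map_mul, hg, mul_inv_cancel_left]
  · unfold ds
    rw [inv_mul_cancel_left, hgl]

theorem minP_iff (hq : IsQuot π ℓ ℓ') (hk : ∀ x, π x = 1 ↔ x ∈ N) (x y : G) :
    MinP ℓ N x y ↔ ds ℓ x y = ds ℓ' (π x) (π y) := by
  constructor
  · intro h
    refine le_antisymm ?_ (hq.ds_le x y)
    obtain ⟨y₁, hy₁, hd⟩ := hq.lift x (π y)
    rw [← hd]
    have h1 : y₁ * y⁻¹ ∈ N := by
      rw [← hk, map_mul, map_inv, hy₁, mul_inv_cancel]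
    have h2 := h _ h1
    rwa [inv_mul_cancel_right] at h2
  · intro h n hn
    rw [h]
    have h1 := hq.ds_le x (n * y)
    rwa [map_mul, (hk n).2 hn, one_mul] at h1

theorem isLen (hq : IsQuot π ℓ ℓ') (hl : IsLen ℓ) : IsLen ℓ' where
  one := by
    intro g
    constructor
    · intro h
      obtain ⟨y, hy, hyl⟩ := hq.att g
      rw [h, hl.one] at hyl
      rw [← hy, hyl, map_one]
    · rintro rfl
      have := hq.le 1
      rw [map_one, (hl.one 1).2 rfl] at this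
      omega
  inv := by
    have key : ∀ g, ℓ' g⁻¹ ≤ ℓ' g := by
      intro g
      obtain ⟨y, hy, hyl⟩ := hq.att g
      have h1 := hq.le y⁻¹
      rw [map_inv, hy, hl.inv, hyl] at h1
      exact h1
    intro g
    refine le_antisymm (key g) ?_
    have := key g⁻¹
    rwa [inv_inv] at this
  mul := by
    intro g h
    obtain ⟨y, hy, hyl⟩ := hq.att g
    obtain ⟨z, hz, hzl⟩ := hq.att h
    have h1 := hq.le (y * z)
    rw [map_mul, hy, hz] at h1
    have h2 := hl.mul y z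
    omega
  geod := by
    intro x' k hk
    obtain ⟨g, hg, hgl⟩ := hq.att x'
    obtain ⟨h, hh1, hh2⟩ := hl.geod g k (by omega)
    have e1 := hq.le h
    have e2 := hq.le (h⁻¹ * g)
    have e3 := hq.le (h * (h⁻¹ * g))
    -- the sum is at least `ℓ' x'`
    have e4 : ℓ' x' ≤ ℓ' (π h) + ℓ' (π (h⁻¹ * g)) := by
      obtain ⟨y, hy, hyl⟩ := hq.att (π h)
      obtain ⟨z, hz, hzl⟩ := hq.att (π (h⁻¹ * g))
      have h1 := hq.le (y * z)
      rw [map_mul, hy, hz, ← map_mul, mul_inv_cancel_left, hg] at h1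
      have h2 := hl.mul y z
      omega
    refine ⟨π h, by omega, ?_⟩
    rw [map_mul, map_inv, hg] at e2 e4
    omega

end IsQuot

end Mon
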