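import Pool.Agent.Mon.FreeLen
import Pool.Agent.Mon.Letters
import Pool.Agent.Mon.Quot

/-!
# Project Mon, module FQ1: quotients of the free group, quotient length, permutations of the letters

`F = FreeGroup ℕ`, `N` a normal subgroup.  `qlen N x` is the least norm of a word which represents `x`.
Proofs.  `isQuot_mk`: `Nat.sInf_mem`, `Nat.sInf_le`.  `isLen_qlen`: `IsQuot.isLen`.
`piQ`: the map `F ⧸ N → F ⧸ N'` for `N ≤ N'`; `isQuot_piQ`: a word which represents `x'` of minimal norm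
represents an element `x` with `qlen N x ≤ norm = qlen N' x'`.
`permQ`: `PInv N` gives an automorphism of `F ⧸ N` (inverse: `σ⁻¹`) which preserves the length
(`norm_map_le` for `σ` and `σ⁻¹`).
`permQ_fix`: if `σ` fixes the letters of `W` then it fixes its class.
-/

namespace Mon

/-- Invariance under the permutations of the letters. -/
def PInv (N : Subgroup (FreeGroup ℕ)) : Prop :=
  ∀ σ : Equiv.Perm ℕ, ∀ W ∈ N, FreeGroup.map σ W ∈ N

/-- The quotient length. -/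
noncomputable def qlen (N : Subgroup (FreeGroup ℕ)) [N.Normal] (x : FreeGroup ℕ ⧸ N) : ℕ :=
  sInf {n | ∃ W : FreeGroup ℕ, (QuotientGroup.mk W : FreeGroup ℕ ⧸ N) = x ∧ W.norm = n}

theorem isQuot_mk (N : Subgroup (FreeGroup ℕ)) [N.Normal] :
    IsQuot (QuotientGroup.mk' N) (FreeGroup.norm : FreeGroup ℕ → ℕ) (qlen N) where
  le := fun y => Nat.sInf_le ⟨y, rfl, rfl⟩
  att := fun x' => by
    have h : {n | ∃ W : FreeGroup ℕ, (QuotientGroup.mk W : FreeGroup ℕ ⧸ N) = x' ∧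
        W.norm = n}.Nonempty := by
      obtain ⟨W, hW⟩ := QuotientGroup.mk_surjective x'
      exact ⟨W.norm, W, hW, rfl⟩
    obtain ⟨W, hW, hn⟩ := Nat.sInf_mem h
    exact ⟨W, hW, hn⟩

theorem isLen_qlen (N : Subgroup (FreeGroup ℕ)) [N.Normal] : IsLen (qlen N) :=
  (isQuot_mk N).isLen isLen_norm

/-- The quotient map. -/
def piQ (N N' : Subgroup (FreeGroup ℕ)) [N.Normal] [N'.Normal] (h : N ≤ N') :
    FreeGroup ℕ ⧸ N →* FreeGroup ℕ ⧸ N' :=
  QuotientGroup.map N N' (MonoidHom.id _) h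

theorem piQ_mk (N N' : Subgroup (FreeGroup ℕ)) [N.Normal] [N'.Normal] (h : N ≤ N')
    (W : FreeGroup ℕ) :
    piQ N N' h (QuotientGroup.mk W) = QuotientGroup.mk W := rfl

theorem isQuot_piQ (N N' : Subgroup (FreeGroup ℕ)) [N.Normal] [N'.Normal] (h : N ≤ N') :
    IsQuot (piQ N N' h) (qlen N) (qlen N') := by
  have hle : ∀ y, qlen N' (piQ N N' h y) ≤ qlen N y := by
    intro y
    obtain ⟨W, hW, hn⟩ := (isQuot_mk N).att y
    have hW' : (QuotientGroup.mk W : FreeGroup ℕ ⧸ N) = y := hW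
    rw [← hW', piQ_mk, hW', ← hn]
    exact (isQuot_mk N').le W
  refine ⟨hle, fun x' => ?_⟩
  obtain ⟨W, hW, hn⟩ := (isQuot_mk N').att x'
  have hW' : (QuotientGroup.mk W : FreeGroup ℕ ⧸ N') = x' := hW
  refine ⟨QuotientGroup.mk W, by rw [piQ_mk, hW'], le_antisymm ?_ ?_⟩
  · rw [← hn]
    exact (isQuot_mk N).le W
  · have := hle (QuotientGroup.mk W)
    rwa [piQ_mk, hW'] at this

private def fQ (N : Subgroup (FreeGroup ℕ)) [N.Normal] (hN : PInv N) (σ : Equiv.Perm ℕ) :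
    FreeGroup ℕ ⧸ N →* FreeGroup ℕ ⧸ N :=
  QuotientGroup.map N N (FreeGroup.map σ) (fun W hW => hN σ W hW)

private theorem fQ_mk (N : Subgroup (FreeGroup ℕ)) [N.Normal] (hN : PInv N) (σ : Equiv.Perm ℕ)
    (W : FreeGroup ℕ) : fQ N hN σ (QuotientGroup.mk W) = QuotientGroup.mk (FreeGroup.map σ W) :=
  rfl

private theorem map_inv_map (σ : Equiv.Perm ℕ) (W : FreeGroup ℕ) :
    FreeGroup.map (σ⁻¹ : Equiv.Perm ℕ) (FreeGroup.map σ W) = W := by
  rw [FreeGroup.map.comp]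
  have : (⇑(σ⁻¹ : Equiv.Perm ℕ) ∘ ⇑σ) = id := by
    funext x
    simp
  rw [this, FreeGroup.map.id]

private theorem map_map_inv (σ : Equiv.Perm ℕ) (W : FreeGroup ℕ) :
    FreeGroup.map σ (FreeGroup.map (σ⁻¹ : Equiv.Perm ℕ) W) = W := by
  rw [FreeGroup.map.comp]
  have : (⇑σ ∘ ⇑(σ⁻¹ : Equiv.Perm ℕ)) = id := by
    funext x
    simp
  rw [this, FreeGroup.map.id]

private theorem fQ_inv_fQ (N : Subgroup (FreeGroup ℕ)) [N.Normal] (hN : PInv N)
    (σ : Equiv.Perm ℕ) (x : FreeGroup ℕ ⧸ N) : fQ N hN σ⁻¹ (fQ N hN σ x) = x := by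
  obtain ⟨W, rfl⟩ := QuotientGroup.mk_surjective x
  rw [fQ_mk, fQ_mk, map_inv_map]

private theorem fQ_fQ_inv (N : Subgroup (FreeGroup ℕ)) [N.Normal] (hN : PInv N)
    (σ : Equiv.Perm ℕ) (x : FreeGroup ℕ ⧸ N) : fQ N hN σ (fQ N hN σ⁻¹ x) = x := by
  obtain ⟨W, rfl⟩ := QuotientGroup.mk_surjective x
  rw [fQ_mk, fQ_mk, map_map_inv]

private theorem fQ_len (N : Subgroup (FreeGroup ℕ)) [N.Normal] (hN : PInv N)
    (σ : Equiv.Perm ℕ) (x : FreeGroup ℕ ⧸ N) : qlen N (fQ N hN σ x) ≤ qlen N x := by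
  obtain ⟨W, hW, hn⟩ := (isQuot_mk N).att x
  have hW' : (QuotientGroup.mk W : FreeGroup ℕ ⧸ N) = x := hW
  rw [← hn, ← hW', fQ_mk]
  exact ((isQuot_mk N).le (FreeGroup.map σ W)).trans (norm_map_le σ W)

/-- The automorphism of `F ⧸ N` induced by a permutation of the letters. -/
theorem exists_permQ (N : Subgroup (FreeGroup ℕ)) [N.Normal] (hN : PInv N) (σ : Equiv.Perm ℕ) :
    ∃ φ : (FreeGroup ℕ ⧸ N) ≃* (FreeGroup ℕ ⧸ N),
      (∀ W : FreeGroup ℕ, φ (QuotientGroup.mk W) = QuotientGroup.mk (FreeGroup.map σ W)) ∧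
      ∀ x, qlen N (φ x) = qlen N x := by
  refine ⟨⟨⟨fun x => fQ N hN σ x, fun x => fQ N hN σ⁻¹ x, fun x => fQ_inv_fQ N hN σ x,
    fun x => fQ_fQ_inv N hN σ x⟩, fun x y => map_mul _ x y⟩, fun W => rfl, fun x => ?_⟩
  refine le_antisymm (fQ_len N hN σ x) ?_
  have := fQ_len N hN σ⁻¹ (fQ N hN σ x)
  rwa [fQ_inv_fQ] at this

/-- The automorphism of `F ⧸ N` induced by a permutation of the letters. -/
noncomputable def permQ (N : Subgroup (FreeGroup ℕ)) [N.Normal] (hN : PInv N)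
    (σ : Equiv.Perm ℕ) : (FreeGroup ℕ ⧸ N) ≃* (FreeGroup ℕ ⧸ N) :=
  (exists_permQ N hN σ).choose

theorem permQ_mk (N : Subgroup (FreeGroup ℕ)) [N.Normal] (hN : PInv N) (σ : Equiv.Perm ℕ)
    (W : FreeGroup ℕ) :
    permQ N hN σ (QuotientGroup.mk W) = QuotientGroup.mk (FreeGroup.map σ W) :=
  (exists_permQ N hN σ).choose_spec.1 W

theorem qlen_permQ (N : Subgroup (FreeGroup ℕ)) [N.Normal] (hN : PInv N) (σ : Equiv.Perm ℕ)
    (x : FreeGroup ℕ ⧸ N) : qlen N (permQ N hN σ x) = qlen N x :=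
  (exists_permQ N hN σ).choose_spec.2 x

theorem permQ_mul (N : Subgroup (FreeGroup ℕ)) [N.Normal] (hN : PInv N) (σ τ : Equiv.Perm ℕ)
    (x : FreeGroup ℕ ⧸ N) : permQ N hN (σ * τ) x = permQ N hN σ (permQ N hN τ x) := by
  obtain ⟨W, rfl⟩ := QuotientGroup.mk_surjective x
  rw [permQ_mk, permQ_mk, permQ_mk, FreeGroup.map.comp]
  rfl

theorem permQ_one (N : Subgroup (FreeGroup ℕ)) [N.Normal] (hN : PInv N)
    (x : FreeGroup ℕ ⧸ N) : permQ N hN 1 x = x := by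
  obtain ⟨W, rfl⟩ := QuotientGroup.mk_surjective x
  rw [permQ_mk]
  have : FreeGroup.map (⇑(1 : Equiv.Perm ℕ)) W = W := by
    have h : ⇑(1 : Equiv.Perm ℕ) = id := rfl
    rw [h, FreeGroup.map.id]
  rw [this]

end Mon
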