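import Pool.Agent.Mon.FQ1

/-!
# Project Mon, module FQ2: the finiteness conditions (UP) and (Fin) for the quotients of the free group

`up_qlen`.  Let `g₁, g₂, g₃` have length `≤ r`, represented by words `Wᵢ` of norm `≤ r`, `S` the set of their
letters (`card S ≤ 3 r`), `S₁` a set of `r` letters disjoint from `S`.  Let `x` be in the subgroup generated
by the `gᵢ`, `qlen x ≤ r`, represented by a word `W` of norm `≤ r`.  By `exists_fresh_perm` there is a
permutation `σ` which is the identity on `S` and maps the letters of `W` outside `S` into `S₁`.  `σ` fixes the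
`gᵢ` (`map_eq_self`), so it fixes `x`; so `x` is represented by `map σ W`, a word of norm `≤ r` with letters in
`S ∪ S₁`, `card (S ∪ S₁) ≤ 4 r`.  So the set of these `x` is contained in the image of the finite set of
`finite_words`, `card_words` (with `s = 4 r`) gives the bound.
`fin_qlen`.  Let `qlen g ≤ r`, `g` represented by `W` of norm `≤ r`; by `exists_fresh_perm` (with `S = ∅`,
`S₁ = {0, ..., r - 1}`) there is `σ` which maps the letters of `W` into `S₁`.  The sequences
`n ↦ qlen (gⁿ)` and `n ↦ qlen ((permQ σ g)ⁿ)` are equal, and `permQ σ g` is in the finite set of the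
elements represented by words of norm `≤ r` with letters in `S₁`.
-/

namespace Mon

theorem up_qlen (N : Subgroup (FreeGroup ℕ)) [N.Normal] (hN : PInv N) : UP (qlen N) := by
  intro r
  obtain ⟨M, hM⟩ := card_words (α := ℕ) (4 * r) r
  refine ⟨M, fun g₁ g₂ g₃ h₁ h₂ h₃ => ?_⟩
  obtain ⟨W₁, e₁, n₁⟩ := (isQuot_mk N).att g₁
  obtain ⟨W₂, e₂, n₂⟩ := (isQuot_mk N).att g₂
  obtain ⟨W₃, e₃, n₃⟩ := (isQuot_mk N).att g₃
  set S : Finset ℕ := (letters W₁ ∪ letters W₂) ∪ letters W₃ with hS
  have hSc : S.card ≤ 3 * r := by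
    have c₁ := card_letters_le W₁
    have c₂ := card_letters_le W₂
    have c₃ := card_letters_le W₃
    have u1 := Finset.card_union_le (letters W₁ ∪ letters W₂) (letters W₃)
    have u2 := Finset.card_union_le (letters W₁) (letters W₂)
    rw [← hS] at u1
    omega
  obtain ⟨S₁, hS₁, hc₁⟩ := (S.finite_toSet.infinite_compl).exists_subset_card_eq r
  have hd : Disjoint S S₁ := by
    rw [Finset.disjoint_left]
    intro a ha hb
    exact hS₁ hb ha
  have hcard : (S ∪ S₁).card ≤ 4 * r := by
    have := Finset.card_union_le S S₁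
    omega
  have hfin := finite_words (S ∪ S₁) r
  have hsub : {x | x ∈ Subgroup.closure ({g₁, g₂, g₃} : Set (FreeGroup ℕ ⧸ N)) ∧ qlen N x ≤ r} ⊆
      (QuotientGroup.mk' N) '' {W : FreeGroup ℕ | letters W ⊆ S ∪ S₁ ∧ W.norm ≤ r} := by
    rintro x ⟨hx, hxr⟩
    obtain ⟨W, e, n⟩ := (isQuot_mk N).att x
    have hWc : (letters W).card ≤ S₁.card := by
      have := card_letters_le W
      omega
    obtain ⟨σ, hσ1, hσ2⟩ := exists_fresh_perm S (letters W) S₁ hd hWc
    have hfix : ∀ V : FreeGroup ℕ, letters V ⊆ S →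
        permQ N hN σ (QuotientGroup.mk' N V) = QuotientGroup.mk' N V := by
      intro V hV
      have h1 := permQ_mk N hN σ V
      rw [map_eq_self (f := σ) (W := V) fun a ha => hσ1 a (hV ha)] at h1
      exact h1
    have s1 : letters W₁ ⊆ S := fun a ha =>
      Finset.mem_union_left _ (Finset.mem_union_left _ ha)
    have s2 : letters W₂ ⊆ S := fun a ha =>
      Finset.mem_union_left _ (Finset.mem_union_right _ ha)
    have s3 : letters W₃ ⊆ S := fun a ha => Finset.mem_union_right _ ha
    have heq : Set.EqOn ((permQ N hN σ : (FreeGroup ℕ ⧸ N) ≃* (FreeGroup ℕ ⧸ N)) :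
        (FreeGroup ℕ ⧸ N) →* (FreeGroup ℕ ⧸ N)) (MonoidHom.id _)
        ({g₁, g₂, g₃} : Set (FreeGroup ℕ ⧸ N)) := by
      rintro y (rfl | rfl | rfl)
      · rw [← e₁]
        exact hfix W₁ s1
      · rw [← e₂]
        exact hfix W₂ s2
      · rw [← e₃]
        exact hfix W₃ s3
    have hxx : permQ N hN σ x = x := MonoidHom.eqOn_closure heq hx
    refine ⟨FreeGroup.map σ W, ⟨?_, ?_⟩, ?_⟩
    · refine (letters_map_subset (σ : ℕ → ℕ) W).trans fun a ha => ?_
      obtain ⟨b, hb, rfl⟩ := Finset.mem_image.1 ha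
      by_cases hbS : b ∈ S
      · rw [hσ1 b hbS]
        exact Finset.mem_union_left _ hbS
      · exact Finset.mem_union_right _ (hσ2 b hb hbS)
    · have := norm_map_le (σ : ℕ → ℕ) W
      omega
    · have h1 := permQ_mk N hN σ W
      have h2 : (QuotientGroup.mk W : FreeGroup ℕ ⧸ N) = x := e
      rw [h2, hxx] at h1
      exact h1.symm
  refine ⟨(hfin.image _).subset hsub, ?_⟩
  refine (Set.ncard_le_ncard hsub (hfin.image _)).trans ?_
  exact (Set.ncard_image_le hfin).trans (hM _ hcard)

theorem fin_qlen (N : Subgroup (FreeGroup ℕ)) [N.Normal] (hN : PInv N) : FinSeq (qlen N) := by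
  intro r
  have hfin := finite_words (Finset.range r) r
  refine (hfin.image fun (W : FreeGroup ℕ) (n : ℕ) =>
    qlen N ((QuotientGroup.mk W : FreeGroup ℕ ⧸ N) ^ n)).subset ?_
  rintro f ⟨g, hg, hf⟩
  obtain ⟨W, e, n⟩ := (isQuot_mk N).att g
  have hWc : (letters W).card ≤ (Finset.range r).card := by
    have := card_letters_le W
    rw [Finset.card_range]
    omega
  obtain ⟨σ, -, hσ⟩ := exists_fresh_perm ∅ (letters W) (Finset.range r)
    (Finset.disjoint_empty_left _) hWc
  have h2 : (QuotientGroup.mk W : FreeGroup ℕ ⧸ N) = g := e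
  refine ⟨FreeGroup.map σ W, ⟨?_, ?_⟩, ?_⟩
  · refine (letters_map_subset (σ : ℕ → ℕ) W).trans fun a ha => ?_
    obtain ⟨b, hb, rfl⟩ := Finset.mem_image.1 ha
    exact hσ b hb (Finset.notMem_empty b)
  · have := norm_map_le (σ : ℕ → ℕ) W
    omega
  · funext k
    show qlen N ((QuotientGroup.mk (FreeGroup.map σ W) : FreeGroup ℕ ⧸ N) ^ k) = f k
    rw [← permQ_mk N hN σ W, h2, ← map_pow, qlen_permQ, hf k]

end Mon
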