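import Pool.Agent.Mon.MT3

/-!
# Project Mon, module MT4: the models of the diagram; categoricity

`group_of_model`: let `M` be a model of `DN N hN`.  For `a, b, c : M` the type of `(a, b, c)` is the type of a
triple of the group `MY ℕ`, so the formulas `(x y) z = x (y z)`, `1 x = x`, `x⁻¹ x = 1` hold.  So `M` is a group
with the operations given by the function symbols, `P` is the predicate.
`model_lift`: let `G` be a group with predicate `P` such that the types of all finite tuples are in `DN`.
(a) `P` is infinite: for every `k` the sentence (there are `k` different members of `P`) (`supF` for `n = 0`)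
holds in `MY ℕ` so it is in the type of the empty tuple, which is in `DN`.
(b) For `z : Fin k → G` injective with values in `P` and `V : FreeGroup (Fin k)`:
`lift z V = 1 ↔ map (Fin.val) V ∈ N`: the type of `z` is the type of a tuple `x` of `MY ℕ`; `x` consists of
different letters (`letF_realize`), and `lift x V = 1 ↔ V` (with the letters of `x`) `∈ NY` (`mem_NYc_iff`)
`↔ map (Fin.val) V ∈ N`; use `eqF`.
(c) Every `a : G` is `lift z V` for some `k`, `z : Fin k → P` injective, `V`: `exists_word` and `supF` (`n = 1`).
(d) So `FreeGroup.lift (fun y : P => (y : G)) : FreeGroup P → G` is surjective with kernel `NY P`: for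
`W : FreeGroup P` enumerate its letters `y₁, ..., y_k`, `W = map y V`; `W ∈ NY ↔ map f W ∈ N` for any `f`
injective on the letters, e.g. `f (y_i) = i`.
So `MY P ≃* G`, mapping the letters onto `P`.
`categorical_MY`: `card_MY`: `#G = #P` for both models.
-/

open FirstOrder Language Cardinal

universe u v

namespace Mon

variable {N : Subgroup (FreeGroup ℕ)} [N.Normal] {hN : PInv N}

/-! ### Types of a model -/

private theorem tp_ex {M : Type u} [inst : LG.Structure M] (hM : IsModel LG (DN N hN) M) {n : ℕ}
    (a : Fin n → M) : ∃ x : Fin n → MY N hN ℕ, ∀ φ : LG.Formula (Fin n),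
      φ.Realize a ↔ @Formula.Realize LG (MY N hN ℕ) (stY N hN ℕ) (Fin n) φ x := by
  obtain ⟨x, hx⟩ := hM n a
  refine ⟨x, fun φ => ?_⟩
  have h := Set.ext_iff.1 hx φ
  exact h

private theorem tpG_ex {G : Type u} [Group G] {P : Set G}
    (hP : ∀ (n : ℕ) (a : Fin n → G), tpG P a ∈ DN N hN n) {n : ℕ}
    (a : Fin n → G) : ∃ x : Fin n → MY N hN ℕ, ∀ φ : LG.Formula (Fin n),
      @Formula.Realize LG G (strG G P) (Fin n) φ a ↔
        @Formula.Realize LG (MY N hN ℕ) (stY N hN ℕ) (Fin n) φ x := by
  obtain ⟨x, hx⟩ := hP n a
  refine ⟨x, fun φ => ?_⟩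
  have h := Set.ext_iff.1 hx φ
  exact h

/-! ### Terms of the group operations -/

private def tmul {α : Type} (s t : LG.Term α) : LG.Term α :=
  Term.func (L := LG) (l := 2) LF.mul ![s, t]

private def tinv {α : Type} (s : LG.Term α) : LG.Term α :=
  Term.func (L := LG) (l := 1) LF.inv ![s]

private def tone {α : Type} : LG.Term α := Term.func (L := LG) (l := 0) LF.one Fin.elim0

private theorem tmul_realize {M : Type u} [LG.Structure M] {α : Type} (v : α → M)
    (s t : LG.Term α) : (tmul s t).realize v =
      Structure.funMap (L := LG) (n := 2) LF.mul ![s.realize v, t.realize v] := by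
  unfold tmul
  rw [Term.realize_func]
  congr 1
  funext i
  fin_cases i <;> rfl

private theorem tinv_realize {M : Type u} [LG.Structure M] {α : Type} (v : α → M)
    (s : LG.Term α) : (tinv s).realize v =
      Structure.funMap (L := LG) (n := 1) LF.inv ![s.realize v] := by
  unfold tinv
  rw [Term.realize_func]
  congr 1
  funext i
  fin_cases i
  rfl

private theorem tone_realize {M : Type u} [LG.Structure M] {α : Type} (v : α → M) :
    (tone (α := α)).realize v = Structure.funMap (L := LG) (n := 0) LF.one Fin.elim0 := by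
  unfold tone
  rw [Term.realize_func]
  congr 1
  funext i
  exact i.elim0

theorem group_of_model {M : Type u} [inst : LG.Structure M] (hM : IsModel LG (DN N hN) M) :
    ∃ (_ : Group M) (P : Set M), inst = strG M P := by
  let _ : Mul M := ⟨fun a b => Structure.funMap (L := LG) (n := 2) LF.mul ![a, b]⟩
  let _ : Inv M := ⟨fun a => Structure.funMap (L := LG) (n := 1) LF.inv ![a]⟩
  let _ : One M := ⟨Structure.funMap (L := LG) (n := 0) LF.one Fin.elim0⟩
  have hmul : ∀ a b : M, a * b = Structure.funMap (L := LG) (n := 2) LF.mul ![a, b] :=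
    fun _ _ => rfl
  have hinv : ∀ a : M, a⁻¹ = Structure.funMap (L := LG) (n := 1) LF.inv ![a] := fun _ => rfl
  have hone : (1 : M) = Structure.funMap (L := LG) (n := 0) LF.one Fin.elim0 := rfl
  have assoc : ∀ a b c : M, a * b * c = a * (b * c) := by
    intro a b c
    obtain ⟨x, hx⟩ := tp_ex hM ![a, b, c]
    have h1 := (hx (Term.equal (tmul (tmul (Term.var 0) (Term.var 1)) (Term.var 2))
      (tmul (Term.var 0) (tmul (Term.var 1) (Term.var 2))))).2 (by
        let _ := stY N hN ℕ
        rw [Formula.realize_equal]
        simp only [tmul_realize, Term.realize_var]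
        exact mul_assoc (x 0) (x 1) (x 2))
    rw [Formula.realize_equal] at h1
    simp only [tmul_realize, Term.realize_var] at h1
    exact h1
  have one_mul' : ∀ a : M, 1 * a = a := by
    intro a
    obtain ⟨x, hx⟩ := tp_ex hM ![a]
    have h1 := (hx (Term.equal (tmul tone (Term.var 0)) (Term.var 0))).2 (by
        let _ := stY N hN ℕ
        rw [Formula.realize_equal]
        simp only [tmul_realize, tone_realize, Term.realize_var]
        exact one_mul (x 0))
    rw [Formula.realize_equal] at h1
    simp only [tmul_realize, tone_realize, Term.realize_var] at h1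
    exact h1
  have inv_mul' : ∀ a : M, a⁻¹ * a = 1 := by
    intro a
    obtain ⟨x, hx⟩ := tp_ex hM ![a]
    have h1 := (hx (Term.equal (tmul (tinv (Term.var 0)) (Term.var 0)) tone)).2 (by
        let _ := stY N hN ℕ
        rw [Formula.realize_equal]
        simp only [tmul_realize, tinv_realize, tone_realize, Term.realize_var]
        exact inv_mul_cancel (x 0))
    rw [Formula.realize_equal] at h1
    simp only [tmul_realize, tinv_realize, tone_realize, Term.realize_var] at h1
    exact h1
  refine ⟨Group.ofLeftAxioms assoc one_mul' inv_mul',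
    {x | Structure.RelMap (L := LG) (n := 1) LR.P ![x]}, ?_⟩
  apply FirstOrder.Language.Structure.ext
  · funext n f v
    cases f with
    | one =>
      have : v = Fin.elim0 := funext fun i => i.elim0
      rw [this]
      rfl
    | inv =>
      have : v = ![v 0] := by
        funext i
        fin_cases i
        rfl
      rw [this]
      rfl
    | mul =>
      have : v = ![v 0, v 1] := by
        funext i
        fin_cases i <;> rfl
      rw [this]
      rfl
  · funext n r v
    cases r with
    | P =>
      have : v = ![v 0] := by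
        funext i
        fin_cases i
        rfl
      rw [this]
      rfl

theorem model_infinite (hd : Dist N) {G : Type u} [Group G] {P : Set G}
    (hP : ∀ (n : ℕ) (a : Fin n → G), tpG P a ∈ DN N hN n) : P.Infinite := by
  have key : ∀ k : ℕ, ∃ z : Fin k → G, (∀ i, z i ∈ P) ∧ Function.Injective z := by
    intro k
    obtain ⟨x, hx⟩ := tpG_ex hP (Fin.elim0 : Fin 0 → G)
    have h1 := (hx (supF (n := 0) (k := k) (fun i => i.elim0))).2 (by
      refine (supF_realize _ (Set.range (letY N hN)) x).2 ⟨fun i => letY N hN (i : ℕ),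
        fun i => ⟨_, rfl⟩, ?_, fun i => i.elim0⟩
      intro i j hij
      exact Fin.val_injective (letY_injective hd hij))
    obtain ⟨z, h2, h3, -⟩ := (supF_realize _ P _).1 h1
    exact ⟨z, h2, h3⟩
  intro hfin
  obtain ⟨z, h1, h2⟩ := key (hfin.toFinset.card + 1)
  have h3 := Finset.card_le_card_of_injOn (s := Finset.univ) (t := hfin.toFinset) z
    (fun i _ => by simpa using h1 i) (h2.injOn)
  rw [Finset.card_univ, Fintype.card_fin] at h3
  omega

private theorem lift_letY {Y : Type} {k : ℕ} (y : Fin k → Y) (V : FreeGroup (Fin k)) :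
    FreeGroup.lift (fun i => letY N hN (y i)) V = QuotientGroup.mk (FreeGroup.map y V) := by
  have h : FreeGroup.lift (fun i => letY N hN (y i)) =
      (QuotientGroup.mk' (NY N hN Y)).comp (FreeGroup.map y) := by
    ext i
    simp [letY]
  rw [h]
  rfl

theorem model_rel (hd : Dist N) {G : Type u} [Group G] {P : Set G}
    (hP : ∀ (n : ℕ) (a : Fin n → G), tpG P a ∈ DN N hN n) {k : ℕ} {z : Fin k → G}
    (hz : ∀ i, z i ∈ P) (hz' : Function.Injective z) (V : FreeGroup (Fin k)) :
    FreeGroup.lift z V = 1 ↔ FreeGroup.map (fun i : Fin k => (i : ℕ)) V ∈ N := by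
  classical
  obtain ⟨x, hx⟩ := tpG_ex hP z
  have h1 := (hx (letF k)).1 ((letF_realize k P z).2 ⟨hz, hz'⟩)
  obtain ⟨h2, h3⟩ := (letF_realize k (Set.range (letY N hN)) x).1 h1
  choose y hy using h2
  have hxy : x = fun i => letY N hN (y i) := funext fun i => (hy i).symm
  have hyi : Function.Injective y := by
    intro i j hij
    apply h3
    rw [hxy]
    simp only [hij]
  have h4 := hx (eqF V)
  rw [eqF_realize V P z] at h4
  have h5 := eqF_realize V (Set.range (letY N hN)) x
  have h6 : FreeGroup.lift z V = 1 ↔ FreeGroup.lift x V = 1 := h4.trans h5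
  rw [h6, hxy, lift_letY, QuotientGroup.eq_one_iff, mem_NY, NYc_nat hN,
    ← mem_NYc_iff hN (S := Finset.univ) (Finset.subset_univ _) (hyi.injOn),
    mem_NYc_iff hN (S := Finset.univ) (Finset.subset_univ _) (Fin.val_injective.injOn)]

theorem model_word (hd : Dist N) {G : Type u} [Group G] {P : Set G}
    (hP : ∀ (n : ℕ) (a : Fin n → G), tpG P a ∈ DN N hN n) (a : G) :
    ∃ (k : ℕ) (z : Fin k → G) (V : FreeGroup (Fin k)), (∀ i, z i ∈ P) ∧ Function.Injective z ∧
      a = FreeGroup.lift z V := by
  obtain ⟨x, hx⟩ := tpG_ex hP ![a]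
  obtain ⟨k, xx, V, h1, h2⟩ := exists_word x
  have h3 := (hx (supF V)).2 ((supF_realize V (Set.range (letY N hN)) x).2
    ⟨fun i => letY N hN (xx i), fun i => ⟨_, rfl⟩,
      fun i j hij => h1 (letY_injective hd hij), h2⟩)
  obtain ⟨z, h4, h5, h6⟩ := (supF_realize V P _).1 h3
  exact ⟨k, z, V 0, h4, h5, h6 0⟩

theorem model_equiv (hd : Dist N) {G : Type u} [Group G] {P : Set G}
    (hP : ∀ (n : ℕ) (a : Fin n → G), tpG P a ∈ DN N hN n) :
    ∃ φ : MY N hN P ≃* G, ∀ y : P, φ (letY N hN y) = y := by
  classical
  let _ : DecidableEq P := fun a b => Classical.propDecidable (a = b)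
  set L : FreeGroup P →* G := FreeGroup.lift (fun y : P => (y : G)) with hL
  have hmap : ∀ (k : ℕ) (j : Fin k → P) (V : FreeGroup (Fin k)),
      L (FreeGroup.map j V) = FreeGroup.lift (fun i => (j i : G)) V := by
    intro k j V
    have h : L.comp (FreeGroup.map j) = FreeGroup.lift (fun i => (j i : G)) := by
      ext i
      simp [hL]
    rw [← h]
    rfl
  have hsurj : Function.Surjective L := by
    intro a
    obtain ⟨k, z, V, h1, h2, h3⟩ := model_word hd hP a
    refine ⟨FreeGroup.map (fun i => (⟨z i, h1 i⟩ : P)) V, ?_⟩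
    rw [hmap, h3]
  have hker : NY N hN P = L.ker := by
    ext W
    rw [mem_NY, MonoidHom.mem_ker]
    obtain ⟨y0, hy0⟩ := (model_infinite hd hP).nonempty
    set S : Finset P := insert ⟨y0, hy0⟩ (letters W) with hS
    have hSl : letters W ⊆ S := Finset.subset_insert _ _
    have hy0S : (⟨y0, hy0⟩ : P) ∈ S := Finset.mem_insert_self _ _
    let e := S.equivFin
    let g : P → Fin S.card := fun y => if h : y ∈ S then e ⟨y, h⟩ else e ⟨⟨y0, hy0⟩, hy0S⟩
    let j : Fin S.card → P := fun i => (e.symm i).1
    have hj : Function.Injective j := fun i i' h => e.symm.injective (Subtype.ext h)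
    have hjg : ∀ y ∈ S, j (g y) = y := by
      intro y hy
      simp only [j, g, dif_pos hy, Equiv.symm_apply_apply]
    have hginj : Set.InjOn (fun y => ((g y : Fin S.card) : ℕ)) S := by
      intro y hy y' hy' h
      have h1 : g y = g y' := Fin.val_injective h
      rw [← hjg y hy, ← hjg y' hy', h1]
    have hW : W = FreeGroup.map j (FreeGroup.map g W) := by
      rw [FreeGroup.map.comp]
      exact (map_eq_self (fun a ha => hjg a (hSl ha))).symm
    have h1 : L W = FreeGroup.lift (fun i => (j i : G)) (FreeGroup.map g W) := by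
      conv_lhs => rw [hW]
      exact hmap _ j _
    rw [h1, model_rel hd hP (fun i => (j i).2) (fun i i' h => hj (Subtype.ext h)),
      FreeGroup.map.comp]
    exact mem_NYc_iff hN hSl hginj
  refine ⟨(QuotientGroup.quotientMulEquivOfEq hker).trans
    (QuotientGroup.quotientKerEquivOfSurjective L hsurj), fun y => ?_⟩
  show L (FreeGroup.of y) = y
  simp [hL]

/-- Categoricity in every infinite cardinal. -/
theorem categorical_MY (hd : Dist N) (κ : Cardinal.{u}) (hκ : ℵ₀ ≤ κ) :
    Categorical LG (DN N hN) κ := by
  intro M M' inst inst' hM hM' hc hc'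
  obtain ⟨gM, P, hP⟩ := group_of_model hM
  obtain ⟨gM', P', hP'⟩ := group_of_model hM'
  subst hP
  subst hP'
  have hI : Infinite P := (model_infinite hd (G := M) (P := P) hM).to_subtype
  have hI' : Infinite P' := (model_infinite hd (G := M') (P := P') hM').to_subtype
  obtain ⟨φ, hφ⟩ := model_equiv hd (G := M) (P := P) hM
  obtain ⟨φ', hφ'⟩ := model_equiv hd (G := M') (P := P') hM'
  have h1 : #P = κ := by
    rw [← card_MY (N := N) (hN := hN) hd, ← hc]
    exact Cardinal.mk_congr φ.toEquiv
  have h2 : #P' = κ := by
    rw [← card_MY (N := N) (hN := hN) hd, ← hc']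
    exact Cardinal.mk_congr φ'.toEquiv
  obtain ⟨e⟩ := Cardinal.eq.1 (h1.trans h2.symm)
  have hsurj : Function.Surjective (mapY (N := N) hN e.injective) := by
    intro b
    induction b using QuotientGroup.induction_on with
    | H W =>
      refine ⟨QuotientGroup.mk (FreeGroup.map e.symm W), ?_⟩
      rw [mapY_mk, FreeGroup.map.comp]
      congr 1
      have : (e ∘ e.symm) = id := by
        funext x
        simp
      rw [this, FreeGroup.map.id]
  let ψ : MY N hN P ≃* MY N hN P' := MulEquiv.ofBijective (mapY (N := N) hN e.injective)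
    ⟨mapY_injective e.injective, hsurj⟩
  let θ : M ≃* M' := φ.symm.trans (ψ.trans φ')
  have hθ : ∀ y : P, θ y = e y := by
    intro y
    have h3 : φ.symm (y : M) = letY N hN y := by
      rw [MulEquiv.symm_apply_eq, hφ]
    show φ' (mapY (N := N) hN e.injective (φ.symm y)) = e y
    rw [h3, mapY_letY, hφ']
  have hθP : ∀ x, θ x ∈ P' ↔ x ∈ P := by
    intro x
    constructor
    · intro hx
      have h3 := hθ (e.symm ⟨θ x, hx⟩)
      rw [Equiv.apply_symm_apply] at h3
      have h4 := θ.injective h3
      rw [← h4]
      exact Subtype.coe_prop _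
    · intro hx
      have h3 := hθ ⟨x, hx⟩
      simp only at h3
      rw [h3]
      exact Subtype.coe_prop _
  obtain ⟨ψ', -⟩ := exists_equiv P P' θ hθP
  exact ⟨ψ'⟩

end Mon
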