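import Pool.Agent.Mon.MT3

/-!
# Project Mon, module MT5: homogeneity; the diagram is good

`Supp S a`: every permutation which fixes the elements of `S` fixes `a`.
`supp_inter`: if finite sets `S`, `S'` support `a` then `S ∩ S'` supports `a` (`Y` infinite).  Let `σ` fix `S ∩ S'`
pointwise.  Let `E` be a set of new letters (disjoint from `S ∪ S' ∪ σ (S)`) and `α` a permutation which
fixes `S ∩ S'` pointwise and maps `S \ S'` into `E`... precisely: choose permutations
`ρ₁` which fixes `S'` pointwise and maps `S \ S'` injectively into `E` (`exists_perm`), so that `ρ₁ a = a`;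
similarly `ρ₂` which fixes `S'` pointwise and agrees with `σ' = ` the map `ρ₁ (s) ↦ σ (s)` ... the standard
argument: the pointwise stabiliser of `S ∩ S'` is generated by the pointwise stabilisers of `S` and `S'`:
given `σ` fixing `S ∩ S'`, choose `ρ ∈ Fix (S')` mapping `S \ S'` into a set `E` disjoint from
`S ∪ S' ∪ σ⁻¹ (S ∪ S') ∪ σ (S ∪ S')`; `σ ρ a = σ a` (as `ρ a = a`), and `σ ρ` maps `s ∈ S ∩ S'` to `s` and
`s ∈ S \ S'` to `σ (ρ s) ∉ S'` (as `ρ s ∈ E` is not in `σ⁻¹ (S')`).  Let `τ ∈ Fix (S')` be a permutation with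
`τ (σ ρ s) = ρ s` for `s ∈ S \ S'` (`σ ρ s ∉ S'`, `ρ s ∉ S'`).  Then `τ σ ρ` agrees with `ρ` on `S`, so
`τ σ ρ a = ρ a = a`, so `σ a = σ ρ a = τ⁻¹ a = a`.
So there is a least finite support `supp a`; `supp (σ a) = σ (supp a)`.
`homog_MY`: let `f : A → MY Y` be an elementary map, `#A < κ ≤ #Y`.  For every finite tuple `a` of `A`
there is a permutation `σ` with `σ a = f a` (`exists_perm_of_tp`; `IsElemMap` says that the types are
equal).  So for every finite subset `F` of `A` there is `σ_F` with `σ_F a = f a` for `a ∈ F`.  Let `𝒰` be an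
ultrafilter on the finite subsets of `A` which contains all `{F | a ∈ F}`.  For `y ∈ supp a`, `a ∈ A`, and
`F ∋ a`, `σ_F y ∈ supp (f a)`, a finite set, so there is `t y` with `σ_F y = t y` for `𝒰`-almost all `F`.  Let
`S = ⋃ supp a`, `T = ⋃ supp (f a)`.  `t : S → T` is injective and surjective (for `z ∈ supp (f a)`,
`σ_F⁻¹ z ∈ supp a`, again a finite set).  `#S, #T < #Y` if `A` is infinite (`#S ≤ #A * ℵ₀ = #A`), or `S, T` are
finite; so the complements of `S` and `T` have the same cardinality (`#Y`), and `t` extends to a permutation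
`σ` of `Y`.  For `a ∈ A`: for `𝒰`-almost all `F`, `σ` and `σ_F` agree on `supp a` and `σ_F a = f a`, so
`σ a = f a`.  So `f` extends to the elementary map `a ↦ σ a` with domain `MY Y` (`tp_permY`).
`good_MY`: for `μ` let `Y` be a type of cardinality `κ = max μ ℵ₀`, `M = MY Y`, `diagram_MY`,
`homog_MY`, `card_MY`.
-/

open FirstOrder Language Cardinal

universe u v

namespace Mon

variable {N : Subgroup (FreeGroup ℕ)} [N.Normal] {hN : PInv N}

/-- `S` supports `a`. -/
def Supp (hN : PInv N) {Y : Type u} (S : Finset Y) (a : MY N hN Y) : Prop :=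
  ∀ σ : Equiv.Perm Y, (∀ y ∈ S, σ y = y) → permY hN σ a = a

private theorem permY_one {Y : Type u} (a : MY N hN Y) : permY hN (1 : Equiv.Perm Y) a = a := by
  obtain ⟨W, rfl⟩ := QuotientGroup.mk_surjective a
  rw [permY_mk]
  congr 1
  exact FreeGroup.map.id W

/-- Permutations which agree on a support. -/
private theorem Supp.agree {Y : Type u} {S : Finset Y} {a : MY N hN Y} (h : Supp hN S a)
    {σ τ : Equiv.Perm Y} (hst : ∀ y ∈ S, σ y = τ y) : permY hN σ a = permY hN τ a := by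
  have h1 := h (τ⁻¹ * σ) (fun y hy => by simp [hst y hy])
  have h2 := permY_mul (hN := hN) τ (τ⁻¹ * σ) a
  rw [mul_inv_cancel_left, h1] at h2
  exact h2

open Classical in
private theorem Supp.smul {Y : Type u} {S : Finset Y} {a : MY N hN Y} (h : Supp hN S a)
    (σ : Equiv.Perm Y) : Supp hN (S.image σ) (permY hN σ a) := by
  intro ρ hρ
  rw [← permY_mul]
  exact h.agree (fun y hy => hρ _ (Finset.mem_image_of_mem _ hy))

open Classical in
theorem supp_inter {Y : Type u} [Infinite Y] {S S' : Finset Y} {a : MY N hN Y}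
    (h : Supp hN S a) (h' : Supp hN S' a) : Supp hN (S ∩ S') a := by
  intro σ hσ
  -- new letters
  set B : Finset Y := S' ∪ S'.image ⇑σ⁻¹ with hB
  obtain ⟨E, hE, hEc⟩ := (B.finite_toSet.infinite_compl).exists_subset_card_eq S.card
  have hEB : ∀ x ∈ E, x ∉ S' ∧ σ x ∉ S' := by
    intro x hx
    have h1 := hE hx
    rw [Set.mem_compl_iff, Finset.mem_coe, hB, Finset.mem_union, not_or] at h1
    refine ⟨h1.1, fun h2 => h1.2 ?_⟩
    exact Finset.mem_image.2 ⟨σ x, h2, by simp⟩
  have hdis : Disjoint S' E := by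
    rw [Finset.disjoint_left]
    intro x hx hx'
    exact (hEB x hx').1 hx
  obtain ⟨ρ, hρ1, hρ2⟩ := exists_fresh_perm S' S E hdis hEc.ge
  -- the correction
  set U : Finset Y := S' ∪ (S \ S').image (fun s => σ (ρ s)) with hU
  have hU2 : ∀ x ∈ U, x ∉ S' → ∃ s ∈ S, s ∉ S' ∧ σ (ρ s) = x := by
    intro x hx hx'
    rw [hU, Finset.mem_union] at hx
    rcases hx with hx | hx
    · exact absurd hx hx'
    · obtain ⟨s, hs, rfl⟩ := Finset.mem_image.1 hx
      rw [Finset.mem_sdiff] at hs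
      exact ⟨s, hs.1, hs.2, rfl⟩
  obtain ⟨τ, hτ⟩ := exists_perm U (fun x => if x ∈ S' then x else σ⁻¹ x) (by
    intro x hx y hy hxy
    by_cases h1 : x ∈ S' <;> by_cases h2 : y ∈ S'
    · simpa [h1, h2] using hxy
    · exfalso
      simp only [h1, h2, if_true, if_false] at hxy
      obtain ⟨s, hs, hs', rfl⟩ := hU2 y hy h2
      have h3 : ρ s = x := by simpa using hxy.symm
      exact (hEB _ (hρ2 s hs hs')).1 (h3 ▸ h1)
    · exfalso
      simp only [h1, h2, if_true, if_false] at hxy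
      obtain ⟨s, hs, hs', rfl⟩ := hU2 x hx h1
      have h3 : ρ s = y := by simpa using hxy
      exact (hEB _ (hρ2 s hs hs')).1 (h3 ▸ h2)
    · simp only [h1, h2, if_false] at hxy
      exact σ⁻¹.injective hxy)
  have hτ1 : ∀ x ∈ S', τ x = x := by
    intro x hx
    rw [hτ x (Finset.mem_union_left _ hx)]
    simp [hx]
  have hτ2 : ∀ s ∈ S, s ∉ S' → τ (σ (ρ s)) = ρ s := by
    intro s hs hs'
    have h1 : σ (ρ s) ∉ S' := (hEB _ (hρ2 s hs hs')).2
    rw [hτ _ (Finset.mem_union_right _ (Finset.mem_image.2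
      ⟨s, Finset.mem_sdiff.2 ⟨hs, hs'⟩, rfl⟩))]
    simp [h1]
  have e1 : permY hN (τ * σ * ρ) a = permY hN ρ a := by
    refine h.agree fun y hy => ?_
    by_cases hy' : y ∈ S'
    · have h1 := hρ1 y hy'
      have h2 := hσ y (Finset.mem_inter.2 ⟨hy, hy'⟩)
      simp [h1, h2, hτ1 y hy']
    · simpa using hτ2 y hy hy'
  have e2 : permY hN ρ a = a := h' ρ hρ1
  have e3 : permY hN τ a = a := h' τ hτ1
  rw [mul_assoc, permY_mul, permY_mul, e2] at e1
  have e4 := permY_mul (hN := hN) τ⁻¹ τ (permY hN σ a)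
  rw [inv_mul_cancel, permY_one, e1] at e4
  have e5 := permY_mul (hN := hN) τ⁻¹ τ a
  rw [inv_mul_cancel, permY_one, e3] at e5
  rw [e4, ← e5]

/-- The least finite support. -/
theorem exists_supp {Y : Type u} [Infinite Y] (a : MY N hN Y) :
    ∃ S : Finset Y, Supp hN S a ∧ ∀ S' : Finset Y, Supp hN S' a → S ⊆ S' := by
  classical
  obtain ⟨S0, h0⟩ := supp_exists a
  have hS0 : Supp hN S0 a := fun σ hσ => by
    rw [h0 σ 1 (fun y hy => by simp [hσ y hy])]
    exact permY_one a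
  have hex : ∃ n, ∃ S : Finset Y, Supp hN S a ∧ S.card = n := ⟨_, S0, hS0, rfl⟩
  obtain ⟨S, hS, hc⟩ := Nat.find_spec hex
  refine ⟨S, hS, fun S' hS' => ?_⟩
  have h1 := supp_inter hS hS'
  have h2 : Nat.find hex ≤ (S ∩ S').card := Nat.find_min' hex ⟨_, h1, rfl⟩
  rw [← hc] at h2
  have h3 : S ∩ S' = S := Finset.eq_of_subset_of_card_le Finset.inter_subset_left h2
  rw [← h3]
  exact Finset.inter_subset_right

/-- The least finite support. -/
private noncomputable def sp {Y : Type u} [Infinite Y] (a : MY N hN Y) : Finset Y :=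
  (exists_supp a).choose

private theorem sp_supp {Y : Type u} [Infinite Y] (a : MY N hN Y) : Supp hN (sp a) a :=
  (exists_supp a).choose_spec.1

private theorem sp_least {Y : Type u} [Infinite Y] (a : MY N hN Y) {S : Finset Y} (hS : Supp hN S a) :
    sp a ⊆ S :=
  (exists_supp a).choose_spec.2 S hS

private theorem sp_smul {Y : Type u} [Infinite Y] {a : MY N hN Y} (σ : Equiv.Perm Y) {y : Y}
    (hy : y ∈ sp a) : σ y ∈ sp (permY hN σ a) := by
  classical
  have h1 := (sp_supp (permY hN σ a)).smul σ⁻¹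
  rw [← permY_mul, inv_mul_cancel, permY_one] at h1
  obtain ⟨z, hz, rfl⟩ := Finset.mem_image.1 (sp_least a h1 hy)
  simpa using hz

private theorem sp_smul_inv {Y : Type u} [Infinite Y] {a : MY N hN Y} (σ : Equiv.Perm Y) {z : Y}
    (hz : z ∈ sp (permY hN σ a)) : σ⁻¹ z ∈ sp a := by
  have h1 := sp_smul σ⁻¹ hz
  rwa [← permY_mul, inv_mul_cancel, permY_one] at h1

private theorem exists_perm_finset (hd : Dist N) {Y : Type u} {A : Set (MY N hN Y)} {f : A → MY N hN Y}
    (hf : letI := stY N hN Y; IsElemMap LG (MY N hN Y) A f) (F : Finset A) :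
    ∃ σ : Equiv.Perm Y, ∀ a ∈ F, f a = permY hN σ (a : MY N hN Y) := by
  classical
  have hab : tpG (Set.range (letY N hN)) (fun i => ((F.equivFin.symm i : A) : MY N hN Y)) =
      tpG (Set.range (letY N hN)) (fun i => f (F.equivFin.symm i : A)) := by
    ext φ
    exact hf F.card (fun i => (F.equivFin.symm i : A)) φ
  obtain ⟨σ, hσ⟩ := exists_perm_of_tp hd hab
  refine ⟨σ, fun a ha => ?_⟩
  have h := hσ (F.equivFin ⟨a, ha⟩)
  simpa using h

private theorem ultra_pick {X Y : Type*} (U : Ultrafilter X) (g : X → Y) (S : Finset Y)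
    (h : ∀ᶠ x in (U : Filter X), g x ∈ S) : ∃ t ∈ S, ∀ᶠ x in (U : Filter X), g x = t := by
  have h1 : (⋃ t ∈ (S : Set Y), {x | g x = t}) ∈ U := by
    filter_upwards [h] with x hx
    simp only [Set.mem_iUnion]
    exact ⟨g x, hx, rfl⟩
  obtain ⟨t, ht, h2⟩ := (Ultrafilter.finite_biUnion_mem_iff S.finite_toSet).1 h1
  exact ⟨t, ht, h2⟩

private theorem mk_union_lt {Y : Type u} [Infinite Y] {I : Type u} (hI : #I < #Y) (s : I → Finset Y) :
    #(⋃ i, (s i : Set Y) : Set Y) < #Y := by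
  rcases lt_or_ge (#I) ℵ₀ with h | h
  · have hfin : Finite I := Cardinal.lt_aleph0_iff_finite.1 h
    have : (⋃ i, (s i : Set Y)).Finite := Set.finite_iUnion fun i => (s i).finite_toSet
    exact (Cardinal.lt_aleph0_iff_set_finite.2 this).trans_le (Cardinal.aleph0_le_mk Y)
  · refine lt_of_le_of_lt ?_ hI
    calc #(⋃ i, (s i : Set Y) : Set Y) ≤ Cardinal.sum fun i => #(s i : Set Y) :=
          Cardinal.mk_iUnion_le_sum_mk
      _ ≤ Cardinal.sum fun _ : I => ℵ₀ := Cardinal.sum_le_sum _ _ fun i =>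
          (Cardinal.lt_aleph0_iff_set_finite.2 (s i).finite_toSet).le
      _ = #I * ℵ₀ := by simp
      _ = #I := Cardinal.mul_aleph0_eq h

theorem exists_perm_of_elem (hd : Dist N) {Y : Type u} [Infinite Y] {κ : Cardinal.{u}}
    (hκ : κ ≤ #Y) {A : Set (MY N hN Y)} {f : A → MY N hN Y}
    (hf : letI := stY N hN Y; IsElemMap LG (MY N hN Y) A f) (hA : #A < κ) :
    ∃ σ : Equiv.Perm Y, ∀ a : A, f a = permY hN σ (a : MY N hN Y) := by
  classical
  choose σF hσF using exists_perm_finset hd hf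
  set U : Ultrafilter (Finset A) := Ultrafilter.of Filter.atTop with hU
  have hmem : ∀ a : A, ∀ᶠ F in (U : Filter (Finset A)), a ∈ F := by
    intro a
    refine (Ultrafilter.of_le Filter.atTop) ?_
    filter_upwards [Filter.eventually_ge_atTop {a}] with F hF
    exact hF (Finset.mem_singleton_self a)
  have ht : ∀ y : Y, (∃ a : A, y ∈ sp (a : MY N hN Y)) →
      ∃ t, (∃ a : A, t ∈ sp (f a)) ∧ ∀ᶠ F in (U : Filter (Finset A)), σF F y = t := by
    rintro y ⟨a, hy⟩
    obtain ⟨t, ht, h⟩ := ultra_pick U (fun F => σF F y) (sp (f a)) (by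
      filter_upwards [hmem a] with F hF
      rw [hσF F a hF]
      exact sp_smul _ hy)
    exact ⟨t, ⟨a, ht⟩, h⟩
  have hu : ∀ z : Y, (∃ a : A, z ∈ sp (f a)) →
      ∃ t, (∃ a : A, t ∈ sp (a : MY N hN Y)) ∧
        ∀ᶠ F in (U : Filter (Finset A)), (σF F)⁻¹ z = t := by
    rintro z ⟨a, hz⟩
    obtain ⟨t, ht, h⟩ := ultra_pick U (fun F => (σF F)⁻¹ z) (sp (a : MY N hN Y)) (by
      filter_upwards [hmem a] with F hF
      rw [hσF F a hF] at hz
      exact sp_smul_inv _ hz)
    exact ⟨t, ⟨a, ht⟩, h⟩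
  set S : Set Y := ⋃ a : A, (sp (a : MY N hN Y) : Set Y) with hS
  have hSm : ∀ y : S, ∃ a : A, (y : Y) ∈ sp (a : MY N hN Y) := by
    rintro ⟨y, hy⟩
    obtain ⟨a, ha⟩ := Set.mem_iUnion.1 hy
    exact ⟨a, ha⟩
  choose t ht1 ht2 using fun y : S => ht y (hSm y)
  have htinj : Function.Injective t := by
    intro y y' hyy
    have h1 : ∀ᶠ F in (U : Filter (Finset A)), (y : Y) = y' := by
      filter_upwards [ht2 y, ht2 y'] with F h1 h2
      exact (σF F).injective (by rw [h1, h2, hyy])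
    exact Subtype.ext (Filter.eventually_const.1 h1)
  obtain ⟨σ, hσ⟩ := Cardinal.extend_function_of_lt (⟨t, htinj⟩ : S ↪ Y)
    (mk_union_lt (hA.trans_le hκ) fun a : A => sp (a : MY N hN Y)) ⟨Equiv.refl Y⟩
  refine ⟨σ, fun a => ?_⟩
  have h1 : ∀ᶠ F in (U : Filter (Finset A)), ∀ y ∈ sp (a : MY N hN Y), σF F y = σ y := by
    rw [Filter.eventually_all_finset]
    intro y hy
    have hyS : y ∈ S := Set.mem_iUnion.2 ⟨a, hy⟩
    filter_upwards [ht2 ⟨y, hyS⟩] with F hF
    rw [hF]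
    exact (hσ ⟨y, hyS⟩).symm
  obtain ⟨F, hF1, hF2⟩ := (h1.and (hmem a)).exists
  rw [hσF F a hF2]
  exact (sp_supp _).agree hF1

theorem homog_MY (hd : Dist N) {Y : Type u} [Infinite Y] {κ : Cardinal.{u}} (hκ : κ ≤ #Y) :
    (letI := stY N hN Y; Homog LG (MY N hN Y) κ) := by
  intro A f hf hA a
  obtain ⟨σ, hσ⟩ := exists_perm_of_elem hd hκ hf hA
  refine ⟨Set.univ, fun x => permY hN σ x, Set.subset_univ A, ?_, Set.mem_univ a,
    fun x => (hσ x).symm⟩
  intro n b φ
  have h := tp_permY (hN := hN) hd σ (fun i => (b i : MY N hN Y))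
  have h1 := Set.ext_iff.1 h φ
  exact h1.symm

theorem good_MY (hd : Dist N) : Good.{u} LG (DN N hN) := by
  intro μ
  refine ⟨max μ ℵ₀, le_max_left _ _, MY N hN (max μ ℵ₀).out, stY N hN (max μ ℵ₀).out, ?_⟩
  have hc : #((max μ ℵ₀).out) = max μ ℵ₀ := Cardinal.mk_out _
  have : Infinite (max μ ℵ₀).out := by
    rw [Cardinal.infinite_iff, hc]
    exact le_max_right _ _
  refine ⟨diagram_MY hd _, homog_MY hd hc.ge, ?_⟩
  rw [card_MY hd, hc]

end Mon
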