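import Pool.Agent.Mon.Limit
import Pool.Agent.Mon.MT4
import Pool.Agent.Mon.MT5

/-!
# Project Mon: the main theorem
-/

open FirstOrder Language Cardinal

universe u

namespace Mon

/-- There is an infinite group `G` with a subset `P` such that the diagram of `(G, P)` is good and
categorical in every infinite cardinal, and every abelian subgroup of `G` is finite. -/
theorem main : ∃ (G : Type) (_ : Group G) (P : Set G), Infinite G ∧
    (letI := strG G P
     Good.{u} LG (diagram LG G) ∧
      ∀ κ : Cardinal.{u}, ℵ₀ ≤ κ → Categorical LG (diagram LG G) κ) ∧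
    ∀ A : Subgroup G, (∀ x ∈ A, ∀ y ∈ A, x * y = y * x) → Finite A := by
  obtain ⟨N, hNn, hN, hd, hA⟩ := exists_limit
  have hd' : Dist N := hd
  -- `MY ℕ` is isomorphic to `FreeGroup ℕ ⧸ N`
  have hNY : NY N hN ℕ = N := by
    ext W
    rw [mem_NY]
    exact NYc_nat hN
  refine ⟨MY N hN ℕ, inferInstance, Set.range (letY N hN), ?_, ⟨?_, ?_⟩, ?_⟩
  · have := card_MY (hN := hN) hd' (Y := ℕ)
    rw [mk_nat] at this
    exact infinite_iff.2 this.ge
  · exact good_MY hd'
  · exact fun κ hκ => categorical_MY hd' κ hκ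
  · intro A hcomm
    have key : ∀ (K : Subgroup (FreeGroup ℕ)) (_ : K.Normal), K = N →
        ∀ A : Subgroup (FreeGroup ℕ ⧸ K), (∀ x ∈ A, ∀ y ∈ A, x * y = y * x) → Finite A := by
      intro K _ hK
      subst hK
      exact hA
    exact key (NY N hN ℕ) inferInstance hNY A hcomm

end Mon
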