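import Pool.Agent.Mon.Basic

/-!
# Project Mon, module FreeLen: the free group is `0`-hyperbolic

`ℓ = FreeGroup.norm` on `F = FreeGroup ℕ`.
`isLen_norm`: `geod`: let `L = g.toWord` (reduced), `h = mk (L.take k)`: prefixes and suffixes of reduced words
are reduced, `norm h = k` and `h⁻¹ g = mk (L.drop k)`.
`hyp_norm`: for `g, h` let `q (g, h)` be the length of the longest common prefix of `g.toWord` and
`h.toWord`.  Then `norm (g⁻¹ h) + 2 q (g, h) = norm g + norm h` (write `g = p a`, `h = p b` with `p` the common
prefix; `a⁻¹ b` is reduced as written, as the first letters of `a` and `b` differ).  For three elements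
`q (g, k) ≥ min (q (g, h)) (q (h, k))` (common prefixes).  The four point condition for `x, y, z, t`: translate
`x` to `1`; with `ds 1 g = norm g` it is
`norm z + ds y t ≤ max (norm y + ds z t) (norm t + ds y z)`, equivalent to
`q (y, t) ≥ min (q (z, t)) (q (y, z))`.
-/

namespace Mon

private theorem norm_of_red {L : List (ℕ × Bool)} (h : FreeGroup.IsReduced L) :
    FreeGroup.norm (FreeGroup.mk L) = L.length := by
  unfold FreeGroup.norm
  rw [FreeGroup.toWord_mk, h.reduce_eq]

private theorem red_invRev {L : List (ℕ × Bool)} (h : FreeGroup.IsReduced L) :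
    FreeGroup.IsReduced (FreeGroup.invRev L) := by
  rw [FreeGroup.isReduced_iff_reduce_eq, FreeGroup.reduce_invRev, h.reduce_eq]

theorem isLen_norm : IsLen (FreeGroup.norm : FreeGroup ℕ → ℕ) := by
  refine ⟨fun g => FreeGroup.norm_eq_zero, fun g => FreeGroup.norm_inv_eq,
    fun g h => FreeGroup.norm_mul_le g h, fun g k hk => ?_⟩
  have hr : FreeGroup.IsReduced g.toWord := FreeGroup.isReduced_toWord
  have hr' : FreeGroup.IsReduced (g.toWord.take k ++ g.toWord.drop k) := by
    rw [List.take_append_drop]; exact hr
  have h1 : FreeGroup.IsReduced (g.toWord.take k) := (List.isChain_append.1 hr').1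
  have h2 : FreeGroup.IsReduced (g.toWord.drop k) := (List.isChain_append.1 hr').2.1
  have hk' : k ≤ g.toWord.length := hk
  refine ⟨FreeGroup.mk (g.toWord.take k), ?_, ?_⟩
  · rw [norm_of_red h1, List.length_take, min_eq_left hk']
  · have e : g = FreeGroup.mk (g.toWord.take k) * FreeGroup.mk (g.toWord.drop k) := by
      rw [FreeGroup.mul_mk, List.take_append_drop, FreeGroup.mk_toWord]
    have e2 : (FreeGroup.mk (g.toWord.take k))⁻¹ * g = FreeGroup.mk (g.toWord.drop k) := by
      rw [inv_mul_eq_iff_eq_mul]
      exact e
    rw [e2, norm_of_red h2, List.length_drop]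
    rfl

/-- the length of the longest common prefix -/
private def cp : List (ℕ × Bool) → List (ℕ × Bool) → ℕ
  | [], _ => 0
  | _ :: _, [] => 0
  | a :: l, b :: m => if a = b then cp l m + 1 else 0

private theorem cp_norm : ∀ l m : List (ℕ × Bool), FreeGroup.IsReduced l → FreeGroup.IsReduced m →
    FreeGroup.norm ((FreeGroup.mk l)⁻¹ * FreeGroup.mk m) + 2 * cp l m = l.length + m.length := by
  intro l
  induction l with
  | nil =>
    intro m _ hm
    have e : (FreeGroup.mk ([] : List (ℕ × Bool)))⁻¹ * FreeGroup.mk m = FreeGroup.mk m := by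
      rw [← FreeGroup.one_eq_mk]; simp
    rw [e, norm_of_red hm]
    simp [cp]
  | cons a l ih =>
    intro m hl hm
    cases m with
    | nil =>
      have e : (FreeGroup.mk (a :: l))⁻¹ * FreeGroup.mk ([] : List (ℕ × Bool))
          = (FreeGroup.mk (a :: l))⁻¹ := by
        rw [← FreeGroup.one_eq_mk]; simp
      rw [e, FreeGroup.norm_inv_eq, norm_of_red hl]
      simp [cp]
    | cons b m =>
      by_cases hab : a = b
      · subst hab
        have tl : ∀ L : List (ℕ × Bool), FreeGroup.IsReduced (a :: L) → FreeGroup.IsReduced L := by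
          intro L hL
          have hL' : FreeGroup.IsReduced ([a] ++ L) := hL
          exact (List.isChain_append.1 hL').2.1
        have hl' : FreeGroup.IsReduced l := tl l hl
        have hm' : FreeGroup.IsReduced m := tl m hm
        have e1 : FreeGroup.mk (a :: l) = FreeGroup.mk [a] * FreeGroup.mk l := by
          rw [FreeGroup.mul_mk]; rfl
        have e2 : FreeGroup.mk (a :: m) = FreeGroup.mk [a] * FreeGroup.mk m := by
          rw [FreeGroup.mul_mk]; rfl
        have e3 : (FreeGroup.mk (a :: l))⁻¹ * FreeGroup.mk (a :: m)
            = (FreeGroup.mk l)⁻¹ * FreeGroup.mk m := by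
          rw [e1, e2]; group
        have h := ih m hl' hm'
        rw [e3]
        simp only [cp, if_true, List.length_cons]
        omega
      · have e : (FreeGroup.mk (a :: l))⁻¹ * FreeGroup.mk (b :: m)
            = FreeGroup.mk (FreeGroup.invRev (a :: l) ++ (b :: m)) := by
          rw [FreeGroup.inv_mk, FreeGroup.mul_mk]
        have hr : FreeGroup.IsReduced (FreeGroup.invRev (a :: l) ++ (b :: m)) := by
          unfold FreeGroup.IsReduced
          rw [List.isChain_append]
          refine ⟨red_invRev hl, hm, ?_⟩
          intro x hx y hy h1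
          simp only [FreeGroup.invRev, List.map_cons, List.reverse_cons, List.getLast?_append,
            List.getLast?_singleton, Option.some_or, Option.mem_def, Option.some.injEq,
            List.head?_cons] at hx hy
          subst hx hy
          simp only at h1 ⊢
          have : a.2 ≠ b.2 := fun h => hab (Prod.ext h1 h)
          revert this
          cases a.2 <;> cases b.2 <;> simp
        rw [e, norm_of_red hr]
        simp only [List.length_append, FreeGroup.invRev_length, cp, if_neg hab, mul_zero, add_zero]

private theorem cp_min : ∀ l m n : List (ℕ × Bool), min (cp l m) (cp m n) ≤ cp l n := by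
  intro l
  induction l with
  | nil => intro m n; simp [cp]
  | cons a l ih =>
    intro m n
    cases m with
    | nil => simp [cp]
    | cons b m =>
      cases n with
      | nil => simp [cp]
      | cons c n =>
        by_cases hab : a = b
        · subst hab
          by_cases hac : a = c
          · subst hac
            have := ih m n
            simp only [cp, if_true]
            omega
          · simp [cp, hac]
        · simp [cp, hab]

theorem hyp_norm : Hyp (FreeGroup.norm : FreeGroup ℕ → ℕ) 0 := by
  intro x y z t
  have key : ∀ g h : FreeGroup ℕ, FreeGroup.norm (g⁻¹ * h) + 2 * cp g.toWord h.toWord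
      = FreeGroup.norm g + FreeGroup.norm h := by
    intro g h
    have := cp_norm g.toWord h.toWord FreeGroup.isReduced_toWord FreeGroup.isReduced_toWord
    rw [FreeGroup.mk_toWord, FreeGroup.mk_toWord] at this
    exact this
  have e : ∀ g h : FreeGroup ℕ, ds FreeGroup.norm g h
      = FreeGroup.norm ((x⁻¹ * g)⁻¹ * (x⁻¹ * h)) := by
    intro g h
    unfold ds
    rw [show (x⁻¹ * g)⁻¹ * (x⁻¹ * h) = g⁻¹ * h by group]
  have e1 : ∀ g : FreeGroup ℕ, ds FreeGroup.norm x g = FreeGroup.norm (x⁻¹ * g) := fun g => rfl
  rw [e1 z, e1 y, e1 t, e y t, e z t, e y z]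
  have k1 := key (x⁻¹ * y) (x⁻¹ * t)
  have k2 := key (x⁻¹ * z) (x⁻¹ * t)
  have k3 := key (x⁻¹ * y) (x⁻¹ * z)
  have k4 := cp_min (x⁻¹ * y).toWord (x⁻¹ * z).toWord (x⁻¹ * t).toWord
  omega

end Mon
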