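import Pool.Agent.Mon.Step

/-!
# Project Mon, module Limit: the limit group

Proof.  Let `v : ℕ → F` be an enumeration of `F = FreeGroup ℕ` (countable).  By `cls_bot` and `step` there is a
sequence `N₀ = ⊥ ≤ N₁ ≤ ...` of normal subgroups of the class `Cls` such that `N_{i+1}` is obtained by `step`
from `N_i`, `v i`, `ρ = i + 2`.  `N = ⋃ N_i` is normal, `PInv N`.
* `of i (of j)⁻¹` has norm `2 ≤ ρ` so it is in `N_{i+1}` only if it is in `N_i`; it is not in `⊥`.
* every element of `F` has a power in `N`.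
* Let `a ∉ N`.  Choose `i₀` with `a^k ∈ N_{i₀}` for some `k ≥ 1`, `norm a ≤ i₀`.  In `F ⧸ N_{i₀}` the class of
  `a` has finite order and is `≠ 1`, so its centraliser is finite.  Let `b ∈ F` commute with `a` modulo `N`,
  so modulo `N_j` for some `j ≥ i₀`; by downward induction on `j` (last part of `step`) there is `b'` with
  `b'⁻¹ b ∈ N_j`, `[a, b'] ∈ N_{i₀}`.  So the centraliser of the class of `a` in `F ⧸ N` is contained in the
  image of the centraliser of the class of `a` in `F ⧸ N_{i₀}` and is finite.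
* Let `A` be a commutative subgroup of `F ⧸ N`.  If `A` is trivial it is finite.  Otherwise it is contained in
  the centraliser of a non-trivial element.
-/

namespace Mon

/-- The sequence of normal subgroups. -/
private theorem exists_seq (v : ℕ → FreeGroup ℕ) : ∃ S : ℕ → Subgroup (FreeGroup ℕ),
    (∀ i, ∃ h : (S i).Normal, @Cls (S i) h) ∧ S 0 = ⊥ ∧ (∀ i, S i ≤ S (i + 1)) ∧
    (∀ i, ∃ k : ℕ, 0 < k ∧ v i ^ k ∈ S (i + 1)) ∧
    (∀ i, ∀ V : FreeGroup ℕ, V.norm ≤ i + 2 → V ∈ S (i + 1) → V ∈ S i) ∧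
    ∀ i, ∀ a b : FreeGroup ℕ, a.norm ≤ i + 2 → a * b * a⁻¹ * b⁻¹ ∈ S (i + 1) →
        ∃ b' : FreeGroup ℕ, b'⁻¹ * b ∈ S (i + 1) ∧ a * b' * a⁻¹ * b'⁻¹ ∈ S i := by
  classical
  have hstep : ∀ (i : ℕ) (N : {N : Subgroup (FreeGroup ℕ) // ∃ h : N.Normal, @Cls N h}),
      ∃ N' : {N : Subgroup (FreeGroup ℕ) // ∃ h : N.Normal, @Cls N h}, N.1 ≤ N'.1 ∧
      (∃ k : ℕ, 0 < k ∧ v i ^ k ∈ N'.1) ∧
      (∀ V : FreeGroup ℕ, V.norm ≤ i + 2 → V ∈ N'.1 → V ∈ N.1) ∧
      ∀ a b : FreeGroup ℕ, a.norm ≤ i + 2 → a * b * a⁻¹ * b⁻¹ ∈ N'.1 →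
        ∃ b' : FreeGroup ℕ, b'⁻¹ * b ∈ N'.1 ∧ a * b' * a⁻¹ * b'⁻¹ ∈ N.1 := by
    rintro i ⟨N, hn, hc⟩
    obtain ⟨N', hn', h1, h2, h3, h4, h5⟩ := @step N hn hc (v i) (i + 2)
    exact ⟨⟨N', hn', h2⟩, h1, h3, h4, h5⟩
  choose nxt h1 h2 h3 h4 using hstep
  let sq : ℕ → {N : Subgroup (FreeGroup ℕ) // ∃ h : N.Normal, @Cls N h} :=
    fun n => Nat.rec ⟨⊥, inferInstance, cls_bot⟩ (fun i N => nxt i N) n
  exact ⟨fun n => (sq n).1, fun i => (sq i).2, rfl, fun i => h1 i (sq i), fun i => h2 i (sq i),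
    fun i => h3 i (sq i), fun i => h4 i (sq i)⟩

/-- THE MAIN THEOREM ON GROUPS. -/
theorem exists_limit : ∃ (N : Subgroup (FreeGroup ℕ)) (_ : N.Normal), PInv N ∧
    (∀ i j : ℕ, i ≠ j → FreeGroup.of i * (FreeGroup.of j)⁻¹ ∉ N) ∧
    ∀ A : Subgroup (FreeGroup ℕ ⧸ N), (∀ x ∈ A, ∀ y ∈ A, x * y = y * x) → Finite A := by
  classical
  obtain ⟨v, hv⟩ := exists_surjective_nat (FreeGroup ℕ)
  obtain ⟨S, hS, hS0, hle, hpow, hrad, hcen⟩ := exists_seq v
  have hmono : Monotone S := monotone_nat_of_le_succ hle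
  let N : Subgroup (FreeGroup ℕ) :=
    { carrier := {x | ∃ i, x ∈ S i}
      mul_mem' := by
        rintro x y ⟨i, hi⟩ ⟨j, hj⟩
        exact ⟨max i j, mul_mem (hmono (le_max_left i j) hi) (hmono (le_max_right i j) hj)⟩
      one_mem' := ⟨0, one_mem _⟩
      inv_mem' := by
        rintro x ⟨i, hi⟩
        exact ⟨i, inv_mem hi⟩ }
  have hN : ∀ x, x ∈ N ↔ ∃ i, x ∈ S i := fun x => Iff.rfl
  have hSN : ∀ i, S i ≤ N := fun i x hx => ⟨i, hx⟩
  have hNn : N.Normal := by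
    refine ⟨?_⟩
    rintro x ⟨i, hi⟩ g
    obtain ⟨hn, -⟩ := hS i
    exact ⟨i, hn.conj_mem x hi g⟩
  refine ⟨N, hNn, ?_, ?_, ?_⟩
  · intro σ V hV
    obtain ⟨i, hi⟩ := hV
    obtain ⟨hn, hc⟩ := hS i
    exact ⟨i, hc.inv σ V hi⟩
  · intro i j hij
    rintro ⟨m, hm⟩
    induction m with
    | zero =>
      rw [hS0, Subgroup.mem_bot, mul_inv_eq_one] at hm
      exact hij (FreeGroup.of_injective hm)
    | succ m ih =>
      apply ih
      refine hrad m _ ?_ hm
      have h1 := FreeGroup.norm_mul_le (FreeGroup.of i) (FreeGroup.of j)⁻¹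
      rw [FreeGroup.norm_inv_eq, FreeGroup.norm_of, FreeGroup.norm_of] at h1
      omega
  · intro A hA
    by_cases htriv : ∀ x ∈ A, x = 1
    · have : A = ⊥ := (Subgroup.eq_bot_iff_forall A).2 htriv
      rw [this]
      infer_instance
    · push Not at htriv
      obtain ⟨a', ha'A, ha'1⟩ := htriv
      obtain ⟨a, rfl⟩ := QuotientGroup.mk_surjective a'
      have haN : a ∉ N := by
        intro h
        exact ha'1 ((QuotientGroup.eq_one_iff a).2 h)
      obtain ⟨m, rfl⟩ := hv a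
      obtain ⟨k, hk, hkm⟩ := hpow m
      obtain ⟨i₀, hi1, hi2⟩ : ∃ i₀, m + 1 ≤ i₀ ∧ (v m).norm ≤ i₀ :=
        ⟨max (m + 1) (v m).norm, le_max_left _ _, le_max_right _ _⟩
      generalize hav : v m = a at *
      have hki : a ^ k ∈ S i₀ := hmono hi1 hkm
      have haS : a ∉ S i₀ := fun h => haN (hSN i₀ h)
      obtain ⟨hn, hc⟩ := hS i₀
      have hfin : {x : FreeGroup ℕ ⧸ S i₀ | x * (QuotientGroup.mk a) = (QuotientGroup.mk a) * x}.Finite := by
        refine hc.cent (QuotientGroup.mk a) ?_ ?_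
        · rw [isOfFinOrder_iff_pow_eq_one]
          refine ⟨k, hk, ?_⟩
          rw [← QuotientGroup.mk_pow, QuotientGroup.eq_one_iff]
          exact hki
        · rw [Ne, QuotientGroup.eq_one_iff]
          exact haS
      have hdown : ∀ j, i₀ ≤ j → ∀ b : FreeGroup ℕ, a * b * a⁻¹ * b⁻¹ ∈ S j →
          ∃ b' : FreeGroup ℕ, b'⁻¹ * b ∈ S j ∧ a * b' * a⁻¹ * b'⁻¹ ∈ S i₀ := by
        intro j hj
        induction j, hj using Nat.le_induction with
        | base =>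
          intro b hb
          exact ⟨b, by simp, hb⟩
        | succ j hj ih =>
          intro b hb
          obtain ⟨b1, h1, h2⟩ := hcen j a b (by omega) hb
          obtain ⟨b2, h3, h4⟩ := ih b1 h2
          refine ⟨b2, ?_, h4⟩
          have h5 := mul_mem (hle j h3) h1
          rwa [show b2⁻¹ * b1 * (b1⁻¹ * b) = b2⁻¹ * b by group] at h5
      have hle0 : S i₀ ≤ N.comap (MonoidHom.id (FreeGroup ℕ)) := hSN i₀
      have hsub : (A : Set (FreeGroup ℕ ⧸ N)) ⊆ (QuotientGroup.map (S i₀) N (MonoidHom.id _) hle0) ''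
          {x : FreeGroup ℕ ⧸ S i₀ | x * (QuotientGroup.mk a) = (QuotientGroup.mk a) * x} := by
        intro x hx
        obtain ⟨b, rfl⟩ := QuotientGroup.mk_surjective x
        have hcomm := hA _ ha'A _ hx
        have h1 : a * b * a⁻¹ * b⁻¹ ∈ N := by
          rw [← QuotientGroup.eq_one_iff]
          simp only [QuotientGroup.mk_mul, QuotientGroup.mk_inv]
          rw [mul_inv_eq_one, mul_inv_eq_iff_eq_mul]
          exact hcomm
        obtain ⟨j, hj⟩ := h1
        obtain ⟨b', h2, h3⟩ := hdown (max i₀ j) (le_max_left _ _) b (hmono (le_max_right _ _) hj)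
        refine ⟨QuotientGroup.mk b', ?_, ?_⟩
        · show (QuotientGroup.mk b' : FreeGroup ℕ ⧸ S i₀) * (QuotientGroup.mk a) =
            (QuotientGroup.mk a) * (QuotientGroup.mk b')
          have h4 := (QuotientGroup.eq_one_iff (N := S i₀) _).2 h3
          simp only [QuotientGroup.mk_mul, QuotientGroup.mk_inv] at h4
          rw [mul_inv_eq_one, mul_inv_eq_iff_eq_mul] at h4
          exact h4.symm
        · show (QuotientGroup.mk b' : FreeGroup ℕ ⧸ N) = QuotientGroup.mk b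
          rw [QuotientGroup.eq]
          exact hSN _ h2
      exact ((hfin.image _).subset hsub).to_subtype

end Mon
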