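import Pool.Agent.Mon.Basic

/-!
# Project Mon, module Lox1: powers of an element, almost superadditive lengths

Let `f n = ℓ (vⁿ)`; `ds (v^a) (v^b) = f (b - a)` for `a ≤ b`.
`lox_step`: for `n ≥ 2`, the four point condition for `1, v, v², vⁿ`:
`f 2 + f (n - 1) ≤ max (f 1 + f (n - 2)) (f n + f 1) + D`.  With `f 2 ≥ f 1 + D + 1` one gets by induction
on `n ≥ 1` that `f (n + 1) ≥ f n + (f 2 - f 1 - D)` (so `f` is increasing and the first alternative is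
impossible).
`lox_sum`: for `m, n ≥ 1` the four point condition for `1, v^m, v^(m+1), v^(m+n)`:
`f (m + 1) + f n ≤ max (f m + f (n - 1)) (f (m + n) + f 1) + D`, where by `lox_step`
`f (m + 1) ≥ f m + s`, `f n ≥ f (n - 1) + s`, `s = f 2 - f 1 - D`, `2 s > D` (for `n = 1` use `f 1 ≥ f 0 + s`,
as `f 2 ≤ 2 f 1`): the first alternative is impossible, and
`f m + f n + s ≤ f (m + 1) + f n ≤ f (m + n) + f 1 + D`.
`qc_zpowers`: let `f` satisfy `QL f e`.  Let `p = w^i`, `q = w^j`; by symmetry and translation `p = 1`,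
`q = w^n`, `n ≥ 0` (powers with negative exponents: `ℓ (w⁻ⁿ) = ℓ (wⁿ)`).  Let `z` be between them,
`k = ds 1 z ≤ f n`.  Let `m ≤ n` be the largest index with `f m ≤ k`.  If `m = n` then `k = f n`, `z = wⁿ`.
Otherwise `f m ≤ k < f (m + 1) ≤ f m + f 1`.  By `Hyp.P` for the point `w^m`:
`ds z w^m + k ≤ f m + D` or `ds z w^m + (f n - k) ≤ f (n - m) + D ≤ f n + e - f m + D`.
-/

set_option linter.all false

namespace Mon

variable {G : Type*} [Group G] {ℓ : G → ℕ} {D : ℕ}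

theorem ds_pow (hl : IsLen ℓ) (v : G) {a b : ℕ} (hab : a ≤ b) :
    ds ℓ (v ^ a) (v ^ b) = ℓ (v ^ (b - a)) := by
  obtain ⟨k, rfl⟩ := Nat.exists_eq_add_of_le hab
  unfold ds
  rw [pow_add, inv_mul_cancel_left, Nat.add_sub_cancel_left]

theorem len_zpow (hl : IsLen ℓ) (v : G) (k : ℤ) : ℓ (v ^ k) = ℓ (v ^ k.natAbs) := by
  rcases Int.natAbs_eq k with h | h
  · conv_lhs => rw [h, zpow_natCast]
  · conv_lhs => rw [h, zpow_neg, zpow_natCast, hl.inv]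

theorem ds_zpow (hl : IsLen ℓ) (v : G) (a b : ℤ) :
    ds ℓ (v ^ a) (v ^ b) = ℓ (v ^ (b - a).natAbs) := by
  unfold ds
  rw [← zpow_neg, ← zpow_add, len_zpow hl, neg_add_eq_sub]

theorem lox_step (hl : IsLen ℓ) (hD : Hyp ℓ D) {v : G} (hv : ℓ v + D + 1 ≤ ℓ (v ^ 2)) {n : ℕ}
    (hn : 1 ≤ n) : ℓ (v ^ n) + ℓ (v ^ 2) ≤ ℓ (v ^ (n + 1)) + ℓ v + D := by
  induction n, hn using Nat.le_induction with
  | base =>
    rw [pow_one]
    have h : (1 + 1 : ℕ) = 2 := rfl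
    rw [h]
    omega
  | succ n hn ih =>
    have h := hD (v ^ 0) (v ^ 1) (v ^ 2) (v ^ (n + 2))
    rw [ds_pow hl v (by omega : 0 ≤ 2), ds_pow hl v (by omega : 1 ≤ n + 2),
      ds_pow hl v (by omega : 0 ≤ 1), ds_pow hl v (by omega : 2 ≤ n + 2),
      ds_pow hl v (by omega : 0 ≤ n + 2), ds_pow hl v (by omega : 1 ≤ 2)] at h
    have e1 : n + 2 - 1 = n + 1 := by omega
    have e2 : n + 2 - 2 = n := by omega
    have e3 : (2 - 1 : ℕ) = 1 := rfl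
    simp only [e1, e2, e3, Nat.sub_zero, pow_one] at h
    have e4 : n + 1 + 1 = n + 2 := rfl
    rw [e4]
    rcases le_total (ℓ v + ℓ (v ^ n)) (ℓ (v ^ (n + 2)) + ℓ v) with h2 | h2
    · rw [max_eq_right h2] at h
      omega
    · rw [max_eq_left h2] at h
      omega

theorem lox_sum (hl : IsLen ℓ) (hD : Hyp ℓ D) {v : G} (hv : 2 * ℓ v + 3 * D + 1 ≤ 2 * ℓ (v ^ 2))
    {m n : ℕ} (hm : 1 ≤ m) (hn : 1 ≤ n) :
    ℓ (v ^ m) + ℓ (v ^ n) + ℓ (v ^ 2) ≤ ℓ (v ^ (m + n)) + 2 * ℓ v + 2 * D := by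
  have hv2 : ℓ v + D + 1 ≤ ℓ (v ^ 2) := by omega
  have s1 := lox_step hl hD hv2 hm
  have s2 : ℓ (v ^ (n - 1)) + ℓ (v ^ 2) ≤ ℓ (v ^ n) + ℓ v + D := by
    rcases Nat.lt_or_ge 1 n with h | h
    · have := lox_step hl hD hv2 (n := n - 1) (by omega)
      rwa [Nat.sub_add_cancel hn] at this
    · have h1 : n = 1 := by omega
      subst h1
      have h2 : ℓ (v ^ (1 - 1)) = 0 := by
        rw [Nat.sub_self, pow_zero]
        exact (hl.one 1).2 rfl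
      have h3 := hl.mul v v
      rw [← pow_two] at h3
      rw [h2, pow_one]
      omega
  have h := hD (v ^ 0) (v ^ m) (v ^ (m + 1)) (v ^ (m + n))
  rw [ds_pow hl v (by omega : 0 ≤ m + 1), ds_pow hl v (by omega : m ≤ m + n),
    ds_pow hl v (by omega : 0 ≤ m), ds_pow hl v (by omega : m + 1 ≤ m + n),
    ds_pow hl v (by omega : 0 ≤ m + n), ds_pow hl v (by omega : m ≤ m + 1)] at h
  have e1 : m + n - m = n := by omega
  have e2 : m + n - (m + 1) = n - 1 := by omega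
  have e3 : m + 1 - m = 1 := by omega
  simp only [e1, e2, e3, Nat.sub_zero, pow_one] at h
  rcases le_total (ℓ (v ^ m) + ℓ (v ^ (n - 1))) (ℓ (v ^ (m + n)) + ℓ v) with h2 | h2
  · rw [max_eq_right h2] at h
    omega
  · rw [max_eq_left h2] at h
    omega

theorem lox_ql (hl : IsLen ℓ) (hD : Hyp ℓ D) {v : G} (hv : 2 * ℓ v + 3 * D + 1 ≤ 2 * ℓ (v ^ 2)) :
    QL (fun n => ℓ (v ^ n)) (ℓ v + D) := by
  intro m n
  have h0 : ℓ (v ^ 0) = 0 := by
    rw [pow_zero]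
    exact (hl.one 1).2 rfl
  show ℓ (v ^ m) + ℓ (v ^ n) ≤ ℓ (v ^ (m + n)) + (ℓ v + D)
  rcases Nat.eq_zero_or_pos m with hm | hm
  · subst hm
    rw [h0, zero_add, zero_add]
    omega
  · rcases Nat.eq_zero_or_pos n with hn | hn
    · subst hn
      have h1 : ℓ (v ^ (m + 0)) = ℓ (v ^ m) := rfl
      rw [h0, h1]
      omega
    · have := lox_sum hl hD hv hm hn
      omega

private theorem lox1_core (hl : IsLen ℓ) (hD : Hyp ℓ D) {w : G} {e : ℕ}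
    (hw : QL (fun n => ℓ (w ^ n)) e) (n : ℕ) (z : G) (hz : Btw ℓ 1 z (w ^ n)) :
    ∃ m : ℕ, ds ℓ z (w ^ m) ≤ ℓ w + e + D := by
  have hz' := hz
  unfold Btw at hz'
  rw [ds_one, ds_one] at hz'
  have h0 : ℓ (w ^ 0) = 0 := by
    rw [pow_zero]
    exact (hl.one 1).2 rfl
  have hex : ∀ N : ℕ, ℓ z < ℓ (w ^ N) → ∃ m, m < N ∧ ℓ (w ^ m) ≤ ℓ z ∧ ℓ z < ℓ (w ^ (m + 1)) := by
    intro N
    induction N with
    | zero => intro h; omega
    | succ N ih =>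
      intro h
      by_cases h1 : ℓ z < ℓ (w ^ N)
      · obtain ⟨m, h2, h3, h4⟩ := ih h1
        exact ⟨m, by omega, h3, h4⟩
      · exact ⟨N, by omega, by omega, h⟩
  by_cases h1 : ℓ z < ℓ (w ^ n)
  · obtain ⟨m, h2, h3, h4⟩ := hex n h1
    refine ⟨m, ?_⟩
    have h5 : ℓ (w ^ (m + 1)) ≤ ℓ (w ^ m) + ℓ w := by
      rw [pow_succ]
      exact hl.mul _ _
    have h6 : ℓ (w ^ m) + ℓ (w ^ (n - m)) ≤ ℓ (w ^ n) + e := by
      have h7 := hw m (n - m)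
      have h8 : m + (n - m) = n := by omega
      simp only [h8] at h7
      exact h7
    have h9 : ds ℓ (w ^ m) (w ^ n) = ℓ (w ^ (n - m)) := ds_pow hl w h2.le
    rcases hD.P hl hz (w ^ m) with h10 | h10
    · rw [hl.ds_comm z 1, hl.ds_comm (w ^ m) 1, ds_one, ds_one] at h10
      omega
    · rw [h9] at h10
      omega
  · refine ⟨n, ?_⟩
    omega

theorem qc_zpowers (hl : IsLen ℓ) (hD : Hyp ℓ D) {w : G} {e : ℕ}
    (hw : QL (fun n => ℓ (w ^ n)) e) :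
    QC ℓ (ℓ w + e + D) (Subgroup.zpowers w : Set G) := by
  have key : ∀ i j : ℤ, i ≤ j → ∀ z, Btw ℓ (w ^ i) z (w ^ j) →
      ∃ a ∈ (Subgroup.zpowers w : Set G), ds ℓ z a ≤ ℓ w + e + D := by
    intro i j hij z hz
    have h1 : Btw ℓ ((w ^ i)⁻¹ * w ^ i) ((w ^ i)⁻¹ * z) ((w ^ i)⁻¹ * w ^ j) := hz.smul _
    obtain ⟨n, hn⟩ := Int.eq_ofNat_of_zero_le (sub_nonneg.2 hij)
    have h2 : (w ^ i)⁻¹ * w ^ j = w ^ n := by
      rw [← zpow_neg, ← zpow_add, neg_add_eq_sub, hn, zpow_natCast]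
    rw [inv_mul_cancel, h2] at h1
    obtain ⟨m, hm⟩ := lox1_core hl hD hw n _ h1
    refine ⟨w ^ i * w ^ m, ?_, ?_⟩
    · refine SetLike.mem_coe.2 (Subgroup.mul_mem _ ?_ ?_)
      · exact Subgroup.zpow_mem_zpowers w i
      · exact Subgroup.npow_mem_zpowers w m
    · have h3 := ds_smul (ℓ := ℓ) (w ^ i) ((w ^ i)⁻¹ * z) (w ^ m)
      rw [mul_inv_cancel_left] at h3
      rw [h3]
      exact hm
  refine ⟨⟨1, Subgroup.one_mem _⟩, ?_⟩
  intro p hp q hq z hz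
  obtain ⟨i, rfl⟩ := Subgroup.mem_zpowers_iff.1 hp
  obtain ⟨j, rfl⟩ := Subgroup.mem_zpowers_iff.1 hq
  rcases le_total i j with h | h
  · exact key i j h z hz
  · exact key j i h z (hz.symm hl)

end Mon
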