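import Pool.Agent.Mon.Lox1

/-!
# Project Mon, module Lox2: elements of infinite order have almost superadditive, unbounded lengths

Let `v` have infinite order, `f n = ℓ (vⁿ)`.
(1) `f` is unbounded: if `f n ≤ r` for all `n` (`r ≥ ℓ v = f 1`), the set of the elements of length `≤ r` of
the subgroup generated by `v, v, v` contains all `vⁿ` and is infinite, a contradiction to `UP`.
(2) If some power `u = vⁿ`, `n ≥ 1`, or a conjugate `y⁻¹ vⁿ y`, satisfies
`2 ℓ u + 3 D + 1 ≤ 2 ℓ (u²)`, then `QL` holds for `v`: `QL` holds for `u` by `lox_ql`;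
`|ℓ (y⁻¹ g y) - ℓ g| ≤ 2 ℓ y`; and `f m` and `f (n ⌊m/n⌋)` differ by at most
`max {f r | r < n}`.
(3) Otherwise `2 ds y (v^(2n) y) ≤ 2 ds y (vⁿ y) + 3 D` for all `y` and `n ≥ 1` (`ds y (g y) = ℓ (y⁻¹ g y)`).
Let `J` be the bound `M` of `UP` for `r = 5 D`; we show that there is `y` with `ds y (v^j y) ≤ 5 D` for all
`1 ≤ j ≤ J + 1`; then the subgroup generated by `y⁻¹ v y` (of length `≤ 5 D`) contains more than `J`
elements of length `≤ 5 D`, a contradiction.
Let `F` be the maximum of `f j`, `j ≤ 2 (J + 1)`.  By (1) choose `n` with `L = f n` larger than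
`100 (F + D + 1)`.  Let `y` be between `1` and `vⁿ` with `ds 1 y = L / 2`.  Let `a = v^j`, `y' = a y`,
`y'' = a² y`, `T = ds y y'` `(= ds y' y'')`.  By `Hyp.P` for `y` between `1` and `q = vⁿ` one of
(A) `T + ds y p ≤ ds y' p + D`, `p = 1`, or (B) the same with `p = q`.
In both cases `ds p (a p) = f j ≤ F`, and `ds y p ≥ L/2 - 1`.  `T ≤ ds y' p + D - ds y p ≤
ds y' (a p) + F + D - ds y p = F + D`.  Now `ds y'' (a p) = ds y' p ≥ ds y p + T - D = ds y' (a p) + T - D`.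
The four point condition for `y'', y', a p, p` gives
`ds y'' (a p) + ds y' p ≤ max (ds y'' p + ds y' (a p)) (ds y'' y' + ds p (a p)) + D`; the second
alternative is impossible, as the left-hand side is `≥ 2 (L/2 - 1 - 3F - 3D)` and the second term is
`≤ (F + D) + F`.  So `ds y'' p ≥ ds y' p + (ds y'' (a p) - ds y' (a p)) - D ≥ ds y' p + T - 2 D
≥ ds y p + 2 T - 3 D`, so `ds y y'' ≥ 2 T - 3 D`.  By (3) for `n = j`: `2 (2T - 3D) ≤ 2 T + 3 D`, so
`2 T ≤ 9 D`, `T ≤ 5 D`.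
(4) `Unb`: from `QL` and unboundedness: let `f m ≥ e + 1`; then `f ((k+1) m) ≥ f (k m) + 1`, so
`f (k m) ≥ k`, and `f (k m + r) + e ≥ f (k m) + f r ≥ k`.
-/

namespace Mon

variable {G : Type*} [Group G] {ℓ : G → ℕ} {D : ℕ}

/-- The lengths of the powers are unbounded. -/
theorem HypGrp.unbounded (hG : HypGrp ℓ D) {v : G} (hv : ∀ n : ℕ, 0 < n → v ^ n ≠ 1) (K : ℕ) :
    ∃ n, K < ℓ (v ^ n) := by
  by_contra hh
  push Not at hh
  have h1 := hh 1
  rw [pow_one] at h1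
  obtain ⟨M, hM⟩ := hG.up K
  have hfin := (hM v v v h1 h1 h1).1
  have hinj : Function.Injective fun n : ℕ => v ^ n := by
    intro a b hab
    have hab' : v ^ a = v ^ b := hab
    by_contra hne
    rcases Nat.lt_or_gt_of_ne hne with h | h
    · apply hv (b - a) (by omega)
      have : v ^ b = v ^ a * v ^ (b - a) := by rw [← pow_add]; congr 1; omega
      rw [this] at hab'
      exact left_eq_mul.1 hab'
    · apply hv (a - b) (by omega)
      have : v ^ a = v ^ b * v ^ (a - b) := by rw [← pow_add]; congr 1; omega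
      rw [this] at hab'
      exact mul_eq_left.1 hab'
  refine Set.infinite_range_of_injective hinj (hfin.subset ?_)
  rintro _ ⟨n, rfl⟩
  exact ⟨Subgroup.pow_mem _ (Subgroup.subset_closure (by simp)) n, hh n⟩

/-- The elements with a loxodromic power. -/
theorem ql_of_power (hl : IsLen ℓ) (hD : Hyp ℓ D) {v y : G} {n : ℕ} (hn : 0 < n)
    (h : 2 * ds ℓ y (v ^ n * y) + 3 * D + 1 ≤ 2 * ds ℓ y (v ^ (2 * n) * y)) :
    ∃ e, QL (fun n => ℓ (v ^ n)) e := by
  set u := y⁻¹ * v ^ n * y with hu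
  have hpow : ∀ k : ℕ, u ^ k = y⁻¹ * v ^ (n * k) * y := by
    intro k
    have := conj_pow (i := k) (a := y⁻¹) (b := v ^ n)
    rw [inv_inv] at this
    rw [hu, this, pow_mul]
  have hu2 : 2 * ℓ u + 3 * D + 1 ≤ 2 * ℓ (u ^ 2) := by
    rw [hpow 2, hu, mul_comm n 2]
    unfold ds at h
    rwa [← mul_assoc, ← mul_assoc] at h
  have hql := lox_ql hl hD hu2
  have hlow : ∀ k, ℓ (u ^ k) ≤ ℓ (v ^ (n * k)) + 2 * ℓ y := by
    intro k
    rw [hpow]
    have h1 := hl.mul (y⁻¹ * v ^ (n * k)) y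
    have h2 := hl.mul y⁻¹ (v ^ (n * k))
    rw [hl.inv] at h2
    omega
  have hup : ∀ k, ℓ (v ^ (n * k)) ≤ ℓ (u ^ k) + 2 * ℓ y := by
    intro k
    have h0 : v ^ (n * k) = y * u ^ k * y⁻¹ := by
      rw [hpow]; group
    rw [h0]
    have h1 := hl.mul (y * u ^ k) y⁻¹
    have h2 := hl.mul y (u ^ k)
    rw [hl.inv] at h1
    omega
  set F := (Finset.range n).sup (fun r => ℓ (v ^ r)) with hF
  have hFle : ∀ r < n, ℓ (v ^ r) ≤ F := fun r hr =>
    Finset.le_sup (f := fun r => ℓ (v ^ r)) (Finset.mem_range.2 hr)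
  have hadd : ∀ a b : ℕ, ℓ (v ^ (a + b)) ≤ ℓ (v ^ a) + ℓ (v ^ b) := by
    intro a b
    rw [pow_add]
    exact hl.mul _ _
  have hsub : ∀ a b : ℕ, ℓ (v ^ a) ≤ ℓ (v ^ (a + b)) + ℓ (v ^ b) := by
    intro a b
    have h1 := hl.mul (v ^ (a + b)) (v ^ b)⁻¹
    rw [hl.inv, show v ^ (a + b) * (v ^ b)⁻¹ = v ^ a by rw [pow_add]; group] at h1
    exact h1
  refine ⟨(ℓ u + D) + 6 * ℓ y + 4 * F, fun a b => ?_⟩
  show ℓ (v ^ a) + ℓ (v ^ b) ≤ ℓ (v ^ (a + b)) + _
  have ha := Nat.div_add_mod a n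
  have hb := Nat.div_add_mod b n
  have ha' := Nat.mod_lt a hn
  have hb' := Nat.mod_lt b hn
  set q := a / n
  set r := a % n
  set q' := b / n
  set r' := b % n
  have e1 := hadd (n * q) r
  have e2 := hadd (n * q') r'
  rw [ha] at e1
  rw [hb] at e2
  have e3 := hup q
  have e4 := hup q'
  have e5 : ℓ (u ^ q) + ℓ (u ^ q') ≤ ℓ (u ^ (q + q')) + (ℓ u + D) := hql q q'
  have e6 := hlow (q + q')
  have e7 := hsub (n * (q + q')) (r + r')
  rw [show n * (q + q') + (r + r') = a + b by rw [mul_add]; omega] at e7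
  have e8 := hadd r r'
  have e9 := hFle r ha'
  have e10 := hFle r' hb'
  omega

/-- The main estimate. -/
theorem short_of_not_lox (hl : IsLen ℓ) (hD : Hyp ℓ D) {v : G}
    (hno : ∀ (y : G) (n : ℕ), 0 < n → 2 * ds ℓ y (v ^ (2 * n) * y) ≤
      2 * ds ℓ y (v ^ n * y) + 3 * D) {n F j : ℕ} (hL : 100 * (F + D + 1) < ℓ (v ^ n))
    (hj : 0 < j) (hF : ℓ (v ^ j) ≤ F) {y : G} (hy : Btw ℓ 1 y (v ^ n))
    (hy2 : ds ℓ 1 y = ℓ (v ^ n) / 2) : ds ℓ y (v ^ j * y) ≤ 5 * D := by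
  have hyq : ds ℓ 1 y + ds ℓ y (v ^ n) = ℓ (v ^ n) := by
    unfold Btw at hy
    rw [ds_one (v ^ n)] at hy
    exact hy
  suffices Hp : ∀ p : G, ds ℓ p (v ^ j * p) ≤ F → ℓ (v ^ n) ≤ 2 * ds ℓ y p + 1 →
      ds ℓ y (v ^ j * y) + ds ℓ y p ≤ ds ℓ (v ^ j * y) p + D → ds ℓ y (v ^ j * y) ≤ 5 * D by
    rcases hD.P hl hy (v ^ j * y) with h | h
    · refine Hp 1 ?_ ?_ h
      · rw [ds_one, mul_one]
        exact hF
      · rw [hl.ds_comm y 1]
        omega
    · refine Hp (v ^ n) ?_ ?_ h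
      · unfold ds
        rw [show (v ^ n)⁻¹ * (v ^ j * v ^ n) = v ^ j by rw [← pow_add, add_comm, pow_add]; group]
        exact hF
      · omega
  intro p hp1 hp2 hp3
  set a := v ^ j with ha
  have h1 := hl.ds_tri (a * y) (a * p) p
  rw [ds_smul, hl.ds_comm (a * p) p] at h1
  have h2 : ds ℓ (a * (a * y)) (a * p) = ds ℓ (a * y) p := ds_smul a (a * y) p
  have h3 : ds ℓ (a * (a * y)) (a * y) = ds ℓ (a * y) y := ds_smul a (a * y) y
  have h4 := hD (a * (a * y)) (a * y) (a * p) p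
  rw [h2, h3, ds_smul a y p, hl.ds_comm (a * y) y, hl.ds_comm (a * p) p] at h4
  have h5 := hl.ds_tri (a * (a * y)) y p
  have h6 := hno y j hj
  have h7 : v ^ (2 * j) * y = a * (a * y) := by
    rw [two_mul, pow_add, mul_assoc]
  rw [h7, ← ha, hl.ds_comm y (a * (a * y))] at h6
  rcases le_total (ds ℓ y (a * y) + ds ℓ p (a * p)) (ds ℓ (a * (a * y)) p + ds ℓ y p) with h8 | h8
  · rw [max_eq_right h8] at h4
    omega
  · rw [max_eq_left h8] at h4
    omega

theorem HypGrp.lox (hG : HypGrp ℓ D) {v : G} (hv : ∀ n : ℕ, 0 < n → v ^ n ≠ 1) :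
    ∃ e, QL (fun n => ℓ (v ^ n)) e ∧ Unb (fun n => ℓ (v ^ n)) := by
  have hQL : ∃ e, QL (fun n => ℓ (v ^ n)) e := by
    by_contra hnot
    have hno : ∀ (y : G) (n : ℕ), 0 < n → 2 * ds ℓ y (v ^ (2 * n) * y) ≤
        2 * ds ℓ y (v ^ n * y) + 3 * D := by
      intro y n hn
      by_contra hh
      exact hnot (ql_of_power hG.len hG.hyp hn (y := y) (by omega))
    obtain ⟨M, hM⟩ := hG.up (5 * D)
    set F := (Finset.range (M + 2)).sup (fun r => ℓ (v ^ r)) with hF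
    have hFle : ∀ r < M + 2, ℓ (v ^ r) ≤ F := fun r hr =>
      Finset.le_sup (f := fun r => ℓ (v ^ r)) (Finset.mem_range.2 hr)
    obtain ⟨n, hn⟩ := hG.unbounded hv (100 * (F + D + 1))
    obtain ⟨y, hy, hy2⟩ := hG.len.exists_btw 1 (v ^ n) (k := ℓ (v ^ n) / 2)
      (by rw [ds_one]; omega)
    have hshort : ∀ j, 0 < j → j < M + 2 → ds ℓ y (v ^ j * y) ≤ 5 * D := fun j hj hjM =>
      short_of_not_lox hG.len hG.hyp hno hn hj (hFle j hjM) hy hy2
    have hlen : ∀ j, 0 < j → j < M + 2 → ℓ (y⁻¹ * v ^ j * y) ≤ 5 * D := by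
      intro j hj hjM
      have := hshort j hj hjM
      unfold ds at this
      rwa [← mul_assoc] at this
    have h1 := hlen 1 (by omega) (by omega)
    obtain ⟨hfin, hcard⟩ := hM _ _ _ h1 h1 h1
    set T : Set G := {x | x ∈ Subgroup.closure
      ({y⁻¹ * v ^ 1 * y, y⁻¹ * v ^ 1 * y, y⁻¹ * v ^ 1 * y} : Set G) ∧ ℓ x ≤ 5 * D} with hT
    have hmaps : ∀ i ∈ Finset.range (M + 1), y⁻¹ * v ^ (i + 1) * y ∈ hfin.toFinset := by
      intro i hi
      rw [Finset.mem_range] at hi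
      rw [Set.Finite.mem_toFinset]
      refine ⟨?_, hlen (i + 1) (by omega) (by omega)⟩
      have h2 : y⁻¹ * v ^ (i + 1) * y = (y⁻¹ * v ^ 1 * y) ^ (i + 1) := by
        have := conj_pow (i := i + 1) (a := y⁻¹) (b := v ^ 1)
        rw [inv_inv] at this
        rw [this, ← pow_mul, one_mul]
      rw [h2]
      exact Subgroup.pow_mem _ (Subgroup.subset_closure (by simp)) _
    have hinj : Set.InjOn (fun i : ℕ => y⁻¹ * v ^ (i + 1) * y) (Finset.range (M + 1)) := by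
      intro a _ b _ hab
      have hab' : v ^ (a + 1) = v ^ (b + 1) := mul_left_cancel (mul_right_cancel hab)
      by_contra hne
      rcases Nat.lt_or_gt_of_ne hne with h | h
      · apply hv (b - a) (by omega)
        have : v ^ (b + 1) = v ^ (a + 1) * v ^ (b - a) := by rw [← pow_add]; congr 1; omega
        rw [this] at hab'
        exact left_eq_mul.1 hab'
      · apply hv (a - b) (by omega)
        have : v ^ (a + 1) = v ^ (b + 1) * v ^ (a - b) := by rw [← pow_add]; congr 1; omega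
        rw [this] at hab'
        exact mul_eq_left.1 hab'
    have hc := Finset.card_le_card_of_injOn _ hmaps hinj
    rw [Finset.card_range, ← Set.ncard_eq_toFinset_card _ hfin] at hc
    omega
  obtain ⟨e, he⟩ := hQL
  refine ⟨e, he, ?_⟩
  obtain ⟨m, hm⟩ := hG.unbounded hv e
  have hm0 : 0 < m := by
    rcases Nat.eq_zero_or_pos m with h | h
    · subst h
      rw [pow_zero, (hG.len.one 1).2 rfl] at hm
      omega
    · exact h
  have hk : ∀ k : ℕ, k ≤ ℓ (v ^ (m * k)) := by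
    intro k
    induction k with
    | zero => omega
    | succ k ih =>
      have h1 : ℓ (v ^ (m * k)) + ℓ (v ^ m) ≤ ℓ (v ^ (m * k + m)) + e := he (m * k) m
      rw [mul_add, mul_one]
      omega
  intro K
  refine ⟨m * (K + e), fun n hn => ?_⟩
  show K ≤ ℓ (v ^ n)
  have h1 : K + e ≤ n / m := (Nat.le_div_iff_mul_le hm0).2 (by rw [mul_comm]; exact hn)
  have h2 := hk (n / m)
  have h3 : ℓ (v ^ (m * (n / m))) + ℓ (v ^ (n % m)) ≤ ℓ (v ^ (m * (n / m) + n % m)) + e :=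
    he (m * (n / m)) (n % m)
  rw [Nat.div_add_mod] at h3
  omega

end Mon
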