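import Mathlib

/-!
# Project Mon, module MT0: diagrams, homogeneous models, good and categorical diagrams

Definitions for an arbitrary first order language `L`, exactly as in the problem file, and the language
`LG` of groups with an additional unary predicate.

* `tp L M a` is the complete type (over the empty set) of the finite tuple `a` of `M`;
* `diagram L M n` is the set of the types of the `n`-tuples of `M`;
* `IsModel L D N`: `N` is a `D`-model;
* `IsElemMap L M A f`: `f : A → M` is an elementary map from the subset `A` of `M` to `M`;
* `Homog L M κ`: `M` is `κ`-homogeneous;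
* `Good L D`, `Categorical L D κ`.
-/

open FirstOrder Cardinal

universe u

namespace Mon

/-- The complete type over the empty set of a finite tuple. -/
def tp (L : FirstOrder.Language.{0, 0}) (M : Type u) [L.Structure M] {n : ℕ} (a : Fin n → M) :
    Set (L.Formula (Fin n)) := {φ | φ.Realize a}

/-- The diagram of a structure: the set of the complete types of the finite tuples. -/
def diagram (L : FirstOrder.Language.{0, 0}) (M : Type u) [L.Structure M] (n : ℕ) :
    Set (Set (L.Formula (Fin n))) := {p | ∃ a : Fin n → M, p = tp L M a}

/-- `N` is a `D`-model: the type of every finite tuple is in `D`. -/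
def IsModel (L : FirstOrder.Language.{0, 0}) (D : ∀ n : ℕ, Set (Set (L.Formula (Fin n)))) (N : Type u)
    [L.Structure N] : Prop := ∀ (n : ℕ) (a : Fin n → N), tp L N a ∈ D n

/-- `f : A → M` is an elementary map. -/
def IsElemMap (L : FirstOrder.Language.{0, 0}) (M : Type u) [L.Structure M] (A : Set M) (f : A → M) : Prop :=
  ∀ (n : ℕ) (a : Fin n → A) (φ : L.Formula (Fin n)),
    φ.Realize (fun i => (a i : M)) ↔ φ.Realize (fun i => f (a i))

/-- `M` is `κ`-homogeneous: every elementary map from a subset of cardinality less than `κ` extends to
an elementary map defined at a further given element. -/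
def Homog (L : FirstOrder.Language.{0, 0}) (M : Type u) [L.Structure M] (κ : Cardinal.{u}) : Prop :=
  ∀ (A : Set M) (f : A → M), IsElemMap L M A f → #A < κ → ∀ a : M,
    ∃ (B : Set M) (g : B → M) (hAB : A ⊆ B), IsElemMap L M B g ∧ a ∈ B ∧
      ∀ x : A, g ⟨x, hAB x.2⟩ = f x

/-- The diagram `D` is good: for arbitrarily large cardinals `κ` there is a `(D, κ)`-homogeneous
model of cardinality at least `κ`. -/
def Good (L : FirstOrder.Language.{0, 0}) (D : ∀ n : ℕ, Set (Set (L.Formula (Fin n)))) : Prop :=
  ∀ μ : Cardinal.{u}, ∃ κ ≥ μ, ∃ (M : Type u) (_ : L.Structure M),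
    diagram L M = D ∧ Homog L M κ ∧ κ ≤ #M

/-- `D` is categorical in `κ`: any two `D`-models of cardinality `κ` are isomorphic. -/
def Categorical (L : FirstOrder.Language.{0, 0}) (D : ∀ n : ℕ, Set (Set (L.Formula (Fin n))))
    (κ : Cardinal.{u}) : Prop :=
  ∀ (M N : Type u) [L.Structure M] [L.Structure N], IsModel L D M → IsModel L D N → #M = κ →
    #N = κ → Nonempty (M ≃[L] N)

/-- The function symbols: unit, inverse, multiplication. -/
inductive LF : ℕ → Type
  | one : LF 0
  | inv : LF 1
  | mul : LF 2

/-- The relation symbols: one unary predicate. -/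
inductive LR : ℕ → Type
  | P : LR 1

/-- The language of groups with a unary predicate. -/
def LG : FirstOrder.Language.{0, 0} := ⟨LF, LR⟩

/-- The structure given by a group and a subset. -/
@[reducible] def strG (G : Type u) [Group G] (P : Set G) : LG.Structure G where
  funMap := fun {_} f => match f with
    | LF.one => fun _ => 1
    | LF.inv => fun v => (v 0)⁻¹
    | LF.mul => fun v => v 0 * v 1
  RelMap := fun {_} r => match r with
    | LR.P => fun v => v 0 ∈ P

end Mon
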