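import Pool.Agent.Mon.FQ1
import Pool.Agent.Mon.MT0

/-!
# Project Mon, module MT1: the groups `MY N Y` for infinite sets `Y` of letters

`N` is a normal subgroup of `FreeGroup ℕ`, invariant under permutations (`PInv N`), with
`x_i x_j⁻¹ ∉ N` for `i ≠ j`.  For a type `Y` let `NY N Y` be the set of the `W : FreeGroup Y` such that
`map f W ∈ N` for some `f : Y → ℕ` which is injective on the letters of `W`.
`mem_NY_iff`: if `f` is injective on a finite set `S` which contains the letters of `W` then
`W ∈ NY ↔ map f W ∈ N`: for another such map `g` there is a permutation `σ` of `ℕ` with `σ ∘ f = g` on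
the letters of `W` (`exists_perm_comp`), and `map g W = map σ (map f W)` (`map_congr`, `FreeGroup.map.comp`),
use `PInv`.
So `NY` is a normal subgroup: for `V, W` choose `f` injective on the letters of both (`exists_injOn`).
`MY = FreeGroup Y ⧸ NY`, `letY y` is the class of the letter `y`; `letY` is injective.
`mapY j : MY Y →* MY Z` for an injective map `j : Y → Z` (`mem_NY_iff` with `f ∘ j`), injective.
For a permutation `σ` of `Y` this is an automorphism.
`letY_mem_range`: if `letY z` is in the range of `mapY j` then `z` is in the range of `j`: let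
`z ∉ range j`, `letY z = mapY j (mk W)`, `V = map j W * (of z)⁻¹ ∈ NY`; choose `f` injective on the letters of
`V`, `W' = map f V ∈ N`, `V' = map f' V` where `f'` differs from `f` only at `z`: it is a new number; `V' ∈ N`
also, and `V'⁻¹ V = of (f' z) (of (f z))⁻¹ ∈ N`, a contradiction.
`supp_exists`: every `a ∈ MY` is represented by a word; if a permutation `σ` fixes its letters then it
fixes `a`.
-/

open Cardinal

universe u v

namespace Mon

open Classical in
/-- The relations for the letters `Y`. -/
def NYc (N : Subgroup (FreeGroup ℕ)) (Y : Type u) : Set (FreeGroup Y) :=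
  {W | ∃ f : Y → ℕ, Set.InjOn f (letters W) ∧ FreeGroup.map f W ∈ N}

open Classical in
theorem exists_injOn {Y : Type u} (S : Finset Y) : ∃ f : Y → ℕ, Set.InjOn f S := by
  exact Set.countable_iff_exists_injOn.1 S.countable_toSet

open Classical in
theorem mem_NYc_iff {N : Subgroup (FreeGroup ℕ)} (hN : PInv N) {Y : Type u} {W : FreeGroup Y}
    {S : Finset Y} (hS : letters W ⊆ S) {f : Y → ℕ} (hf : Set.InjOn f S) :
    W ∈ NYc N Y ↔ FreeGroup.map f W ∈ N := by
  have hf' : Set.InjOn f (letters W) := hf.mono (by exact_mod_cast hS)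
  constructor
  · rintro ⟨g, hg, hgN⟩
    obtain ⟨σ, hσ⟩ := exists_perm_comp (letters W) g f hg hf'
    have h1 := hN σ _ hgN
    rw [FreeGroup.map.comp] at h1
    rwa [map_congr (f := σ ∘ g) (g := f) (fun a ha => hσ a ha)] at h1
  · intro h
    exact ⟨f, hf', h⟩

open Classical in
theorem NYc_nat {N : Subgroup (FreeGroup ℕ)} (hN : PInv N) {W : FreeGroup ℕ} :
    W ∈ NYc N ℕ ↔ W ∈ N := by
  have := mem_NYc_iff (N := N) hN (W := W) (Finset.Subset.refl _) (f := id) (Set.injOn_id _)
  rwa [FreeGroup.map.id] at this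

theorem NYc_subgroup (N : Subgroup (FreeGroup ℕ)) [N.Normal] (hN : PInv N) (Y : Type u) :
    ∃ K : Subgroup (FreeGroup Y), K.Normal ∧ (K : Set (FreeGroup Y)) = NYc N Y := by
  classical
  have hmul : ∀ V W : FreeGroup Y, V ∈ NYc N Y → W ∈ NYc N Y → V * W ∈ NYc N Y := by
    intro V W hV hW
    obtain ⟨f, hf⟩ := exists_injOn (@letters Y (fun a b => Classical.propDecidable (a = b)) V ∪
      @letters Y (fun a b => Classical.propDecidable (a = b)) W)
    have h1 := (mem_NYc_iff hN Finset.subset_union_left hf).1 hV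
    have h2 := (mem_NYc_iff hN Finset.subset_union_right hf).1 hW
    refine (mem_NYc_iff hN (letters_mul_subset V W) hf).2 ?_
    rw [map_mul]
    exact N.mul_mem h1 h2
  have hone : (1 : FreeGroup Y) ∈ NYc N Y := by
    obtain ⟨f, hf⟩ := exists_injOn (∅ : Finset Y)
    refine (mem_NYc_iff hN (le_of_eq letters_one) hf).2 ?_
    rw [map_one]
    exact N.one_mem
  have hinv : ∀ W : FreeGroup Y, W ∈ NYc N Y → W⁻¹ ∈ NYc N Y := by
    intro W hW
    obtain ⟨f, hf⟩ := exists_injOn (@letters Y (fun a b => Classical.propDecidable (a = b)) W)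
    have h1 := (mem_NYc_iff hN (Finset.Subset.refl _) hf).1 hW
    refine (mem_NYc_iff hN (le_of_eq (letters_inv W)) hf).2 ?_
    rw [map_inv]
    exact N.inv_mem h1
  refine ⟨{ carrier := NYc N Y, mul_mem' := fun {a b} ha hb => hmul a b ha hb, one_mem' := hone,
            inv_mem' := fun {a} ha => hinv a ha }, ⟨?_⟩, rfl⟩
  intro W hW g
  change W ∈ NYc N Y at hW
  change g * W * g⁻¹ ∈ NYc N Y
  obtain ⟨f, hf⟩ := exists_injOn (@letters Y (fun a b => Classical.propDecidable (a = b)) g ∪
    @letters Y (fun a b => Classical.propDecidable (a = b)) W)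
  have h1 := (mem_NYc_iff hN Finset.subset_union_right hf).1 hW
  have hS : @letters Y (fun a b => Classical.propDecidable (a = b)) (g * W * g⁻¹) ⊆
      @letters Y (fun a b => Classical.propDecidable (a = b)) g ∪
        @letters Y (fun a b => Classical.propDecidable (a = b)) W := by
    refine (letters_mul_subset _ _).trans ?_
    refine Finset.union_subset (letters_mul_subset _ _) ?_
    rw [letters_inv]
    exact Finset.subset_union_left
  refine (mem_NYc_iff hN hS hf).2 ?_
  rw [map_mul, map_mul, map_inv]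
  exact Subgroup.Normal.conj_mem inferInstance _ h1 _

/-- The relations for the letters `Y` as a normal subgroup. -/
noncomputable def NY (N : Subgroup (FreeGroup ℕ)) [N.Normal] (hN : PInv N) (Y : Type u) :
    Subgroup (FreeGroup Y) := (NYc_subgroup N hN Y).choose

instance (N : Subgroup (FreeGroup ℕ)) [N.Normal] (hN : PInv N) (Y : Type u) :
    (NY N hN Y).Normal := (NYc_subgroup N hN Y).choose_spec.1

theorem mem_NY {N : Subgroup (FreeGroup ℕ)} [N.Normal] {hN : PInv N} {Y : Type u}
    {W : FreeGroup Y} : W ∈ NY N hN Y ↔ W ∈ NYc N Y := by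
  rw [← SetLike.mem_coe, NY, (NYc_subgroup N hN Y).choose_spec.2]

/-- The group with the letters `Y`. -/
abbrev MY (N : Subgroup (FreeGroup ℕ)) [N.Normal] (hN : PInv N) (Y : Type u) : Type u :=
  FreeGroup Y ⧸ NY N hN Y

/-- The letters. -/
noncomputable def letY (N : Subgroup (FreeGroup ℕ)) [N.Normal] (hN : PInv N) {Y : Type u} (y : Y) : MY N hN Y :=
  QuotientGroup.mk (FreeGroup.of y)

variable {N : Subgroup (FreeGroup ℕ)} [N.Normal] {hN : PInv N} {Y Z : Type u}

/-- The letters are different. -/
def Dist (N : Subgroup (FreeGroup ℕ)) : Prop :=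
  ∀ i j : ℕ, i ≠ j → FreeGroup.of i * (FreeGroup.of j)⁻¹ ∉ N

theorem letY_injective (hd : Dist N) : Function.Injective (letY N hN : Y → MY N hN Y) := by
  classical
  intro y z hyz
  by_contra hne
  have h1 : (FreeGroup.of y)⁻¹ * FreeGroup.of z ∈ NY N hN Y := QuotientGroup.eq.1 hyz
  rw [mem_NY] at h1
  obtain ⟨f, hf⟩ := exists_injOn (@letters Y (fun a b => Classical.propDecidable (a = b))
    ((FreeGroup.of y)⁻¹ * FreeGroup.of z) ∪ {y, z})
  have h2 := (mem_NYc_iff hN Finset.subset_union_left hf).1 h1
  rw [map_mul, map_inv, FreeGroup.map.of, FreeGroup.map.of] at h2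
  have h3 : f z ≠ f y := by
    intro h
    apply hne
    exact (hf (by simp) (by simp) h).symm
  apply hd _ _ h3
  have h4 := (inferInstance : N.Normal).conj_mem _ h2 (FreeGroup.of (f y))
  rwa [mul_inv_cancel_left] at h4

/-- Words and their images under an injective map of the letters. -/
theorem mem_NYc_map {N : Subgroup (FreeGroup ℕ)} (hN : PInv N) {Y : Type u} {Z : Type v} {j : Y → Z}
    (hj : Function.Injective j) (W : FreeGroup Y) :
    FreeGroup.map j W ∈ NYc N Z ↔ W ∈ NYc N Y := by
  classical
  obtain ⟨f, hf⟩ := exists_injOn (@letters Z (fun a b => Classical.propDecidable (a = b))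
    (FreeGroup.map j W) ∪ ((@letters Y (fun a b => Classical.propDecidable (a = b)) W).image j))
  rw [mem_NYc_iff hN Finset.subset_union_left hf, FreeGroup.map.comp,
    mem_NYc_iff hN (Finset.Subset.refl _) (f := f ∘ j)]
  intro a ha b hb hab
  apply hj
  refine hf ?_ ?_ hab
  · rw [Finset.mem_coe, Finset.mem_union]
    exact Or.inr (Finset.mem_image_of_mem j (Finset.mem_coe.1 ha))
  · rw [Finset.mem_coe, Finset.mem_union]
    exact Or.inr (Finset.mem_image_of_mem j (Finset.mem_coe.1 hb))

/-- The map induced by an injective map of the letters. -/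
theorem exists_mapY (hN : PInv N) {Y : Type u} {Z : Type v} {j : Y → Z}
    (hj : Function.Injective j) :
    ∃ φ : MY N hN Y →* MY N hN Z, Function.Injective φ ∧
      ∀ W : FreeGroup Y, φ (QuotientGroup.mk W) = QuotientGroup.mk (FreeGroup.map j W) := by
  have hle : NY N hN Y ≤ (NY N hN Z).comap (FreeGroup.map j) := by
    intro W hW
    rw [Subgroup.mem_comap, mem_NY, mem_NYc_map hN hj, ← mem_NY (hN := hN)]
    exact hW
  refine ⟨QuotientGroup.map _ _ (FreeGroup.map j) hle, ?_, fun W => rfl⟩
  rw [injective_iff_map_eq_one]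
  intro a ha
  obtain ⟨W, rfl⟩ := QuotientGroup.mk_surjective a
  have h1 : (QuotientGroup.mk (FreeGroup.map j W) : MY N hN Z) = 1 := ha
  rw [QuotientGroup.eq_one_iff, mem_NY, mem_NYc_map hN hj, ← mem_NY (hN := hN)] at h1
  exact (QuotientGroup.eq_one_iff W).2 h1

/-- The map induced by an injective map of the letters. -/
noncomputable def mapY (hN : PInv N) {Y : Type u} {Z : Type v} {j : Y → Z}
    (hj : Function.Injective j) : MY N hN Y →* MY N hN Z :=
  (exists_mapY hN hj).choose

theorem mapY_injective {Y : Type u} {Z : Type v} {j : Y → Z} (hj : Function.Injective j) :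
    Function.Injective (mapY hN hj) :=
  (exists_mapY hN hj).choose_spec.1

theorem mapY_mk {Y : Type u} {Z : Type v} {j : Y → Z} (hj : Function.Injective j)
    (W : FreeGroup Y) :
    mapY hN hj (QuotientGroup.mk W) = QuotientGroup.mk (FreeGroup.map j W) :=
  (exists_mapY hN hj).choose_spec.2 W

theorem mapY_letY {Y : Type u} {Z : Type v} {j : Y → Z} (hj : Function.Injective j) (y : Y) :
    mapY hN hj (letY N hN y) = letY N hN (j y) := by
  rw [letY, mapY_mk, FreeGroup.map.of]
  rfl

theorem letY_mem_range (hd : Dist N) {Y : Type u} {Z : Type v} {j : Y → Z}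
    (hj : Function.Injective j) {z : Z} (hz : letY N hN z ∈ Set.range (mapY hN hj)) :
    z ∈ Set.range j := by
  classical
  obtain ⟨a, ha⟩ := hz
  obtain ⟨W, rfl⟩ := QuotientGroup.mk_surjective a
  rw [mapY_mk] at ha
  by_contra hnr
  have h1 : (FreeGroup.of z)⁻¹ * FreeGroup.map j W ∈ NY N hN Z := QuotientGroup.eq.1 ha.symm
  rw [mem_NY] at h1
  set V : FreeGroup Z := (FreeGroup.of z)⁻¹ * FreeGroup.map j W with hV
  set S : Finset Z := @letters Z (fun a b => Classical.propDecidable (a = b)) V ∪
    (@letters Z (fun a b => Classical.propDecidable (a = b)) (FreeGroup.map j W) ∪ {z}) with hS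
  obtain ⟨f, hf⟩ := exists_injOn S
  obtain ⟨n, hn⟩ := Infinite.exists_notMem_finset (S.image f)
  have hzW : ∀ b ∈ @letters Z (fun a b => Classical.propDecidable (a = b)) (FreeGroup.map j W),
      b ≠ z := by
    intro b hb hbz
    have h2 := letters_map_subset j W hb
    obtain ⟨c, _, hc⟩ := Finset.mem_image.1 h2
    exact hnr ⟨c, by rw [hc, hbz]⟩
  have hf' : Set.InjOn (Function.update f z n) (S : Set Z) := by
    intro a ha b hb hab
    by_cases haz : a = z
    · by_cases hbz : b = z
      · rw [haz, hbz]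
      · rw [haz, Function.update_self, Function.update_of_ne hbz] at hab
        exact absurd (Finset.mem_image_of_mem f (Finset.mem_coe.1 hb)) (hab ▸ hn)
    · by_cases hbz : b = z
      · rw [hbz, Function.update_self, Function.update_of_ne haz] at hab
        exact absurd (Finset.mem_image_of_mem f (Finset.mem_coe.1 ha)) (hab ▸ hn)
      · rw [Function.update_of_ne haz, Function.update_of_ne hbz] at hab
        exact hf ha hb hab
  have h3 := (mem_NYc_iff hN (S := S) Finset.subset_union_left hf).1 h1
  have h4 := (mem_NYc_iff hN (S := S) Finset.subset_union_left hf').1 h1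
  have h5 : FreeGroup.map (Function.update f z n) (FreeGroup.map j W) =
      FreeGroup.map f (FreeGroup.map j W) :=
    map_congr (fun b hb => Function.update_of_ne (hzW b hb) _ _)
  rw [hV, map_mul, map_inv, FreeGroup.map.of] at h3 h4
  rw [h5, Function.update_self] at h4
  have hne : n ≠ f z := by
    intro h
    apply hn
    rw [h]
    exact Finset.mem_image_of_mem f (by simp [hS])
  apply hd _ _ hne
  have h6 := N.mul_mem h3 (N.inv_mem h4)
  have h7 := (inferInstance : N.Normal).conj_mem _ h6 (FreeGroup.of (f z))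
  have h8 : FreeGroup.of (f z) * ((FreeGroup.of (f z))⁻¹ * FreeGroup.map f (FreeGroup.map j W) *
      ((FreeGroup.of n)⁻¹ * FreeGroup.map f (FreeGroup.map j W))⁻¹) * (FreeGroup.of (f z))⁻¹ =
      FreeGroup.of n * (FreeGroup.of (f z))⁻¹ := by group
  rwa [h8] at h7

/-- The automorphism induced by a permutation of the letters. -/
theorem exists_permY (hN : PInv N) (σ : Equiv.Perm Y) : ∃ φ : MY N hN Y ≃* MY N hN Y,
    ∀ W : FreeGroup Y, φ (QuotientGroup.mk W) = QuotientGroup.mk (FreeGroup.map σ W) := by
  refine ⟨MulEquiv.ofBijective (mapY hN σ.injective) ⟨mapY_injective σ.injective, ?_⟩,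
    fun W => mapY_mk σ.injective W⟩
  intro a
  obtain ⟨W, rfl⟩ := QuotientGroup.mk_surjective a
  refine ⟨QuotientGroup.mk (FreeGroup.map σ.symm W), ?_⟩
  rw [mapY_mk, FreeGroup.map.comp, Equiv.self_comp_symm, FreeGroup.map.id]

/-- The automorphism induced by a permutation of the letters. -/
noncomputable def permY (hN : PInv N) (σ : Equiv.Perm Y) : MY N hN Y ≃* MY N hN Y :=
  (exists_permY hN σ).choose

theorem permY_mk (σ : Equiv.Perm Y) (W : FreeGroup Y) :
    permY hN σ (QuotientGroup.mk W) = QuotientGroup.mk (FreeGroup.map σ W) :=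
  (exists_permY hN σ).choose_spec W

theorem permY_letY (σ : Equiv.Perm Y) (y : Y) : permY hN σ (letY N hN y) = letY N hN (σ y) := by
  rw [letY, permY_mk, FreeGroup.map.of]
  rfl

theorem permY_mul (σ τ : Equiv.Perm Y) (x : MY N hN Y) :
    permY hN (σ * τ) x = permY hN σ (permY hN τ x) := by
  obtain ⟨W, rfl⟩ := QuotientGroup.mk_surjective x
  rw [permY_mk, permY_mk, permY_mk, FreeGroup.map.comp]
  rfl

/-- Finite supports. -/
theorem supp_exists (a : MY N hN Y) : ∃ S : Finset Y, ∀ σ τ : Equiv.Perm Y, (∀ y ∈ S, σ y = τ y) →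
    permY hN σ a = permY hN τ a := by
  classical
  obtain ⟨W, rfl⟩ := QuotientGroup.mk_surjective a
  refine ⟨letters W, fun σ τ h => ?_⟩
  rw [permY_mk, permY_mk, map_congr h]

/-- The cardinality. -/
theorem card_MY (hd : Dist N) [Infinite Y] : #(MY N hN Y) = #Y := by
  apply le_antisymm
  · calc #(MY N hN Y) ≤ #(FreeGroup Y) := mk_le_of_surjective QuotientGroup.mk_surjective
      _ = max #Y ℵ₀ := mk_freeGroup Y
      _ = #Y := max_eq_left (aleph0_le_mk Y)
  · exact mk_le_of_injective (letY_injective hd)

end Mon
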