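import Pool.Agent.Mon.MT0

/-!
# Project Mon, module MT2: terms and formulas for words

`wordT` is a term for the value of a word; `wordT_realize`: by induction on the list, with
`FreeGroup.lift_mk` (`List.prod` of the values of the letters).
`letF k` says that the `k` variables are different members of the predicate; `eqF V` says that the value of
`V` is `1`; `supF V`: there are `k` different members `z` of the predicate with `a i = V i (z)`:
`Formula.iExs` (see `Formula.realize_iExs`) applied to a conjunction (`⊓`, `Formula.iInf`), with terms
relabelled into `Fin n ⊕ Fin k`.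
The statements are for the structure `strG G P`; `letI := strG G P`.
-/

open FirstOrder Language

universe u

namespace Mon

/-- The term of a list of letters. -/
def wordTL {α : Type} : List (α × Bool) → LG.Term α
  | [] => Term.func (L := LG) (l := 0) LF.one Fin.elim0
  | (a, true) :: l => Term.func (L := LG) (l := 2) LF.mul ![Term.var a, wordTL l]
  | (a, false) :: l => Term.func (L := LG) (l := 2) LF.mul
      ![Term.func (L := LG) (l := 1) LF.inv ![Term.var a], wordTL l]

/-- The term of a word. -/
def wordT {α : Type} [DecidableEq α] (V : FreeGroup α) : LG.Term α := wordTL V.toWord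

private theorem wordTL_realize {α : Type} (l : List (α × Bool)) {G : Type u} [Group G]
    (P : Set G) (v : α → G) :
    (letI := strG G P; (wordTL l).realize v) = FreeGroup.lift v (FreeGroup.mk l) := by
  let _ := strG G P
  induction l with
  | nil =>
    simp only [wordTL, Term.realize_func, FreeGroup.lift_mk, List.map_nil, List.prod_nil]
    rfl
  | cons x l ih =>
    obtain ⟨a, b⟩ := x
    rw [FreeGroup.lift_mk] at ih ⊢
    rw [List.map_cons, List.prod_cons, ← ih]
    cases b with
    | true =>
      simp only [wordTL, Term.realize_func]
      rfl
    | false =>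
      simp only [wordTL, Term.realize_func]
      rfl

theorem wordT_realize {α : Type} [DecidableEq α] (V : FreeGroup α) {G : Type u} [Group G]
    (P : Set G) (v : α → G) : (letI := strG G P; (wordT V).realize v) = FreeGroup.lift v V := by
  rw [wordT, wordTL_realize, FreeGroup.mk_toWord]

/-- The formula: the variables are different members of the predicate. -/
noncomputable def letF (k : ℕ) : LG.Formula (Fin k) :=
  Formula.iInf (fun i : Fin k => (Relations.formula (L := LG) (n := 1) LR.P ![Term.var i])) ⊓
    Formula.iInf (fun p : {p : Fin k × Fin k // p.1 ≠ p.2} =>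
      (Term.equal (Term.var p.1.1) (Term.var p.1.2)).not)

theorem letF_realize (k : ℕ) {G : Type u} [Group G] (P : Set G) (z : Fin k → G) :
    (letI := strG G P; (letF k).Realize z) ↔ (∀ i, z i ∈ P) ∧ Function.Injective z := by
  let _ := strG G P
  simp only [letF, Formula.realize_inf, Formula.realize_iInf, Formula.realize_not,
    Formula.realize_equal, Term.realize_var]
  refine and_congr (forall_congr' fun i => ?_) ⟨fun h i j hij => ?_, fun h p hp => ?_⟩
  · rw [Formula.realize_rel]
    rfl
  · by_contra hne
    exact h ⟨(i, j), hne⟩ hij
  · exact p.2 (h hp)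

/-- The formula: the value of the word is `1`. -/
noncomputable def eqF {k : ℕ} (V : FreeGroup (Fin k)) : LG.Formula (Fin k) :=
  Term.equal (wordT V) (wordT 1)

theorem eqF_realize {k : ℕ} (V : FreeGroup (Fin k)) {G : Type u} [Group G] (P : Set G)
    (z : Fin k → G) : (letI := strG G P; (eqF V).Realize z) ↔ FreeGroup.lift z V = 1 := by
  let _ := strG G P
  simp only [eqF, Formula.realize_equal]
  rw [wordT_realize, wordT_realize, map_one]

/-- The formula: the variables are the values of the words `V i` at `k` different members of the
predicate. -/
noncomputable def supF {n k : ℕ} (V : Fin n → FreeGroup (Fin k)) : LG.Formula (Fin n) :=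
  Formula.iExs (Fin k) ((Formula.relabel (Sum.inr : Fin k → Fin n ⊕ Fin k) (letF k)) ⊓
    Formula.iInf (fun i : Fin n =>
      Term.equal (Term.var (Sum.inl i)) ((wordT (V i)).relabel (Sum.inr : Fin k → Fin n ⊕ Fin k))))

theorem supF_realize {n k : ℕ} (V : Fin n → FreeGroup (Fin k)) {G : Type u} [Group G] (P : Set G)
    (a : Fin n → G) : (letI := strG G P; (supF V).Realize a) ↔
      ∃ z : Fin k → G, (∀ i, z i ∈ P) ∧ Function.Injective z ∧ ∀ i, a i = FreeGroup.lift z (V i) := by
  let _ := strG G P
  rw [supF, Formula.realize_iExs]
  refine exists_congr fun z => ?_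
  rw [Formula.realize_inf, Formula.realize_relabel, Formula.realize_iInf]
  have e1 : (Sum.elim a z) ∘ (Sum.inr : Fin k → Fin n ⊕ Fin k) = z := Sum.elim_comp_inr a z
  rw [e1, letF_realize, and_assoc]
  refine and_congr_right fun _ => and_congr_right fun _ => forall_congr' fun i => ?_
  rw [Formula.realize_equal, Term.realize_var, Term.realize_relabel, e1, wordT_realize]
  rfl

end Mon
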