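import Pool.Agent.Mon.MT1
import Pool.Agent.Mon.MT2

/-!
# Project Mon, module MT3: types and elementary maps between the groups `MY`

`stY N hN Y` is the structure on `MY N hN Y` (the predicate is the set of the letters).
`tp_equiv`: an isomorphism of the groups which maps the predicate onto the predicate is an isomorphism
of the structures, so it preserves types.
`tp_permY`: by `tp_equiv` (`permY_letY`).
`exists_word`: every tuple `a : Fin n → MY` is of the form `a i = lift (letY ∘ x) (V i)`, with
`x : Fin k → Y` injective, `V i : FreeGroup (Fin k)`: enumerate the letters of representatives.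
`exists_perm_of_tp`: if `tp a = tp b`, then `b` satisfies `supF V`, which `a` satisfies, so
`b i = lift (letY ∘ x') (V i)` with `x'` injective; take a permutation `σ` of `Y` with `σ ∘ x = x'`
(`exists_perm_comp`).
`tp_mapY` (elementary embedding): let `j : Y → Z` be injective, `Y` infinite.  Use the Tarski–Vaught test
`FirstOrder.Language.Embedding.isElementary_of_exists` for `mapY j` (an embedding: `mapY_injective`, the
predicate: `letY_mem_range`): given `x : Fin n → MY Y`, `a : MY Z` with `φ (mapY j ∘ x, a)`: let `S ⊆ Y` be a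
finite set supporting the `x i` and `T ⊆ Z` a finite set of letters of a word for `a`; there is a permutation
`σ` of `Z` which is the identity on `j (S)` and maps `T` into `j (Y)` (`exists_fresh_perm` with
`S₁ ⊆ j (Y)` disjoint from `j (S)`, `Y` is infinite).  `σ` fixes `mapY j (x i)`, so `φ (mapY j ∘ x, σ a)`
holds and `σ a` is in the range of `mapY j`.
`diagram_MY`: for `Y` infinite there is an injective map `ℕ → Y`; by `tp_mapY` every type of the diagram
of `MY ℕ` is in the diagram of `MY Y`; conversely, a tuple of `MY Y` is moved by a permutation of `Y` into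
the range of `mapY j`.
-/

open FirstOrder Language Cardinal

universe u v

namespace Mon

variable {N : Subgroup (FreeGroup ℕ)} [N.Normal] {hN : PInv N}

/-- The structure. -/
@[reducible] noncomputable def stY (N : Subgroup (FreeGroup ℕ)) [N.Normal] (hN : PInv N)
    (Y : Type u) : LG.Structure (MY N hN Y) :=
  strG (MY N hN Y) (Set.range (letY N hN))

/-- The type in a group with a predicate. -/
def tpG {G : Type u} [Group G] (P : Set G) {n : ℕ} (a : Fin n → G) : Set (LG.Formula (Fin n)) :=
  letI := strG G P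
  tp LG G a

theorem exists_equiv {G : Type u} {G' : Type v} [Group G] [Group G'] (P : Set G) (P' : Set G')
    (φ : G ≃* G') (hφ : ∀ x, φ x ∈ P' ↔ x ∈ P) :
    (letI := strG G P; letI := strG G' P'; ∃ ψ : G ≃[LG] G', ∀ x, ψ x = φ x) := by
  let _ := strG G P
  let _ := strG G' P'
  refine ⟨{ toEquiv := φ.toEquiv, map_fun' := ?_, map_rel' := ?_ }, fun x => rfl⟩
  · intro n f x
    change LF n at f
    cases f with
    | one => exact map_one φ
    | inv => exact map_inv φ (x 0)
    | mul => exact map_mul φ (x 0) (x 1)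
  · intro n r x
    change LR n at r
    cases r with
    | P => exact hφ (x 0)

theorem tp_equiv {G : Type u} {G' : Type v} [Group G] [Group G'] (P : Set G) (P' : Set G')
    (φ : G ≃* G') (hφ : ∀ x, φ x ∈ P' ↔ x ∈ P) {n : ℕ} (a : Fin n → G) :
    tpG P' (fun i => φ (a i)) = tpG P a := by
  letI := strG G P
  letI := strG G' P'
  obtain ⟨ψ, hψ⟩ := exists_equiv P P' φ hφ
  ext χ
  have h := StrongHomClass.realize_formula ψ χ (v := a)
  have e : (ψ ∘ a : Fin n → G') = fun i => φ (a i) := funext fun i => hψ (a i)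
  rw [e] at h
  exact h

private theorem perm_mem {Y : Type u} (σ : Equiv.Perm Y) (x : MY N hN Y) :
    permY hN σ x ∈ Set.range (letY N hN) ↔ x ∈ Set.range (letY N hN) := by
  constructor
  · rintro ⟨y, hy⟩
    refine ⟨σ⁻¹ y, (permY hN σ).injective ?_⟩
    rw [permY_letY, ← hy]
    simp
  · rintro ⟨y, rfl⟩
    exact ⟨σ y, (permY_letY σ y).symm⟩

theorem tp_permY (hd : Dist N) {Y : Type u} (σ : Equiv.Perm Y) {n : ℕ}
    (a : Fin n → MY N hN Y) :
    tpG (Set.range (letY N hN)) (fun i => permY hN σ (a i)) = tpG (Set.range (letY N hN)) a :=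
  tp_equiv _ _ (permY hN σ) (perm_mem σ) a

private theorem mk_mem_range {α : Type u} {β : Type v} (x : α → β) (L : List (β × Bool))
    (h : ∀ p ∈ L, p.1 ∈ Set.range x) : FreeGroup.mk L ∈ (FreeGroup.map x).range := by
  induction L with
  | nil => exact (FreeGroup.map x).range.one_mem
  | cons p L ih =>
    have h1 : FreeGroup.mk (p :: L) = FreeGroup.mk [p] * FreeGroup.mk L := by
      rw [FreeGroup.mul_mk]; rfl
    rw [h1]
    refine (FreeGroup.map x).range.mul_mem ?_ (ih fun q hq => h q (List.mem_cons_of_mem _ hq))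
    obtain ⟨a, ha⟩ := h p List.mem_cons_self
    obtain ⟨b, s⟩ := p
    simp only at ha
    subst ha
    exact ⟨FreeGroup.mk [(a, s)], rfl⟩

private theorem mem_range_of_letters {α : Type u} {β : Type v} [DecidableEq β] (x : α → β)
    (W : FreeGroup β) (h : ∀ b ∈ letters W, b ∈ Set.range x) :
    ∃ V : FreeGroup α, FreeGroup.map x V = W := by
  have h1 := mk_mem_range x W.toWord (fun p hp => h p.1 (by
    unfold letters
    rw [List.mem_toFinset]
    exact List.mem_map_of_mem hp))
  rw [FreeGroup.mk_toWord] at h1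
  exact h1

private theorem mk_map_eq {Y : Type u} {k : ℕ} (x : Fin k → Y) (V : FreeGroup (Fin k)) :
    (QuotientGroup.mk (FreeGroup.map x V) : MY N hN Y) =
      FreeGroup.lift (fun m => letY N hN (x m)) V := by
  have h : (QuotientGroup.mk' (NY N hN Y)).comp (FreeGroup.map x) =
      FreeGroup.lift (fun m => letY N hN (x m)) := by
    apply FreeGroup.ext_hom
    intro m
    simp [letY]
  exact DFunLike.congr_fun h V

private theorem hom_lift {G H : Type*} [Group G] [Group H] {α : Type*} (φ : G →* H) (f : α → G)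
    (V : FreeGroup α) : φ (FreeGroup.lift f V) = FreeGroup.lift (fun m => φ (f m)) V := by
  have h : φ.comp (FreeGroup.lift f) = FreeGroup.lift (fun m => φ (f m)) := by
    apply FreeGroup.ext_hom
    intro m
    simp
  exact DFunLike.congr_fun h V

theorem exists_word {Y : Type u} {n : ℕ} (a : Fin n → MY N hN Y) :
    ∃ (k : ℕ) (x : Fin k → Y) (V : Fin n → FreeGroup (Fin k)), Function.Injective x ∧
      ∀ i, a i = FreeGroup.lift (fun m => letY N hN (x m)) (V i) := by
  classical
  have hW : ∀ i, ∃ W : FreeGroup Y, (QuotientGroup.mk W : MY N hN Y) = a i := fun i =>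
    QuotientGroup.mk_surjective (a i)
  choose W hW using hW
  set S : Finset Y := Finset.univ.biUnion fun i => letters (W i) with hS
  refine ⟨S.card, fun m => (S.equivFin.symm m : Y), ?_⟩
  have hr : ∀ b ∈ S, b ∈ Set.range (fun m => (S.equivFin.symm m : Y)) := fun b hb =>
    ⟨S.equivFin ⟨b, hb⟩, by simp⟩
  have hV : ∀ i, ∃ V : FreeGroup (Fin S.card),
      FreeGroup.map (fun m => (S.equivFin.symm m : Y)) V = W i := fun i =>
    mem_range_of_letters _ _ fun b hb => hr b (by
      rw [hS, Finset.mem_biUnion]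
      exact ⟨i, Finset.mem_univ _, hb⟩)
  choose V hV using hV
  refine ⟨V, ?_, fun i => ?_⟩
  · intro m m' h
    exact S.equivFin.symm.injective (Subtype.ext h)
  · rw [← mk_map_eq, hV i, hW i]

theorem exists_perm_of_tp (hd : Dist N) {Y : Type u} {n : ℕ} {a b : Fin n → MY N hN Y}
    (hab : tpG (Set.range (letY N hN)) a = tpG (Set.range (letY N hN)) b) :
    ∃ σ : Equiv.Perm Y, ∀ i, b i = permY hN σ (a i) := by
  classical
  obtain ⟨k, x, V, hx, ha⟩ := exists_word a
  have h1 : supF V ∈ tpG (Set.range (letY N hN)) a := by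
    have := (supF_realize V (Set.range (letY N hN)) a).2
      ⟨fun m => letY N hN (x m), fun m => ⟨x m, rfl⟩,
        fun m m' h => hx (letY_injective (hN := hN) hd h), ha⟩
    exact this
  rw [hab] at h1
  obtain ⟨z, hz1, hz2, hz3⟩ := (supF_realize V (Set.range (letY N hN)) b).1 h1
  choose x' hx' using hz1
  have hxi : Function.Injective x' := by
    intro m m' h
    apply hz2
    rw [← hx' m, ← hx' m', h]
  obtain ⟨σ, hσ⟩ := exists_perm_comp (Finset.univ : Finset (Fin k)) x x' hx.injOn hxi.injOn
  refine ⟨σ, fun i => ?_⟩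
  rw [hz3 i, ha i]
  have h2 := hom_lift (permY hN σ : MY N hN Y ≃* MY N hN Y).toMonoidHom
    (fun m => letY N hN (x m)) (V i)
  have h3 : (fun m => (permY hN σ : MY N hN Y ≃* MY N hN Y).toMonoidHom (letY N hN (x m))) = z := by
    funext m
    show permY hN σ (letY N hN (x m)) = z m
    rw [permY_letY, hσ m (Finset.mem_univ m), hx' m]
  rw [h3] at h2
  exact h2.symm

private theorem exists_emb (hd : Dist N) {Y : Type u} {Z : Type v} {j : Y → Z}
    (hj : Function.Injective j) :
    (letI := stY N hN Y; letI := stY N hN Z;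
      ∃ f : MY N hN Y ↪[LG] MY N hN Z, ∀ x, f x = mapY hN hj x) := by
  letI := stY N hN Y
  letI := stY N hN Z
  refine ⟨{ toFun := mapY hN hj, inj' := mapY_injective hj, map_fun' := ?_, map_rel' := ?_ },
    fun x => rfl⟩
  · intro n f x
    change LF n at f
    cases f with
    | one => exact map_one (mapY hN hj)
    | inv => exact map_inv (mapY hN hj) (x 0)
    | mul => exact map_mul (mapY hN hj) (x 0) (x 1)
  · intro n r x
    change LR n at r
    cases r with
    | P =>
      show mapY hN hj (x 0) ∈ Set.range (letY N hN) ↔ x 0 ∈ Set.range (letY N hN)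
      constructor
      · rintro ⟨z, hz⟩
        obtain ⟨y, rfl⟩ := letY_mem_range (hN := hN) hd hj (z := z) ⟨x 0, hz.symm⟩
        refine ⟨y, mapY_injective (hN := hN) hj ?_⟩
        rw [mapY_letY, hz]
      · rintro ⟨y, hy⟩
        exact ⟨j y, by rw [← hy, mapY_letY]⟩

/-- a permutation which moves finitely many letters into the range of `j` and fixes others -/
private theorem fresh {Y : Type u} {Z : Type v} [Infinite Y] {j : Y → Z}
    (hj : Function.Injective j) (S : Finset Y) (T : Finset Z) :
    ∃ σ : Equiv.Perm Z, (∀ y ∈ S, σ (j y) = j y) ∧ ∀ z ∈ T, σ z ∈ Set.range j := by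
  classical
  have hinf : ((S : Set Y)ᶜ).Infinite := S.finite_toSet.infinite_compl
  obtain ⟨R, hR, hRc⟩ := hinf.exists_subset_card_eq T.card
  have hdisj : Disjoint (S.image j) (R.image j) := by
    rw [Finset.disjoint_left]
    intro z hz hz'
    rw [Finset.mem_image] at hz hz'
    obtain ⟨y, hy, rfl⟩ := hz
    obtain ⟨y', hy', h⟩ := hz'
    have := hj h
    subst this
    exact hR hy' hy
  obtain ⟨σ, h1, h2⟩ := exists_fresh_perm (S.image j) T (R.image j) hdisj (by
    rw [Finset.card_image_of_injective _ hj, hRc])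
  refine ⟨σ, fun y hy => h1 _ (Finset.mem_image_of_mem j hy), fun z hz => ?_⟩
  by_cases hzS : z ∈ S.image j
  · rw [h1 z hzS]
    rw [Finset.mem_image] at hzS
    obtain ⟨y, -, rfl⟩ := hzS
    exact ⟨y, rfl⟩
  · have := h2 z hz hzS
    rw [Finset.mem_image] at this
    obtain ⟨y, -, hy⟩ := this
    exact ⟨y, hy⟩

private theorem perm_mem_range {Y : Type u} {Z : Type v} [DecidableEq Z] {j : Y → Z}
    (hj : Function.Injective j) (σ : Equiv.Perm Z) (A : FreeGroup Z)
    (h : ∀ z ∈ letters A, σ z ∈ Set.range j) :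
    ∃ b : MY N hN Y, mapY hN hj b = permY hN σ (QuotientGroup.mk A) := by
  obtain ⟨V, hV⟩ := mem_range_of_letters j (FreeGroup.map σ A) (fun b hb => by
    have h1 := letters_map_subset (σ : Z → Z) A hb
    rw [Finset.mem_image] at h1
    obtain ⟨z, hz, rfl⟩ := h1
    exact h z hz)
  exact ⟨QuotientGroup.mk V, by rw [mapY_mk, hV, permY_mk]⟩

theorem tp_mapY (hd : Dist N) {Y : Type u} {Z : Type v} [Infinite Y] {j : Y → Z}
    (hj : Function.Injective j) {n : ℕ} (a : Fin n → MY N hN Y) :
    tpG (Set.range (letY N hN)) (fun i => mapY hN hj (a i)) =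
      tpG (Set.range (letY N hN)) a := by
  classical
  letI := stY N hN Y
  letI := stY N hN Z
  obtain ⟨f, hf⟩ := exists_emb (hN := hN) hd hj
  have htv : ∀ (n : ℕ) (φ : LG.BoundedFormula Empty (n + 1)) (x : Fin n → MY N hN Y)
      (c : MY N hN Z) (v : Empty → MY N hN Z),
      φ.Realize v (Fin.snoc (f ∘ x) c : _ → MY N hN Z) →
        ∃ b : MY N hN Y, φ.Realize v (Fin.snoc (f ∘ x) (f b) : _ → MY N hN Z) := by
    intro n φ x c v hc
    have hW : ∀ i, ∃ W : FreeGroup Y, (QuotientGroup.mk W : MY N hN Y) = x i := fun i =>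
      QuotientGroup.mk_surjective (x i)
    choose W hW using hW
    obtain ⟨A, hA⟩ := QuotientGroup.mk_surjective c
    obtain ⟨σ, h1, h2⟩ := fresh hj (Finset.univ.biUnion fun i => letters (W i)) (letters A)
    obtain ⟨b, hb⟩ := perm_mem_range (N := N) (hN := hN) hj σ A h2
    refine ⟨b, ?_⟩
    obtain ⟨ψ, hψ⟩ := exists_equiv (Set.range (letY N hN)) (Set.range (letY N hN))
      (permY hN σ) (perm_mem σ)
    have h3 := (StrongHomClass.realize_boundedFormula ψ φ
      (v := v) (xs := (Fin.snoc (f ∘ x) c : _ → MY N hN Z))).2 hc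
    have e1 : (ψ ∘ v : Empty → MY N hN Z) = v := Subsingleton.elim _ _
    have e2 : (ψ ∘ (Fin.snoc (f ∘ x) c : _ → MY N hN Z) : Fin (n + 1) → MY N hN Z) =
        Fin.snoc (f ∘ x) (f b) := by
      rw [Fin.comp_snoc]
      have e3 : (ψ ∘ (f ∘ x) : Fin n → MY N hN Z) = f ∘ x := by
        funext i
        show ψ (f (x i)) = f (x i)
        rw [hψ, hf, ← hW i, mapY_mk, permY_mk, FreeGroup.map.comp]
        congr 1
        apply map_congr
        intro y hy
        exact h1 y (Finset.mem_biUnion.2 ⟨i, Finset.mem_univ _, hy⟩)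
      rw [e3, hψ, hf, hb, hA]
    rw [e1, e2] at h3
    exact h3
  ext χ
  have h := Embedding.isElementary_of_exists f (fun n φ x c hc => htv n φ x c _ hc) χ a
  have e : (f ∘ a : Fin n → MY N hN Z) = fun i => mapY hN hj (a i) := funext fun i => hf (a i)
  rw [e] at h
  exact h

/-- The diagram of the group with countably many letters. -/
def DN (N : Subgroup (FreeGroup ℕ)) [N.Normal] (hN : PInv N) (n : ℕ) :
    Set (Set (LG.Formula (Fin n))) :=
  letI := stY N hN ℕ
  diagram LG (MY N hN ℕ) n

theorem diagram_MY (hd : Dist N) (Y : Type u) [Infinite Y] :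
    (letI := stY N hN Y; diagram LG (MY N hN Y)) = DN N hN := by
  classical
  letI := stY N hN Y
  letI := stY N hN ℕ
  have hj : Function.Injective (Infinite.natEmbedding Y : ℕ → Y) :=
    (Infinite.natEmbedding Y).injective
  funext n
  ext p
  constructor
  · rintro ⟨a, rfl⟩
    have hW : ∀ i, ∃ W : FreeGroup Y, (QuotientGroup.mk W : MY N hN Y) = a i := fun i =>
      QuotientGroup.mk_surjective (a i)
    choose W hW using hW
    obtain ⟨σ, -, h2⟩ := fresh hj ∅ (Finset.univ.biUnion fun i => letters (W i))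
    have hb : ∀ i, ∃ b : MY N hN ℕ, mapY hN hj b = permY hN σ (a i) := by
      intro i
      rw [← hW i]
      exact perm_mem_range hj σ (W i) fun z hz =>
        h2 z (Finset.mem_biUnion.2 ⟨i, Finset.mem_univ _, hz⟩)
    choose b hb using hb
    refine ⟨b, ?_⟩
    have h3 := tp_mapY (hN := hN) hd hj b
    have h4 := tp_permY (hN := hN) hd σ a
    have e : (fun i => mapY hN hj (b i)) = fun i => permY hN σ (a i) := funext hb
    rw [e, h4] at h3
    exact h3
  · rintro ⟨b, rfl⟩
    exact ⟨fun i => mapY hN hj (b i), (tp_mapY (hN := hN) hd hj b).symm⟩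

end Mon
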