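import Pool.Agent.Mon.Lox2

/-!
# Project Mon, module MinLen: uniform constants for elements of minimal length

`min_two`: let `ℓ u = L ≥ 4 D + 2` be minimal in the conjugacy class, so `ds y (u y) ≥ L` for all `y`
(`ds y (u y) = ℓ (y⁻¹ u y)`).  Let `y` be between `1` and `u` with `ds 1 y = L / 2`; so
`ds y u = L - L / 2`, `ds u (u y) = L / 2`, so `ds y (u y) = L`.  The four point condition for
`1, y, u, u y`: `ds 1 u + ds y (u y) ≤ max (ds 1 y + ds u (u y)) (ds 1 (u y) + ds y u) + D`.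
The first alternative `2 L ≤ 2 (L/2) + D` is impossible.  So `ds 1 (u y) ≥ L + L / 2 - D`.
The four point condition for `1, u, u y, u²`:
`ds 1 (u y) + ds u u² ≤ max (ds 1 u + ds (u y) u²) (ds 1 u² + ds u (u y)) + D`; the first alternative
`2 L + L / 2 - D ≤ L + (L - L / 2) + D` is impossible (`L ≥ 4 D + 2`).  So
`ℓ (u²) ≥ 2 L - 2 D`.
So `2 ℓ (u²) ≥ 4 L - 4 D ≥ 2 L + 3 D + 1` and `lox_sum` gives, for `m, n ≥ 1`,
`f m + f n ≤ f (m + n) + 2 L + 2 D - ℓ (u²) ≤ f (m + n) + 4 D`.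
`unif_ql`: for `ℓ u ≤ 4 D + 1`: by `FinSeq` for `r = 4 D + 1` there are finitely many sequences `n ↦ ℓ (uⁿ)`; for
each of those which belong to an element of infinite order choose a constant by `HypGrp.lox`; take the
maximum of these constants and `4 D`.
-/

namespace Mon

variable {G : Type*} [Group G] {ℓ : G → ℕ} {D : ℕ}

theorem min_two (hl : IsLen ℓ) (hD : Hyp ℓ D) {u : G} (hu : 4 * D + 2 ≤ ℓ u)
    (hmin : ∀ g, ℓ u ≤ ℓ (g * u * g⁻¹)) : 2 * ℓ u ≤ ℓ (u ^ 2) + 2 * D := by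
  have h1u : ds ℓ 1 u = ℓ u := ds_one u
  obtain ⟨y, hy, hyk⟩ := hl.exists_btw 1 u (k := ℓ u / 2) (by rw [h1u]; omega)
  unfold Btw at hy
  have huy : ds ℓ u (u * y) = ℓ u / 2 := by
    have h1 := ds_smul (ℓ := ℓ) u 1 y
    rw [mul_one] at h1
    rw [h1, hyk]
  have huu : ds ℓ u (u ^ 2) = ℓ u := by
    have h1 := ds_smul (ℓ := ℓ) u 1 u
    rw [mul_one, ← pow_two] at h1
    rw [h1, h1u]
  have hyu2 : ds ℓ (u * y) (u ^ 2) = ds ℓ y u := by
    rw [pow_two]
    exact ds_smul u y u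
  have h1u2 : ds ℓ 1 (u ^ 2) = ℓ (u ^ 2) := ds_one _
  have hlow : ℓ u ≤ ds ℓ y (u * y) := by
    have h1 := hmin y⁻¹
    unfold ds
    rwa [inv_inv, mul_assoc] at h1
  have hup := hl.ds_tri y u (u * y)
  have a1 := hD 1 y u (u * y)
  have a2 := hD 1 u (u * y) (u ^ 2)
  rw [h1u] at hy a1 a2
  rw [huy] at hup a1 a2
  rw [huu, hyu2, h1u2] at a2
  rw [hyk] at hy a1
  rcases le_total (ℓ u / 2 + ℓ u / 2) (ds ℓ 1 (u * y) + ds ℓ y u) with h1 | h1
  · rw [max_eq_right h1] at a1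
    rcases le_total (ℓ u + ds ℓ y u) (ℓ (u ^ 2) + ℓ u / 2) with h2 | h2
    · rw [max_eq_right h2] at a2
      omega
    · rw [max_eq_left h2] at a2
      omega
  · rw [max_eq_left h1] at a1
    omega

/-- The uniform constant. -/
theorem HypGrp.unif_ql (hG : HypGrp ℓ D) : ∃ e₀, ∀ u : G, (∀ n : ℕ, 0 < n → u ^ n ≠ 1) →
    (∀ g, ℓ u ≤ ℓ (g * u * g⁻¹)) → QL (fun n => ℓ (u ^ n)) e₀ := by
  classical
  let E : (ℕ → ℕ) → ℕ := fun f => if h : ∃ e, QL f e then Classical.choose h else 0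
  have hE : ∀ f, (∃ e, QL f e) → QL f (E f) := by
    intro f h
    simp only [E, dif_pos h]
    exact Classical.choose_spec h
  have hfin := hG.fin (4 * D + 1)
  refine ⟨max (4 * D) (hfin.toFinset.sup E), ?_⟩
  intro u hu hmin
  by_cases hlu : 4 * D + 2 ≤ ℓ u
  · have h2 := min_two hG.len hG.hyp hlu hmin
    have h0 : ℓ (1 : G) = 0 := (hG.len.one 1).2 rfl
    intro m n
    show ℓ (u ^ m) + ℓ (u ^ n) ≤ ℓ (u ^ (m + n)) + _
    have hmax := le_max_left (4 * D) (hfin.toFinset.sup E)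
    rcases Nat.eq_zero_or_pos m with rfl | hm
    · rw [pow_zero, h0, zero_add, zero_add]
      omega
    · rcases Nat.eq_zero_or_pos n with rfl | hn
      · rw [pow_zero, h0, add_zero, add_zero]
        omega
      · have h3 := lox_sum hG.len hG.hyp (v := u) (by omega) (m := m) (n := n) hm hn
        omega
  · have hmem : (fun n => ℓ (u ^ n)) ∈ hfin.toFinset := by
      rw [Set.Finite.mem_toFinset]
      exact ⟨u, by omega, fun n => rfl⟩
    have h1 : E (fun n => ℓ (u ^ n)) ≤ hfin.toFinset.sup E := Finset.le_sup hmem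
    obtain ⟨e, he, -⟩ := hG.lox hu
    have h2 := hE _ ⟨e, he⟩
    intro m n
    have h3 := h2 m n
    have hmax := le_max_right (4 * D) (hfin.toFinset.sup E)
    exact h3.trans (by omega)

end Mon
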