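import Pool.Agent.Mon.Basic

/-!
# Project Mon, module PathU: the axis path of an element of minimal length

Let `u ≠ 1`, `L = ℓ u`, `ds y (u y) ≥ L` for all `y`; suppose that the sequences `n ↦ ds y (uⁿ y)`
satisfy `QL · e₀` for all `y` with `ds y (u y) = L`.
Let `c₀` be a geodesic from `1` to `u` (`exists_path`), `c t = u^(t / L) * c₀ (t % L)`.  Then `c 0 = 1`,
`c (m L) = u^m`, `c (t + L) = u c t`, `ds (c t) (c (t + 1)) ≤ 1` (if `t % L = L - 1` use `c₀ L = u`),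
so `ds (c s) (c t) ≤ t - s` for `s ≤ t`, and `ds (c t) (c (t + L)) = ds (c t) (u c t) = L`.
`additivity`: let `r ≤ s ≤ t`; `y = c r`, `f n = ds y (uⁿ y)` (so `f 1 = L`, `QL f e₀`,
`c (r + n L) = uⁿ y`, `ds (u^a y) (u^b y) = f (b - a)`).  Write `s = r + i L + s'`, `t = r + j L + t'`,
`0 ≤ s', t' < L`, `i ≤ j`, `k = j + 1`.  We show
(*) `ds (c r) (c s) + ds (c s) (c t) + ds (c t) (c (r + k L)) ≤ f k + 4 e₀`; as
`f k = ds (c r) (c (r + k L)) ≤ ds (c r) (c t) + ds (c t) (c (r + k L))` this gives the claim.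
`ds (c r) (c s) ≤ f i + s'`, `ds (c t) (c (r + k L)) ≤ L - t'`, and if `i < j`:
`ds (c s) (c t) ≤ (L - s') + f (j - i - 1) + t'`: the sum is `≤ f i + L + f (j - i - 1) + L`
`≤ f (i + 1 + (j - i - 1) + 1) + 3 e₀`.  If `i = j`: `ds (c s) (c t) ≤ t' - s'`, the sum is
`≤ f i + L ≤ f (i + 1) + e₀`.
-/

namespace Mon

variable {G : Type*} [Group G] {ℓ : G → ℕ}

/-- The path: existence with the elementary properties. -/
private theorem path_aux (hl : IsLen ℓ) {u : G} (hu : u ≠ 1) :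
    ∃ c : ℕ → G, c 0 = 1 ∧ (∀ m, c (m * ℓ u) = u ^ m) ∧ (∀ t, c (t + ℓ u) = u * c t) ∧
      (∀ t, ds ℓ (c t) (c (t + 1)) ≤ 1) := by
  have hL : 0 < ℓ u := Nat.pos_of_ne_zero (fun h => hu ((hl.one u).1 h))
  obtain ⟨c₀, h0, h1, h2⟩ := hl.exists_path 1 u
  rw [ds_one] at h1 h2
  refine ⟨fun t => u ^ (t / ℓ u) * c₀ (t % ℓ u), ?_, ?_, ?_, ?_⟩
  · simp [h0]
  · intro m
    simp [Nat.mul_div_cancel _ hL, h0]
  · intro t
    simp only
    rw [Nat.add_div_right _ hL, Nat.add_mod_right, pow_succ', mul_assoc]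
  · intro t
    simp only
    by_cases ht : t % ℓ u + 1 = ℓ u
    · have h3 : (t + 1) % ℓ u = 0 := by
        rw [Nat.add_mod]
        rcases Nat.lt_or_ge 1 (ℓ u) with h4 | h4
        · rw [Nat.mod_eq_of_lt h4, ht, Nat.mod_self]
        · have h5 : ℓ u = 1 := by omega
          rw [h5]
          omega
      have h4 : (t + 1) / ℓ u = t / ℓ u + 1 := by
        have h5 := Nat.div_add_mod t (ℓ u)
        have h6 : t + 1 = (t / ℓ u + 1) * ℓ u := by
          rw [add_mul, one_mul]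
          nlinarith
        rw [h6, Nat.mul_div_cancel _ hL]
      rw [h3, h4, pow_succ, h0, mul_one, ds_smul]
      have h7 := h2 (t % ℓ u) (ℓ u) (by omega) le_rfl
      rw [h1] at h7
      omega
    · have h3 : t % ℓ u < ℓ u := Nat.mod_lt _ hL
      have h4 : (t + 1) % ℓ u = t % ℓ u + 1 := by
        have h5 := Nat.div_add_mod t (ℓ u)
        have h6 : t + 1 = ℓ u * (t / ℓ u) + (t % ℓ u + 1) := by omega
        rw [h6, Nat.mul_add_mod, Nat.mod_eq_of_lt (by omega)]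
      have h5 : (t + 1) / ℓ u = t / ℓ u := by
        have h5 := Nat.div_add_mod t (ℓ u)
        have h6 : t + 1 = ℓ u * (t / ℓ u) + (t % ℓ u + 1) := by omega
        have h8 : (t % ℓ u + 1) / ℓ u = 0 := Nat.div_eq_of_lt (by omega)
        calc (t + 1) / ℓ u = (ℓ u * (t / ℓ u) + (t % ℓ u + 1)) / ℓ u := by rw [← h6]
          _ = t / ℓ u + (t % ℓ u + 1) / ℓ u := Nat.mul_add_div hL _ _
          _ = t / ℓ u := by rw [h8, add_zero]
      rw [h4, h5, ds_smul]
      have h7 := h2 (t % ℓ u) (t % ℓ u + 1) (by omega) (by omega)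
      omega

theorem exists_axis_path (hl : IsLen ℓ) {u : G} (hu : u ≠ 1) {e₀ : ℕ}
    (hmin : ∀ y, ℓ u ≤ ds ℓ y (u * y))
    (hql : ∀ y, ds ℓ y (u * y) = ℓ u → QL (fun n => ds ℓ y (u ^ n * y)) e₀) :
    ∃ c : ℕ → G, c 0 = 1 ∧ (∀ m, c (m * ℓ u) = u ^ m) ∧ (∀ t, c (t + ℓ u) = u * c t) ∧
      (∀ t, ds ℓ (c t) (c (t + 1)) ≤ 1) ∧ (∀ s t, s ≤ t → ds ℓ (c s) (c t) ≤ t - s) ∧
      (∀ t, ds ℓ (c t) (u * c t) = ℓ u) ∧
      ∀ r s t, r ≤ s → s ≤ t →
        ds ℓ (c r) (c s) + ds ℓ (c s) (c t) ≤ ds ℓ (c r) (c t) + 4 * e₀ := by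
  have hL : 0 < ℓ u := Nat.pos_of_ne_zero (fun h => hu ((hl.one u).1 h))
  obtain ⟨c, c0, cm, cs, c1⟩ := path_aux hl hu
  have hle : ∀ s t, s ≤ t → ds ℓ (c s) (c t) ≤ t - s := by
    intro s t hst
    induction t, hst using Nat.le_induction with
    | base => rw [hl.ds_self]; omega
    | succ t hst ih =>
      have h1 := hl.ds_tri (c s) (c t) (c (t + 1))
      have h2 := c1 t
      omega
  have hu' : ∀ t, ds ℓ (c t) (u * c t) = ℓ u := by
    intro t
    refine le_antisymm ?_ (hmin _)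
    have := hle t (t + ℓ u) (by omega)
    rw [cs] at this
    omega
  have hcp : ∀ r n, c (r + n * ℓ u) = u ^ n * c r := by
    intro r n
    induction n with
    | zero => simp
    | succ n ih =>
      rw [add_mul, one_mul, ← add_assoc, cs, ih, pow_succ', mul_assoc]
  refine ⟨c, c0, cm, cs, c1, hle, hu', ?_⟩
  intro r s t hrs hst
  have hq := hql (c r) (hu' r)
  set f : ℕ → ℕ := fun n => ds ℓ (c r) (u ^ n * c r) with hf
  have hf1 : f 1 = ℓ u := by
    simp only [hf, pow_one]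
    exact hu' r
  have hfd : ∀ a b, a ≤ b → ds ℓ (c (r + a * ℓ u)) (c (r + b * ℓ u)) = f (b - a) := by
    intro a b hab
    rw [hcp, hcp, hf]
    simp only
    rw [← ds_smul (u ^ a) (c r) (u ^ (b - a) * c r), ← mul_assoc, ← pow_add,
      Nat.add_sub_cancel' hab]
  -- decompositions
  obtain ⟨i, s', hs', hs⟩ : ∃ i s', s' < ℓ u ∧ s = r + i * ℓ u + s' :=
    ⟨(s - r) / ℓ u, (s - r) % ℓ u, Nat.mod_lt _ hL, by
      have := Nat.div_add_mod (s - r) (ℓ u)
      rw [mul_comm] at this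
      omega⟩
  obtain ⟨j, t', ht', ht⟩ : ∃ j t', t' < ℓ u ∧ t = r + j * ℓ u + t' :=
    ⟨(t - r) / ℓ u, (t - r) % ℓ u, Nat.mod_lt _ hL, by
      have := Nat.div_add_mod (t - r) (ℓ u)
      rw [mul_comm] at this
      omega⟩
  have hij : i ≤ j := by
    by_contra hcon
    have h1 : (j + 1) * ℓ u ≤ i * ℓ u := Nat.mul_le_mul_right _ (by omega)
    rw [add_mul, one_mul] at h1
    omega
  have hsucc : ∀ a, (a + 1) * ℓ u = a * ℓ u + ℓ u := fun a => by rw [add_mul, one_mul]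
  have e1 : ds ℓ (c r) (c s) ≤ f i + s' := by
    have h1 := hl.ds_tri (c r) (c (r + i * ℓ u)) (c s)
    have h2 := hle (r + i * ℓ u) s (by omega)
    have h3 := hfd 0 i (Nat.zero_le _)
    rw [zero_mul, add_zero, Nat.sub_zero] at h3
    omega
  have e3 : ds ℓ (c t) (c (r + (j + 1) * ℓ u)) ≤ ℓ u - t' := by
    have h1 := hsucc j
    have h2 := hle t (r + (j + 1) * ℓ u) (by omega)
    omega
  have e4 : f (j + 1) ≤ ds ℓ (c r) (c t) + ds ℓ (c t) (c (r + (j + 1) * ℓ u)) := by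
    have h3 := hfd 0 (j + 1) (Nat.zero_le _)
    rw [zero_mul, add_zero, Nat.sub_zero] at h3
    rw [← h3]
    exact hl.ds_tri _ _ _
  rcases Nat.lt_or_ge i j with hlt | hge
  · have e2 : ds ℓ (c s) (c t) ≤ (ℓ u - s') + f (j - i - 1) + t' := by
      have h1 := hl.ds_tri (c s) (c (r + (i + 1) * ℓ u)) (c t)
      have h2 := hl.ds_tri (c (r + (i + 1) * ℓ u)) (c (r + j * ℓ u)) (c t)
      have h3 := hfd (i + 1) j hlt
      rw [show j - (i + 1) = j - i - 1 by omega] at h3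
      have h4 := hsucc i
      have h5 := hle s (r + (i + 1) * ℓ u) (by omega)
      have h6 := hle (r + j * ℓ u) t (by omega)
      omega
    have q1 := hq i 1
    have q2 := hq (i + 1) (j - i - 1)
    have q3 := hq j 1
    rw [show i + 1 + (j - i - 1) = j by omega] at q2
    change f i + f 1 ≤ f (i + 1) + e₀ at q1
    change f (i + 1) + f (j - i - 1) ≤ f j + e₀ at q2
    change f j + f 1 ≤ f (j + 1) + e₀ at q3
    omega
  · have hij' : i = j := le_antisymm hij hge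
    subst hij'
    have e2 : ds ℓ (c s) (c t) ≤ t' - s' := by
      have h1 := hle s t hst
      omega
    have q1 := hq i 1
    change f i + f 1 ≤ f (i + 1) + e₀ at q1
    omega

end Mon
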