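import Pool.Agent.Mon.Quot

/-!
# Project Mon, module Poly0: tools for the polygon argument (Theorem B)

`H` is a rotation system, `J₀ = 28 θ + 2 D`.

`cut`: let `u : ℕ → G`, `k ≤ 7`, `r` with `P B (u 0) (r u_k) ≤ 13 θ`, `r ∈ R B`; let `i ≤ j < k` be such that
the segments `(u_m, u_{m+1})` with `m < i` and with `j < m < k` are not large: `P B u_m u_{m+1} ≤ c`, and
the segments `i`, `j` are large: `c < P B u_i u_{i+1}`, `c < P B u_j u_{j+1}`.  Let `z₁` be between `u_i` and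
`u_{i+1}` with `ds u_i z₁ = dS B u_i`, `z₂` between `u_j` and `u_{j+1}` with
`ds z₂ u_{j+1} = dS B u_{j+1}`.  Then `ds z₁ (r z₂) ≤ J₀`.
Proof: `p ∈ S B` a nearest point of `u_i`, `q ∈ S B` a nearest point of `u_{j+1}`; by `loc` (and its mirror
image) `ds z₁ p ≤ 2c + D`, `ds z₂ q ≤ 2c + D`; `r q ∈ S B` (`R_fix`, `S_smul`), and
`ds p (r q) = P B p (r q) ≤ P B p u_i + P B u_i u_0 + P B u_0 (r u_k) + P B (r u_k) (r u_{j+1}) +
P B (r u_{j+1}) (r q) ≤ c + (i + 1) c + 13 θ + (k - j) c + c` (`P_near`, `P_self`, `P_tri`, `P_smul` with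
`r • B = B`).  The total is `≤ 13 θ + (k + 3) c + 4 c + 2 D`, and `c ≤ θ`, `k ≤ 7`.

`direct`: let `p` be between `x₀` and `a₀`, `MinP x₀ a₀`, `x'` between `x₀` and `p`, `a'` between `p` and
`a₀`, `g' ∈ Nall R` with `ds a' (g' x') ≤ J'`, `2 J' + 14 θ < τ`.  Then `g' = 1` and `ds p a' ≤ J'`.
Proof: `(x', a')` is a minimal pair containing `p` (`MinP.left`, `right`, `Btw.trans_left`), so
`ds x' a' ≤ ds (g' x') a' ≤ J'`, and `ds x' p + ds p a' = ds x' a'`.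
`ds p (g' p) ≤ ds p a' + ds a' (g' x') + ds (g' x') (g' p) ≤ ds x' a' + J' ≤ 2 J'`.  If `g' ≠ 1` then
`τ ≤ 2 J' + c + 13 θ` (`length_gt`), a contradiction.

`close`: for `x, y : G` there is `r ∈ R B` with `ds x (r y) ≤ dS B x + h + dS B y`: let `p, q ∈ S B` be nearest
points of `x`, `y`, choose `r ∈ R B` such that `ds (r q) p` is minimal; by `min`, `P B (r q) p ≤ h`, and
this is `ds (r q) p` (`P_mem`).

`large_point`: if `c < P B x y` there is `z` between `x` and `y` with `dS B z ≤ 2 c + D` (`loc`).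

`hex1`, `hex2`: splitting (`Hyp.split`, `Hyp.near_point`).  `hex1`: `p` is `0`-near `(x₀, a₀)`; splitting
with `b₁`: near `(b₁, a₀)` (then `ds p b₁ ≤ J + D`, take `q = b₁`) or `D`-near `(x₀, b₁)`; splitting with
`a₁`: near `(x₀, a₁)` (then `ds p a₁ ≤ J + 2 D`) or `2D`-near `(a₁, b₁)`: then `near_point`.
`hex2` is the same with two more vertices.
-/

namespace Mon

variable {G ι : Type*} [Group G] [MulAction G ι] {ℓ : G → ℕ} {D : ℕ} {S : ι → Set G}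
  {dS : ι → G → ℕ} {P : ι → G → G → ℕ} {R : ι → Subgroup G} {c θ h τ : ℕ}

namespace RotSys

theorem dS_rot (H : RotSys ℓ D S dS P R c θ h τ) {B : ι} {r : G} (hr : r ∈ R B) (x : G) :
    dS B (r * x) = dS B x := by
  have := H.dS_smul r B x
  rwa [H.R_fix B r hr] at this

theorem P_rot (H : RotSys ℓ D S dS P R c θ h τ) {B : ι} {r : G} (hr : r ∈ R B) (x y : G) :
    P B (r * x) (r * y) = P B x y := by
  have := H.P_smul r B x y
  rwa [H.R_fix B r hr] at this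

private theorem S_rot (H : RotSys ℓ D S dS P R c θ h τ) {B : ι} {r : G} (hr : r ∈ R B) {x : G}
    (hx : x ∈ S B) : r * x ∈ S B := by
  have := (H.S_smul r B x).2 hx
  rwa [H.R_fix B r hr] at this

private theorem P_chain_left (H : RotSys ℓ D S dS P R c θ h τ) {B : ι} {u : ℕ → G} (i : ℕ)
    (h1 : ∀ m < i, P B (u m) (u (m + 1)) ≤ c) : P B (u 0) (u i) ≤ (i + 1) * c := by
  induction i with
  | zero => have := H.P_self B (u 0); omega
  | succ i ih =>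
    have e1 := ih fun m hm => h1 m (by omega)
    have e2 := h1 i (by omega)
    have e3 := H.P_tri B (u 0) (u i) (u (i + 1))
    have e4 : (i + 1 + 1) * c = (i + 1) * c + c := by ring
    omega

private theorem P_chain_right (H : RotSys ℓ D S dS P R c θ h τ) {B : ι} {u : ℕ → G} {j : ℕ}
    (k : ℕ) (h2 : ∀ m, j < m → m < j + 1 + k → P B (u m) (u (m + 1)) ≤ c) :
    P B (u (j + 1)) (u (j + 1 + k)) ≤ (k + 1) * c := by
  induction k with
  | zero => have := H.P_self B (u (j + 1)); simpa using this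
  | succ k ih =>
    have e1 := ih fun m hm hm' => h2 m hm (by omega)
    have e2 := h2 (j + 1 + k) (by omega) (by omega)
    have e3 := H.P_tri B (u (j + 1)) (u (j + 1 + k)) (u (j + 1 + k + 1))
    have e4 : (k + 1 + 1) * c = (k + 1) * c + c := by ring
    have e5 : j + 1 + (k + 1) = j + 1 + k + 1 := by ring
    rw [e5]
    omega

theorem cut (H : RotSys ℓ D S dS P R c θ h τ) {B : ι} {r : G} (hr : r ∈ R B) {u : ℕ → G}
    {k i j : ℕ} (hk : k ≤ 7) (hij : i ≤ j) (hjk : j < k) (hP : P B (u 0) (r * u k) ≤ 13 * θ)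
    (h1 : ∀ m < i, P B (u m) (u (m + 1)) ≤ c) (h2 : ∀ m, j < m → m < k → P B (u m) (u (m + 1)) ≤ c)
    (hi : c < P B (u i) (u (i + 1))) (hj : c < P B (u j) (u (j + 1))) {z₁ z₂ : G}
    (hz₁ : Btw ℓ (u i) z₁ (u (i + 1))) (hd₁ : ds ℓ (u i) z₁ = dS B (u i))
    (hz₂ : Btw ℓ (u j) z₂ (u (j + 1))) (hd₂ : ds ℓ z₂ (u (j + 1)) = dS B (u (j + 1))) :
    ds ℓ z₁ (r * z₂) ≤ 28 * θ + 2 * D := by
  obtain ⟨p, hpS, hp⟩ := H.dS_att B (u i)
  obtain ⟨q, hqS, hq⟩ := H.dS_att B (u (j + 1))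
  have a1 := H.loc hi hz₁ hd₁ hpS hp
  have a2 : ds ℓ z₂ q ≤ 2 * c + D := by
    refine H.loc (x := u (j + 1)) (y := u j) ?_ (hz₂.symm H.len) ?_ hqS hq
    · rw [H.P_comm]; exact hj
    · rw [H.len.ds_comm]; exact hd₂
  have hrq := S_rot H hr hqS
  have a3 := H.P_mem B p hpS (r * q) hrq
  have b1 := H.P_near B (u i) p hpS hp
  have b2 := P_chain_left H i h1
  obtain ⟨k', rfl⟩ : ∃ k', k = j + 1 + k' := ⟨k - (j + 1), by omega⟩
  have b3 := P_chain_right H (B := B) (u := u) (j := j) k' h2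
  have b4 := H.P_near B (u (j + 1)) q hqS hq
  have b5 := H.P_rot hr (u (j + 1 + k')) (u (j + 1))
  have b6 := H.P_rot hr (u (j + 1)) q
  have c1 := H.P_tri B p (u i) (r * q)
  have c2 := H.P_tri B (u i) (u 0) (r * q)
  have c3 := H.P_tri B (u 0) (r * u (j + 1 + k')) (r * q)
  have c4 := H.P_tri B (r * u (j + 1 + k')) (r * u (j + 1)) (r * q)
  rw [H.P_comm B p (u i)] at c1
  rw [H.P_comm B (u i) (u 0)] at c2
  rw [b5, b6, H.P_comm B (u (j + 1 + k')) (u (j + 1))] at c4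
  have e1 : (i + 1) * c + (k' + 1) * c ≤ 8 * c := by
    rw [← add_mul]
    exact Nat.mul_le_mul_right c (by omega)
  have d1 := H.len.ds_tri z₁ p (r * z₂)
  have d2 := H.len.ds_tri p (r * q) (r * z₂)
  have d3 : ds ℓ (r * q) (r * z₂) = ds ℓ z₂ q := by rw [ds_smul, H.len.ds_comm]
  have hcθ := H.c_le_θ
  omega

theorem direct (H : RotSys ℓ D S dS P R c θ h τ) {x₀ p a₀ x' a' g' : G} {J' : ℕ}
    (hp : Btw ℓ x₀ p a₀) (hm : MinP ℓ (Nall R) x₀ a₀) (hx' : Btw ℓ x₀ x' p) (ha' : Btw ℓ p a' a₀)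
    (hg' : g' ∈ Nall R) (hJ : ds ℓ a' (g' * x') ≤ J') (hτ : 2 * J' + 14 * θ < τ) :
    g' = 1 ∧ ds ℓ p a' ≤ J' := by
  have h1 := (hp.symm H.len).trans_left H.len (hx'.symm H.len)
  have h2 : Btw ℓ x₀ x' a₀ := h1.2.symm H.len
  have h3 : Btw ℓ x' p a₀ := h1.1.symm H.len
  have h4 := h3.trans_left H.len ha'
  have m1 : MinP ℓ (Nall R) a' x' := ((hm.right H.len h2).left H.len h4.2).symm H.len
  have e1 := m1 g' hg'
  have e2 := h4.1
  unfold Btw at e2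
  have e3 := H.len.ds_comm a' x'
  refine ⟨?_, by omega⟩
  by_contra hne
  have e4 := H.length_gt hg' hne p
  have e5 := H.len.ds_tri p a' (g' * p)
  have e6 := H.len.ds_tri a' (g' * x') (g' * p)
  rw [ds_smul] at e6
  have hcθ := H.c_le_θ
  omega

theorem close (H : RotSys ℓ D S dS P R c θ h τ) (B : ι) (x y : G) :
    ∃ r ∈ R B, ds ℓ x (r * y) ≤ dS B x + h + dS B y := by
  obtain ⟨p, hpS, hp⟩ := H.dS_att B x
  obtain ⟨q, hqS, hq⟩ := H.dS_att B y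
  obtain ⟨r, hr, hmin⟩ : ∃ r ∈ R B, ∀ s ∈ R B, ds ℓ (r * q) p ≤ ds ℓ (s * q) p := by
    have hT : {n | ∃ r ∈ R B, ds ℓ (r * q) p = n}.Nonempty := ⟨_, 1, (R B).one_mem, rfl⟩
    obtain ⟨r, hr, e⟩ := Nat.sInf_mem hT
    exact ⟨r, hr, fun s hs => by rw [e]; exact Nat.sInf_le ⟨s, hs, rfl⟩⟩
  refine ⟨r, hr, ?_⟩
  have h1 := H.min B (r * q) p fun s hs => by
    rw [← mul_assoc]
    exact hmin _ ((R B).mul_mem hs hr)
  rw [H.P_mem B _ (S_rot H hr hqS) p hpS] at h1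
  have e1 := H.len.ds_tri x p (r * y)
  have e2 := H.len.ds_tri p (r * q) (r * y)
  rw [ds_smul, H.len.ds_comm p (r * q), H.len.ds_comm q y] at e2
  omega

theorem large_point (H : RotSys ℓ D S dS P R c θ h τ) {B : ι} {x y : G} (hP : c < P B x y) :
    ∃ z, Btw ℓ x z y ∧ dS B z ≤ 2 * c + D := by
  have h1 := H.dS_add_lt hP
  obtain ⟨z, hz, hd⟩ := H.len.exists_btw x y (k := dS B x) (by omega)
  obtain ⟨a, ha, hxa⟩ := H.dS_att B x
  have h2 := H.loc hP hz hd ha hxa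
  have h3 := H.dS_le B z a ha
  exact ⟨z, hz, by omega⟩

end RotSys

omit [MulAction G ι] in
theorem hex1 (hl : IsLen ℓ) (hD : Hyp ℓ D) {x₀ p a₀ b₁ a₁ : G} {J : ℕ} (hp : Btw ℓ x₀ p a₀)
    (h1 : ds ℓ a₀ b₁ ≤ J) (h2 : ds ℓ a₁ x₀ ≤ J) :
    ∃ q, Btw ℓ b₁ q a₁ ∧ ds ℓ p q ≤ J + 3 * D := by
  have c1 := hl.ds_comm b₁ a₀
  have c2 := hl.ds_comm x₀ a₁
  rcases hD.split hl (hp.near hl) b₁ with e | e
  · rcases hD.split hl e a₁ with e' | e'
    · exact ⟨a₁, hl.btw_right _ _, by omega⟩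
    · obtain ⟨z, hz, hd⟩ := hD.near_point hl (p := p) (u := a₁) (v := b₁) (t := D + D) (by omega)
      exact ⟨z, hz.symm hl, by omega⟩
  · exact ⟨b₁, hl.btw_left _ _, by omega⟩

omit [MulAction G ι] in
theorem hex2 (hl : IsLen ℓ) (hD : Hyp ℓ D) {x₀ p a₀ b₁ a₁ b₂ a₂ : G} {J : ℕ}
    (hp : Btw ℓ x₀ p a₀) (h1 : ds ℓ a₀ b₁ ≤ J) (h2 : ds ℓ a₁ b₂ ≤ J) (h3 : ds ℓ a₂ x₀ ≤ J) :
    ∃ q, (Btw ℓ b₁ q a₁ ∨ Btw ℓ b₂ q a₂) ∧ ds ℓ p q ≤ J + 5 * D := by
  have c1 := hl.ds_comm b₁ a₀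
  have c2 := hl.ds_comm x₀ a₂
  have c3 := hl.ds_comm b₂ a₁
  rcases hD.split hl (hp.near hl) b₁ with e | e
  · rcases hD.split hl e a₁ with e' | e'
    · rcases hD.split hl (p := p) (u := x₀) (v := a₁) (t := D + D) (by omega) b₂ with f | f
      · rcases hD.split hl (p := p) (u := x₀) (v := b₂) (t := D + D + D) (by omega) a₂ with f' | f'
        · exact ⟨a₂, Or.inr (hl.btw_right _ _), by omega⟩
        · obtain ⟨z, hz, hd⟩ := hD.near_point hl (p := p) (u := a₂) (v := b₂)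
            (t := D + D + D + D) (by omega)
          exact ⟨z, Or.inr (hz.symm hl), by omega⟩
      · exact ⟨b₂, Or.inr (hl.btw_left _ _), by omega⟩
    · obtain ⟨z, hz, hd⟩ := hD.near_point hl (p := p) (u := a₁) (v := b₁) (t := D + D) (by omega)
      exact ⟨z, Or.inl (hz.symm hl), by omega⟩
  · exact ⟨b₁, Or.inl (hl.btw_left _ _), by omega⟩

end Mon
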