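import Pool.Agent.Mon.Poly0

/-!
# Project Mon, module Poly1: polygons with one other side

`J₀ = 28 θ + 2 D ≤ J`, `N = Nall R`.  DATA: `p` between `x₀` and `a₀`, minimal pairs `(x₀, a₀)`, `(b₁, a₁)`,
`ds a₀ b₁ ≤ J`, `ds a₁ (g x₀) ≤ J`, `g ∈ N`.  CLAIM: there are `q` between `b₁` and `a₁` and `n ∈ N` with
`ds p (n q) ≤ δ = 4 J + h + 4 θ + 5 D`.
Proof by strong induction on `ds x₀ a₀ + ds b₁ a₁`.  If `g = 1` use `hex1`.  Let `g ≠ 1`; by
`greendlinger'` (base point `p`) there are `B`, `r ∈ R B`, `r ≠ 1`, `P B p (r g p) ≤ 13 θ`,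
`τ ≤ P B p (g p) + 13 θ`.  Vertices `u = (p, a₀, b₁, a₁, g x₀, g p)`, segments `0, ..., 4`
(segment `m` is `(u_m, u_{m+1})`).  Segments `0, 2, 4` are minimal pairs (`MinP.left/right/smul`), so their
`P B` is `≤ h` (`P_le_h`); segments `1, 3` have `P B ≤ J + c` (`P_le`).  A segment is large if its `P B` is
`> c`.
At least two of the segments `0, 2, 4` are large: otherwise
`P B p (g p) ≤ h + 2 c + 2 (J + c) < τ - 13 θ`.  Let `i` be the first and `j` the last large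
segment.  So `(i, j)` is one of `(0,2), (0,3), (0,4), (1,4), (2,4)` (e.g. `i = 1` means that `0` is not large so
`2, 4` are large).  Let `z₁` be between `u_i` and `u_{i+1}`, `ds u_i z₁ = dS B u_i`, `z₂` between `u_j` and
`u_{j+1}`, `ds z₂ u_{j+1} = dS B u_{j+1}` (`exists_btw`; `dS_add_lt` gives `dS B u_i ≤ ds u_i u_{i+1}`, etc.,
with strict inequality).  By `cut`, `ds z₁ (r z₂) ≤ J₀`.  Let `g' = r g ∈ N`.
* `(0,2)`: apply the induction hypothesis to `x₀, p, z₁; r z₂, r a₁; g'`: `z₁` is between `p` and `a₀`, so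
  `p` is between `x₀` and `z₁`, `z₁` between `x₀` and `a₀`; `(x₀, z₁)`, `(r z₂, r a₁)` are minimal pairs;
  `ds z₁ (r z₂) ≤ J₀ ≤ J`, `ds (r a₁) (r g x₀) = ds a₁ (g x₀) ≤ J`; the sum of the lengths is smaller as
  `ds z₂ a₁ = dS B a₁ < ds b₁ a₁`.  We get `q'` between `r z₂` and `r a₁`, `n'` with
  `ds p (n' q') ≤ δ`; take `q = r⁻¹ q'`, `n = n' r`.
* `(2,4)`: apply it to `x' = g⁻¹ z₂, p, a₀; b₁, z₁; g'`: `z₂` is between `g x₀` and `g p`, so `x'` is between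
  `x₀` and `p`; `ds z₁ (g' x') = ds z₁ (r z₂) ≤ J₀`; `ds b₁ z₁ = dS B b₁ < ds b₁ a₁`.
* `(0,3), (0,4), (1,4)`: put `a' = z₁` if `i = 0`, `a' = a₀` if `i = 1` (so `ds a' z₁ ≤ J`: `z₁` is between
  `a₀` and `b₁`), `x' = g⁻¹ z₂` if `j = 4`, `x' = x₀` if `j = 3` (so `ds z₂ (g x') ≤ J`).
  `ds a' (g' x') ≤ J + J₀ + J ≤ 3 J`.  By `direct` (`J' = 3 J`) `g' = 1` and `ds p a' ≤ 3 J`.  So
  `g = r⁻¹ ∈ R B` and `P B (g x₀) (g p) = P B x₀ p` (`P_rot`).  By `P_add_le'` for `x₀, p, a₀`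
  `P B x₀ p + P B p a₀ ≤ h + 2 c`.  So
  `P B b₁ a₁ ≥ τ - 13 θ - (h + 2 c) - 2 (J + c) > c`; by `large_point` there is `q` between `b₁` and
  `a₁` with `dS B q ≤ 2 c + D`.  `dS B z₁ ≤ 2 c + D` (`loc`), so
  `dS B p ≤ 3 J + J + 2 c + D` (`dS_lip`).  Use `close`.
-/

namespace Mon

variable {G ι : Type*} [Group G] [MulAction G ι] {ℓ : G → ℕ} {D : ℕ} {S : ι → Set G}
  {dS : ι → G → ℕ} {P : ι → G → G → ℕ} {R : ι → Subgroup G} {c θ h τ : ℕ}

omit [MulAction G ι] in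
private theorem btw_trans_right (hl : IsLen ℓ) {x p y z : G} (h : Btw ℓ x p y)
    (h' : Btw ℓ x z p) : Btw ℓ x z y ∧ Btw ℓ z p y := by
  have h1 := (h.symm hl).trans_left hl (h'.symm hl)
  exact ⟨h1.2.symm hl, h1.1.symm hl⟩

private theorem exists_z1 (H : RotSys ℓ D S dS P R c θ h τ) {A : ι} {x y : G}
    (hP : c < P A x y) : ∃ z, Btw ℓ x z y ∧ ds ℓ x z = dS A x := by
  have h1 := H.dS_add_lt hP
  exact H.len.exists_btw x y (by omega)

private theorem exists_z2 (H : RotSys ℓ D S dS P R c θ h τ) {A : ι} {x y : G}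
    (hP : c < P A x y) : ∃ z, Btw ℓ x z y ∧ ds ℓ z y = dS A y := by
  have h1 := H.dS_add_lt hP
  obtain ⟨z, hz, hd⟩ := H.len.exists_btw y x (k := dS A y) (by rw [H.len.ds_comm]; omega)
  exact ⟨z, hz.symm H.len, by rw [H.len.ds_comm]; exact hd⟩

private theorem dS_z1 (H : RotSys ℓ D S dS P R c θ h τ) {A : ι} {x y z : G}
    (hP : c < P A x y) (hz : Btw ℓ x z y) (hd : ds ℓ x z = dS A x) : dS A z ≤ 2 * c + D := by
  obtain ⟨a, ha, hxa⟩ := H.dS_att A x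
  have h1 := H.loc hP hz hd ha hxa
  have h2 := H.dS_le A z a ha
  omega

/-- The vertices of the polygon. -/
private def vtx (p a₀ b₁ a₁ gx gp : G) : ℕ → G
  | 0 => p
  | 1 => a₀
  | 2 => b₁
  | 3 => a₁
  | 4 => gx
  | _ => gp

private theorem cut5 (H : RotSys ℓ D S dS P R c θ h τ) {B : ι} {r : G} (hr : r ∈ R B)
    {p a₀ b₁ a₁ gx gp : G} {i j : ℕ} (hij : i ≤ j) (hj5 : j < 5)
    (hP : P B p (r * gp) ≤ 13 * θ)
    (h1 : ∀ m < i, P B (vtx p a₀ b₁ a₁ gx gp m) (vtx p a₀ b₁ a₁ gx gp (m + 1)) ≤ c)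
    (h2 : ∀ m, j < m → m < 5 → P B (vtx p a₀ b₁ a₁ gx gp m) (vtx p a₀ b₁ a₁ gx gp (m + 1)) ≤ c)
    (hi : c < P B (vtx p a₀ b₁ a₁ gx gp i) (vtx p a₀ b₁ a₁ gx gp (i + 1)))
    (hj : c < P B (vtx p a₀ b₁ a₁ gx gp j) (vtx p a₀ b₁ a₁ gx gp (j + 1))) {z₁ z₂ : G}
    (hz₁ : Btw ℓ (vtx p a₀ b₁ a₁ gx gp i) z₁ (vtx p a₀ b₁ a₁ gx gp (i + 1)))
    (hd₁ : ds ℓ (vtx p a₀ b₁ a₁ gx gp i) z₁ = dS B (vtx p a₀ b₁ a₁ gx gp i))
    (hz₂ : Btw ℓ (vtx p a₀ b₁ a₁ gx gp j) z₂ (vtx p a₀ b₁ a₁ gx gp (j + 1)))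
    (hd₂ : ds ℓ z₂ (vtx p a₀ b₁ a₁ gx gp (j + 1)) = dS B (vtx p a₀ b₁ a₁ gx gp (j + 1))) :
    ds ℓ z₁ (r * z₂) ≤ 28 * θ + 2 * D :=
  H.cut hr (u := vtx p a₀ b₁ a₁ gx gp) (k := 5) (i := i) (j := j) (by omega) hij hj5 hP h1 h2 hi hj
    hz₁ hd₁ hz₂ hd₂

/-- The direct case. -/
private theorem direct_case (H : RotSys ℓ D S dS P R c θ h τ) {J : ℕ} (hJ : 28 * θ + 2 * D ≤ J)
    (hτ : h + 8 * J + 40 * θ < τ) {x₀ p a₀ b₁ a₁ g : G} (hp : Btw ℓ x₀ p a₀)
    (h0 : MinP ℓ (Nall R) x₀ a₀) (hj1 : ds ℓ a₀ b₁ ≤ J)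
    (hj2 : ds ℓ a₁ (g * x₀) ≤ J) (hg : g ∈ Nall R) {B : ι} {r : G} (hr : r ∈ R B)
    (hrN : r ∈ Nall R) (hgp : τ ≤ P B p (g * p) + 13 * θ) {a' x' z₁ z₂ : G}
    (ha' : Btw ℓ p a' a₀) (hx' : Btw ℓ x₀ x' p) (ha'z : ds ℓ a' z₁ ≤ J)
    (hz₂x : ds ℓ z₂ (g * x') ≤ J) (hz : ds ℓ z₁ (r * z₂) ≤ 28 * θ + 2 * D)
    (hdz : dS B z₁ ≤ 2 * c + D) :
    ∃ q, Btw ℓ b₁ q a₁ ∧ ∃ n ∈ Nall R, ds ℓ p (n * q) ≤ 4 * J + h + 4 * θ + 5 * D := by
  have hcθ := H.c_le_θ
  have e1 : ds ℓ a' (r * g * x') ≤ 3 * J := by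
    have t1 := H.len.ds_tri a' z₁ (r * g * x')
    have t2 := H.len.ds_tri z₁ (r * z₂) (r * g * x')
    have t3 : ds ℓ (r * z₂) (r * g * x') = ds ℓ z₂ (g * x') := by
      rw [mul_assoc, ds_smul]
    omega
  obtain ⟨e2, e3⟩ := H.direct hp h0 hx' ha' ((Nall R).mul_mem hrN hg) e1 (by omega)
  have e4 : g ∈ R B := by
    have : g = r⁻¹ := by
      rw [eq_comm, inv_eq_iff_mul_eq_one]; exact e2
    rw [this]; exact (R B).inv_mem hr
  have e5 : P B (g * x₀) (g * p) = P B x₀ p := H.P_rot e4 x₀ p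
  have m1 := H.P_le_h h0 B
  have m2 := H.P_le_h (h0.left H.len hp) B
  have m3 := H.P_le_h (h0.right H.len hp) B
  have e6 := H.P_add_le' hp m1 m2 m3
  have s1 := H.P_le B a₀ b₁
  have s3 := H.P_le B a₁ (g * x₀)
  have t1 := H.P_tri B p a₀ (g * p)
  have t2 := H.P_tri B a₀ b₁ (g * p)
  have t3 := H.P_tri B b₁ a₁ (g * p)
  have t4 := H.P_tri B a₁ (g * x₀) (g * p)
  have e7 : c < P B b₁ a₁ := by omega
  obtain ⟨q, hq, hdq⟩ := H.large_point e7
  obtain ⟨r', hr', hc'⟩ := H.close B p q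
  have e8 := H.dS_lip B p z₁
  have e9 := H.len.ds_tri p a' z₁
  refine ⟨q, hq, r', Subgroup.subset_closure ⟨B, hr'⟩, ?_⟩
  omega

theorem RotSys.poly1 (H : RotSys ℓ D S dS P R c θ h τ) {J : ℕ} (hJ : 28 * θ + 2 * D ≤ J)
    (hτ : h + 8 * J + 40 * θ < τ) {x₀ p a₀ b₁ a₁ g : G} (hp : Btw ℓ x₀ p a₀)
    (h0 : MinP ℓ (Nall R) x₀ a₀) (h1 : MinP ℓ (Nall R) b₁ a₁) (hj1 : ds ℓ a₀ b₁ ≤ J)
    (hj2 : ds ℓ a₁ (g * x₀) ≤ J) (hg : g ∈ Nall R) :
    ∃ q, Btw ℓ b₁ q a₁ ∧ ∃ n ∈ Nall R, ds ℓ p (n * q) ≤ 4 * J + h + 4 * θ + 5 * D := by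
  suffices K : ∀ n : ℕ, ∀ x₀ p a₀ b₁ a₁ g : G, ds ℓ x₀ a₀ + ds ℓ b₁ a₁ < n → Btw ℓ x₀ p a₀ →
      MinP ℓ (Nall R) x₀ a₀ → MinP ℓ (Nall R) b₁ a₁ → ds ℓ a₀ b₁ ≤ J →
      ds ℓ a₁ (g * x₀) ≤ J → g ∈ Nall R →
      ∃ q, Btw ℓ b₁ q a₁ ∧ ∃ n ∈ Nall R, ds ℓ p (n * q) ≤ 4 * J + h + 4 * θ + 5 * D from
    K _ x₀ p a₀ b₁ a₁ g (Nat.lt_succ_self _) hp h0 h1 hj1 hj2 hg
  clear hp h0 h1 hj1 hj2 hg
  intro n
  induction n with
  | zero => intro x₀ p a₀ b₁ a₁ g hn; omega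
  | succ n ih =>
    intro x₀ p a₀ b₁ a₁ g hn hp h0 h1 hj1 hj2 hg
    by_cases hg1 : g = 1
    · subst hg1
      rw [one_mul] at hj2
      obtain ⟨q, hq, hd⟩ := hex1 H.len H.hyp hp hj1 hj2
      refine ⟨q, hq, 1, (Nall R).one_mem, ?_⟩
      rw [one_mul]; omega
    obtain ⟨B, r, hr, hr1, hP, hgp⟩ := H.greendlinger' hg hg1 p
    have hN : (Nall R).Normal := H.Nall_normal
    have hrN : r ∈ Nall R := Subgroup.subset_closure ⟨B, hr⟩
    have hrg : r * g ∈ Nall R := (Nall R).mul_mem hrN hg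
    have hcθ := H.c_le_θ
    have hP' : P B p (r * (g * p)) ≤ 13 * θ := by rw [← mul_assoc]; exact hP
    -- the sizes of the segments
    have f0 : P B p a₀ ≤ h := H.P_le_h (h0.right H.len hp) B
    have f1 : P B a₀ b₁ ≤ J + c := by have := H.P_le B a₀ b₁; omega
    have f2 : P B b₁ a₁ ≤ h := H.P_le_h h1 B
    have f3 : P B a₁ (g * x₀) ≤ J + c := by have := H.P_le B a₁ (g * x₀); omega
    have f4 : P B (g * x₀) (g * p) ≤ h := H.P_le_h ((h0.left H.len hp).smul hN g) B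
    have t1 := H.P_tri B p a₀ (g * p)
    have t2 := H.P_tri B a₀ b₁ (g * p)
    have t3 := H.P_tri B b₁ a₁ (g * p)
    have t4 := H.P_tri B a₁ (g * x₀) (g * p)
    by_cases L0 : c < P B p a₀
    · obtain ⟨z₁, hz₁, hd₁⟩ := exists_z1 H L0
      have hdz := dS_z1 H L0 hz₁ hd₁
      by_cases L4 : c < P B (g * x₀) (g * p)
      · -- case (0, 4)
        obtain ⟨z₂, hz₂, hd₂⟩ := exists_z2 H L4
        have hc := cut5 H hr (a₀ := a₀) (b₁ := b₁) (a₁ := a₁) (gx := g * x₀) (i := 0) (j := 4)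
          (by omega) (by omega) hP' (by intro m hm; omega) (by intro m hm hm'; omega) L0 L4
          hz₁ hd₁ hz₂ hd₂
        have hx : Btw ℓ x₀ (g⁻¹ * z₂) p := by
          rw [← btw_smul_iff (g := g)]
          rwa [mul_inv_cancel_left]
        refine direct_case H hJ hτ hp h0 hj1 hj2 hg hr hrN hgp hz₁ hx (z₁ := z₁) (z₂ := z₂) ?_ ?_
          hc hdz
        · rw [H.len.ds_self]; omega
        · rw [mul_inv_cancel_left, H.len.ds_self]; omega
      · have L2 : c < P B b₁ a₁ := by omega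
        by_cases L3 : c < P B a₁ (g * x₀)
        · -- case (0, 3)
          obtain ⟨z₂, hz₂, hd₂⟩ := exists_z2 H L3
          have hc := cut5 H hr (a₀ := a₀) (b₁ := b₁) (a₁ := a₁) (gx := g * x₀) (i := 0) (j := 3)
            (by omega) (by omega) hP' (by intro m hm; omega)
            (by
              intro m hm hm'
              have : m = 4 := by omega
              subst this
              exact Nat.le_of_not_lt L4) L0 L3
            hz₁ hd₁ hz₂ hd₂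
          refine direct_case H hJ hτ hp h0 hj1 hj2 hg hr hrN hgp hz₁ (H.len.btw_left x₀ p)
            (z₁ := z₁) (z₂ := z₂) ?_ ?_ hc hdz
          · rw [H.len.ds_self]; omega
          · unfold Btw at hz₂; omega
        · -- case (0, 2)
          obtain ⟨z₂, hz₂, hd₂⟩ := exists_z2 H L2
          have hc := cut5 H hr (a₀ := a₀) (b₁ := b₁) (a₁ := a₁) (gx := g * x₀) (i := 0) (j := 2)
            (by omega) (by omega) hP' (by intro m hm; omega)
            (by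
              intro m hm hm'
              have : m = 3 ∨ m = 4 := by omega
              rcases this with rfl | rfl
              · exact Nat.le_of_not_lt L3
              · exact Nat.le_of_not_lt L4) L0 L2
            hz₁ hd₁ hz₂ hd₂
          have hb := hp.trans_left H.len hz₁
          have hlt := H.dS_add_lt L2
          obtain ⟨q', hq', n', hn', hdn⟩ := ih x₀ p z₁ (r * z₂) (r * a₁) (r * g)
            (by
              rw [ds_smul]
              have := hb.2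
              unfold Btw at this
              omega)
            hb.1 (h0.left H.len hb.2) ((h1.right H.len hz₂).smul hN r) (by omega)
            (by rw [mul_assoc, ds_smul]; exact hj2) hrg
          have hq1 : Btw ℓ z₂ (r⁻¹ * q') a₁ := by
            rw [← btw_smul_iff (g := r)]
            rwa [mul_inv_cancel_left]
          refine ⟨r⁻¹ * q', (hz₂.trans_left H.len hq1).2, n' * r, (Nall R).mul_mem hn' hrN, ?_⟩
          rwa [mul_assoc, mul_inv_cancel_left]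
    · have L2 : c < P B b₁ a₁ := by omega
      have L4 : c < P B (g * x₀) (g * p) := by omega
      obtain ⟨z₂, hz₂, hd₂⟩ := exists_z2 H L4
      have hx : Btw ℓ x₀ (g⁻¹ * z₂) p := by
        rw [← btw_smul_iff (g := g)]
        rwa [mul_inv_cancel_left]
      by_cases L1 : c < P B a₀ b₁
      · -- case (1, 4)
        obtain ⟨z₁, hz₁, hd₁⟩ := exists_z1 H L1
        have hdz := dS_z1 H L1 hz₁ hd₁
        have hc := cut5 H hr (a₀ := a₀) (b₁ := b₁) (a₁ := a₁) (gx := g * x₀) (i := 1) (j := 4)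
          (by omega) (by omega) hP'
          (by
            intro m hm
            have : m = 0 := by omega
            subst this
            exact Nat.le_of_not_lt L0) (by intro m hm hm'; omega) L1 L4
          hz₁ hd₁ hz₂ hd₂
        refine direct_case H hJ hτ hp h0 hj1 hj2 hg hr hrN hgp (H.len.btw_right p a₀) hx
          (z₁ := z₁) (z₂ := z₂) ?_ ?_ hc hdz
        · unfold Btw at hz₁; omega
        · rw [mul_inv_cancel_left, H.len.ds_self]; omega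
      · -- case (2, 4)
        obtain ⟨z₁, hz₁, hd₁⟩ := exists_z1 H L2
        have hc := cut5 H hr (a₀ := a₀) (b₁ := b₁) (a₁ := a₁) (gx := g * x₀) (i := 2) (j := 4)
          (by omega) (by omega) hP'
          (by
            intro m hm
            have : m = 0 ∨ m = 1 := by omega
            rcases this with rfl | rfl
            · exact Nat.le_of_not_lt L0
            · exact Nat.le_of_not_lt L1) (by intro m hm hm'; omega) L2 L4
          hz₁ hd₁ hz₂ hd₂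
        have hb := btw_trans_right H.len hp hx
        have hlt := H.dS_add_lt L2
        obtain ⟨q', hq', n', hn', hdn⟩ := ih (g⁻¹ * z₂) p a₀ b₁ z₁ (r * g)
          (by
            have := hb.1
            unfold Btw at this
            omega)
          hb.2 (h0.right H.len hb.1) (h1.left H.len hz₁) hj1
          (by rw [mul_assoc, mul_inv_cancel_left]; omega) hrg
        exact ⟨q', (btw_trans_right H.len hz₁ hq').1, n', hn', hdn⟩

end Mon
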