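import Pool.Agent.Mon.Poly1

/-!
# Project Mon, module Poly2: polygons with two other sides

`J₀ = 28 θ + 2 D ≤ J`, `N = Nall R`.  DATA: `p` between `x₀` and `a₀`, minimal pairs `(x₀, a₀)`, `(b₁, a₁)`,
`(b₂, a₂)`, `ds a₀ b₁ ≤ J`, `ds a₁ b₂ ≤ J`, `ds a₂ (g x₀) ≤ J`, `g ∈ N`.  CLAIM: there is `q` between `b₁` and
`a₁` or between `b₂` and `a₂`, and `n ∈ N` with `ds p (n q) ≤ δ = 8 J + h + 4 θ + 5 D`.
Proof by strong induction on `ds x₀ a₀ + ds b₁ a₁ + ds b₂ a₂`, as for `poly1` (read its header first).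
If `g = 1` use `hex2`.  Let `g ≠ 1`, `B`, `r` from `greendlinger'` (base point `p`).  Vertices
`u = (p, a₀, b₁, a₁, b₂, a₂, g x₀, g p)`, segments `0, ..., 6`; segments `0, 2, 4, 6` are minimal pairs,
`P B ≤ h`; segments `1, 3, 5` have `P B ≤ J + c`.  At least two of the segments `0, 2, 4, 6` are
large: otherwise `P B p (g p) ≤ h + 3 c + 3 (J + c) < τ - 13 θ`.  Let `i` be the first, `j` the last
large segment, `z₁`, `z₂` as in `poly1`, `ds z₁ (r z₂) ≤ J₀`, `g' = r g`.  `(i, j)` is one of the following.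
* `(0,2)`: induction hypothesis for `x₀, p, z₁; r z₂, r a₁; r b₂, r a₂; g'`.
* `(2,4)`: induction hypothesis for `x₀, p, a₀; b₁, z₁; r z₂, r a₂; g'` (`ds (r a₂) (g' x₀) = ds a₂ (g x₀)`).
* `(4,6)`: induction hypothesis for `x' = g⁻¹ z₂, p, a₀; b₁, a₁; b₂, z₁; g'`.
  In these three cases the sum of the lengths decreases (`dS_add_lt`) and all jumps are `≤ J`.
* `(0,3), (0,4), (1,4)`: `poly1` (with `2 J` for `J`) for `x₀, p, a'; b', r a₂; g'` where `a' = z₁` (`i = 0`) or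
  `a₀` (`i = 1`), `b' = r b₂` (`j = 3`) or `r z₂` (`j = 4`): `ds a' b' ≤ J₀ + J ≤ 2 J`.
* `(2,5), (2,6), (3,6)`: `poly1` (with `2 J`) for `x', p, a₀; b₁, a'; g'` where `a' = z₁` (`i = 2`) or `a₁`
  (`i = 3`), `x' = x₀` (`j = 5`) or `g⁻¹ z₂` (`j = 6`): `ds a' (g' x') ≤ J₀ + J ≤ 2 J`.
* `(0,5), (0,6), (1,5), (1,6)`: as in the last case of `poly1`: `a' = z₁` (`i = 0`) or `a₀` (`i = 1`),
  `x' = x₀` (`j = 5`) or `g⁻¹ z₂` (`j = 6`); `direct` with `J' = 3 J` gives `g' = 1`, `ds p a' ≤ 3 J`,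
  `g = r⁻¹`; `P B` of the segments `0` and `6` have sum `≤ h + 2 c`, so `P B b₁ a₁ + P B b₂ a₂ ≥
  τ - 13 θ - (h + 2 c) - 3 (J + c) > 2 c`, one of them is `> c`; `large_point`, `close`.
(Excluded pairs: e.g. `(1,3)`: segments `0, 4, 6` are not large, so only one of `0, 2, 4, 6` is.)
-/

namespace Mon

variable {G ι : Type*} [Group G] [MulAction G ι] {ℓ : G → ℕ} {D : ℕ} {S : ι → Set G}
  {dS : ι → G → ℕ} {P : ι → G → G → ℕ} {R : ι → Subgroup G} {c θ h τ : ℕ}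

/-- The vertices of the polygon as a function. -/
def polyVx7 (a b c d e f g h : G) : ℕ → G
  | 0 => a
  | 1 => b
  | 2 => c
  | 3 => d
  | 4 => e
  | 5 => f
  | 6 => g
  | _ => h

/-- The lemma `cut` together with the existence of the points `z₁`, `z₂`. -/
theorem RotSys.cutEx7 (H : RotSys ℓ D S dS P R c θ h τ) {B : ι} {r : G} (hr : r ∈ R B) {u : ℕ → G}
    {i j : ℕ} (hij : i ≤ j) (hj7 : j < 7) (hP : P B (u 0) (r * u 7) ≤ 13 * θ)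
    (h1 : ∀ m < i, P B (u m) (u (m + 1)) ≤ c) (h2 : ∀ m, j < m → m < 7 → P B (u m) (u (m + 1)) ≤ c)
    (hi : c < P B (u i) (u (i + 1))) (hj : c < P B (u j) (u (j + 1))) :
    ∃ z₁ z₂ : G, Btw ℓ (u i) z₁ (u (i + 1)) ∧ Btw ℓ (u j) z₂ (u (j + 1)) ∧
      ds ℓ (u i) z₁ < ds ℓ (u i) (u (i + 1)) ∧ ds ℓ z₂ (u (j + 1)) < ds ℓ (u j) (u (j + 1)) ∧
      dS B z₁ ≤ 2 * c + D ∧ ds ℓ z₁ (r * z₂) ≤ 28 * θ + 2 * D := by
  have hi' := H.dS_add_lt hi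
  have hj' := H.dS_add_lt hj
  obtain ⟨z₁, hz₁, hd₁⟩ := H.len.exists_btw (u i) (u (i + 1)) (k := dS B (u i)) (by omega)
  obtain ⟨z₂, hz₂, hd₂⟩ := H.len.exists_btw (u j) (u (j + 1))
    (k := ds ℓ (u j) (u (j + 1)) - dS B (u (j + 1))) (by omega)
  have hd₂' : ds ℓ z₂ (u (j + 1)) = dS B (u (j + 1)) := by
    unfold Btw at hz₂
    omega
  have hcut := H.cut hr (k := 7) le_rfl hij hj7 hP h1 h2 hi hj hz₁ hd₁ hz₂ hd₂'
  obtain ⟨q, hq, hqd⟩ := H.dS_att B (u i)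
  have hloc := H.loc hi hz₁ hd₁ hq hqd
  have hq' := H.dS_le B z₁ q hq
  exact ⟨z₁, z₂, hz₁, hz₂, by omega, by omega, by omega, hcut⟩

theorem RotSys.poly2 (H : RotSys ℓ D S dS P R c θ h τ) {J : ℕ} (hJ : 28 * θ + 2 * D ≤ J)
    (hτ : h + 16 * J + 40 * θ < τ) {x₀ p a₀ b₁ a₁ b₂ a₂ g : G} (hp : Btw ℓ x₀ p a₀)
    (h0 : MinP ℓ (Nall R) x₀ a₀) (h1 : MinP ℓ (Nall R) b₁ a₁) (h2 : MinP ℓ (Nall R) b₂ a₂)
    (hj1 : ds ℓ a₀ b₁ ≤ J) (hj2 : ds ℓ a₁ b₂ ≤ J) (hj3 : ds ℓ a₂ (g * x₀) ≤ J)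
    (hg : g ∈ Nall R) :
    ∃ q, (Btw ℓ b₁ q a₁ ∨ Btw ℓ b₂ q a₂) ∧
      ∃ n ∈ Nall R, ds ℓ p (n * q) ≤ 8 * J + h + 4 * θ + 5 * D := by
  suffices HH : ∀ (L : ℕ) (x₀ p a₀ b₁ a₁ b₂ a₂ g : G), Btw ℓ x₀ p a₀ →
      MinP ℓ (Nall R) x₀ a₀ → MinP ℓ (Nall R) b₁ a₁ → MinP ℓ (Nall R) b₂ a₂ →
      ds ℓ a₀ b₁ ≤ J → ds ℓ a₁ b₂ ≤ J → ds ℓ a₂ (g * x₀) ≤ J → g ∈ Nall R →
      ds ℓ x₀ a₀ + ds ℓ b₁ a₁ + ds ℓ b₂ a₂ = L →
      ∃ q, (Btw ℓ b₁ q a₁ ∨ Btw ℓ b₂ q a₂) ∧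
        ∃ n ∈ Nall R, ds ℓ p (n * q) ≤ 8 * J + h + 4 * θ + 5 * D from
    HH _ x₀ p a₀ b₁ a₁ b₂ a₂ g hp h0 h1 h2 hj1 hj2 hj3 hg rfl
  clear hp h0 h1 h2 hj1 hj2 hj3 hg x₀ p a₀ b₁ a₁ b₂ a₂ g
  intro L
  induction L using Nat.strong_induction_on with
  | _ L ih =>
  intro x₀ p a₀ b₁ a₁ b₂ a₂ g hp h0 h1 h2 hj1 hj2 hj3 hg hL
  have hl := H.len
  have hcθ := H.c_le_θ
  have hN := H.Nall_normal
  by_cases hg1 : g = 1
  · subst hg1
    rw [one_mul] at hj3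
    obtain ⟨q, hq, hqd⟩ := hex2 hl H.hyp hp hj1 hj2 hj3
    exact ⟨q, hq, 1, Subgroup.one_mem _, by rw [one_mul]; omega⟩
  obtain ⟨B, r, hr, hr1, hPr, hPg⟩ := H.greendlinger' hg hg1 p
  have hrN : r ∈ Nall R := Subgroup.subset_closure ⟨B, hr⟩
  have hrg : r * g ∈ Nall R := (Nall R).mul_mem hrN hg
  have hginv : g⁻¹ ∈ Nall R := (Nall R).inv_mem hg
  rw [mul_assoc] at hPr
  -- minimal pairs
  have m0l : MinP ℓ (Nall R) x₀ p := h0.left hl hp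
  have m0r : MinP ℓ (Nall R) p a₀ := h0.right hl hp
  have m6 : MinP ℓ (Nall R) (g * x₀) (g * p) := m0l.smul hN g
  have b0 := H.P_le_h m0r B
  have b2 := H.P_le_h h1 B
  have b4 := H.P_le_h h2 B
  have b6 := H.P_le_h m6 B
  have b1 := H.P_le B a₀ b₁
  have b3 := H.P_le B a₁ b₂
  have b5 := H.P_le B a₂ (g * x₀)
  have t1 := H.P_tri B p a₀ (g * p)
  have t2 := H.P_tri B a₀ b₁ (g * p)
  have t3 := H.P_tri B b₁ a₁ (g * p)
  have t4 := H.P_tri B a₁ b₂ (g * p)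
  have t5 := H.P_tri B b₂ a₂ (g * p)
  have t6 := H.P_tri B a₂ (g * x₀) (g * p)
  -- elementary facts
  have sub1 : ∀ {z q : G}, Btw ℓ b₁ z a₁ → Btw ℓ z q a₁ → Btw ℓ b₁ q a₁ :=
    fun hz hq => (hz.trans_left hl hq).2
  have sub1' : ∀ {z q : G}, Btw ℓ b₁ z a₁ → Btw ℓ b₁ q z → Btw ℓ b₁ q a₁ :=
    fun hz hq => ((hz.symm hl).trans_left hl (hq.symm hl)).2.symm hl
  have sub2 : ∀ {z q : G}, Btw ℓ b₂ z a₂ → Btw ℓ z q a₂ → Btw ℓ b₂ q a₂ :=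
    fun hz hq => (hz.trans_left hl hq).2
  have sub2' : ∀ {z q : G}, Btw ℓ b₂ z a₂ → Btw ℓ b₂ q z → Btw ℓ b₂ q a₂ :=
    fun hz hq => ((hz.symm hl).trans_left hl (hq.symm hl)).2.symm hl
  -- translation of the conclusion by `r`
  have back : ∀ {q' n' : G}, n' ∈ Nall R → ds ℓ p (n' * q') ≤ 8 * J + h + 4 * θ + 5 * D →
      ∃ n ∈ Nall R, ds ℓ p (n * (r⁻¹ * q')) ≤ 8 * J + h + 4 * θ + 5 * D := by
    intro q' n' hn' hd
    refine ⟨n' * r, (Nall R).mul_mem hn' hrN, ?_⟩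
    rw [show n' * r * (r⁻¹ * q') = n' * q' by group]
    exact hd
  have unr : ∀ {x q' y : G}, Btw ℓ (r * x) q' (r * y) → Btw ℓ x (r⁻¹ * q') y := by
    intro x q' y hb
    have := hb.smul r⁻¹
    rwa [inv_mul_cancel_left, inv_mul_cancel_left] at this
  have ax0 : ds ℓ (r * a₂) (r * g * x₀) ≤ J := by rw [mul_assoc, ds_smul]; exact hj3
  -- class D
  have clsD : ∀ z₁ z₂ a' x' : G, Btw ℓ p a' a₀ → Btw ℓ x₀ x' p → ds ℓ a' z₁ ≤ J →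
      ds ℓ z₂ (g * x') ≤ J → dS B z₁ ≤ 2 * c + D → ds ℓ z₁ (r * z₂) ≤ 28 * θ + 2 * D →
      ∃ q, (Btw ℓ b₁ q a₁ ∨ Btw ℓ b₂ q a₂) ∧
        ∃ n ∈ Nall R, ds ℓ p (n * q) ≤ 8 * J + h + 4 * θ + 5 * D := by
    intro z₁ z₂ a' x' ha' hx' d1 d2 d3 d4
    have e1 := hl.ds_tri a' z₁ (r * g * x')
    have e2 := hl.ds_tri z₁ (r * z₂) (r * g * x')
    have e3 : ds ℓ (r * z₂) (r * g * x') = ds ℓ z₂ (g * x') := by rw [mul_assoc, ds_smul]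
    obtain ⟨hgg, hpa⟩ := H.direct (J' := 3 * J) hp h0 hx' ha' hrg (by omega) (by omega)
    have hgr : g = r⁻¹ := eq_inv_of_mul_eq_one_right hgg
    have hgB : g ∈ R B := by rw [hgr]; exact (R B).inv_mem hr
    have f1 := H.P_rot hgB x₀ p
    have f2 := H.P_add_le' (A := B) hp (H.P_le_h h0 B) (H.P_le_h m0l B) b0
    have f3 := H.dS_lip B p z₁
    have f4 := hl.ds_tri p a' z₁
    have fin : ∀ q, dS B q ≤ 2 * c + D →
        ∃ n ∈ Nall R, ds ℓ p (n * q) ≤ 8 * J + h + 4 * θ + 5 * D := by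
      intro q hq
      obtain ⟨n, hn, hnd⟩ := H.close B p q
      exact ⟨n, Subgroup.subset_closure ⟨B, hn⟩, by omega⟩
    by_cases g1 : c < P B b₁ a₁
    · obtain ⟨q, hq, hqd⟩ := H.large_point g1
      exact ⟨q, Or.inl hq, fin q hqd⟩
    · have g2 : c < P B b₂ a₂ := by omega
      obtain ⟨q, hq, hqd⟩ := H.large_point g2
      exact ⟨q, Or.inr hq, fin q hqd⟩
  -- class A
  have clsA : ∀ a' b' : G, Btw ℓ p a' a₀ → Btw ℓ b₂ b' a₂ → ds ℓ a' (r * b') ≤ 2 * J →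
      ∃ q, (Btw ℓ b₁ q a₁ ∨ Btw ℓ b₂ q a₂) ∧
        ∃ n ∈ Nall R, ds ℓ p (n * q) ≤ 8 * J + h + 4 * θ + 5 * D := by
    intro a' b' ha' hb' d
    obtain ⟨ha1, ha2⟩ := hp.trans_left hl ha'
    obtain ⟨q', hq', n', hn', hd'⟩ := H.poly1 (J := 2 * J) (by omega) (by omega) ha1
      (h0.left hl ha2) ((h2.right hl hb').smul hN r) d (g := r * g) (by omega) hrg
    exact ⟨r⁻¹ * q', Or.inr (sub2 hb' (unr hq')), back hn' (by omega)⟩
  -- class B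
  have clsB : ∀ a' x' : G, Btw ℓ x₀ x' p → Btw ℓ b₁ a' a₁ → ds ℓ a' (r * g * x') ≤ 2 * J →
      ∃ q, (Btw ℓ b₁ q a₁ ∨ Btw ℓ b₂ q a₂) ∧
        ∃ n ∈ Nall R, ds ℓ p (n * q) ≤ 8 * J + h + 4 * θ + 5 * D := by
    intro a' x' hx' ha' d
    obtain ⟨ha1, ha2⟩ := (hp.symm hl).trans_left hl (hx'.symm hl)
    obtain ⟨q', hq', n', hn', hd'⟩ := H.poly1 (J := 2 * J) (by omega) (by omega) (ha1.symm hl)
      (h0.right hl (ha2.symm hl)) (h1.left hl ha') (by omega) (g := r * g) d hrg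
    exact ⟨q', Or.inl (sub1' ha' hq'), n', hn', by omega⟩
  -- the vertices
  let u : ℕ → G := polyVx7 p a₀ b₁ a₁ b₂ a₂ (g * x₀) (g * p)
  have hPu : P B (u 0) (r * u 7) ≤ 13 * θ := hPr
  have xg : ∀ {z : G}, Btw ℓ (g * x₀) z (g * p) → Btw ℓ x₀ (g⁻¹ * z) p ∧ g * (g⁻¹ * z) = z := by
    intro z hz
    refine ⟨?_, mul_inv_cancel_left g z⟩
    have := hz.smul g⁻¹
    rwa [inv_mul_cancel_left, inv_mul_cancel_left] at this
  by_cases e0 : c < P B p a₀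
  · by_cases e6 : c < P B (g * x₀) (g * p)
    · skip
      obtain ⟨z₁, z₂, k1, k2, k3, k4, k5, k6⟩ := H.cutEx7 hr (u := u) (i := 0) (j := 6) (by omega)
        (by omega) hPu (fun m hm => absurd hm (by omega))
        (fun m hm hm' => absurd hm (by omega)) e0 e6
      replace k1 : Btw ℓ p z₁ a₀ := k1
      replace k2 : Btw ℓ (g * x₀) z₂ (g * p) := k2
      replace k3 : ds ℓ p z₁ < ds ℓ p a₀ := k3
      replace k4 : ds ℓ z₂ (g * p) < ds ℓ (g * x₀) (g * p) := k4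
      have ⟨hx1, hx2⟩ := xg k2
      exact clsD z₁ z₂ z₁ (g⁻¹ * z₂) k1 hx1 (by rw [hl.ds_self]; omega) (by rw [hx2, hl.ds_self]; omega) k5 k6
    by_cases e5 : c < P B a₂ (g * x₀)
    · skip
      obtain ⟨z₁, z₂, k1, k2, k3, k4, k5, k6⟩ := H.cutEx7 hr (u := u) (i := 0) (j := 5) (by omega)
        (by omega) hPu (fun m hm => absurd hm (by omega))
        (by intro m hm hm'; interval_cases m <;> first | exact not_lt.1 e6) e0 e5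
      replace k1 : Btw ℓ p z₁ a₀ := k1
      replace k2 : Btw ℓ a₂ z₂ (g * x₀) := k2
      replace k3 : ds ℓ p z₁ < ds ℓ p a₀ := k3
      replace k4 : ds ℓ z₂ (g * x₀) < ds ℓ a₂ (g * x₀) := k4
      exact clsD z₁ z₂ z₁ x₀ k1 (hl.btw_left _ _) (by rw [hl.ds_self]; omega) (by omega) k5 k6
    by_cases e4 : c < P B b₂ a₂
    · skip
      obtain ⟨z₁, z₂, k1, k2, k3, k4, k5, k6⟩ := H.cutEx7 hr (u := u) (i := 0) (j := 4) (by omega)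
        (by omega) hPu (fun m hm => absurd hm (by omega))
        (by intro m hm hm'; interval_cases m <;> first | exact not_lt.1 e5 | exact not_lt.1 e6) e0 e4
      replace k1 : Btw ℓ p z₁ a₀ := k1
      replace k2 : Btw ℓ b₂ z₂ a₂ := k2
      replace k3 : ds ℓ p z₁ < ds ℓ p a₀ := k3
      replace k4 : ds ℓ z₂ a₂ < ds ℓ b₂ a₂ := k4
      exact clsA z₁ z₂ k1 k2 (by omega)
    by_cases e3 : c < P B a₁ b₂
    · skip
      obtain ⟨z₁, z₂, k1, k2, k3, k4, k5, k6⟩ := H.cutEx7 hr (u := u) (i := 0) (j := 3) (by omega)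
        (by omega) hPu (fun m hm => absurd hm (by omega))
        (by intro m hm hm'; interval_cases m <;> first | exact not_lt.1 e4 | exact not_lt.1 e5 | exact not_lt.1 e6) e0 e3
      replace k1 : Btw ℓ p z₁ a₀ := k1
      replace k2 : Btw ℓ a₁ z₂ b₂ := k2
      replace k3 : ds ℓ p z₁ < ds ℓ p a₀ := k3
      replace k4 : ds ℓ z₂ b₂ < ds ℓ a₁ b₂ := k4
      have w1 := hl.ds_tri z₁ (r * z₂) (r * b₂)
      rw [ds_smul] at w1
      exact clsA z₁ b₂ k1 (hl.btw_left _ _) (by omega)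
    have e2 : c < P B b₁ a₁ := by omega
    obtain ⟨z₁, z₂, k1, k2, k3, k4, k5, k6⟩ := H.cutEx7 hr (u := u) (i := 0) (j := 2) (by omega)
      (by omega) hPu (fun m hm => absurd hm (by omega))
      (by intro m hm hm'; interval_cases m <;> first | exact not_lt.1 e3 | exact not_lt.1 e4 | exact not_lt.1 e5 | exact not_lt.1 e6) e0 e2
    replace k1 : Btw ℓ p z₁ a₀ := k1
    replace k2 : Btw ℓ b₁ z₂ a₁ := k2
    replace k3 : ds ℓ p z₁ < ds ℓ p a₀ := k3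
    replace k4 : ds ℓ z₂ a₁ < ds ℓ b₁ a₁ := k4
    have ⟨y1, y2⟩ := hp.trans_left hl k1
    have y3 := k2.near hl
    have y4 : ds ℓ x₀ z₁ + ds ℓ z₁ a₀ = ds ℓ x₀ a₀ := y2
    obtain ⟨q', hq', n', hn', hd'⟩ := ih (ds ℓ x₀ z₁ + ds ℓ (r * z₂) (r * a₁) + ds ℓ (r * b₂) (r * a₂))
      (by rw [ds_smul, ds_smul]; omega) x₀ p z₁ (r * z₂) (r * a₁) (r * b₂) (r * a₂) (r * g) y1
      (h0.left hl y2) ((h1.right hl k2).smul hN r) (h2.smul hN r) (by omega) (by rw [ds_smul]; exact hj2)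
      ax0 hrg rfl
    refine ⟨r⁻¹ * q', ?_, back hn' hd'⟩
    rcases hq' with hq' | hq'
    · exact Or.inl (sub1 k2 (unr hq'))
    · exact Or.inr (unr hq')
  by_cases e1 : c < P B a₀ b₁
  · by_cases e6 : c < P B (g * x₀) (g * p)
    · skip
      obtain ⟨z₁, z₂, k1, k2, k3, k4, k5, k6⟩ := H.cutEx7 hr (u := u) (i := 1) (j := 6) (by omega)
        (by omega) hPu (by intro m hm; interval_cases m <;> first | exact not_lt.1 e0)
        (fun m hm hm' => absurd hm (by omega)) e1 e6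
      replace k1 : Btw ℓ a₀ z₁ b₁ := k1
      replace k2 : Btw ℓ (g * x₀) z₂ (g * p) := k2
      replace k3 : ds ℓ a₀ z₁ < ds ℓ a₀ b₁ := k3
      replace k4 : ds ℓ z₂ (g * p) < ds ℓ (g * x₀) (g * p) := k4
      have ⟨hx1, hx2⟩ := xg k2
      have w1 : ds ℓ a₀ z₁ + ds ℓ z₁ b₁ = ds ℓ a₀ b₁ := k1
      exact clsD z₁ z₂ a₀ (g⁻¹ * z₂) (hl.btw_right _ _) hx1 (by omega) (by rw [hx2, hl.ds_self]; omega) k5 k6
    by_cases e5 : c < P B a₂ (g * x₀)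
    · skip
      obtain ⟨z₁, z₂, k1, k2, k3, k4, k5, k6⟩ := H.cutEx7 hr (u := u) (i := 1) (j := 5) (by omega)
        (by omega) hPu (by intro m hm; interval_cases m <;> first | exact not_lt.1 e0 | exact not_lt.1 e6)
        (by intro m hm hm'; interval_cases m <;> first | exact not_lt.1 e0 | exact not_lt.1 e6) e1 e5
      replace k1 : Btw ℓ a₀ z₁ b₁ := k1
      replace k2 : Btw ℓ a₂ z₂ (g * x₀) := k2
      replace k3 : ds ℓ a₀ z₁ < ds ℓ a₀ b₁ := k3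
      replace k4 : ds ℓ z₂ (g * x₀) < ds ℓ a₂ (g * x₀) := k4
      have w1 : ds ℓ a₀ z₁ + ds ℓ z₁ b₁ = ds ℓ a₀ b₁ := k1
      exact clsD z₁ z₂ a₀ x₀ (hl.btw_right _ _) (hl.btw_left _ _) (by omega) (by omega) k5 k6
    have e4 : c < P B b₂ a₂ := by omega
    obtain ⟨z₁, z₂, k1, k2, k3, k4, k5, k6⟩ := H.cutEx7 hr (u := u) (i := 1) (j := 4) (by omega)
      (by omega) hPu (by intro m hm; interval_cases m <;> first | exact not_lt.1 e0 | exact not_lt.1 e5 | exact not_lt.1 e6)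
      (by intro m hm hm'; interval_cases m <;> first | exact not_lt.1 e0 | exact not_lt.1 e5 | exact not_lt.1 e6) e1 e4
    replace k1 : Btw ℓ a₀ z₁ b₁ := k1
    replace k2 : Btw ℓ b₂ z₂ a₂ := k2
    replace k3 : ds ℓ a₀ z₁ < ds ℓ a₀ b₁ := k3
    replace k4 : ds ℓ z₂ a₂ < ds ℓ b₂ a₂ := k4
    have w1 := hl.ds_tri a₀ z₁ (r * z₂)
    have w2 : ds ℓ a₀ z₁ + ds ℓ z₁ b₁ = ds ℓ a₀ b₁ := k1
    exact clsA a₀ z₂ (hl.btw_right _ _) k2 (by omega)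
  by_cases e2 : c < P B b₁ a₁
  · by_cases e6 : c < P B (g * x₀) (g * p)
    · skip
      obtain ⟨z₁, z₂, k1, k2, k3, k4, k5, k6⟩ := H.cutEx7 hr (u := u) (i := 2) (j := 6) (by omega)
        (by omega) hPu (by intro m hm; interval_cases m <;> first | exact not_lt.1 e0 | exact not_lt.1 e1)
        (fun m hm hm' => absurd hm (by omega)) e2 e6
      replace k1 : Btw ℓ b₁ z₁ a₁ := k1
      replace k2 : Btw ℓ (g * x₀) z₂ (g * p) := k2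
      replace k3 : ds ℓ b₁ z₁ < ds ℓ b₁ a₁ := k3
      replace k4 : ds ℓ z₂ (g * p) < ds ℓ (g * x₀) (g * p) := k4
      have ⟨hx1, hx2⟩ := xg k2
      exact clsB z₁ (g⁻¹ * z₂) hx1 k1 (by rw [mul_assoc, hx2]; omega)
    by_cases e5 : c < P B a₂ (g * x₀)
    · skip
      obtain ⟨z₁, z₂, k1, k2, k3, k4, k5, k6⟩ := H.cutEx7 hr (u := u) (i := 2) (j := 5) (by omega)
        (by omega) hPu (by intro m hm; interval_cases m <;> first | exact not_lt.1 e0 | exact not_lt.1 e1 | exact not_lt.1 e6)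
        (by intro m hm hm'; interval_cases m <;> first | exact not_lt.1 e0 | exact not_lt.1 e1 | exact not_lt.1 e6) e2 e5
      replace k1 : Btw ℓ b₁ z₁ a₁ := k1
      replace k2 : Btw ℓ a₂ z₂ (g * x₀) := k2
      replace k3 : ds ℓ b₁ z₁ < ds ℓ b₁ a₁ := k3
      replace k4 : ds ℓ z₂ (g * x₀) < ds ℓ a₂ (g * x₀) := k4
      have w1 := hl.ds_tri z₁ (r * z₂) (r * g * x₀)
      rw [mul_assoc, ds_smul] at w1
      exact clsB z₁ x₀ (hl.btw_left _ _) k1 (by rw [mul_assoc]; omega)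
    have e4 : c < P B b₂ a₂ := by omega
    obtain ⟨z₁, z₂, k1, k2, k3, k4, k5, k6⟩ := H.cutEx7 hr (u := u) (i := 2) (j := 4) (by omega)
      (by omega) hPu (by intro m hm; interval_cases m <;> first | exact not_lt.1 e0 | exact not_lt.1 e1 | exact not_lt.1 e5 | exact not_lt.1 e6)
      (by intro m hm hm'; interval_cases m <;> first | exact not_lt.1 e0 | exact not_lt.1 e1 | exact not_lt.1 e5 | exact not_lt.1 e6) e2 e4
    replace k1 : Btw ℓ b₁ z₁ a₁ := k1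
    replace k2 : Btw ℓ b₂ z₂ a₂ := k2
    replace k3 : ds ℓ b₁ z₁ < ds ℓ b₁ a₁ := k3
    replace k4 : ds ℓ z₂ a₂ < ds ℓ b₂ a₂ := k4
    have y1 : ds ℓ b₁ z₁ + ds ℓ z₁ a₁ = ds ℓ b₁ a₁ := k1
    obtain ⟨q', hq', n', hn', hd'⟩ := ih (ds ℓ x₀ a₀ + ds ℓ b₁ z₁ + ds ℓ (r * z₂) (r * a₂))
      (by rw [ds_smul]; omega) x₀ p a₀ b₁ z₁ (r * z₂) (r * a₂) (r * g) hp
      h0 (h1.left hl k1) ((h2.right hl k2).smul hN r) hj1 (by omega)
      ax0 hrg rfl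
    rcases hq' with hq' | hq'
    · exact ⟨q', Or.inl (sub1' k1 hq'), n', hn', hd'⟩
    · exact ⟨r⁻¹ * q', Or.inr (sub2 k2 (unr hq')), back hn' hd'⟩
  have e6 : c < P B (g * x₀) (g * p) := by omega
  by_cases e3 : c < P B a₁ b₂
  · skip
    obtain ⟨z₁, z₂, k1, k2, k3, k4, k5, k6⟩ := H.cutEx7 hr (u := u) (i := 3) (j := 6) (by omega)
      (by omega) hPu (by intro m hm; interval_cases m <;> first | exact not_lt.1 e0 | exact not_lt.1 e1 | exact not_lt.1 e2)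
      (fun m hm hm' => absurd hm (by omega)) e3 e6
    replace k1 : Btw ℓ a₁ z₁ b₂ := k1
    replace k2 : Btw ℓ (g * x₀) z₂ (g * p) := k2
    replace k3 : ds ℓ a₁ z₁ < ds ℓ a₁ b₂ := k3
    replace k4 : ds ℓ z₂ (g * p) < ds ℓ (g * x₀) (g * p) := k4
    have ⟨hx1, hx2⟩ := xg k2
    have w1 := hl.ds_tri a₁ z₁ (r * z₂)
    have w2 : ds ℓ a₁ z₁ + ds ℓ z₁ b₂ = ds ℓ a₁ b₂ := k1
    exact clsB a₁ (g⁻¹ * z₂) hx1 (hl.btw_right _ _) (by rw [mul_assoc, hx2]; omega)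
  have e4 : c < P B b₂ a₂ := by omega
  obtain ⟨z₁, z₂, k1, k2, k3, k4, k5, k6⟩ := H.cutEx7 hr (u := u) (i := 4) (j := 6) (by omega)
    (by omega) hPu (by intro m hm; interval_cases m <;> first | exact not_lt.1 e0 | exact not_lt.1 e1 | exact not_lt.1 e2 | exact not_lt.1 e3)
    (fun m hm hm' => absurd hm (by omega)) e4 e6
  replace k1 : Btw ℓ b₂ z₁ a₂ := k1
  replace k2 : Btw ℓ (g * x₀) z₂ (g * p) := k2
  replace k3 : ds ℓ b₂ z₁ < ds ℓ b₂ a₂ := k3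
  replace k4 : ds ℓ z₂ (g * p) < ds ℓ (g * x₀) (g * p) := k4
  have ⟨hx1, hx2⟩ := xg k2
  obtain ⟨y1, y2⟩ := (hp.symm hl).trans_left hl (hx1.symm hl)
  have y3 : ds ℓ a₀ (g⁻¹ * z₂) + ds ℓ (g⁻¹ * z₂) x₀ = ds ℓ a₀ x₀ := y2
  rw [hl.ds_comm a₀ x₀, hl.ds_comm a₀ (g⁻¹ * z₂)] at y3
  obtain ⟨q', hq', n', hn', hd'⟩ := ih (ds ℓ (g⁻¹ * z₂) a₀ + ds ℓ b₁ a₁ + ds ℓ b₂ z₁)
    (by omega) (g⁻¹ * z₂) p a₀ b₁ a₁ b₂ z₁ (r * g) (y1.symm hl)
    (h0.right hl (y2.symm hl)) h1 (h2.left hl k1) hj1 hj2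
    (by rw [mul_assoc, hx2]; omega) hrg rfl
  rcases hq' with hq' | hq'
  · exact ⟨q', Or.inl hq', n', hn', hd'⟩
  · exact ⟨q', Or.inr (sub2' k1 hq'), n', hn', hd'⟩

end Mon
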