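import Pool.Agent.Mon.Basic

/-!
# Project Mon, module RotBase: elementary facts about rotation systems; the levels

For a base point `x` and `n : ℕ`:
* `Nlev R dS x n` is the subgroup generated by the `R A` with `dS A x < n`;
* `Alev R dS x n` is the set of the `g • A`, `g ∈ Nlev n`, `dS A x < n`;
* the orbit `O_n` is the set of the points `g * x`, `g ∈ Nlev n`;
* `Nall R` is the subgroup generated by all `R A`.

Proofs.
`P_le`: if `c < P A x y` use `pass`.  `dS_smul`: from `S_smul`, `dS_le`, `dS_att`, `ds_smul`.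
`six`: otherwise, by `pass`, `dS A w + P A w b ≤ ds w b + c = dS B w + c ≤ dS A w + c`.
`R_le_Nlev`: for `B = g • A`, `r ∈ R B` one has `g⁻¹ r g ∈ R (g⁻¹ • B) = R A` (`R_smul`).
`le_dS`: if `dS A (g x) < n` then `dS (g⁻¹ • A) x < n` (`dS_smul`), so `A = g • (g⁻¹ • A) ∈ Alev n`.
`NR`: `min` for `B`: for `r ∈ R B ≤ Nlev n` (`R_le_Nlev`), `ds y a ≤ ds (r y) a` by hypothesis.
`loc`: let `z` be on a geodesic from `x` to `y`, with `ds x z = dS A x`.  By `Hyp.P`,
`ds z p + ds z x ≤ ds p x + D` (then `ds z p ≤ D`) or `ds z p + ds z y ≤ ds p y + D`; in the second case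
`ds p y ≤ 0 + P A p y + dS A y` (`upper`, `dS A p = 0`), `P A p y ≤ P A p x + P A x y ≤ c + P A x y`,
`dS A x + P A x y + dS A y ≤ ds x y + c` (`pass`), so `ds z p ≤ 2c + D`.
`near_of_pass`: by `pass` twice and `upper`, `P_tri`: `2 dS A y ≤ t + 2c`.
`overlap`: if `A ≠ B`, with `a, a' ∈ S B` near `x, y`: `P A x y ≤ P A x a + P A a a' + P A a' y`
`≤ (r + c) + θ + (r' + c)`.
-/

namespace Mon

variable {G ι : Type*} [Group G] [MulAction G ι] {ℓ : G → ℕ} {D : ℕ} {S : ι → Set G}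
  {dS : ι → G → ℕ} {P : ι → G → G → ℕ} {R : ι → Subgroup G} {c θ h τ : ℕ}

/-- The subgroup generated by the rotations around the sets of level `< n`. -/
def Nlev (R : ι → Subgroup G) (dS : ι → G → ℕ) (x : G) (n : ℕ) : Subgroup G :=
  Subgroup.closure {g | ∃ A, dS A x < n ∧ g ∈ R A}

/-- The subgroup generated by all rotations. -/
def Nall (R : ι → Subgroup G) : Subgroup G := Subgroup.closure {g | ∃ A, g ∈ R A}

/-- The sets of level `< n`, saturated. -/
def Alev (R : ι → Subgroup G) (dS : ι → G → ℕ) (x : G) (n : ℕ) : Set ι :=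
  {B | ∃ g ∈ Nlev R dS x n, ∃ A, dS A x < n ∧ B = g • A}

namespace RotSys

theorem P_le (H : RotSys ℓ D S dS P R c θ h τ) (A : ι) (x y : G) : P A x y ≤ ds ℓ x y + c := by
  by_contra hh
  have := H.pass A x y (by omega)
  omega

theorem dS_mem (H : RotSys ℓ D S dS P R c θ h τ) {A : ι} {a : G} (ha : a ∈ S A) : dS A a = 0 := by
  have := H.dS_le A a a ha
  rw [H.len.ds_self] at this
  omega

theorem dS_smul (H : RotSys ℓ D S dS P R c θ h τ) (g : G) (A : ι) (x : G) :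
    dS (g • A) (g * x) = dS A x := by
  have key : ∀ (g : G) (A : ι) (x : G), dS (g • A) (g * x) ≤ dS A x := by
    intro g A x
    obtain ⟨a, ha, had⟩ := H.dS_att A x
    have h1 := H.dS_le (g • A) (g * x) (g * a) ((H.S_smul g A a).2 ha)
    rw [ds_smul] at h1
    omega
  refine le_antisymm (key g A x) ?_
  have := key g⁻¹ (g • A) (g * x)
  rwa [inv_smul_smul, inv_mul_cancel_left] at this

/-- `dS` is Lipschitz. -/
theorem dS_lip (H : RotSys ℓ D S dS P R c θ h τ) (A : ι) (x y : G) :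
    dS A x ≤ ds ℓ x y + dS A y := by
  obtain ⟨a, ha, had⟩ := H.dS_att A y
  have h1 := H.dS_le A x a ha
  have h2 := H.len.ds_tri x y a
  omega

theorem six (H : RotSys ℓ D S dS P R c θ h τ) {A B : ι} {w b : G} (hb : ds ℓ w b = dS B w)
    (hle : dS B w ≤ dS A w) : P A w b ≤ c := by
  by_contra hcon
  have := H.pass A w b (by omega)
  omega

theorem Nlev_mono {R : ι → Subgroup G} {dS : ι → G → ℕ} (x : G) {m n : ℕ} (hmn : m ≤ n) :
    Nlev R dS x m ≤ Nlev R dS x n :=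
  Subgroup.closure_mono fun _ ⟨A, hA, hg⟩ => ⟨A, lt_of_lt_of_le hA hmn, hg⟩

/-- The rotation group of the saturated family is in `Nlev`. -/
theorem R_le_Nlev (H : RotSys ℓ D S dS P R c θ h τ) {x : G} {n : ℕ} {B : ι}
    (hB : B ∈ Alev R dS x n) : R B ≤ Nlev R dS x n := by
  obtain ⟨g, hg, A, hA, rfl⟩ := hB
  intro r hr
  have h1 := H.R_smul g⁻¹ (g • A) r hr
  rw [inv_smul_smul, inv_inv] at h1
  have h2 : g⁻¹ * r * g ∈ Nlev R dS x n := Subgroup.subset_closure ⟨A, hA, h1⟩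
  have h3 := mul_mem (mul_mem hg h2) (inv_mem hg)
  rwa [show g * (g⁻¹ * r * g) * g⁻¹ = r by group] at h3

theorem Alev_smul (_H : RotSys ℓ D S dS P R c θ h τ) {x : G} {n : ℕ} {B : ι}
    (hB : B ∈ Alev R dS x n) {g : G} (hg : g ∈ Nlev R dS x n) : g • B ∈ Alev R dS x n := by
  obtain ⟨g₀, hg₀, A, hA, rfl⟩ := hB
  exact ⟨g * g₀, mul_mem hg hg₀, A, hA, (mul_smul g g₀ A).symm⟩

theorem Alev_smul_iff (H : RotSys ℓ D S dS P R c θ h τ) {x : G} {n : ℕ} {B : ι} {g : G}
    (hg : g ∈ Nlev R dS x n) : g • B ∈ Alev R dS x n ↔ B ∈ Alev R dS x n := by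
  refine ⟨fun hB => ?_, fun hB => H.Alev_smul hB hg⟩
  have := H.Alev_smul hB (inv_mem hg)
  rwa [inv_smul_smul] at this

theorem exists_dS_lt (H : RotSys ℓ D S dS P R c θ h τ) {x : G} {n : ℕ} {B : ι}
    (hB : B ∈ Alev R dS x n) : ∃ g ∈ Nlev R dS x n, dS B (g * x) < n := by
  obtain ⟨g, hg, A, hA, rfl⟩ := hB
  exact ⟨g, hg, by rwa [H.dS_smul]⟩

theorem le_dS (H : RotSys ℓ D S dS P R c θ h τ) {x : G} {n : ℕ} {A : ι}
    (hA : A ∉ Alev R dS x n) {g : G} (hg : g ∈ Nlev R dS x n) : n ≤ dS A (g * x) := by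
  by_contra hcon
  refine hA ⟨g, hg, g⁻¹ • A, ?_, (smul_inv_smul g A).symm⟩
  have := H.dS_smul g⁻¹ A (g * x)
  rw [inv_mul_cancel_left] at this
  omega

theorem Alev_mono {R : ι → Subgroup G} {dS : ι → G → ℕ} (x : G) {m n : ℕ} (hmn : m ≤ n) :
    Alev R dS x m ⊆ Alev R dS x n := by
  rintro B ⟨g, hg, A, hA, rfl⟩
  exact ⟨g, Nlev_mono x hmn hg, A, lt_of_lt_of_le hA hmn, rfl⟩

/-- Every element of `Nall` is in some `Nlev`. -/
theorem exists_Nlev {R : ι → Subgroup G} (dS : ι → G → ℕ) (x : G) {g : G} (hg : g ∈ Nall R) :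
    ∃ n, g ∈ Nlev R dS x n := by
  refine Subgroup.closure_induction (p := fun g _ => ∃ n, g ∈ Nlev R dS x n) ?_ ?_ ?_ ?_ hg
  · rintro g ⟨A, hA⟩
    exact ⟨dS A x + 1, Subgroup.subset_closure ⟨A, Nat.lt_succ_self _, hA⟩⟩
  · exact ⟨0, one_mem _⟩
  · rintro g g' - - ⟨m, hm⟩ ⟨n, hn⟩
    exact ⟨max m n, mul_mem (Nlev_mono x (le_max_left _ _) hm) (Nlev_mono x (le_max_right _ _) hn)⟩
  · rintro g - ⟨n, hn⟩
    exact ⟨n, inv_mem hn⟩

theorem Nall_normal (H : RotSys ℓ D S dS P R c θ h τ) : (Nall R).Normal := by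
  constructor
  intro n hn g
  refine Subgroup.closure_induction (p := fun n _ => g * n * g⁻¹ ∈ Nall R) ?_ ?_ ?_ ?_ hn
  · rintro r ⟨A, hA⟩
    exact Subgroup.subset_closure ⟨g • A, H.R_smul g A r hA⟩
  · simp
  · intro a b _ _ ha hb
    have := mul_mem ha hb
    rwa [show g * a * g⁻¹ * (g * b * g⁻¹) = g * (a * b) * g⁻¹ by group] at this
  · intro a _ ha
    have := inv_mem ha
    rwa [show (g * a * g⁻¹)⁻¹ = g * a⁻¹ * g⁻¹ by group] at this

/-- (NR): a point `y` of the orbit which is nearest to the point `a` (among the points of the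
orbit). -/
theorem NR (H : RotSys ℓ D S dS P R c θ h τ) {x : G} {n : ℕ} {y a : G}
    (hy : ∃ g ∈ Nlev R dS x n, y = g * x) (hya : ∀ g ∈ Nlev R dS x n, ds ℓ y a ≤ ds ℓ (g * x) a)
    {B : ι} (hB : B ∈ Alev R dS x n) : P B y a ≤ h := by
  obtain ⟨g, hg, rfl⟩ := hy
  refine H.min B _ _ (fun r hr => ?_)
  have := hya (r * g) (mul_mem (H.R_le_Nlev hB hr) hg)
  rwa [mul_assoc r g x] at this

theorem loc (H : RotSys ℓ D S dS P R c θ h τ) {A : ι} {x y z p : G} (hP : c < P A x y)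
    (hz : Btw ℓ x z y) (hd : ds ℓ x z = dS A x) (hp : p ∈ S A) (hxp : ds ℓ x p = dS A x) :
    ds ℓ z p ≤ 2 * c + D := by
  have h1 := H.pass A x y hP
  have h2 := H.upper A p y
  have h3 := H.P_tri A p x y
  have h4 := H.P_near A x p hp hxp
  rw [H.P_comm A x p] at h4
  have h5 := H.dS_mem hp
  have h6 := H.hyp.P H.len hz p
  rw [H.len.ds_comm z x, H.len.ds_comm p x] at h6
  unfold Btw at hz
  omega

/-- If `c < P A x y` then both distances to the set are at most `ds x y`, with the sum. -/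
theorem dS_add_lt (H : RotSys ℓ D S dS P R c θ h τ) {A : ι} {x y : G} (hP : c < P A x y) :
    dS A x + dS A y < ds ℓ x y := by
  have := H.pass A x y hP
  omega

theorem near_of_pass (H : RotSys ℓ D S dS P R c θ h τ) {A : ι} {x y z : G} {t : ℕ}
    (h1 : c < P A x y) (h2 : c < P A y z) (h3 : ds ℓ x y + ds ℓ y z ≤ ds ℓ x z + t) :
    2 * dS A y ≤ t + 2 * c := by
  have h4 := H.pass A x y h1
  have h5 := H.pass A y z h2
  have h6 := H.upper A x z
  have h7 := H.P_tri A x y z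
  omega

/-- Coarse additivity along a geodesic. -/
theorem P_add_le (H : RotSys ℓ D S dS P R c θ h τ) {A : ι} {x y z : G} (hb : Btw ℓ x y z) :
    P A x y ≤ P A x z + 2 * c ∧ P A y z ≤ P A x z + 2 * c := by
  unfold Btw at hb
  have h6 := H.upper A x z
  have t1 := H.P_tri A x z y
  have t2 := H.P_tri A y x z
  rw [H.P_comm A z y] at t1
  rw [H.P_comm A y x] at t2
  by_cases h1 : c < P A x y
  · by_cases h2 : c < P A y z
    · have h4 := H.pass A x y h1
      have h5 := H.pass A y z h2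
      omega
    · omega
  · omega

theorem P_add_le' (H : RotSys ℓ D S dS P R c θ h τ) {A : ι} {x y z : G} (hb : Btw ℓ x y z)
    (hh : P A x z ≤ h) (h1 : P A x y ≤ h) (h2 : P A y z ≤ h) : P A x y + P A y z ≤ h + 2 * c := by
  unfold Btw at hb
  have h6 := H.upper A x z
  by_cases h3 : c < P A x y
  · by_cases h4 : c < P A y z
    · have h4 := H.pass A x y h3
      have h5 := H.pass A y z (by assumption)
      omega
    · omega
  · omega

theorem overlap (H : RotSys ℓ D S dS P R c θ h τ) {A B : ι} {x y : G} {r r' : ℕ}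
    (hx : dS B x ≤ r) (hy : dS B y ≤ r') (hP : r + r' + 2 * c + θ < P A x y) : A = B := by
  by_contra hne
  obtain ⟨a, ha, had⟩ := H.dS_att B x
  obtain ⟨b, hb, hbd⟩ := H.dS_att B y
  have h1 := H.diam A B hne a ha b hb
  have h2 := H.P_le A x a
  have h3 := H.P_le A y b
  have t1 := H.P_tri A x a y
  have t2 := H.P_tri A a b y
  rw [H.P_comm A b y] at t2
  omega

end RotSys

end Mon
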