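import Pool.Agent.Mon.RotBase

/-!
# Project Mon, module RotD: the step `Gr n → Dd n` of the Greendlinger lemma

`Gr R dS P θ x n`: for every `g ≠ 1` of `Nlev n` there are `B ∈ Alev n` and `r ∈ R B`, `r ≠ 1`, such that
`P B x (r g x) ≤ 13 θ`.

`gr_pair`: apply this to `g⁻¹ g'` and translate by `g`: with `B' = g • B`, `r' = g r g⁻¹ ∈ R B'`
(`R_smul`, `Alev_smul`) we get `P B' (g x) (r' g' x) ≤ 13 θ` (`P_smul`), and
`τ ≤ P B' (g' x) (r' g' x)` (`rot`).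

PROOF OF `dd`.  The orbit is `O = {g x | g ∈ Nlev n}`.  `A ∉ Alev n`, `y ∈ O` is nearest to `S A`.
Suppose `z ∈ O` and `P A y z > 5 θ`.
(a) Let `a₀ ∈ S A` be a nearest point of `y`.  For `B ∈ Alev n`: `P B y a₀ ≤ h` by `NR` (for `g` in the
group, `ds y a₀ = dS A y ≤ dS A (g x) ≤ ds (g x) a₀`).  As `A ≠ B`, `P B y a ≤ h + θ` for all `a ∈ S A`
(`diam`).
(b) Let `w ∈ O` with `P A y w > 2 θ` (so `w ≠ y`, as `P A y y ≤ c ≤ θ`).  By `gr_pair` there is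
`B ∈ Alev n` with `P B y w ≥ τ - 13 θ`.  Let `a ∈ S A`, `b ∈ S B`.  Behrstock (`beh A B`) for the points
`y` and `w`: `P A y b ≤ θ ∨ P B y a ≤ θ` and `P A w b ≤ θ ∨ P B w a ≤ θ`.
Not (`P A y b ≤ θ` and `P A w b ≤ θ`) as `P A y w > 2 θ`; not (`P B y a ≤ θ` and `P B w a ≤ θ`) as
`P B y w > 2 θ`; not `P B w a ≤ θ` (it would give `P B y a ≥ τ - 14 θ > h + θ`).  So for all `a ∈ S A`,
`b ∈ S B`: `P B y a ≤ θ`, `P A w b ≤ θ`, `P B a w ≥ τ - 14 θ`.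
(c) Let `𝓑` be the set of the `B ∈ Alev n` with `P B a z ≥ 2 θ + 1` for all `a ∈ S A`.  By (b) for `w = z`
it is non-empty.  Choose `B ∈ 𝓑`, `a₁ ∈ S A`, `b₁ ∈ S B` with `ds a₁ b₁` minimal (among all
`B ∈ 𝓑`, `a ∈ S A`, `b ∈ S B`).
(d) Let `w₀ ∈ O` be a point of `O` nearest to `S B` (`dS B w₀` minimal), and let `w = r w₀`, `r ∈ R B`
(so `dS B w = dS B w₀`, `w ∈ O`), such that `ds w a₁` is minimal among the `r w₀`.  By `min`,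
`P B w a₁ ≤ h`.  Let `b₀ ∈ S B` be a nearest point of `w`.
(e) `dS B w < n ≤ dS A w` (`exists_dS_lt`, `le_dS`), so `P A w b₀ ≤ c` by `six`.
Behrstock at `z`: `P A z b₀ ≤ θ ∨ P B z a₁ ≤ θ`, the second is false as `B ∈ 𝓑`.  So
`P A y w ≥ P A y z - P A z b₀ - P A b₀ w > 5 θ - θ - c ≥ 3 θ`.  So (b) applies to `w`: there is
`B' ∈ Alev n` with `P B' y a ≤ θ`, `P A w b' ≤ θ`, `P B' a w ≥ τ - 14 θ` for all `a ∈ S A`, `b' ∈ S B'`.
(f) `B' ≠ B`, as `P B a₁ w ≤ h < τ - 14 θ`.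
(g) `w` is a point of the orbit nearest to `b₀` (for `g` in the group,
`ds w b₀ = dS B w ≤ dS B (g x) ≤ ds (g x) b₀`), so by `NR` `P B' w b₀ ≤ h`, and `P B' w b ≤ h + θ` for all
`b ∈ S B`.  So `P B' a b ≥ τ - 15 θ - h > θ` for all `a ∈ S A`, `b ∈ S B`.
(h) `B' ∈ 𝓑`: let `a ∈ S A`; let `b' ∈ S B'`, `b ∈ S B`.  `beh B B'` at the point `a`:
`P B a b' ≤ θ ∨ P B' a b ≤ θ`, the second is false.  So `P B z b' ≥ P B a z - P B a b' ≥ θ + 1`.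
`beh B B'` at the point `z`: `P B z b' ≤ θ ∨ P B' z b ≤ θ`, so `P B' z b ≤ θ`, and
`P B' a z ≥ P B' a b - P B' b z ≥ τ - 16 θ - h ≥ 2 θ + 1`.
(i) `P B' a₁ b₁ > c`, so by `pass` `dS B' a₁ + P B' a₁ b₁ ≤ ds a₁ b₁ + c`, `dS B' a₁ < ds a₁ b₁`, and
`dS B' a₁ = ds a₁ b'` for some `b' ∈ S B'`: a contradiction to the choice of `B, a₁, b₁`.
-/

namespace Mon

variable {G ι : Type*} [Group G] [MulAction G ι] {ℓ : G → ℕ} {D : ℕ} {S : ι → Set G}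
  {dS : ι → G → ℕ} {P : ι → G → G → ℕ} {R : ι → Subgroup G} {c θ h τ : ℕ}

/-- The Greendlinger property of level `n`. -/
def Gr (R : ι → Subgroup G) (dS : ι → G → ℕ) (P : ι → G → G → ℕ) (θ : ℕ) (x : G) (n : ℕ) : Prop :=
  ∀ g ∈ Nlev R dS x n, g ≠ 1 → ∃ B ∈ Alev R dS x n, ∃ r ∈ R B, r ≠ 1 ∧ P B x (r * g * x) ≤ 13 * θ

namespace RotSys

theorem gr_pair (H : RotSys ℓ D S dS P R c θ h τ) {x : G} {n : ℕ} (hG : Gr R dS P θ x n)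
    {g g' : G} (hg : g ∈ Nlev R dS x n) (hg' : g' ∈ Nlev R dS x n) (hne : g ≠ g') :
    ∃ B ∈ Alev R dS x n, τ ≤ P B (g * x) (g' * x) + 13 * θ := by
  obtain ⟨B, hB, r, hr, hr1, hP⟩ := hG (g⁻¹ * g') (mul_mem (inv_mem hg) hg')
    (fun h0 => hne (inv_mul_eq_one.1 h0))
  refine ⟨g • B, H.Alev_smul hB hg, ?_⟩
  have h1 := H.P_smul g B x (r * (g⁻¹ * g') * x)
  have h2 : g * (r * (g⁻¹ * g') * x) = (g * r * g⁻¹) * (g' * x) := by group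
  rw [h2] at h1
  have h3 := H.rot (g • B) (g * r * g⁻¹) (H.R_smul g B r hr)
    (fun h0 => hr1 (by simpa using h0)) (g' * x)
  have h4 := H.P_tri (g • B) (g' * x) (g * x) (g * r * g⁻¹ * (g' * x))
  rw [H.P_comm (g • B) (g' * x) (g * x)] at h4
  omega

/-- Step (b) of the header. -/
theorem far_case (H : RotSys ℓ D S dS P R c θ h τ) {x : G} {n : ℕ} (hG : Gr R dS P θ x n) {A : ι}
    (hA : A ∉ Alev R dS x n) {g : G} (hg : g ∈ Nlev R dS x n)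
    (hnear : ∀ B ∈ Alev R dS x n, ∀ a ∈ S A, P B (g * x) a ≤ h + θ) {g₁ : G}
    (hg₁ : g₁ ∈ Nlev R dS x n) (hfar : 2 * θ < P A (g * x) (g₁ * x)) :
    ∃ B ∈ Alev R dS x n, ∀ a ∈ S A, ∀ b ∈ S B, P B (g * x) a ≤ θ ∧ P A (g₁ * x) b ≤ θ ∧
      τ ≤ P B a (g₁ * x) + 14 * θ := by
  have hc := H.c_le_θ
  have hbig := H.big
  have hne : g ≠ g₁ := by
    rintro rfl
    have := H.P_self A (g * x)
    omega
  obtain ⟨B, hB, hP⟩ := H.gr_pair hG hg hg₁ hne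
  refine ⟨B, hB, fun a ha b hb => ?_⟩
  have hAB : A ≠ B := fun h0 => hA (h0 ▸ hB)
  have h1 := H.beh A B hAB a ha b hb (g * x)
  have h2 := H.beh A B hAB a ha b hb (g₁ * x)
  have h3 := hnear B hB a ha
  have t1 := H.P_tri A (g * x) b (g₁ * x)
  rw [H.P_comm A b (g₁ * x)] at t1
  have t2 := H.P_tri B (g * x) a (g₁ * x)
  rw [H.P_comm B a (g₁ * x)] at t2 ⊢
  have h4 : ¬ P B (g₁ * x) a ≤ θ := by
    intro h5
    omega
  have h5 : P A (g₁ * x) b ≤ θ := by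
    rcases h2 with h2 | h2
    · exact h2
    · exact absurd h2 h4
  have h6 : P B (g * x) a ≤ θ := by
    rcases h1 with h1 | h1
    · omega
    · exact h1
  refine ⟨h6, h5, by omega⟩

theorem dd (H : RotSys ℓ D S dS P R c θ h τ) {x : G} {n : ℕ} (hG : Gr R dS P θ x n) {A : ι}
    (hA : A ∉ Alev R dS x n) {g : G} (hg : g ∈ Nlev R dS x n)
    (hmin : ∀ g' ∈ Nlev R dS x n, dS A (g * x) ≤ dS A (g' * x)) {g₁ : G}
    (hg₁ : g₁ ∈ Nlev R dS x n) : P A (g * x) (g₁ * x) ≤ 5 * θ := by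
  by_contra hcon
  have hc := H.c_le_θ
  have hch := H.c_le_h
  have hbig := H.big
  -- (a)
  obtain ⟨a₀, ha₀, ha₀d⟩ := H.dS_att A (g * x)
  have hnear : ∀ B ∈ Alev R dS x n, ∀ a ∈ S A, P B (g * x) a ≤ h + θ := by
    intro B hB a ha
    have h1 : P B (g * x) a₀ ≤ h := by
      refine H.NR ⟨g, hg, rfl⟩ (fun g' hg' => ?_) hB
      have h2 := hmin g' hg'
      have h3 := H.dS_le A (g' * x) a₀ ha₀
      omega
    have hAB : B ≠ A := fun h0 => hA (h0 ▸ hB)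
    have h2 := H.diam B A hAB a₀ ha₀ a ha
    have h3 := H.P_tri B (g * x) a₀ a
    omega
  have hfar := fun (g₂ : G) (hg₂ : g₂ ∈ Nlev R dS x n) (hf : 2 * θ < P A (g * x) (g₂ * x)) =>
    H.far_case hG hA hg hnear hg₂ hf
  -- (c)
  have hex : ∃ k : ℕ, ∃ B ∈ Alev R dS x n, ∃ a ∈ S A, ∃ b ∈ S B,
      (∀ a' ∈ S A, 2 * θ + 1 ≤ P B a' (g₁ * x)) ∧ ds ℓ a b = k := by
    obtain ⟨B, hB, hBp⟩ := hfar g₁ hg₁ (by omega)
    obtain ⟨b, hb, -⟩ := H.dS_att B x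
    refine ⟨_, B, hB, a₀, ha₀, b, hb, fun a' ha' => ?_, rfl⟩
    have := (hBp a' ha' b hb).2.2
    omega
  classical
  obtain ⟨B, hB, a₁, ha₁, b₁, hb₁, hBB, hk⟩ := Nat.find_spec hex
  have hmink : ∀ B' ∈ Alev R dS x n, ∀ a ∈ S A, ∀ b ∈ S B',
      (∀ a' ∈ S A, 2 * θ + 1 ≤ P B' a' (g₁ * x)) → ds ℓ a₁ b₁ ≤ ds ℓ a b := by
    intro B' hB' a ha b hb hB''
    rw [hk]
    exact Nat.find_min' hex ⟨B', hB', a, ha, b, hb, hB'', rfl⟩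
  have hAB : A ≠ B := fun h0 => hA (h0 ▸ hB)
  -- (d)
  have hex2 : ∃ k : ℕ, ∃ g₂ ∈ Nlev R dS x n, dS B (g₂ * x) = k := ⟨_, g, hg, rfl⟩
  obtain ⟨g₂, hg₂, hk₂⟩ := Nat.find_spec hex2
  have hmin₂ : ∀ g' ∈ Nlev R dS x n, dS B (g₂ * x) ≤ dS B (g' * x) := by
    intro g' hg'
    rw [hk₂]
    exact Nat.find_min' hex2 ⟨g', hg', rfl⟩
  have hex3 : ∃ k : ℕ, ∃ r ∈ R B, ds ℓ (r * (g₂ * x)) a₁ = k := ⟨_, 1, one_mem _, rfl⟩
  obtain ⟨r, hr, hk₃⟩ := Nat.find_spec hex3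
  have hmin₃ : ∀ r' ∈ R B, ds ℓ (r * (g₂ * x)) a₁ ≤ ds ℓ (r' * (g₂ * x)) a₁ := by
    intro r' hr'
    rw [hk₃]
    exact Nat.find_min' hex3 ⟨r', hr', rfl⟩
  have hw₀ : r * g₂ ∈ Nlev R dS x n := mul_mem (H.R_le_Nlev hB hr) hg₂
  set w := r * g₂ * x with hw
  have hw' : w = r * (g₂ * x) := by rw [hw, mul_assoc]
  have hPw : P B w a₁ ≤ h := by
    refine H.min B w a₁ (fun r' hr' => ?_)
    have h1 := hmin₃ (r' * r) (mul_mem hr' hr)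
    rw [mul_assoc r' r] at h1
    rw [hw']
    exact h1
  have hdSw : dS B w = dS B (g₂ * x) := by
    have := H.dS_smul r B (g₂ * x)
    rwa [H.R_fix B r hr, ← hw'] at this
  obtain ⟨b₀, hb₀, hb₀d⟩ := H.dS_att B w
  -- (e)
  have hlt : dS B w < n := by
    obtain ⟨g₃, hg₃, hlt⟩ := H.exists_dS_lt hB
    have := hmin₂ g₃ hg₃
    omega
  have hle : n ≤ dS A w := H.le_dS hA hw₀
  have hsix : P A w b₀ ≤ c := H.six hb₀d (by omega)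
  have hz : P A (g₁ * x) b₀ ≤ θ := by
    rcases H.beh A B hAB a₁ ha₁ b₀ hb₀ (g₁ * x) with h1 | h1
    · exact h1
    · have h2 := hBB a₁ ha₁
      rw [H.P_comm] at h2
      omega
  have hyw : 2 * θ < P A (g * x) w := by
    have t1 := H.P_tri A (g * x) w (g₁ * x)
    have t2 := H.P_tri A w b₀ (g₁ * x)
    rw [H.P_comm A b₀ (g₁ * x)] at t2
    omega
  obtain ⟨B', hB', hBp⟩ := hfar (r * g₂) hw₀ hyw
  rw [← hw] at hBp
  obtain ⟨b₂, hb₂, -⟩ := H.dS_att B' x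
  -- (f)
  have hne : B ≠ B' := by
    rintro rfl
    have h1 := (hBp a₁ ha₁ b₂ hb₂).2.2
    rw [H.P_comm] at h1
    omega
  -- (g)
  have hg1 : ∀ b ∈ S B, P B' w b ≤ h + θ := by
    intro b hb
    have h1 : P B' w b₀ ≤ h := by
      refine H.NR ⟨r * g₂, hw₀, rfl⟩ (fun g' hg' => ?_) hB'
      have h2 := hmin₂ g' hg'
      have h3 := H.dS_le B (g' * x) b₀ hb₀
      rw [← hw]
      omega
    have h2 := H.diam B' B (Ne.symm hne) b₀ hb₀ b hb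
    have h3 := H.P_tri B' w b₀ b
    omega
  have hg2 : ∀ a ∈ S A, ∀ b ∈ S B, τ ≤ P B' a b + 15 * θ + h := by
    intro a ha b hb
    have h1 := (hBp a ha b₂ hb₂).2.2
    have h2 := hg1 b hb
    have h3 := H.P_tri B' a b w
    rw [H.P_comm B' b w] at h3
    omega
  -- (h)
  have hB'B : ∀ a' ∈ S A, 2 * θ + 1 ≤ P B' a' (g₁ * x) := by
    intro a ha
    have h1 := hg2 a ha b₀ hb₀
    have h2 : P B a b₂ ≤ θ := by
      rcases H.beh B B' hne b₀ hb₀ b₂ hb₂ a with h2 | h2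
      · exact h2
      · omega
    have h3 := hBB a ha
    have h4 := H.P_tri B a b₂ (g₁ * x)
    have h5 : P B' (g₁ * x) b₀ ≤ θ := by
      rcases H.beh B B' hne b₀ hb₀ b₂ hb₂ (g₁ * x) with h5 | h5
      · rw [H.P_comm] at h5
        omega
      · exact h5
    have h6 := H.P_tri B' a (g₁ * x) b₀
    omega
  -- (i)
  have h1 := hg2 a₁ ha₁ b₁ hb₁
  have h2 := H.pass B' a₁ b₁ (by omega)
  obtain ⟨b₃, hb₃, hb₃d⟩ := H.dS_att B' a₁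
  have h3 := hmink B' hB' a₁ ha₁ b₃ hb₃ hB'B
  omega

/-- The projection of the orbit to a set which is not in `Alev n` has diameter at most `10 θ`. -/
theorem dd2 (H : RotSys ℓ D S dS P R c θ h τ) {x : G} {n : ℕ} (hG : Gr R dS P θ x n) {A : ι}
    (hA : A ∉ Alev R dS x n) {g g' : G} (hg : g ∈ Nlev R dS x n) (hg' : g' ∈ Nlev R dS x n) :
    P A (g * x) (g' * x) ≤ 10 * θ := by
  classical
  have hex : ∃ k : ℕ, ∃ g₂ ∈ Nlev R dS x n, dS A (g₂ * x) = k := ⟨_, g, hg, rfl⟩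
  obtain ⟨g₂, hg₂, hk₂⟩ := Nat.find_spec hex
  have hmin₂ : ∀ g' ∈ Nlev R dS x n, dS A (g₂ * x) ≤ dS A (g' * x) := by
    intro g' hg'
    rw [hk₂]
    exact Nat.find_min' hex ⟨g', hg', rfl⟩
  have h1 := H.dd hG hA hg₂ hmin₂ hg
  have h2 := H.dd hG hA hg₂ hmin₂ hg'
  have h3 := H.P_tri A (g * x) (g₂ * x) (g' * x)
  rw [H.P_comm A (g * x) (g₂ * x)] at h3
  omega

end RotSys

end Mon
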