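import Pool.Agent.Mon.RotD

/-!
# Project Mon, module RotG: the step `Gr n → Gr (n + 1)`, and the Greendlinger lemma (Theorem A)

PROOF OF `gr_succ`.  `O = {g x | g ∈ Nlev n}` is the orbit.  Let `Λ` be the set of the `B ∉ Alev n` such that
`dS B (g x) = n` for some `g ∈ Nlev n` (it is invariant under `Nlev n`: `Alev_smul_iff`, `dS_smul`).
(a) Let `B₁ ≠ B₂` be in `Λ`, `u ∈ O`, `b ∈ S B₂`.  Then `P B₁ u b ≤ 12 θ`: let `u' ∈ O` with
`dS B₂ u' = n`, `b' ∈ S B₂` with `ds u' b' = n`; `n ≤ dS B₁ u'` (`le_dS`), so `P B₁ u' b' ≤ c` (`six`);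
`P B₁ u u' ≤ 10 θ` (`dd2`), `P B₁ b' b ≤ θ` (`diam`).
(b) A list `l` of pairs `(B, s)` is admissible if `B ∈ Λ`, `s ∈ R B`, `s ≠ 1` for all its members and
neighbours have different first components.
CLAIM: let `l` be admissible, `B₁ ∈ Λ` different from the first component of the head of `l` (if `l ≠ []`).
Then `P B₁ u (prod l * t * x) ≤ 13 θ` for all `u ∈ O`, `t ∈ Nlev n` (`prod l` is the product of the second
components).  Induction on `l`.  `l = []`: `dd2`.  `l = (B₂, s₂) :: l'`: put `z = prod l * t * x = s₂ z'`,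
`z' = prod l' * t * x`.  Let `b₁ ∈ S B₁`, `b₂ ∈ S B₂`.  `τ ≤ P B₂ z' (s₂ z')` (`rot`),
`P B₂ u z' ≤ 13 θ` (induction, `l'` and `B₂` satisfy the hypotheses), `P B₂ u b₁ ≤ 12 θ` by (a), so
`P B₂ z b₁ ≥ τ - 25 θ > θ`.  By `beh`, `P B₁ z b₂ ≤ θ`, and `P B₁ u b₂ ≤ 12 θ` by (a).  So
`P B₁ u z ≤ 13 θ`.
(c) Every `g ∈ Nlev (n + 1)` is `prod l * t` with `l` admissible, `t ∈ Nlev n`.  The set `X` of these
elements contains `1` and is stable under left multiplication by `t' ∈ Nlev n` (conjugate the members of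
`l`: `(B, s) ↦ (t' • B, t' s t'⁻¹)`) and by `r ∈ R A`, `A ∈ Λ`: if `r = 1` nothing changes; if `l = []` or the
head of `l` has first component `≠ A` use `(A, r) :: l`; if `l = (A, s) :: l'` use `l'` if `r s = 1` and
`(A, r s) :: l'` otherwise.  A generator `r ∈ R A`, `dS A x < n + 1`: if `A ∈ Alev n` then `r ∈ Nlev n`
(`R_le_Nlev`), otherwise `n ≤ dS A x` (`le_dS` for `g = 1`), so `dS A x = n` and `A ∈ Λ`.  Use
`Subgroup.closure_induction_left` or a similar principle (the generating set is closed under inverses).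
(d) Let `g ∈ Nlev (n + 1)`, `g ≠ 1`, `g = prod l * t`.  If `l = []` use `Gr n` and `Alev_mono`.  If
`l = (B, s) :: l'` take `r = s⁻¹ ∈ R B`: `r g x = prod l' * t * x`, so `P B x (r g x) ≤ 13 θ` by (b)
(with `u = x`); `B ∈ Alev (n + 1)`: `dS B (g₀ x) = n` for some `g₀ ∈ Nlev n`, so `B = g₀ • (g₀⁻¹ • B)`,
`dS (g₀⁻¹ • B) x = n < n + 1`.

PROOF OF `greendlinger`.  `Gr 0` is trivial (`Nlev 0 = 1`); by induction `Gr n` holds for all `n`; use
`exists_Nlev`.
-/

namespace Mon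

variable {G ι : Type*} [Group G] [MulAction G ι] {ℓ : G → ℕ} {D : ℕ} {S : ι → Set G}
  {dS : ι → G → ℕ} {P : ι → G → G → ℕ} {R : ι → Subgroup G} {c θ h τ : ℕ}

namespace RotSys

/-- The sets of level exactly `n` which are not in `Alev n`. -/
private def Lam (R : ι → Subgroup G) (dS : ι → G → ℕ) (x : G) (n : ℕ) (B : ι) : Prop :=
  B ∉ Alev R dS x n ∧ ∃ g ∈ Nlev R dS x n, dS B (g * x) = n

/-- Products of rotations with different neighbours. -/
private inductive W (R : ι → Subgroup G) (dS : ι → G → ℕ) (x : G) (n : ℕ) : Option ι → G → Prop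
  | base (t : G) (ht : t ∈ Nlev R dS x n) : W R dS x n none t
  | cons (B : ι) (s : G) (o : Option ι) (z : G) (hB : Lam R dS x n B) (hs : s ∈ R B)
      (hs1 : s ≠ 1) (hz : W R dS x n o z) (ho : o ≠ some B) : W R dS x n (some B) (s * z)

private theorem a12 (H : RotSys ℓ D S dS P R c θ h τ) {x : G} {n : ℕ}
    (hG : Gr R dS P θ x n) {B₁ B₂ : ι} (h1 : Lam R dS x n B₁) (h2 : Lam R dS x n B₂)
    (hne : B₁ ≠ B₂) {g : G} (hg : g ∈ Nlev R dS x n) {b : G} (hb : b ∈ S B₂) :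
    P B₁ (g * x) b ≤ 12 * θ := by
  obtain ⟨g', hg', hd⟩ := h2.2
  obtain ⟨b', hb', hbd⟩ := H.dS_att B₂ (g' * x)
  have h3 := H.le_dS h1.1 hg'
  have h4 := H.six (A := B₁) hbd (by omega)
  have h5 := H.dd2 hG h1.1 hg hg'
  have h6 := H.diam B₁ B₂ hne b' hb' b hb
  have h7 := H.P_tri B₁ (g * x) (g' * x) b
  have h8 := H.P_tri B₁ (g' * x) b' b
  have := H.c_le_θ
  omega

private theorem w13 (H : RotSys ℓ D S dS P R c θ h τ) {x : G} {n : ℕ}
    (hG : Gr R dS P θ x n) {o : Option ι} {z : G} (hz : W R dS x n o z) :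
    ∀ B₁, Lam R dS x n B₁ → o ≠ some B₁ → ∀ g ∈ Nlev R dS x n, P B₁ (g * x) (z * x) ≤ 13 * θ := by
  induction hz with
  | base t ht =>
    intro B₁ h1 _ g hg
    have := H.dd2 hG h1.1 hg ht
    omega
  | cons B s o z hB hs hs1 hz ho ih =>
    intro B₁ h1 hne g hg
    have hne' : B₁ ≠ B := fun e => hne (by rw [e])
    obtain ⟨b₁, hb₁, -⟩ := H.dS_att B₁ x
    obtain ⟨b₂, hb₂, -⟩ := H.dS_att B x
    have h2 := H.rot B s hs hs1 (z * x)
    have h3 := ih B hB ho g hg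
    have h4 := a12 H hG hB h1 (Ne.symm hne') hg hb₁
    have h5 := a12 H hG h1 hB hne' hg hb₂
    have h6 := H.beh B₁ B hne' b₁ hb₁ b₂ hb₂ (s * (z * x))
    have h7 := H.P_tri B (z * x) (g * x) (s * (z * x))
    have h8 := H.P_tri B (g * x) b₁ (s * (z * x))
    have h9 := H.P_comm B (z * x) (g * x)
    have h10 := H.P_comm B b₁ (s * (z * x))
    have h11 := H.P_tri B₁ (g * x) b₂ (s * (z * x))
    have h12 := H.P_comm B₁ b₂ (s * (z * x))
    have h13 := H.big
    rw [mul_assoc]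
    omega

private theorem lam_smul (H : RotSys ℓ D S dS P R c θ h τ) {x : G} {n : ℕ} {B : ι}
    (hB : Lam R dS x n B) {t : G} (ht : t ∈ Nlev R dS x n) : Lam R dS x n (t • B) := by
  obtain ⟨h1, g, hg, hd⟩ := hB
  refine ⟨fun h2 => h1 ((H.Alev_smul_iff ht).1 h2), t * g, mul_mem ht hg, ?_⟩
  rw [mul_assoc, H.dS_smul, hd]

private theorem w_left (H : RotSys ℓ D S dS P R c θ h τ) {x : G} {n : ℕ}
    {o : Option ι} {z : G} (hz : W R dS x n o z) {t : G} (ht : t ∈ Nlev R dS x n) :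
    W R dS x n (o.map (fun B => t • B)) (t * z) := by
  induction hz with
  | base t' ht' => exact W.base _ (mul_mem ht ht')
  | cons B s o z hB hs hs1 hz ho ih =>
    have h1 : t * (s * z) = (t * s * t⁻¹) * (t * z) := by group
    rw [h1]
    refine W.cons (t • B) _ _ _ (lam_smul H hB ht) (H.R_smul t B s hs) ?_ ih ?_
    · intro e
      apply hs1
      have : s = t⁻¹ * (t * s * t⁻¹) * t := by group
      rw [this, e]
      group
    · intro e
      cases o with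
      | none => simp at e
      | some B' =>
        simp only [Option.map_some, Option.some.injEq, smul_left_cancel_iff] at e
        exact ho (by rw [e])

private theorem w_rot {x : G} {n : ℕ}
    {o : Option ι} {z : G} (hz : W R dS x n o z) {A : ι} (hA : Lam R dS x n A) {r : G}
    (hr : r ∈ R A) : ∃ o', W R dS x n o' (r * z) := by
  classical
  by_cases hr1 : r = 1
  · exact ⟨o, by rw [hr1, one_mul]; exact hz⟩
  by_cases ho : o = some A
  · cases hz with
    | base t ht => simp at ho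
    | cons B s o z hB hs hs1 hz ho' =>
      simp only [Option.some.injEq] at ho
      subst ho
      by_cases h1 : r * s = 1
      · refine ⟨o, ?_⟩
        rw [← mul_assoc, h1, one_mul]
        exact hz
      · refine ⟨some B, ?_⟩
        rw [← mul_assoc]
        exact W.cons B _ _ _ hB (mul_mem hr hs) h1 hz ho'
  · exact ⟨some A, W.cons A r o z hA hr hr1 hz ho⟩

private theorem w_gen (H : RotSys ℓ D S dS P R c θ h τ) {x : G} {n : ℕ}
    {A : ι} (hA : dS A x < n + 1) {r : G} (hr : r ∈ R A) {o : Option ι} {z : G}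
    (hz : W R dS x n o z) : ∃ o', W R dS x n o' (r * z) := by
  by_cases h1 : A ∈ Alev R dS x n
  · exact ⟨_, w_left H hz (H.R_le_Nlev h1 hr)⟩
  · have h2 := H.le_dS h1 (one_mem (Nlev R dS x n))
    have h3 : dS A (1 * x) = n := by
      rw [one_mul] at h2 ⊢
      omega
    exact w_rot hz ⟨h1, 1, one_mem _, h3⟩ hr

private theorem w_all (H : RotSys ℓ D S dS P R c θ h τ) {x : G} {n : ℕ}
    {g : G} (hg : g ∈ Nlev R dS x (n + 1)) : ∃ o, W R dS x n o g := by
  have key : ∀ o z, W R dS x n o z →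
      (∃ o', W R dS x n o' (g * z)) ∧ (∃ o', W R dS x n o' (g⁻¹ * z)) := by
    refine Subgroup.closure_induction (p := fun g _ => ∀ o z, W R dS x n o z →
      (∃ o', W R dS x n o' (g * z)) ∧ (∃ o', W R dS x n o' (g⁻¹ * z))) ?_ ?_ ?_ ?_ hg
    · rintro r ⟨A, hA, hr⟩ o z hz
      exact ⟨w_gen H hA hr hz, w_gen H hA (inv_mem hr) hz⟩
    · intro o z hz
      refine ⟨⟨o, ?_⟩, ⟨o, ?_⟩⟩
      · rw [one_mul]; exact hz
      · rw [inv_one, one_mul]; exact hz
    · intro g₁ g₂ _ _ ih1 ih2 o z hz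
      constructor
      · obtain ⟨o', ho'⟩ := (ih2 o z hz).1
        obtain ⟨o'', ho''⟩ := (ih1 o' _ ho').1
        exact ⟨o'', by rw [mul_assoc]; exact ho''⟩
      · obtain ⟨o', ho'⟩ := (ih1 o z hz).2
        obtain ⟨o'', ho''⟩ := (ih2 o' _ ho').2
        exact ⟨o'', by rw [mul_inv_rev, mul_assoc]; exact ho''⟩
    · intro g₁ _ ih o z hz
      refine ⟨(ih o z hz).2, ?_⟩
      rw [inv_inv]
      exact (ih o z hz).1
  obtain ⟨o, ho⟩ := (key none 1 (W.base 1 (one_mem _))).1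
  exact ⟨o, by rw [mul_one] at ho; exact ho⟩

theorem gr_succ (H : RotSys ℓ D S dS P R c θ h τ) {x : G} {n : ℕ} (hG : Gr R dS P θ x n) :
    Gr R dS P θ x (n + 1) := by
  intro g hg hg1
  obtain ⟨o, ho⟩ := w_all H hg
  cases ho with
  | base t ht =>
    obtain ⟨B, hB, r, hr, hr1, hP⟩ := hG g ht hg1
    exact ⟨B, Alev_mono x (Nat.le_succ n) hB, r, hr, hr1, hP⟩
  | cons B s o z hB hs hs1 hz ho' =>
    refine ⟨B, ?_, s⁻¹, inv_mem hs, inv_ne_one.2 hs1, ?_⟩
    · obtain ⟨-, g₀, hg₀, hd⟩ := hB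
      refine ⟨g₀, Nlev_mono x (Nat.le_succ n) hg₀, g₀⁻¹ • B, ?_, ?_⟩
      · have h1 := H.dS_smul g₀ (g₀⁻¹ • B) x
        rw [smul_inv_smul] at h1
        omega
      · rw [smul_inv_smul]
    · have h1 := w13 H hG hz B hB ho' 1 (one_mem _)
      rw [one_mul] at h1
      have h2 : s⁻¹ * (s * z) * x = z * x := by group
      rw [h2]
      exact h1

theorem gr_zero (H : RotSys ℓ D S dS P R c θ h τ) (x : G) : Gr R dS P θ x 0 := by
  intro g hg hg1
  exfalso
  apply hg1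
  have h1 : Nlev R dS x 0 = ⊥ := by
    unfold Nlev
    have : {g | ∃ A, dS A x < 0 ∧ g ∈ R A} = (∅ : Set G) := by
      ext g
      simp
    rw [this, Subgroup.closure_empty]
  rw [h1] at hg
  exact Subgroup.mem_bot.1 hg

/-- THEOREM A (Greendlinger lemma). -/
theorem greendlinger (H : RotSys ℓ D S dS P R c θ h τ) {g : G} (hg : g ∈ Nall R) (h1 : g ≠ 1)
    (x : G) : ∃ B, ∃ r ∈ R B, r ≠ 1 ∧ P B x (r * g * x) ≤ 13 * θ := by
  have hall : ∀ n, Gr R dS P θ x n := by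
    intro n
    induction n with
    | zero => exact H.gr_zero x
    | succ n ih => exact H.gr_succ ih
  obtain ⟨n, hn⟩ := exists_Nlev dS x hg
  obtain ⟨B, -, r, hr, hr1, hP⟩ := hall n g hn h1
  exact ⟨B, r, hr, hr1, hP⟩

/-- The consequence for the distance. -/
theorem greendlinger' (H : RotSys ℓ D S dS P R c θ h τ) {g : G} (hg : g ∈ Nall R) (h1 : g ≠ 1)
    (x : G) : ∃ B, ∃ r ∈ R B, r ≠ 1 ∧ P B x (r * g * x) ≤ 13 * θ ∧ τ ≤ P B x (g * x) + 13 * θ := by
  obtain ⟨B, r, hr, hr1, hP⟩ := H.greendlinger hg h1 x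
  refine ⟨B, r, hr, hr1, hP, ?_⟩
  have h2 := H.rot B r hr hr1 (g * x)
  have h3 := H.P_tri B (g * x) x (r * (g * x))
  rw [← mul_assoc] at h2 h3
  rw [H.P_comm B (g * x) x] at h3
  omega

/-- Injectivity radius: `g ∈ Nall R`, `g ≠ 1` has length more than `h + 20 θ`. -/
theorem length_gt (H : RotSys ℓ D S dS P R c θ h τ) {g : G} (hg : g ∈ Nall R) (h1 : g ≠ 1)
    (x : G) : τ ≤ ds ℓ x (g * x) + c + 13 * θ := by
  obtain ⟨B, r, hr, hr1, hP, h2⟩ := H.greendlinger' hg h1 x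
  have := H.P_le B x (g * x)
  omega

end RotSys

end Mon
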