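import Pool.Agent.Mon.Basic

/-!
# Project Mon, module SlimHyp: slim triangles imply the four point condition

Proof.  Let `a = 2 δ + 2`.
CLAIM.  Let `γ : ℕ → G` be a geodesic from `x` to `z` of length `L = ds x z` (`exists_path`:
`ds (γ i) (γ j) = j - i`), and let `w` be a point.  There is `i ≤ L` with
`ds x (γ i) + ds (γ i) w ≤ ds x w + a` and `ds w (γ i) + ds (γ i) z ≤ ds w z + a`.
Every `γ i` is between `x` and `z`, so by `Slim` (for the triangle `x, z, w`) it is within `δ` of a point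
`q` between `z` and `w` or of a point between `w` and `x`.  `γ 0 = x` is within `δ` of the second kind
(`q = x`), `γ L = z` is within `δ` of the first kind.  Let `i` be the least index such that `γ i` is within
`δ` of a point `q₁` between `z` and `w`.  If `i = 0` take `q₂ = x`; otherwise `γ (i - 1)` is within `δ` of a
point `q₂` between `w` and `x`, so `ds (γ i) q₂ ≤ δ + 1`.  Then
`ds w x = ds w q₂ + ds q₂ x ≥ ds w (γ i) + ds (γ i) x - 2 (δ + 1)` and similarly for `z` with `q₁`.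
THEOREM.  Let `x, y, z, t` be given.  Use a geodesic `γ` from `x` to `z`, the claim for `w = y` (index `i`) and
`w = t` (index `j`).  `ds y t ≤ ds y (γ i) + |i - j| + ds (γ j) t`.  If `i ≤ j`:
`ds x z + ds y t ≤ L + ds y (γ i) + (j - i) + ds (γ j) t`,
`ds x t + ds y z ≥ (j + ds (γ j) t - a) + (ds y (γ i) + (L - i) - a)`.  So
`ds x z + ds y t ≤ ds x t + ds y z + 2a`.  If `j ≤ i` symmetrically `≤ ds x y + ds z t + 2a`.
-/

namespace Mon

variable {G : Type*} [Group G] {ℓ : G → ℕ}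

private theorem slim_claim {δ : ℕ} (hS : Slim ℓ δ) (hl : IsLen ℓ) {x z : G} {γ : ℕ → G}
    (h0 : γ 0 = x) (hL : γ (ds ℓ x z) = z)
    (hγ : ∀ i j, i ≤ j → j ≤ ds ℓ x z → ds ℓ (γ i) (γ j) = j - i) (w : G) :
    ∃ i, i ≤ ds ℓ x z ∧ i + ds ℓ (γ i) w ≤ ds ℓ x w + (2 * δ + 2) ∧
      ds ℓ w (γ i) + (ds ℓ x z - i) ≤ ds ℓ w z + (2 * δ + 2) := by
  classical
  have hex : ∃ i, ∃ q, Btw ℓ z q w ∧ ds ℓ (γ i) q ≤ δ := by
    refine ⟨ds ℓ x z, z, hl.btw_left z w, ?_⟩
    rw [hL, hl.ds_self]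
    omega
  have hspec := Nat.find_spec hex
  have hmin : ∀ {m}, m < Nat.find hex → ¬ ∃ q, Btw ℓ z q w ∧ ds ℓ (γ m) q ≤ δ :=
    fun h => Nat.find_min hex h
  have hle : Nat.find hex ≤ ds ℓ x z := by
    apply Nat.find_min' hex
    refine ⟨z, hl.btw_left z w, ?_⟩
    rw [hL, hl.ds_self]
    omega
  revert hspec hmin hle
  generalize Nat.find hex = i
  intro hspec hmin hle
  obtain ⟨q₁, hq₁, hd₁⟩ := hspec
  have hx : ds ℓ x (γ i) = i := by
    have h := hγ 0 i (Nat.zero_le _) hle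
    rw [h0] at h
    omega
  have hz : ds ℓ (γ i) z = ds ℓ x z - i := by
    have h := hγ i (ds ℓ x z) hle le_rfl
    rw [hL] at h
    exact h
  refine ⟨i, hle, ?_, ?_⟩
  · rcases Nat.eq_zero_or_pos i with hi | hi
    · rw [hi, h0]
      omega
    · have hb : Btw ℓ x (γ (i - 1)) z := by
        unfold Btw
        have h1 := hγ 0 (i - 1) (Nat.zero_le _) (by omega)
        have h2 := hγ (i - 1) (ds ℓ x z) (by omega) le_rfl
        rw [h0] at h1
        rw [hL] at h2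
        rw [h1, h2]
        omega
      obtain ⟨q₂, hq₂, hd₂⟩ := hS x z w (γ (i - 1)) hb
      have hq₂' : Btw ℓ w q₂ x := by
        rcases hq₂ with h | h
        · exact absurd ⟨q₂, h, hd₂⟩ (hmin (by omega))
        · exact h
      have h3 := hγ (i - 1) i (by omega) hle
      have h4 := hl.ds_tri (γ i) (γ (i - 1)) q₂
      rw [hl.ds_comm (γ i) (γ (i - 1))] at h4
      have h5 := hl.ds_tri (γ i) q₂ w
      have h6 := hl.ds_tri x q₂ (γ i)
      have h6' := hl.ds_tri x (γ i) q₂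
      have h6'' := hl.ds_comm q₂ (γ i)
      have h7 : ds ℓ w q₂ + ds ℓ q₂ x = ds ℓ w x := hq₂'
      rw [hl.ds_comm w q₂, hl.ds_comm q₂ x, hl.ds_comm w x] at h7
      omega
  · have h1 := hl.ds_tri w q₁ (γ i)
    have h2 := hl.ds_tri (γ i) q₁ z
    have h3 : ds ℓ z q₁ + ds ℓ q₁ w = ds ℓ z w := hq₁
    rw [hl.ds_comm z q₁, hl.ds_comm q₁ w, hl.ds_comm z w] at h3
    have h4 := hl.ds_comm q₁ (γ i)
    omega

theorem Slim.hyp {δ : ℕ} (hS : Slim ℓ δ) (hl : IsLen ℓ) : Hyp ℓ (4 * δ + 4) := by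
  intro x y z t
  obtain ⟨γ, h0, hL, hγ⟩ := hl.exists_path x z
  obtain ⟨i, hi, hi1, hi2⟩ := slim_claim hS hl h0 hL hγ y
  obtain ⟨j, hj, hj1, hj2⟩ := slim_claim hS hl h0 hL hγ t
  have h1 := hl.ds_tri y (γ i) t
  have h2 := hl.ds_tri (γ i) (γ j) t
  have h3 := hl.ds_comm y (γ i)
  have h4 := hl.ds_comm t (γ j)
  have h5 := hl.ds_comm z t
  rcases le_total i j with hij | hij
  · have h6 := hγ i j hij hj
    have h7 : ds ℓ x z + ds ℓ y t ≤ ds ℓ x t + ds ℓ y z + (4 * δ + 4) := by omega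
    exact h7.trans (Nat.add_le_add_right (le_max_right _ _) _)
  · have h6 := hγ j i hij hi
    rw [hl.ds_comm (γ j) (γ i)] at h6
    have h7 : ds ℓ x z + ds ℓ y t ≤ ds ℓ x y + ds ℓ z t + (4 * δ + 4) := by omega
    exact h7.trans (Nat.add_le_add_right (le_max_left _ _) _)

end Mon
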