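import Pool.Agent.Mon.Poly2
import Pool.Agent.Mon.SlimHyp

/-!
# Project Mon, module ThmB: the quotient is hyperbolic (Theorem B)

Proof.  `N = Nall R`, `J = 28 θ + 2 D`.  By `Slim.hyp` (and `IsQuot.isLen`) it is enough to prove
`Slim ℓ' δ` for `δ = 8 J + h + 4 θ + 5 D`.  Let `p'` be between `x'` and `y'`.  Choose `x₀` with
`π x₀ = x'`, `p` with `π p = p'`, `ds x₀ p = ds' x' p'` (`lift`), `a₀` with `π a₀ = y'`, `ds p a₀ = ds' p' y'`.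
Then `ds x₀ a₀ ≤ ds' x' p' + ds' p' y' = ds' x' y' ≤ ds x₀ a₀` (`ds_le`), so `p` is between `x₀` and `a₀`, and
`(x₀, a₀)` is a minimal pair (`minP_iff`).  Let `b₁ = a₀`, `a₁` with `π a₁ = z'`, `ds b₁ a₁ = ds' y' z'`,
`b₂ = a₁`, `a₂` with `π a₂ = x'`, `ds b₂ a₂ = ds' z' x'`; these are minimal pairs.  `g = a₂ x₀⁻¹ ∈ N`,
`a₂ = g x₀`.  Apply `poly2`: `q` between `b₁` and `a₁` (or `b₂` and `a₂`), `n ∈ N`,
`ds p (n q) ≤ δ`.  `π q` is between `y'` and `z'`: `ds' y' (π q) + ds' (π q) z' ≤ ds b₁ q + ds q a₁ = ds b₁ a₁ =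
ds' y' z'`, and `ds' p' (π q) = ds' (π p) (π (n q)) ≤ δ`.
-/

namespace Mon

variable {G G' ι : Type*} [Group G] [Group G'] [MulAction G ι] {ℓ : G → ℕ} {ℓ' : G' → ℕ}
  {π : G →* G'} {D : ℕ} {S : ι → Set G} {dS : ι → G → ℕ} {P : ι → G → G → ℕ}
  {R : ι → Subgroup G} {c θ h τ : ℕ}

omit [MulAction G ι] in
private theorem btw_quot (hl' : IsLen ℓ') (hq : IsQuot π ℓ ℓ') {u q v : G} (hb : Btw ℓ u q v)
    (hd : ds ℓ u v = ds ℓ' (π u) (π v)) : Btw ℓ' (π u) (π q) (π v) := by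
  have h1 := hq.ds_le u q
  have h2 := hq.ds_le q v
  have h3 := hl'.ds_tri (π u) (π q) (π v)
  unfold Btw at *
  omega

/-- THEOREM B. -/
theorem RotSys.hyp_quot (H : RotSys ℓ D S dS P R c θ h τ) (hτ : h + 500 * θ + 32 * D < τ)
    (hq : IsQuot π ℓ ℓ') (hk : ∀ x, π x = 1 ↔ x ∈ Nall R) : ∃ D', Hyp ℓ' D' := by
  have hl' := hq.isLen H.len
  refine ⟨_, Slim.hyp (δ := 8 * (28 * θ + 2 * D) + h + 4 * θ + 5 * D) ?_ hl'⟩
  intro x' y' z' p' hp'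
  obtain ⟨x₀, rfl, -⟩ := hq.att x'
  obtain ⟨p, rfl, hpd⟩ := hq.lift x₀ p'
  obtain ⟨a₀, rfl, ha₀d⟩ := hq.lift p y'
  obtain ⟨a₁, rfl, ha₁d⟩ := hq.lift a₀ z'
  obtain ⟨a₂, ha₂, ha₂d⟩ := hq.lift a₁ (π x₀)
  have e0 : ds ℓ x₀ a₀ = ds ℓ' (π x₀) (π a₀) := by
    have h1 := hq.ds_le x₀ a₀
    have h2 := H.len.ds_tri x₀ p a₀
    unfold Btw at hp'
    omega
  have hp : Btw ℓ x₀ p a₀ := by
    unfold Btw at *
    omega
  have m0 : MinP ℓ (Nall R) x₀ a₀ := (hq.minP_iff hk _ _).2 e0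
  have m1 : MinP ℓ (Nall R) a₀ a₁ := (hq.minP_iff hk _ _).2 ha₁d
  rw [← ha₂] at ha₂d
  have m2 : MinP ℓ (Nall R) a₁ a₂ := (hq.minP_iff hk _ _).2 ha₂d
  have hg : a₂ * x₀⁻¹ ∈ Nall R := by
    rw [← hk, map_mul, map_inv, ha₂, mul_inv_cancel]
  obtain ⟨q, hqb, n, hn, hd⟩ := H.poly2 (J := 28 * θ + 2 * D) le_rfl (by omega) hp m0 m1 m2
    (by rw [H.len.ds_self]; omega) (by rw [H.len.ds_self]; omega)
    (by rw [inv_mul_cancel_right, H.len.ds_self]; omega) hg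
  refine ⟨π q, ?_, ?_⟩
  · rcases hqb with hb | hb
    · exact Or.inl (btw_quot hl' hq hb ha₁d)
    · right
      rw [← ha₂]
      exact btw_quot hl' hq hb ha₂d
  · have h1 := hq.ds_le p (n * q)
    rw [map_mul, (hk n).2 hn, one_mul] at h1
    omega

end Mon
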