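import Pool.Agent.Mon.StepA
import Pool.Agent.Mon.ThmB
import Pool.Agent.Mon.FQ2
import Pool.Agent.Mon.Elem

/-!
# Project Mon, module Step: one step of the construction

`Cls N`: `N` is invariant under the permutations of the letters, `F ⧸ N` is hyperbolic without
involutions, and the centralisers of the non-trivial elements of finite order are finite.

PROOF OF `step`.  `G = F ⧸ N`, `ℓ = qlen N`, `HypGrp ℓ D` by `isLen_qlen`, `up_qlen`, `fin_qlen`.
If `v` has finite order in `G` take `N' = N` (for the last statement `b' = b`).  Otherwise let `w` be as in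
`HypGrp.maximal` (`v ∈ ⟨w⟩`), `f n = ℓ (wⁿ)`, `QL f e`, `Unb f` (`HypGrp.lox`), `W = {permQ σ w}`.  `AxHyp`:
the automorphisms `permQ σ` preserve `ℓ`, so `f_eq`; `me`, `norev` are transported by the automorphisms.
Let `e₀` be as in `HypGrp.unif_ql`, `c, θ` from `AxHyp.system`,
`K = 500 θ + 32 D + 16 e₀ + 4 (ρ + f 1 + 2 D + 1) + 2`, `p > N₀ (K)` an odd prime, `h, τ` with
`h + K < τ`.  Let `R = axR W p`, `M = Nall R` (a normal subgroup of `G`, `Nall_normal`), `N'` its preimage in `F`.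
* `N ≤ N'`; `N'` is normal; `PInv N'`: `M` is mapped to itself by `permQ σ` (`permQ σ` maps the generators
  `x = y^p`, `y ∈ cj g ⟨w'⟩`, to `(permQ σ y)^p`, `permQ σ y ∈ cj (permQ σ g) ⟨permQ σ w'⟩`).
* `π = piQ N N'`, `IsQuot` (`isQuot_piQ`), kernel `M`.
* `Hyp (qlen N') D'` by `hyp_quot`; `noinv`, `cent` by `quot_noinv`, `quot_cent`.
* `v ∈ ⟨w⟩` in `G`, so `v^p ∈ M`.
* if `norm V ≤ ρ`, `V ∈ N'`: the class `g` of `V` in `G` is in `M`, `ℓ g ≤ ρ`, so `g = 1` by `inj_radius`.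
* if `norm a ≤ ρ`, `[a, b] ∈ N'`: `centralizer_quot` gives `b'` with the same image as `b` in `F ⧸ N'`
  which commutes with `a` in `G`.
-/

namespace Mon

/-- The class of the normal subgroups. -/
structure Cls (N : Subgroup (FreeGroup ℕ)) [N.Normal] : Prop where
  inv : PInv N
  hyp : ∃ D, Hyp (qlen N) D
  noinv : ∀ g : FreeGroup ℕ ⧸ N, g * g = 1 → g = 1
  cent : ∀ g : FreeGroup ℕ ⧸ N, IsOfFinOrder g → g ≠ 1 →
    {x : FreeGroup ℕ ⧸ N | x * g = g * x}.Finite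

/-- The orbit of an element under the automorphisms satisfies the axis hypotheses. -/
theorem axHyp_orbit (N : Subgroup (FreeGroup ℕ)) [N.Normal] (hN : PInv N) {D : ℕ}
    (hG : HypGrp (qlen N) D) {w : FreeGroup ℕ ⧸ N} {e : ℕ}
    (hQL : QL (fun n => qlen N (w ^ n)) e) (hUnb : Unb (fun n => qlen N (w ^ n)))
    (me : ∀ s : ℕ, 0 < s → ∀ g, g * w ^ s = w ^ s * g → g ∈ Subgroup.zpowers w)
    (norev : ∀ g, g * w * g⁻¹ ≠ w⁻¹) :
    AxHyp (qlen N) D (Set.range fun σ => permQ N hN σ w) (fun n => qlen N (w ^ n)) e where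
  len := hG.len
  hyp := hG.hyp
  up := hG.up
  ne := Set.range_nonempty _
  f_eq := by
    rintro _ ⟨σ, rfl⟩ n
    show qlen N (permQ N hN σ w ^ n) = _
    rw [← map_pow, qlen_permQ]
  ql := hQL
  unb := hUnb
  me := by
    rintro _ ⟨σ, rfl⟩ s hs g hg
    have h1 : (permQ N hN σ).symm g * w ^ s = w ^ s * (permQ N hN σ).symm g := by
      have := congrArg (permQ N hN σ).symm hg
      simpa [map_mul, map_pow] using this
    have h2 := me s hs _ h1
    obtain ⟨k, hk⟩ := Subgroup.mem_zpowers_iff.1 h2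
    refine Subgroup.mem_zpowers_iff.2 ⟨k, ?_⟩
    show permQ N hN σ w ^ k = g
    rw [← map_zpow, hk]
    simp
  norev := by
    rintro _ ⟨σ, rfl⟩ g hg
    apply norev ((permQ N hN σ).symm g)
    have := congrArg (permQ N hN σ).symm hg
    simpa [map_mul, map_inv] using this

/-- The subgroup generated by the powers is invariant under the automorphisms. -/
theorem nall_inv (N : Subgroup (FreeGroup ℕ)) [N.Normal] (hN : PInv N) {w : FreeGroup ℕ ⧸ N}
    (p : ℕ) (σ : Equiv.Perm ℕ) {x : FreeGroup ℕ ⧸ N}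
    (hx : x ∈ Nall (axR (Set.range fun σ => permQ N hN σ w) p)) :
    permQ N hN σ x ∈ Nall (axR (Set.range fun σ => permQ N hN σ w) p) := by
  set W : Set (FreeGroup ℕ ⧸ N) := Set.range fun σ => permQ N hN σ w with hW
  have hle : Nall (axR W p) ≤ (Nall (axR W p)).comap (permQ N hN σ).toMonoidHom := by
    unfold Nall
    rw [Subgroup.closure_le]
    rintro g ⟨A, hA⟩
    obtain ⟨y, hy, rfl⟩ := (mem_axR W p A).1 hA
    obtain ⟨g0, w0, hw0, hC⟩ := A.2
    obtain ⟨σ0, rfl⟩ := hw0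
    have hmem : permQ N hN (σ * σ0) w ∈ W := ⟨σ * σ0, rfl⟩
    let A' : Ax W := ⟨cj (permQ N hN σ g0) (Subgroup.zpowers (permQ N hN (σ * σ0) w)),
      ⟨_, _, hmem, rfl⟩⟩
    apply Subgroup.subset_closure
    refine ⟨A', (mem_axR W p A').2 ⟨permQ N hN σ y, ?_, ?_⟩⟩
    · show permQ N hN σ y ∈ cj (permQ N hN σ g0) (Subgroup.zpowers (permQ N hN (σ * σ0) w))
      rw [hC, mem_cj] at hy
      obtain ⟨k, hk⟩ := Subgroup.mem_zpowers_iff.1 hy
      rw [mem_cj]
      refine Subgroup.mem_zpowers_iff.2 ⟨k, ?_⟩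
      rw [permQ_mul, ← map_zpow, ← map_inv, ← map_mul, ← map_mul, ← hk]
    · show (permQ N hN σ).toMonoidHom (y ^ p) = _
      rw [map_pow]
      rfl
  exact hle hx

theorem step (N : Subgroup (FreeGroup ℕ)) [N.Normal] (hN : Cls N) (v : FreeGroup ℕ) (ρ : ℕ) :
    ∃ (N' : Subgroup (FreeGroup ℕ)) (_ : N'.Normal), N ≤ N' ∧ Cls N' ∧
      (∃ k : ℕ, 0 < k ∧ v ^ k ∈ N') ∧ (∀ V : FreeGroup ℕ, V.norm ≤ ρ → V ∈ N' → V ∈ N) ∧
      ∀ a b : FreeGroup ℕ, a.norm ≤ ρ → a * b * a⁻¹ * b⁻¹ ∈ N' →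
        ∃ b' : FreeGroup ℕ, b'⁻¹ * b ∈ N' ∧ a * b' * a⁻¹ * b'⁻¹ ∈ N := by
  classical
  by_cases hfin : ∃ k : ℕ, 0 < k ∧ v ^ k ∈ N
  · exact ⟨N, inferInstance, le_rfl, hN, hfin, fun V _ hV => hV,
      fun a b _ hab => ⟨b, by simp, hab⟩⟩
  push Not at hfin
  obtain ⟨D, hD⟩ := hN.hyp
  have hG : HypGrp (qlen N) D := ⟨isLen_qlen N, hD, up_qlen N hN.inv, fin_qlen N hN.inv⟩
  have hv : ∀ n : ℕ, 0 < n → (QuotientGroup.mk v : FreeGroup ℕ ⧸ N) ^ n ≠ 1 := by
    intro n hn h1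
    apply hfin n hn
    rwa [← QuotientGroup.mk_pow, QuotientGroup.eq_one_iff] at h1
  obtain ⟨w, hvw, hwinf, hme, hnorev⟩ := hG.maximal hN.cent hN.noinv hv
  obtain ⟨e, hQL, hUnb⟩ := hG.lox hwinf
  have hAx := axHyp_orbit N hN.inv hG hQL hUnb hme hnorev
  set W : Set (FreeGroup ℕ ⧸ N) := Set.range fun σ => permQ N hN.inv σ w with hW
  have hwW : w ∈ W := ⟨1, permQ_one N hN.inv w⟩
  obtain ⟨e₀, he₀⟩ := hG.unif_ql
  obtain ⟨c, θ, hsys⟩ := hAx.system
  obtain ⟨N₀, hN₀⟩ := hsys (500 * θ + 32 * D + 16 * e₀ + 4 * (ρ + qlen N (w ^ 1) + 2 * D + 1) + 2)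
  obtain ⟨p, hpN₀, hp⟩ := Nat.exists_infinite_primes (max N₀ 3)
  have hpodd : Odd p := hp.odd_of_ne_two (by
    have := le_max_right N₀ 3
    omega)
  obtain ⟨h, τ, hhK, H⟩ := hN₀ p (le_trans (le_max_left _ _) hpN₀)
  have hcθ := H.c_le_θ
  have hMn : (Nall (axR W p)).Normal := H.toRotSys.Nall_normal
  set M := Nall (axR W p) with hM
  let N' : Subgroup (FreeGroup ℕ) := M.comap (QuotientGroup.mk' N)
  have hN'n : N'.Normal := Subgroup.Normal.comap hMn _
  have hmem : ∀ x : FreeGroup ℕ, x ∈ N' ↔ (QuotientGroup.mk x : FreeGroup ℕ ⧸ N) ∈ M :=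
    fun x => Iff.rfl
  have hNN' : N ≤ N' := by
    intro x hx
    rw [hmem, (QuotientGroup.eq_one_iff x).2 hx]
    exact one_mem _
  have hq : IsQuot (piQ N N' hNN') (qlen N) (qlen N') := isQuot_piQ N N' hNN'
  have hk : ∀ x, piQ N N' hNN' x = 1 ↔ x ∈ M := by
    intro x
    obtain ⟨V, rfl⟩ := QuotientGroup.mk_surjective x
    rw [piQ_mk, QuotientGroup.eq_one_iff, hmem]
  refine ⟨N', hN'n, hNN', ⟨?_, ?_, ?_, ?_⟩, ?_, ?_, ?_⟩
  · intro σ V hV
    rw [hmem] at hV ⊢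
    rw [← permQ_mk N hN.inv]
    exact nall_inv N hN.inv p σ hV
  · exact H.toRotSys.hyp_quot (by omega) hq hk
  · exact quot_noinv hG.len hG.hyp hN.noinv he₀ H (by omega) (by omega) hq hk hpodd
  · exact quot_cent hAx hN.cent he₀ H (by omega) (by omega) (by omega) hq hk hp
  · refine ⟨p, hp.pos, ?_⟩
    rw [hmem, QuotientGroup.mk_pow]
    let A : Ax W := ⟨cj 1 (Subgroup.zpowers w), ⟨1, w, hwW, rfl⟩⟩
    refine Subgroup.subset_closure ⟨A, (mem_axR W p A).2 ⟨_, ?_, rfl⟩⟩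
    show _ ∈ cj 1 (Subgroup.zpowers w)
    rw [cj_one]
    exact hvw
  · intro V hV hVN
    rw [hmem] at hVN
    by_contra hVn
    have h1 : (QuotientGroup.mk V : FreeGroup ℕ ⧸ N) ≠ 1 := by
      rwa [Ne, QuotientGroup.eq_one_iff]
    have h2 := H.toRotSys.inj_radius hVN h1
    have h3 : qlen N (QuotientGroup.mk V) ≤ V.norm := (isQuot_mk N).le V
    omega
  · intro a b ha hab
    have h3 : qlen N (QuotientGroup.mk a) ≤ a.norm := (isQuot_mk N).le a
    have hx' : piQ N N' hNN' (QuotientGroup.mk a) * (QuotientGroup.mk b : FreeGroup ℕ ⧸ N') =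
        (QuotientGroup.mk b : FreeGroup ℕ ⧸ N') * piQ N N' hNN' (QuotientGroup.mk a) := by
      rw [piQ_mk]
      have h4 := (QuotientGroup.eq_one_iff (N := N') _).2 hab
      simp only [QuotientGroup.mk_mul, QuotientGroup.mk_inv] at h4
      have h5 := mul_inv_eq_one.1 h4
      exact mul_inv_eq_iff_eq_mul.1 h5
    obtain ⟨b0, hb0, hcomm⟩ := H.centralizer_quot (ρ := ρ) (by omega) hq hk (h3.trans ha) hx'
    obtain ⟨b', rfl⟩ := QuotientGroup.mk_surjective b0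
    refine ⟨b', ?_, ?_⟩
    · rw [piQ_mk] at hb0
      exact QuotientGroup.eq.1 hb0
    · rw [← QuotientGroup.eq_one_iff]
      simp only [QuotientGroup.mk_mul, QuotientGroup.mk_inv]
      rw [mul_inv_eq_one, mul_inv_eq_iff_eq_mul]
      exact hcomm

/-- The trivial subgroup is in the class: `F ⧸ ⊥` is isomorphic to `F`, `qlen ⊥ (mk W) = norm W`,
`hyp_norm`; `F` is torsion free. -/
theorem cls_bot : Cls (⊥ : Subgroup (FreeGroup ℕ)) := by
  have hq : ∀ W : FreeGroup ℕ,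
      qlen (⊥ : Subgroup (FreeGroup ℕ)) (QuotientGroup.mk W) = W.norm := by
    intro W
    have h1 := isQuot_mk (⊥ : Subgroup (FreeGroup ℕ))
    obtain ⟨y, hy1, hy2⟩ := h1.att (QuotientGroup.mk W)
    have h2 : (QuotientGroup.mk y : FreeGroup ℕ ⧸ (⊥ : Subgroup (FreeGroup ℕ))) =
      QuotientGroup.mk W := hy1
    rw [QuotientGroup.eq, Subgroup.mem_bot, inv_mul_eq_one] at h2
    rw [← hy2, h2]
  have hone : ∀ W : FreeGroup ℕ,
      (QuotientGroup.mk W : FreeGroup ℕ ⧸ (⊥ : Subgroup (FreeGroup ℕ))) = 1 ↔ W = 1 := by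
    intro W
    rw [QuotientGroup.eq_one_iff, Subgroup.mem_bot]
  refine ⟨?_, ⟨0, ?_⟩, ?_, ?_⟩
  · intro σ W hW
    rw [Subgroup.mem_bot] at hW ⊢
    rw [hW, map_one]
  · intro x y z t
    obtain ⟨x, rfl⟩ := QuotientGroup.mk_surjective x
    obtain ⟨y, rfl⟩ := QuotientGroup.mk_surjective y
    obtain ⟨z, rfl⟩ := QuotientGroup.mk_surjective z
    obtain ⟨t, rfl⟩ := QuotientGroup.mk_surjective t
    have := hyp_norm x y z t
    unfold ds at this ⊢
    simpa only [← QuotientGroup.mk_inv, ← QuotientGroup.mk_mul, hq] using this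
  · intro g hg
    obtain ⟨x, rfl⟩ := QuotientGroup.mk_surjective g
    rw [← QuotientGroup.mk_mul, hone] at hg
    rw [hone]
    rw [← pow_two] at hg
    exact (pow_eq_one_iff_left (by norm_num)).1 hg
  · intro g hg hg1
    exfalso
    obtain ⟨x, rfl⟩ := QuotientGroup.mk_surjective g
    obtain ⟨n, hn, hxn⟩ := isOfFinOrder_iff_pow_eq_one.1 hg
    rw [← QuotientGroup.mk_pow, hone] at hxn
    apply hg1
    rw [hone]
    exact (pow_eq_one_iff_left (by omega)).1 hxn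

end Mon
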