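import Pool.Agent.Mon.Quot
import Pool.Agent.Mon.PathU

/-!
# Project Mon, module ThmD: elements of finite order of the quotient (Theorem D)

Let `N = Nall R`; `u : G` such that `ℓ u ≤ ds y (n u y)` for all `y : G`, `n ∈ N`; the sequences
`n ↦ ds y (uⁿ y)` satisfy `QL · e₀` for all `y` with `ds y (u y) = ℓ u`; `u^m ∈ N`, `u^m ≠ 1`, `m ≥ 1`, and
`h + 40 θ + 16 e₀ + 2 < τ`.  CLAIM: `u ∈ Cy B` for some `B`.
Proof.  Let `L = ℓ u`, `c` the path of `exists_axis_path` (call it `γ`), `e' = 4 e₀`, `ε = e' + c`,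
`ε₃ = 2 ε + e' + 2 c`.
(0) `near_btw`: if `dS B x ≤ ε`, `dS B z ≤ ε`, `ds x y + ds y z ≤ ds x z + e'` then `dS B y ≤ ε₃`.
  Case `P B x y > c`, `P B y z > c`: `near_of_pass`.  Case `P B x y ≤ c < P B y z`: `pass` for `y, z`,
  `upper` for `x, z`, `P B x z ≤ P B x y + P B y z`: `ds x y + dS y ≤ dS x + e' + 2 c`.  Similarly the
  mirror case.  Case both `≤ c`: `ds x z ≤ 2 ε + 2 c`, so `ds x y + ds y z ≤ 2 ε + 2 c + e'`, and
  `dS y ≤ ε + min (ds x y) (ds y z) ≤ ε + ε + c + e'`.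
(1) By `greendlinger'` (`g = u^m`, base point `1`) there is `B` with `τ ≤ P B 1 (u^m) + 13 θ`.
(2) Let `s t = P B 1 (γ t)`: `s 0 ≤ c`, `s (t + 1) ≤ s t + 1 + c` (`P_le`).  Let `t₁` be the least `t` with
  `s t > c` (`t₁ ≤ m L`); `y = γ t₁`, `P B 1 y ≤ 2 c + 1`, so
  `P B y (u^m) ≥ τ - 13 θ - 2 c - 1`.  By `near_of_pass` (`1, y, u^m`) `2 dS B y ≤ e' + 2 c`, so
  `dS B y ≤ ε`.
(3) `(y, u y)` is a minimal pair: `ds y (u y) = L ≤ ds y (n u y)`.  So `P B y (u y) ≤ h` (`P_le_h`).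
(4) `t₁ + L ≤ m L`: otherwise `u^m = γ (m L)` is between `y` and `u y` (`ds y u^m ≤ m L - t₁`,
  `ds u^m (u y) ≤ t₁ + L - m L`, `ds y (u y) = L`), so `P B y (u^m) ≤ P B y (u y) + 2 c ≤ h + 2 c`
  (`P_add_le`), a contradiction.
(5) `P B (u y) (u^m) ≥ P B y (u^m) - h > c`.  Let `t₂` be the largest `t` with `t₁ + L ≤ t ≤ m L` and
  `P B (γ t) (u^m) > c`; `t₂ < m L` (`P_self`); `y₂ = γ t₂`, `P B y₂ (u^m) ≤ 2 c + 1`, so
  `P B 1 y₂ ≥ τ - 13 θ - 2 c - 1 > c`, and `2 dS B y₂ ≤ e' + 2 c`, `dS B y₂ ≤ ε`.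
(6) `y₃ = γ (t₂ - L)`, `u y₃ = y₂`, `t₁ ≤ t₂ - L ≤ t₂`; by (0) for `y, y₃, y₂`: `dS B y₃ ≤ ε₃`; by (0) for
  `y, u y, y₂` (`t₁ ≤ t₁ + L ≤ t₂`): `dS B (u y) ≤ ε₃`.
(7) `P B (u y) y₂ ≥ P B (u y) (u^m) - P B y₂ (u^m) ≥ (τ - 13 θ - 2 c - 1 - h) - (2 c + 1)`.
  `dS (u • B) (u y) = dS B y ≤ ε`, `dS (u • B) y₂ = dS B y₃ ≤ ε₃` (`dS_smul`).  By `overlap`
  (for `A = B` and the set `u • B`, `r = ε`, `r' = ε₃`) `B = u • B`: the condition is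
  `ε + ε₃ + 2 c + θ < P B (u y) y₂`, and `ε + ε₃ = 16 e₀ + 5 c`.
(8) So `u ∈ Cy B` (`stab`).
-/

namespace Mon

variable {G ι : Type*} [Group G] [MulAction G ι] {ℓ : G → ℕ} {D : ℕ} {S : ι → Set G}
  {dS : ι → G → ℕ} {P : ι → G → G → ℕ} {R Cy : ι → Subgroup G} {c θ h τ : ℕ}

theorem RotSys.near_btw (H : RotSys ℓ D S dS P R c θ h τ) {B : ι} {x y z : G} {ε e' : ℕ}
    (hx : dS B x ≤ ε) (hz : dS B z ≤ ε) (hb : ds ℓ x y + ds ℓ y z ≤ ds ℓ x z + e') :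
    dS B y ≤ 2 * ε + e' + 2 * c := by
  have hup := H.upper B x z
  have htri := H.P_tri B x y z
  have hl1 := H.dS_lip B y x
  have hl2 := H.dS_lip B y z
  rw [H.len.ds_comm y x] at hl1
  by_cases h1 : c < P B x y
  · by_cases h2 : c < P B y z
    · have := H.near_of_pass h1 h2 hb
      omega
    · have := H.pass B x y h1
      omega
  · by_cases h2 : c < P B y z
    · have := H.pass B y z h2
      omega
    · omega

/-- THEOREM D. -/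
theorem AxSys.torsion (H : AxSys ℓ D S dS P R Cy c θ h τ) {e₀ : ℕ}
    (hτ : h + 40 * θ + 16 * e₀ + 2 < τ) {u : G} (hmin : ∀ y, ∀ n ∈ Nall R, ℓ u ≤ ds ℓ y (n * u * y))
    (hql : ∀ y, ds ℓ y (u * y) = ℓ u → QL (fun n => ds ℓ y (u ^ n * y)) e₀) {m : ℕ}
    (hm : u ^ m ∈ Nall R) (hm1 : u ^ m ≠ 1) : ∃ B, u ∈ Cy B := by
  have hu : u ≠ 1 := by
    rintro rfl
    exact hm1 (one_pow m)
  have hcθ := H.c_le_θ
  obtain ⟨γ, γ0, γm, γL, γ1, γ2, γu, γadd⟩ := exists_axis_path H.len hu (e₀ := e₀)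
    (fun y => by simpa using hmin y 1 (one_mem _)) hql
  obtain ⟨B, r, hr, hr1, hP, hτP⟩ := H.toRotSys.greendlinger' hm hm1 1
  rw [mul_one] at hτP
  have hfin : γ (m * ℓ u) = u ^ m := γm m
  -- the first point
  have hex : ∃ t, c < P B 1 (γ t) := ⟨m * ℓ u, by rw [hfin]; omega⟩
  classical
  obtain ⟨t₁, ht₁, hlt⟩ : ∃ t₁, c < P B 1 (γ t₁) ∧ ∀ t < t₁, ¬ c < P B 1 (γ t) :=
    ⟨Nat.find hex, Nat.find_spec hex, fun t ht => Nat.find_min hex ht⟩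
  have ht₁m : t₁ ≤ m * ℓ u := by
    by_contra hh
    exact hlt (m * ℓ u) (by omega) (by rw [hfin]; omega)
  have ht₁0 : t₁ ≠ 0 := by
    rintro rfl
    rw [γ0] at ht₁
    have := H.P_self B 1
    omega
  have hPy : P B 1 (γ t₁) ≤ 2 * c + 1 := by
    have h1 := hlt (t₁ - 1) (by omega)
    have h2 := γ1 (t₁ - 1)
    rw [show t₁ - 1 + 1 = t₁ by omega] at h2
    have h3 := H.P_le B (γ (t₁ - 1)) (γ t₁)
    have h4 := H.P_tri B 1 (γ (t₁ - 1)) (γ t₁)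
    omega
  have hPyu : τ ≤ P B (γ t₁) (u ^ m) + 13 * θ + 2 * c + 1 := by
    have h4 := H.P_tri B 1 (γ t₁) (u ^ m)
    omega
  have hdy : 2 * dS B (γ t₁) ≤ 4 * e₀ + 2 * c := by
    refine H.near_of_pass ht₁ (z := u ^ m) (by omega) ?_
    have := γadd 0 t₁ (m * ℓ u) (by omega) ht₁m
    rwa [γ0, hfin] at this
  -- the minimal pair
  have hmp : P B (γ t₁) (u * γ t₁) ≤ h := by
    refine H.P_le_h ?_ B
    intro n hn
    rw [γu, ← mul_assoc]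
    exact hmin _ n hn
  have ht₁L : t₁ + ℓ u ≤ m * ℓ u := by
    by_contra hh
    have h1 := γ2 t₁ (m * ℓ u) ht₁m
    have h2 := γ2 (m * ℓ u) (t₁ + ℓ u) (by omega)
    have h3 := γu t₁
    rw [γL] at h2
    rw [hfin] at h1 h2
    have h4 := H.len.ds_tri (γ t₁) (u ^ m) (u * γ t₁)
    have hb : Btw ℓ (γ t₁) (u ^ m) (u * γ t₁) := by
      unfold Btw
      omega
    have h5 := (H.P_add_le (A := B) hb).1
    omega
  have hPuy : τ ≤ P B (u * γ t₁) (u ^ m) + h + 13 * θ + 2 * c + 1 := by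
    have h4 := H.P_tri B (γ t₁) (u * γ t₁) (u ^ m)
    omega
  -- the last point
  obtain ⟨t₂, ht₂1, ht₂2, ht₂3, ht₂4⟩ : ∃ t₂, t₁ + ℓ u ≤ t₂ ∧ t₂ < m * ℓ u ∧
      c < P B (γ t₂) (u ^ m) ∧ ¬ c < P B (γ (t₂ + 1)) (u ^ m) := by
    by_contra hh
    push Not at hh
    have hall : ∀ k, t₁ + ℓ u + k ≤ m * ℓ u → c < P B (γ (t₁ + ℓ u + k)) (u ^ m) := by
      intro k
      induction k with
      | zero =>
        intro _
        rw [add_zero, γL]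
        omega
      | succ k ih =>
        intro hk
        exact hh (t₁ + ℓ u + k) (by omega) (by omega) (ih (by omega))
    have h1 := hall (m * ℓ u - (t₁ + ℓ u)) (by omega)
    rw [show t₁ + ℓ u + (m * ℓ u - (t₁ + ℓ u)) = m * ℓ u by omega, hfin] at h1
    have := H.P_self B (u ^ m)
    omega
  have hPy₂ : P B (γ t₂) (u ^ m) ≤ 2 * c + 1 := by
    have h2 := γ1 t₂
    have h3 := H.P_le B (γ t₂) (γ (t₂ + 1))
    have h4 := H.P_tri B (γ t₂) (γ (t₂ + 1)) (u ^ m)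
    omega
  have hP1y₂ : c < P B 1 (γ t₂) := by
    have h4 := H.P_tri B 1 (γ t₂) (u ^ m)
    omega
  have hdy₂ : 2 * dS B (γ t₂) ≤ 4 * e₀ + 2 * c := by
    refine H.near_of_pass hP1y₂ (z := u ^ m) (by omega) ?_
    have := γadd 0 t₂ (m * ℓ u) (by omega) (by omega)
    rwa [γ0, hfin] at this
  have hdy₃ : dS B (γ (t₂ - ℓ u)) ≤ 2 * (2 * e₀ + c) + 4 * e₀ + 2 * c := by
    refine H.toRotSys.near_btw (x := γ t₁) (z := γ t₂) (by omega) (by omega) ?_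
    exact γadd t₁ (t₂ - ℓ u) t₂ (by omega) (by omega)
  have huy₃ : u * γ (t₂ - ℓ u) = γ t₂ := by
    rw [← γL, show t₂ - ℓ u + ℓ u = t₂ by omega]
  have hPuy₂ : τ ≤ P B (u * γ t₁) (γ t₂) + h + 13 * θ + 4 * c + 2 := by
    have h4 := H.P_tri B (u * γ t₁) (γ t₂) (u ^ m)
    omega
  have hBB : B = u • B := by
    refine H.overlap (x := u * γ t₁) (y := γ t₂) (r := 2 * e₀ + c)
      (r' := 2 * (2 * e₀ + c) + 4 * e₀ + 2 * c) ?_ ?_ (by omega)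
    · rw [H.dS_smul]; omega
    · rw [← huy₃, H.dS_smul]; exact hdy₃
  exact ⟨B, (H.stab B u).1 hBB.symm⟩

end Mon
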