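import Pool.Agent.Mon.Basic

/-!
# Project Mon, module Tors: elements of finite order are conjugate to short elements

Proof.  Let `t^n = 1`, `n ≥ 1`, `F = {t^i | i < n}` (a finite set, `t F = F`).  For `x : G` let `r x` be the
maximum of `ds x f`, `f ∈ F`; choose `x` with `r x` minimal, `ρ = r x`.  `r (t x) = r x` (`ds (t x) (t f)
= ds x f`).  Let `s = ds x (t x)`, `m` between `x` and `t x` with `ds x m = s / 2`.  For `f ∈ F`, by
`Hyp.P`: `ds m f + ds m x ≤ ds f x + D ≤ ρ + D` or `ds m f + ds m (t x) ≤ ds f (t x) + D ≤ ρ + D`; so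
`ds m f + s / 2 ≤ ρ + D`.  For the `f` with `ds m f = r m ≥ ρ` we get `s / 2 ≤ D`, `s ≤ 2 D + 1`.
-/

namespace Mon

variable {G : Type*} [Group G] {ℓ : G → ℕ} {D : ℕ}

theorem short_torsion (hl : IsLen ℓ) (hD : Hyp ℓ D) {t : G} {n : ℕ} (hn : 0 < n)
    (ht : t ^ n = 1) : ∃ x, ℓ (x⁻¹ * t * x) ≤ 2 * D + 1 := by
  classical
  -- the orbit
  let F : Finset G := (Finset.range n).image (fun i => t ^ i)
  have hF1 : ∀ i : ℕ, t ^ i ∈ F := by
    intro i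
    refine Finset.mem_image.2 ⟨i % n, Finset.mem_range.2 (Nat.mod_lt _ hn), ?_⟩
    conv_rhs => rw [← Nat.div_add_mod i n, pow_add, pow_mul, ht, one_pow, one_mul]
  have hFt : ∀ f ∈ F, ∃ g ∈ F, f = t * g := by
    intro f hf
    obtain ⟨i, hi, rfl⟩ := Finset.mem_image.1 hf
    refine ⟨t ^ (i + (n - 1)), hF1 _, ?_⟩
    show t ^ i = t * t ^ (i + (n - 1))
    rw [← pow_succ', show i + (n - 1) + 1 = n + i by omega, pow_add, ht, one_mul]
  have hne : F.Nonempty := ⟨t ^ 0, hF1 0⟩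
  let r : G → ℕ := fun x => F.sup' hne (fun f => ds ℓ x f)
  have hr : ∀ x, ∀ f ∈ F, ds ℓ x f ≤ r x := fun x f hf => Finset.le_sup' (fun f => ds ℓ x f) hf
  have hr' : ∀ x, ∃ f ∈ F, r x = ds ℓ x f := fun x =>
    Finset.exists_mem_eq_sup' hne (fun f => ds ℓ x f)
  have hex : ∃ k : ℕ, ∃ x, r x = k := ⟨_, 1, rfl⟩
  obtain ⟨x, hx⟩ := Nat.find_spec hex
  have hmin : ∀ y, r x ≤ r y := by
    intro y
    rw [hx]
    exact Nat.find_min' hex ⟨y, rfl⟩
  refine ⟨x, ?_⟩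
  have hs : ds ℓ x (t * x) = ℓ (x⁻¹ * t * x) := by
    unfold ds
    rw [mul_assoc]
  rw [← hs]
  obtain ⟨m, hm, hmd⟩ := hl.exists_btw x (t * x) (k := ds ℓ x (t * x) / 2) (Nat.div_le_self _ _)
  obtain ⟨f, hf, hrf⟩ := hr' m
  have h1 := hmin m
  have h2 := hr x f hf
  have h3 : ds ℓ f (t * x) ≤ r x := by
    obtain ⟨g, hg, rfl⟩ := hFt f hf
    rw [ds_smul, hl.ds_comm]
    exact hr x g hg
  have h4 := hD.P hl hm f
  rw [hl.ds_comm m x, hl.ds_comm f x] at h4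
  unfold Btw at hm
  omega

end Mon
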