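import Pool.Agent.Mon.ThmC
import Pool.Agent.Mon.ThmD
import Pool.Agent.Mon.MinLen
import Pool.Agent.Mon.Tors
import Pool.Agent.Mon.Ax3

/-!
# Project Mon, module StepA: elements of finite order of the quotient by the `p`-th powers

`G` hyperbolic, `W` satisfies `AxHyp`, `H` is the axis system with `R = axR W p`, `p` an odd prime;
`π : G → G'` is the quotient map with kernel `Nall (axR W p)`.

`tors_quot`: let `x' ∈ G'` have finite order.  There are `z'`, `t` with `z' x' z'⁻¹ = π t` and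
(`t` has finite order and `ℓ t ≤ 2 D + 1`) or `t ∈ ⟨w⟩` for some `w ∈ W`.
Proof.  Among the `u ∈ G` such that `π u` is a conjugate of `x'` choose one with `ℓ u` minimal.  If `u` has
finite order use `short_torsion` (the conjugate `x⁻¹ u x`).  Otherwise `u` has infinite order.  For `y : G`,
`n ∈ Nall`: `ds y (n u y) = ℓ (y⁻¹ n u y)` and `π (y⁻¹ n u y)` is conjugate to `x'`, so it is `≥ ℓ u`.  If
`ds y (u y) = ℓ u` then `u' = y⁻¹ u y` has infinite order and minimal length in its conjugacy class, so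
`QL (n ↦ ℓ (u'ⁿ)) e₀` and `ℓ (u'ⁿ) = ds y (uⁿ y)`.  Some `u^m`, `m ≥ 1`, is in the kernel, `u^m ≠ 1`.  By
`AxSys.torsion` `u ∈ axC W B = B.1 = cj g ⟨w⟩`, so `t = g⁻¹ u g ∈ ⟨w⟩`, `π t` is conjugate to `x'`.

`quot_noinv`: let `x' x' = 1`.  By `tors_quot` we may assume `x' = π t` (conjugate).  If `t` has finite order
and `ℓ t ≤ 2 D + 1` then `t²` is in the kernel and `ℓ (t²) ≤ 4 D + 2`, so `t² = 1` by
`inj_radius` (`4 D + 2 + c + 13 θ < τ`), so `t = 1` by `hi`.  If `t = w^k` then `x'^p = π (w^(pk)) = 1`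
(`w^p` is in the kernel: `w^p ∈ axR W p A` for `A = ⟨w⟩`), and `x'^2 = 1`, `p` odd, so `x' = 1`.

`quot_cent`: let `x' ≠ 1` have finite order; the finiteness of the centraliser is invariant under conjugation,
so let `x' = π t`.  If `ℓ t ≤ 2 D + 1`, `t` of finite order, then `t ≠ 1` and the centraliser of `π t` is
contained in the image of the centraliser of `t` (`centralizer_quot`), which is finite (`hc`).  If
`t = w^k`: let `y' = π w`, `y'^p = 1`, `x' = y'^k ≠ 1`, so `p ∤ k` and `y'` is a power of `x'`; so every element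
which commutes with `x'` commutes with `y'`, and (`centralizer_quot`, `ℓ w = f 1 ≤ ρ`) it is in the image of the
centraliser of `w`, which is `⟨w⟩` (`AxHyp.me` with `s = 1`); the image is `⟨y'⟩`, a finite group.
-/

namespace Mon

variable {G G' : Type*} [Group G] [Group G'] {ℓ : G → ℕ} {ℓ' : G' → ℕ} {π : G →* G'} {D : ℕ}
  {W : Set G} {f : ℕ → ℕ} {e c θ h τ p e₀ : ℕ}

private theorem pow_p_mem {w : G} (hw : w ∈ W) : w ^ p ∈ Nall (axR W p) := by
  refine Subgroup.subset_closure ⟨(⟨Subgroup.zpowers w, 1, w, hw, (cj_one _).symm⟩ : Ax W), ?_⟩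
  exact Subgroup.subset_closure ⟨w, Subgroup.mem_zpowers w, rfl⟩

private theorem exists_min_conj {x' : G'} (hq : IsQuot π ℓ ℓ') : ∃ (u : G) (z' : G'),
    z' * x' * z'⁻¹ = π u ∧ ∀ (u₁ : G) (z₁ : G'), z₁ * x' * z₁⁻¹ = π u₁ → ℓ u ≤ ℓ u₁ := by
  classical
  have hne : ∃ n, ∃ (u : G) (z' : G'), z' * x' * z'⁻¹ = π u ∧ ℓ u = n := by
    obtain ⟨y, hy, -⟩ := hq.att x'
    exact ⟨ℓ y, y, 1, by rw [hy]; group, rfl⟩
  obtain ⟨u, z', h1, h2⟩ := Nat.find_spec hne
  refine ⟨u, z', h1, fun u₁ z₁ h3 => ?_⟩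
  rw [h2]
  exact Nat.find_min' hne ⟨u₁, z₁, h3, rfl⟩

theorem tors_quot (hl : IsLen ℓ) (hD : Hyp ℓ D)
    (he₀ : ∀ u : G, (∀ n : ℕ, 0 < n → u ^ n ≠ 1) → (∀ g, ℓ u ≤ ℓ (g * u * g⁻¹)) →
      QL (fun n => ℓ (u ^ n)) e₀)
    (H : AxSys ℓ D (axS W) (fun A => dA ℓ (axS W A)) (fun A => dP ℓ (axS W A)) (axR W p) (axC W)
      c θ h τ) (hτ : h + 40 * θ + 16 * e₀ + 2 < τ)
    (hq : IsQuot π ℓ ℓ') (hk : ∀ x, π x = 1 ↔ x ∈ Nall (axR W p)) {x' : G'}
    (hx' : IsOfFinOrder x') : ∃ (z' : G') (t : G), z' * x' * z'⁻¹ = π t ∧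
      ((IsOfFinOrder t ∧ ℓ t ≤ 2 * D + 1) ∨ ∃ w ∈ W, t ∈ Subgroup.zpowers w) := by
  obtain ⟨u, z', h1, hmin⟩ := exists_min_conj (x' := x') hq
  by_cases hu : ∃ n : ℕ, 0 < n ∧ u ^ n = 1
  · obtain ⟨n, hn, hun⟩ := hu
    obtain ⟨x, hx⟩ := short_torsion hl hD hn hun
    refine ⟨(π x)⁻¹ * z', x⁻¹ * u * x, ?_, Or.inl ⟨?_, hx⟩⟩
    · rw [map_mul, map_mul, map_inv, ← h1]
      group
    · rw [isOfFinOrder_iff_pow_eq_one]
      refine ⟨n, hn, ?_⟩
      have h2 := conj_pow (i := n) (a := x⁻¹) (b := u)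
      rw [inv_inv] at h2
      rw [h2, hun]
      group
  · push Not at hu
    obtain ⟨m, hm, hxm⟩ := isOfFinOrder_iff_pow_eq_one.1 hx'
    have hum : u ^ m ∈ Nall (axR W p) := by
      rw [← hk, map_pow, ← h1, conj_pow, hxm]
      group
    have hB := H.torsion (e₀ := e₀) hτ (u := u) ?_ ?_ hum (hu m hm)
    · obtain ⟨B, hB⟩ := hB
      obtain ⟨g, w, hw, hgw⟩ := B.2
      have hB' : u ∈ B.1 := hB
      rw [hgw, mem_cj] at hB'
      refine ⟨(π g)⁻¹ * z', g⁻¹ * u * g, ?_, Or.inr ⟨w, hw, hB'⟩⟩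
      rw [map_mul, map_mul, map_inv, ← h1]
      group
    · intro y n hn
      refine hmin (y⁻¹ * (n * u * y)) ((π y)⁻¹ * z') ?_
      have h2 : π n = 1 := (hk n).2 hn
      rw [map_mul, map_mul, map_mul, map_inv, h2, ← h1]
      group
    · intro y hy
      have h3 : ∀ n : ℕ, (y⁻¹ * u * y) ^ n = y⁻¹ * u ^ n * y := by
        intro n
        have h2 := conj_pow (i := n) (a := y⁻¹) (b := u)
        rw [inv_inv] at h2
        exact h2
      have h2 := he₀ (y⁻¹ * u * y) ?_ ?_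
      · have h4 : (fun n => ds ℓ y (u ^ n * y)) = fun n => ℓ ((y⁻¹ * u * y) ^ n) := by
          funext n
          rw [h3, ds]
          congr 1
          group
        rw [h4]
        exact h2
      · intro n hn h4
        rw [h3] at h4
        apply hu n hn
        have h5 : u ^ n = y * (y⁻¹ * u ^ n * y) * y⁻¹ := by group
        rw [h5, h4]
        group
      · intro g
        have h4 : ℓ (y⁻¹ * u * y) = ℓ u := by
          rw [← hy, ds]
          congr 1
          group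
        rw [h4]
        refine hmin _ (π g * (π y)⁻¹ * z') ?_
        simp only [map_mul, map_inv]
        rw [← h1]
        group

theorem quot_noinv (hl : IsLen ℓ) (hD : Hyp ℓ D)
    (hi : ∀ g : G, g * g = 1 → g = 1)
    (he₀ : ∀ u : G, (∀ n : ℕ, 0 < n → u ^ n ≠ 1) → (∀ g, ℓ u ≤ ℓ (g * u * g⁻¹)) →
      QL (fun n => ℓ (u ^ n)) e₀)
    (H : AxSys ℓ D (axS W) (fun A => dA ℓ (axS W A)) (fun A => dP ℓ (axS W A)) (axR W p) (axC W)
      c θ h τ) (hτ : h + 40 * θ + 16 * e₀ + 2 < τ) (hτ' : h + 4 * (2 * D + 1) + 40 * θ < τ)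
    (hq : IsQuot π ℓ ℓ') (hk : ∀ x, π x = 1 ↔ x ∈ Nall (axR W p)) (hp : Odd p) :
    ∀ x' : G', x' * x' = 1 → x' = 1 := by
  intro x' hx'
  have hfin : IsOfFinOrder x' := by
    rw [isOfFinOrder_iff_pow_eq_one]
    exact ⟨2, two_pos, by rw [sq, hx']⟩
  obtain ⟨z', t, h1, h2⟩ := tors_quot hl hD he₀ H hτ hq hk hfin
  have h3 : π t * π t = 1 := by
    rw [← h1]
    have : z' * x' * z'⁻¹ * (z' * x' * z'⁻¹) = z' * (x' * x') * z'⁻¹ := by group
    rw [this, hx']
    group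
  suffices h4 : π t = 1 by
    rw [h4] at h1
    have : x' = z'⁻¹ * (z' * x' * z'⁻¹) * z' := by group
    rw [this, h1]
    group
  rcases h2 with ⟨-, ht⟩ | ⟨w, hw, k, hk'⟩
  · by_contra hne
    have h5 : t * t ∈ Nall (axR W p) := by
      rw [← hk, map_mul, h3]
    have h6 : t * t ≠ 1 := by
      intro h7
      apply hne
      rw [hi t h7, map_one]
    have h7 := H.toRotSys.inj_radius h5 h6
    have h8 := hl.mul t t
    have h9 := H.c_le_θ
    omega
  · have h5 : (π t) ^ p = 1 := by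
      have h6 : π w ^ p = 1 := by
        rw [← map_pow, hk]
        exact pow_p_mem hw
      have h7 : t = w ^ k := hk'.symm
      rw [h7, map_zpow, ← zpow_natCast, zpow_comm, zpow_natCast, h6, one_zpow]
    obtain ⟨m, rfl⟩ := hp
    rw [pow_succ, pow_mul, sq, h3, one_pow, one_mul] at h5
    exact h5

theorem quot_cent (HW : AxHyp ℓ D W f e)
    (hc : ∀ g : G, IsOfFinOrder g → g ≠ 1 → {x : G | x * g = g * x}.Finite)
    (he₀ : ∀ u : G, (∀ n : ℕ, 0 < n → u ^ n ≠ 1) → (∀ g, ℓ u ≤ ℓ (g * u * g⁻¹)) →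
      QL (fun n => ℓ (u ^ n)) e₀)
    (H : AxSys ℓ D (axS W) (fun A => dA ℓ (axS W A)) (fun A => dP ℓ (axS W A)) (axR W p) (axC W)
      c θ h τ) (hτ : h + 40 * θ + 16 * e₀ + 2 < τ) (hτ' : h + 4 * (2 * D + 1) + 40 * θ < τ)
    (hτ'' : h + 4 * f 1 + 40 * θ < τ)
    (hq : IsQuot π ℓ ℓ') (hk : ∀ x, π x = 1 ↔ x ∈ Nall (axR W p)) (hp : p.Prime) :
    ∀ x' : G', IsOfFinOrder x' → x' ≠ 1 → {y' : G' | y' * x' = x' * y'}.Finite := by
  intro x' hx' hx1
  obtain ⟨z', t, h1, h2⟩ := tors_quot HW.len HW.hyp he₀ H hτ hq hk hx'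
  have ht1 : π t ≠ 1 := by
    intro h3
    rw [h3] at h1
    apply hx1
    have : x' = z'⁻¹ * (z' * x' * z'⁻¹) * z' := by group
    rw [this, h1]
    group
  have main : {y' : G' | y' * π t = π t * y'}.Finite := by
    rcases h2 with ⟨htf, ht⟩ | ⟨w, hw, k, hk'⟩
    · have h3 : t ≠ 1 := by
        rintro rfl
        exact ht1 (map_one π)
      refine ((hc t htf h3).image π).subset ?_
      intro y' hy'
      obtain ⟨b, hb1, hb2⟩ := H.centralizer_quot hτ' hq hk ht
        (x' := y') (Eq.symm hy')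
      exact ⟨b, Eq.symm hb2, hb1⟩
    · have hwp : π w ^ p = 1 := by
        rw [← map_pow, hk]
        exact pow_p_mem hw
      have htw : π t = π w ^ k := by
        rw [← map_zpow, ← hk']
      have hpk : ¬ (p : ℤ) ∣ k := by
        rintro ⟨j, rfl⟩
        apply ht1
        rw [htw, zpow_mul, zpow_natCast, hwp, one_zpow]
      have hcop : IsCoprime (p : ℤ) k :=
        (Prime.coprime_iff_not_dvd (Nat.prime_iff_prime_int.1 hp)).2 hpk
      obtain ⟨a, b, hab⟩ := hcop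
      have hwt : π w = π t ^ b := by
        rw [htw, ← zpow_mul]
        have h4 : π w = π w ^ (a * p + b * k) := by rw [hab, zpow_one]
        conv_lhs => rw [h4]
        rw [zpow_add, mul_comm a, zpow_mul (π w) (p : ℤ) a, zpow_natCast, hwp, one_zpow, one_mul,
          mul_comm b]
      have hfo : IsOfFinOrder (π w) := isOfFinOrder_iff_pow_eq_one.2 ⟨p, hp.pos, hwp⟩
      have hfz : ((Subgroup.zpowers (π w) : Subgroup G') : Set G').Finite := hfo.finite_zpowers
      refine hfz.subset ?_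
      intro y' hy'
      have hcomm : Commute y' (π t) := hy'
      have hcw : Commute y' (π w) := by
        rw [hwt]
        exact hcomm.zpow_right b
      have hlw : ℓ w ≤ f 1 := by
        have := HW.f_eq w hw 1
        rw [pow_one] at this
        omega
      obtain ⟨b', hb1, hb2⟩ := H.centralizer_quot hτ'' hq hk hlw
        (x' := y') (Eq.symm hcw.eq)
      have h5 := HW.me w hw 1 one_pos b' (by rw [pow_one]; exact hb2.symm)
      obtain ⟨j, hj⟩ := h5
      refine ⟨j, ?_⟩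
      rw [← hb1]
      change π w ^ j = _
      rw [← map_zpow]
      congr 1
  have hinj : Set.InjOn (fun y' : G' => z' * y' * z'⁻¹)
      ((fun y' : G' => z' * y' * z'⁻¹) ⁻¹' {y' : G' | y' * π t = π t * y'}) := by
    intro a _ b _ hab
    have hab' : z' * a * z'⁻¹ = z' * b * z'⁻¹ := hab
    exact mul_left_cancel (mul_right_cancel hab')
  refine (main.preimage hinj).subset ?_
  intro y' hy'
  have hy'' : y' * x' = x' * y' := hy'
  change z' * y' * z'⁻¹ * π t = π t * (z' * y' * z'⁻¹)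
  rw [← h1]
  have e1 : z' * y' * z'⁻¹ * (z' * x' * z'⁻¹) = z' * (y' * x') * z'⁻¹ := by group
  have e2 : z' * x' * z'⁻¹ * (z' * y' * z'⁻¹) = z' * (x' * y') * z'⁻¹ := by group
  rw [e1, e2, hy'']

end Mon
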