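import Pool.Agent.Mon.Quot

/-!
# Project Mon, module ThmC: centralisers of short elements (Theorem C)

Let `N = Nall R`, `ℓ a ≤ ρ`, `(1, b)` a minimal pair, `g = a b a⁻¹ b⁻¹ ∈ N`, `h + 4 ρ + 40 θ < τ`.
CLAIM: `g = 1`.
Proof.  Suppose `g ≠ 1`.  By `greendlinger'` with base point `1` there is `B` with
`τ ≤ P B 1 g + 13 θ`.  Path `1, a, a b, g b, g`: `P B 1 a ≤ ρ + c`, `P B a (a b) ≤ h` and
`P B (g b) g ≤ h` (minimal pairs: `MinP.smul`, `MinP.symm`), `ds (a b) (g b) = ℓ ((a b)⁻¹ a b a⁻¹) = ℓ a`, so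
`P B (a b) (g b) ≤ ρ + c`.  So `E ≤ P B a (a b)` and `E ≤ P B (g b) g` where
`E = τ - 13 θ - h - 2 (ρ + c) > θ + c + ρ`.
Let `B₁ = a⁻¹ • B`, `B₂ = g⁻¹ • B`: `P B₁ 1 b = P B a (a b) ≥ E`, `P B₂ 1 b = P B g (g b) ≥ E`,
`dS B₁ b = dS B (a b)`, `dS B₂ b = dS B (g b)`, and these differ by at most `ρ` (`dS_lip`).
Suppose `B₁ ≠ B₂`.  Let `b₁ ∈ S B₁`, `b₂ ∈ S B₂` be nearest points of `b`.  By `beh` at the point `1`:
`P B₁ 1 b₂ ≤ θ` or `P B₂ 1 b₁ ≤ θ`.  In the first case `P B₁ b b₂ ≥ E - θ > c`, so by `pass`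
`dS B₁ b + (E - θ) ≤ ds b b₂ + c = dS B₂ b + c`, so `E ≤ θ + c + ρ`, a contradiction.  The second case is
symmetric.
So `B₁ = B₂`, `y • B = B` for `y = g a⁻¹`, `y ∈ Cy B` (`stab`).  `y (a b) = g b`, so
`P B (a b) (y (a b)) ≤ ρ + c`, and by `trans` `P B a (y a) ≤ ρ + 2 c`, `y a = g`.  So
`P B 1 g ≤ P B 1 a + P B a g ≤ 2 ρ + 3 c < τ - 13 θ`, a contradiction.

`inj_radius`: `τ ≤ ℓ g + c + 13 θ` for `g ∈ N`, `g ≠ 1` (`length_gt` with `x = 1`).
`centralizer_quot`: let `π` be the quotient map, `x'` commutes with `π a`; choose `b` with `π b = x'`,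
`ℓ b = ℓ' x'` (`lift` for `x = 1`); `(1, b)` is a minimal pair (`minP_iff`) and `a b a⁻¹ b⁻¹` is in the kernel.
-/

namespace Mon

variable {G G' ι : Type*} [Group G] [Group G'] [MulAction G ι] {ℓ : G → ℕ} {ℓ' : G' → ℕ}
  {π : G →* G'} {D : ℕ} {S : ι → Set G} {dS : ι → G → ℕ} {P : ι → G → G → ℕ}
  {R Cy : ι → Subgroup G} {c θ h τ : ℕ}

/-- THEOREM C. -/
theorem AxSys.commute_of_minP (H : AxSys ℓ D S dS P R Cy c θ h τ) {ρ : ℕ}
    (hτ : h + 4 * ρ + 40 * θ < τ) {a b : G} (ha : ℓ a ≤ ρ) (hb : MinP ℓ (Nall R) 1 b)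
    (hab : a * b * a⁻¹ * b⁻¹ ∈ Nall R) : a * b = b * a := by
  by_contra hne
  obtain ⟨g, hg⟩ : ∃ g, g = a * b * a⁻¹ * b⁻¹ := ⟨_, rfl⟩
  rw [← hg] at hab
  have hg1 : g ≠ 1 := by
    intro h1
    apply hne
    rw [h1] at hg
    calc a * b = (a * b * a⁻¹ * b⁻¹) * (b * a) := by group
      _ = b * a := by rw [← hg, one_mul]
  have hgb : g * b = a * b * a⁻¹ := by rw [hg]; group
  have hN : (Nall R).Normal := H.toRotSys.Nall_normal
  have hcθ := H.c_le_θ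
  obtain ⟨B, r, hr, hr1, -, hgp⟩ := H.toRotSys.greendlinger' hab hg1 1
  rw [mul_one] at hgp
  have s1 : P B 1 a ≤ ρ + c := by
    have := H.toRotSys.P_le B 1 a
    rw [ds_one] at this
    omega
  have s2 : P B a (a * b) ≤ h := by
    have := H.toRotSys.P_le_h (hb.smul hN a) B
    rwa [mul_one] at this
  have hd : ds ℓ (a * b) (g * b) ≤ ρ := by
    rw [hgb]
    unfold ds
    rw [show (a * b)⁻¹ * (a * b * a⁻¹) = a⁻¹ by group, H.len.inv]
    exact ha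
  have s3 : P B (a * b) (g * b) ≤ ρ + c := by
    have := H.toRotSys.P_le B (a * b) (g * b)
    omega
  have s4 : P B (g * b) g ≤ h := by
    have := H.toRotSys.P_le_h (hb.smul hN g) B
    rw [mul_one, H.P_comm] at this
    exact this
  have t1 := H.P_tri B 1 a g
  have t2 := H.P_tri B a (a * b) g
  have t3 := H.P_tri B (a * b) (g * b) g
  have E1 : τ ≤ P B a (a * b) + 13 * θ + h + 2 * (ρ + c) := by omega
  have E2 : τ ≤ P B (g * b) g + 13 * θ + h + 2 * (ρ + c) := by omega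
  have p1 : P (a⁻¹ • B) 1 b = P B a (a * b) := by
    have := H.P_smul a (a⁻¹ • B) 1 b
    rw [smul_inv_smul, mul_one] at this
    exact this.symm
  have p2 : P (g⁻¹ • B) 1 b = P B (g * b) g := by
    have := H.P_smul g (g⁻¹ • B) 1 b
    rw [smul_inv_smul, mul_one] at this
    rw [← this, H.P_comm]
  have d1 : dS (a⁻¹ • B) b = dS B (a * b) := by
    have := H.toRotSys.dS_smul a (a⁻¹ • B) b
    rw [smul_inv_smul] at this
    exact this.symm
  have d2 : dS (g⁻¹ • B) b = dS B (g * b) := by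
    have := H.toRotSys.dS_smul g (g⁻¹ • B) b
    rw [smul_inv_smul] at this
    exact this.symm
  have l1 := H.toRotSys.dS_lip B (a * b) (g * b)
  have l2 := H.toRotSys.dS_lip B (g * b) (a * b)
  rw [H.len.ds_comm (g * b) (a * b)] at l2
  by_cases hBB : a⁻¹ • B = g⁻¹ • B
  · have hy : (g * a⁻¹) • B = B := by
      rw [mul_smul, hBB, smul_inv_smul]
    have hyC := (H.stab B (g * a⁻¹)).1 hy
    have e1 := H.trans B (g * a⁻¹) hyC (a * b) a
    rw [show g * a⁻¹ * a = g by group, show g * a⁻¹ * (a * b) = g * b by group] at e1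
    omega
  · obtain ⟨b₁, hb₁, hb₁d⟩ := H.dS_att (a⁻¹ • B) b
    obtain ⟨b₂, hb₂, hb₂d⟩ := H.dS_att (g⁻¹ • B) b
    rcases H.beh _ _ hBB b₁ hb₁ b₂ hb₂ 1 with hh | hh
    · have e1 := H.P_tri (a⁻¹ • B) 1 b₂ b
      rw [H.P_comm (a⁻¹ • B) b₂ b] at e1
      have e2 := H.pass (a⁻¹ • B) b b₂ (by omega)
      omega
    · have e1 := H.P_tri (g⁻¹ • B) 1 b₁ b
      rw [H.P_comm (g⁻¹ • B) b₁ b] at e1
      have e2 := H.pass (g⁻¹ • B) b b₁ (by omega)
      omega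

theorem RotSys.inj_radius (H : RotSys ℓ D S dS P R c θ h τ) {g : G} (hg : g ∈ Nall R)
    (h1 : g ≠ 1) : τ ≤ ℓ g + c + 13 * θ := by
  have := H.length_gt hg h1 1
  rwa [mul_one, ds_one] at this

/-- The centraliser of the image of a short element is the image of its centraliser. -/
theorem AxSys.centralizer_quot (H : AxSys ℓ D S dS P R Cy c θ h τ) {ρ : ℕ}
    (hτ : h + 4 * ρ + 40 * θ < τ) (hq : IsQuot π ℓ ℓ') (hk : ∀ x, π x = 1 ↔ x ∈ Nall R) {a : G}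
    (ha : ℓ a ≤ ρ) {x' : G'} (hx' : π a * x' = x' * π a) : ∃ b, π b = x' ∧ a * b = b * a := by
  obtain ⟨b, hb, hbd⟩ := hq.lift 1 x'
  refine ⟨b, hb, ?_⟩
  have hm : MinP ℓ (Nall R) 1 b := (hq.minP_iff hk _ _).2 (by rw [hb]; exact hbd)
  refine H.commute_of_minP hτ ha hm ?_
  rw [← hk, map_mul, map_mul, map_mul, map_inv, map_inv, hb, hx', mul_inv_cancel_right,
    mul_inv_cancel]

end Mon
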